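import Mathlib.Algebra.Group.End
import Mathlib.GroupTheory.FreeGroup.Basic
import Mathlib.Tactic.Group

/-! Faithfulness of the Artin representation of braid groups of type A and B. -/

namespace Pool.Agent.MP_6eaae3_al

open FreeGroup (of)
open Subgroup

abbrev Fr := FreeGroup ℕ

def psiF (i : ℕ) : Fr →* Fr := FreeGroup.lift fun j =>
  if j = i then of (i + 1) else if j = i + 1 then (of (i + 1))⁻¹ * of i * of (i + 1) else of j

def psiI (i : ℕ) : Fr →* Fr := FreeGroup.lift fun j =>
  if j = i then of i * of (i + 1) * (of i)⁻¹ else if j = i + 1 then of i else of j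

/-- The Artin automorphism. -/
def psi (i : ℕ) : MulAut Fr :=
  MonoidHom.toMulEquiv (psiF i) (psiI i)
    (by
      ext j
      by_cases h1 : j = i
      · simp [psiF, psiI, h1]
      by_cases h2 : j = i + 1
      · simp [psiF, psiI, h2, mul_assoc]
      · simp [psiF, psiI, h1, h2])
    (by
      ext j
      by_cases h1 : j = i
      · simp [psiF, psiI, h1, mul_assoc]
      by_cases h2 : j = i + 1
      · simp [psiF, psiI, h2]
      · simp [psiF, psiI, h1, h2])

theorem psi_of (i j : ℕ) : psi i (of j) =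
    if j = i then of (i + 1) else if j = i + 1 then (of (i + 1))⁻¹ * of i * of (i + 1)
      else of j := by
  simp [psi, psiF]

theorem psi_inv_of (i j : ℕ) : (psi i)⁻¹ (of j) =
    if j = i then of i * of (i + 1) * (of i)⁻¹ else if j = i + 1 then of i else of j := by
  show psiI i (of j) = _
  simp [psiI]

theorem psi_self (i : ℕ) : psi i (of i) = of (i + 1) := by simp [psi_of]
theorem psi_succ (i : ℕ) : psi i (of (i + 1)) = (of (i + 1))⁻¹ * of i * of (i + 1) := by
  simp [psi_of]
theorem psi_ne {i j : ℕ} (h1 : j ≠ i) (h2 : j ≠ i + 1) : psi i (of j) = of j := by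
  simp [psi_of, h1, h2]

theorem aut_ext {φ φ' : MulAut Fr} (h : ∀ j, φ (of j) = φ' (of j)) : φ = φ' := by
  have : φ.toMonoidHom = φ'.toMonoidHom := by ext j; exact h j
  ext w; exact DFunLike.congr_fun this w

variable {G : Type*} [Group G]

/-- Braid relations among `g i` for `a ≤ i < b`. -/
structure BraidRel (g : ℕ → G) (a b : ℕ) : Prop where
  braid : ∀ i, a ≤ i → i + 1 < b → g i * g (i + 1) * g i = g (i + 1) * g i * g (i + 1)
  comm : ∀ i j, a ≤ i → i + 1 < j → j < b → Commute (g i) (g j)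

theorem BraidRel.mono {g : ℕ → G} {a b a' b' : ℕ} (h : BraidRel g a b) (ha : a ≤ a')
    (hb : b' ≤ b) : BraidRel g a' b' :=
  ⟨fun i h1 h2 => h.braid i (by omega) (by omega),
    fun i j h1 h2 h3 => h.comm i j (by omega) h2 (by omega)⟩

theorem braidRel_psi (a b : ℕ) : BraidRel psi a b := by
  constructor
  · intro i _ _
    refine aut_ext fun j => ?_
    simp only [MulAut.mul_apply]
    have e1 : i + 1 + 1 ≠ i := by omega
    by_cases h1 : j = i
    · subst h1; simp [psi_of, e1, e1.symm]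
    by_cases h2 : j = i + 1
    · subst h2; simp [psi_of, mul_assoc, e1, e1.symm]
    by_cases h3 : j = i + 1 + 1
    · subst h3; simp [psi_of, mul_assoc, e1, e1.symm]
    · simp [psi_of, h1, h2, h3]
  · intro i j _ h _
    refine aut_ext fun k => ?_
    simp only [MulAut.mul_apply]
    have e1 : i ≠ j := by omega
    have e2 : i ≠ j + 1 := by omega
    have e3 : i + 1 ≠ j := by omega
    by_cases h1 : k = i
    · subst h1; simp [psi_of, e1, e2, e3]
    by_cases h2 : k = i + 1
    · subst h2; simp [psi_of, e1, e2, e3]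
    by_cases h3 : k = j
    · subst h3; simp [psi_of, e1.symm, e2.symm, e3.symm]
    by_cases h4 : k = j + 1
    · subst h4; simp [psi_of, e1.symm, e2.symm, e3.symm]
    · simp [psi_of, h1, h2, h3, h4]

/-- Relations of type B among `τ` and `g i` for `a ≤ i < b`. -/
structure TypeB (g : ℕ → G) (τ : G) (a b : ℕ) : Prop extends BraidRel g a b where
  four : a < b → g a * τ * g a * τ = τ * g a * τ * g a
  tcomm : ∀ i, a < i → i < b → Commute τ (g i)

/-- The loops of the special strand. -/
def loopA (g : ℕ → G) (τ : G) (a : ℕ) : ℕ → G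
  | 0 => τ
  | k + 1 => g (a + k) * loopA g τ a k * (g (a + k))⁻¹

theorem TypeB.comm_loopA {g : ℕ → G} {τ : G} {a b : ℕ} (h : TypeB g τ a b) (k i : ℕ)
    (h1 : a + k < i) (h2 : i < b) : Commute (loopA g τ a k) (g i) := by
  induction k with
  | zero => exact h.tcomm i h1 h2
  | succ k ih =>
    have c := h.comm (a + k) i (by omega) (by omega) h2
    exact (c.mul_left (ih (by omega))).mul_left c.inv_left

theorem four_step {x y T : G} (hb : x * y * x = y * x * y) (hc : Commute T y)
    (h4 : x * T * x * T = T * x * T * x) :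
    y * (x * T * x⁻¹) * y * (x * T * x⁻¹) = (x * T * x⁻¹) * y * (x * T * x⁻¹) * y := by
  have e : x⁻¹ * y * x = y * x * y⁻¹ := by
    calc x⁻¹ * y * x = x⁻¹ * (y * x * y) * y⁻¹ := by group
      _ = _ := by rw [← hb]; group
  have e2 : y⁻¹ * T * y = T := by rw [mul_assoc, hc.eq]; group
  have e3 : T * y = y * T := hc.eq
  have e4 : T * y⁻¹ = y⁻¹ * T := hc.inv_right.eq
  calc y * (x * T * x⁻¹) * y * (x * T * x⁻¹)
      = x * ((x⁻¹ * y * x) * T * (x⁻¹ * y * x) * T) * x⁻¹ := by group
    _ = x * (y * (x * (y⁻¹ * T * y) * x) * (y⁻¹ * T)) * x⁻¹ := by rw [e]; group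
    _ = x * (y * (x * T * x * T) * y⁻¹) * x⁻¹ := by rw [e2, ← e4]; group
    _ = x * ((y * T) * x * T * x * y⁻¹) * x⁻¹ := by rw [h4]; group
    _ = x * ((T * y) * x * (y⁻¹ * T * y) * x * y⁻¹) * x⁻¹ := by rw [e2, e3]
    _ = x * (T * (y * x * y⁻¹) * T * (y * x * y⁻¹)) * x⁻¹ := by group
    _ = _ := by rw [← e]; group

theorem TypeB.four_loopA {g : ℕ → G} {τ : G} {a b : ℕ} (h : TypeB g τ a b) (k : ℕ)
    (h1 : a + k < b) : g (a + k) * loopA g τ a k * g (a + k) * loopA g τ a k =
      loopA g τ a k * g (a + k) * loopA g τ a k * g (a + k) := by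
  induction k with
  | zero => exact h.four h1
  | succ k ih =>
    exact four_step (h.braid (a + k) (by omega) h1) (h.comm_loopA k _ (by omega) h1)
      (ih (by omega))

theorem TypeB.comm_loopA' {g : ℕ → G} {τ : G} {a b : ℕ} (h : TypeB g τ a b) (m k : ℕ)
    (h1 : a + (m + 2 + k) ≤ b) : Commute (g (a + m)) (loopA g τ a (m + 2 + k)) := by
  induction k with
  | zero =>
    have hb := h.braid (a + m) (by omega) (by omega)
    have hc := (h.comm_loopA m (a + m + 1) (by omega) (by omega)).eq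
    show g (a + m) * (g (a + m + 1) * (g (a + m) * loopA g τ a m * (g (a + m))⁻¹) *
      (g (a + m + 1))⁻¹) = g (a + m + 1) * (g (a + m) * loopA g τ a m * (g (a + m))⁻¹) *
      (g (a + m + 1))⁻¹ * g (a + m)
    generalize g (a + m) = x at *
    generalize g (a + m + 1) = y at *
    generalize loopA g τ a m = T at *
    have e : x⁻¹ * y⁻¹ * x = y * x⁻¹ * y⁻¹ := by
      calc x⁻¹ * y⁻¹ * x = x⁻¹ * y⁻¹ * (x * y * x) * x⁻¹ * y⁻¹ := by group
        _ = x⁻¹ * y⁻¹ * (y * x * y) * x⁻¹ * y⁻¹ := by rw [hb]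
        _ = _ := by group
    calc x * (y * (x * T * x⁻¹) * y⁻¹) = (x * y * x) * T * x⁻¹ * y⁻¹ := by group
      _ = y * x * (y * T) * x⁻¹ * y⁻¹ := by rw [hb]; group
      _ = y * x * T * (y * x⁻¹ * y⁻¹) := by rw [← hc]; group
      _ = _ := by rw [← e]; group
  | succ k ih =>
    have c := h.comm (a + m) (a + (m + 2 + k)) (by omega) (by omega) (by omega)
    exact (c.mul_right (ih (by omega))).mul_right c.inv_right

/-- Evaluation of words in the loops of the special strand. -/
def evA (g : ℕ → G) (τ : G) (a b : ℕ) : Fr →* G :=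
  FreeGroup.lift fun j => if a ≤ j ∧ j ≤ b then loopA g τ a (j - a) else 1

theorem evA_of (g : ℕ → G) (τ : G) (a b k : ℕ) (h : a + k ≤ b) :
    evA g τ a b (of (a + k)) = loopA g τ a k := by
  simp [evA, h]

theorem TypeB.conj_evA {g : ℕ → G} {τ : G} {a b : ℕ} (h : TypeB g τ a b) (i : ℕ) (h1 : a ≤ i)
    (h2 : i < b) (w : Fr) : g i * evA g τ a b w * (g i)⁻¹ = evA g τ a b (psi i w) := by
  have : (MulAut.conj (g i)).toMonoidHom.comp (evA g τ a b) =
      (evA g τ a b).comp (psi i).toMonoidHom := by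
    ext j
    show g i * evA g τ a b (of j) * (g i)⁻¹ = evA g τ a b (psi i (of j))
    obtain ⟨m, rfl⟩ := Nat.exists_eq_add_of_le h1
    by_cases e1 : j = a + m
    · subst e1
      rw [psi_self, evA_of _ _ _ _ _ h2.le, add_assoc, evA_of _ _ _ _ _ (by omega)]
      rfl
    by_cases e2 : j = a + m + 1
    · subst e2
      rw [psi_succ, map_mul, map_mul, map_inv, evA_of _ _ _ _ _ h2.le, add_assoc,
        evA_of _ _ _ _ _ (by omega)]
      have := h.four_loopA m h2
      show _ * (g (a + m) * loopA g τ a m * (g (a + m))⁻¹) * _ =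
        (g (a + m) * loopA g τ a m * (g (a + m))⁻¹)⁻¹ * _ * (g (a + m) * loopA g τ a m * (g (a + m))⁻¹)
      generalize g (a + m) = x at *
      generalize loopA g τ a m = T at *
      calc x * (x * T * x⁻¹) * x⁻¹ = x * T⁻¹ * x⁻¹ * (x * T * x * T) * x⁻¹ * x⁻¹ := by group
        _ = _ := by rw [this]; group
    rw [psi_ne e1 e2]
    by_cases e3 : a ≤ j ∧ j ≤ b
    · obtain ⟨k, rfl⟩ := Nat.exists_eq_add_of_le e3.1
      rw [evA_of _ _ _ _ _ e3.2]
      rcases lt_or_gt_of_ne e1 with e4 | e4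
      · rw [← (h.comm_loopA k _ e4 h2).eq]; group
      · obtain ⟨l, rfl⟩ : ∃ l, k = m + 2 + l := ⟨k - (m + 2), by omega⟩
        rw [(h.comm_loopA' m l e3.2).eq]; group
    · simp [evA, e3]
  exact DFunLike.congr_fun this w

end Pool.Agent.MP_6eaae3_al
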