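import Mathlib.GroupTheory.FreeGroup.Basic
import Mathlib.GroupTheory.QuotientGroup.Defs
import Mathlib.Topology.UnitInterval

/-! Artin groups and mapping class groups. -/

namespace Pool.Agent.MP_6eaae3_al

open unitInterval

/-- The alternating word `s t s ...` of length `k`. -/
def alt {V : Type} (s t : V) : ℕ → FreeGroup V
  | 0 => 1
  | k + 1 => FreeGroup.of s * alt t s k

/-- The relators of the Artin group with labels `m`: the alternating words `s t s ...` and
`t s t ...` of length `m s t` are equal. The label `0` gives no relation. -/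
def artinRels {V : Type} (m : V → V → ℕ) : Set (FreeGroup V) :=
  {r | ∃ s t : V, s ≠ t ∧ r = alt s t (m s t) * (alt t s (m s t))⁻¹}

/-- The labels of the affine type `G2~`: a triangle with labels `3`, `6`, `2`. -/
def labelG2 : Fin 3 → Fin 3 → ℕ := ![![1, 3, 2], ![3, 1, 6], ![2, 6, 1]]

/-- The homeomorphisms of `X` that fix `B` pointwise. -/
def homeoRel (X : Type) [TopologicalSpace X] (B : Set X) : Subgroup (X ≃ₜ X) where
  carrier := {f | ∀ x ∈ B, f x = x}
  one_mem' := fun _ _ => rfl
  mul_mem' := fun {f g} hf hg x hx => by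
    show f (g x) = x
    rw [hg x hx, hf x hx]
  inv_mem' := fun {f} hf x hx => by
    show f.symm x = x
    rw [Homeomorph.symm_apply_eq, hf x hx]

/-- `H` is a continuous family of homeomorphisms, i.e. `(t, x) ↦ (t, H t x)` is a homeomorphism
of `T × X`. -/
def IsFamily {T X : Type} [TopologicalSpace T] [TopologicalSpace X] (H : T → X ≃ₜ X) : Prop :=
  Continuous (fun p : T × X => H p.1 p.2) ∧ Continuous (fun p : T × X => (H p.1).symm p.2)

theorem IsFamily.const {T X : Type} [TopologicalSpace T] [TopologicalSpace X] (f : X ≃ₜ X) :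
    IsFamily (fun _ : T => f) :=
  ⟨f.continuous.comp continuous_snd, f.symm.continuous.comp continuous_snd⟩

theorem IsFamily.mul {T X : Type} [TopologicalSpace T] [TopologicalSpace X] {H K : T → X ≃ₜ X}
    (hH : IsFamily H) (hK : IsFamily K) : IsFamily (fun t => H t * K t) :=
  ⟨hH.1.comp (continuous_fst.prodMk hK.1), hK.2.comp (continuous_fst.prodMk hH.2)⟩

theorem IsFamily.inv {T X : Type} [TopologicalSpace T] [TopologicalSpace X] {H : T → X ≃ₜ X}
    (hH : IsFamily H) : IsFamily (fun t => (H t)⁻¹) :=
  ⟨hH.2, hH.1⟩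

/-- The elements of a group `G` of homeomorphisms that are isotopic to the identity inside `G`. -/
def isotopicToId {X : Type} [TopologicalSpace X] (G : Subgroup (X ≃ₜ X)) : Subgroup G where
  carrier := {f | ∃ H : I → G, IsFamily (fun t => (H t : X ≃ₜ X)) ∧ H 0 = 1 ∧ H 1 = f}
  one_mem' := ⟨fun _ => 1, IsFamily.const _, rfl, rfl⟩
  mul_mem' := by
    rintro f g ⟨H, h1, h2, h3⟩ ⟨K, k1, k2, k3⟩
    exact ⟨fun t => H t * K t, h1.mul k1, by simp [h2, k2], by simp [h3, k3]⟩
  inv_mem' := by
    rintro f ⟨H, h1, h2, h3⟩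
    exact ⟨fun t => (H t)⁻¹, h1.inv, by simp [h2], by simp [h3]⟩

instance isotopicToId_normal {X : Type} [TopologicalSpace X] (G : Subgroup (X ≃ₜ X)) :
    (isotopicToId G).Normal := ⟨by
  rintro f ⟨H, h1, h2, h3⟩ g
  exact ⟨fun t => g * H t * g⁻¹,
    ((IsFamily.const (g : X ≃ₜ X)).mul h1).mul (IsFamily.const ((g⁻¹ : G) : X ≃ₜ X)),
    by simp [h2], by simp [h3]⟩⟩

/-- The mapping class group of `X` relative to `B`: homeomorphisms of `X` that fix `B` pointwise,
modulo those that are isotopic to the identity through such homeomorphisms. -/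
def MCG (X : Type) [TopologicalSpace X] (B : Set X) : Type :=
  homeoRel X B ⧸ isotopicToId (homeoRel X B)

instance (X : Type) [TopologicalSpace X] (B : Set X) : Group (MCG X B) :=
  QuotientGroup.Quotient.group _

end Pool.Agent.MP_6eaae3_al
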