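import Mathlib.GroupTheory.FreeGroup.Reduce
import Mathlib.GroupTheory.PresentedGroup
import Pool.Agent.MP_6eaae3_al.Braid
import Pool.Agent.MP_6eaae3_al.Defs

-- ======== part 0: formerly Pool.Agent.MP_6eaae3_al.Faith
section MrgPart0

namespace Pool.Agent.MP_6eaae3_al

open FreeGroup (of)
open Subgroup Set

/-- Kill one free generator. -/
def kill (y : ℕ) : Fr →* Fr := FreeGroup.lift fun j => if j = y then 1 else of j

theorem kill_of (y j : ℕ) : kill y (of j) = if j = y then 1 else of j := by simp [kill]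

theorem kill_psi {y i : ℕ} (h1 : i ≠ y) (h2 : i + 1 ≠ y) (w : Fr) :
    kill y (psi i w) = psi i (kill y w) := by
  have : (kill y).comp (psi i).toMonoidHom = (psi i).toMonoidHom.comp (kill y) := by
    ext j
    show kill y (psi i (of j)) = psi i (kill y (of j))
    by_cases e : j = y
    · subst e; simp [kill_of, psi_ne h1.symm h2.symm]
    · rw [kill_of, if_neg e, psi_of]
      split_ifs <;> simp [kill_of, h1, h2, e]
  exact DFunLike.congr_fun this w

/-- The action used to compute the centralizer of a free generator. -/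
def lamp (y : ℕ) : Fr →* Equiv.Perm (Fr × ℤ) := FreeGroup.lift fun j =>
  if j = y then
    { toFun := fun p => (p.1, p.2 + if p.1 = 1 then 1 else 0)
      invFun := fun p => (p.1, p.2 - if p.1 = 1 then 1 else 0)
      left_inv := fun p => by simp
      right_inv := fun p => by simp }
  else Equiv.prodCongr (Equiv.mulLeft (of j)) (Equiv.refl ℤ)

theorem lamp_spec (y : ℕ) (c : Fr) :
    ∀ g : Fr, ∃ n : ℤ, ∀ m : ℤ, lamp y c (g, m) = (kill y c * g, m + n) := by
  induction c using FreeGroup.induction_on with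
  | C1 => intro g; exact ⟨0, by simp⟩
  | of j =>
    intro g
    by_cases e : j = y
    · exact ⟨if g = 1 then 1 else 0, fun m => by simp [lamp, kill_of, e]⟩
    · exact ⟨0, fun m => by simp [lamp, kill_of, e]⟩
  | inv_of j ih =>
    intro g
    obtain ⟨n, hn⟩ := ih ((kill y (of j))⁻¹ * g)
    refine ⟨-n, fun m => ?_⟩
    rw [map_inv, map_inv, Equiv.Perm.inv_eq_iff_eq, hn]; simp
  | mul c d hc hd =>
    intro g
    obtain ⟨n, hn⟩ := hd g
    obtain ⟨n', hn'⟩ := hc (kill y d * g)
    refine ⟨n + n', fun m => ?_⟩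
    rw [map_mul, map_mul, Equiv.Perm.mul_apply, hn, hn', mul_assoc, add_assoc]

theorem kill_eq_one {y : ℕ} {c : Fr} (h : c⁻¹ * of y * c = of y) : kill y c = 1 := by
  have h1 : of y * c = c * of y := by
    calc of y * c = c * (c⁻¹ * of y * c) := by group
      _ = _ := by rw [h]
  obtain ⟨n, hn⟩ := lamp_spec y c 1
  have h2 := congrArg (fun u => lamp y u (1, 0)) h1
  have e : ∀ g m, lamp y (of y) (g, m) = (g, m + if g = 1 then 1 else 0) := fun g m => by
    simp [lamp]
  simp only [map_mul, Equiv.Perm.mul_apply, hn, e, if_true, mul_one, Prod.mk.injEq,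
    true_and] at h2
  by_contra hc
  rw [if_neg hc] at h2
  omega

/-- `φ` pushes the strand `y` along `w`, up to the inner automorphism of `e`. -/
def Push (κ : Fr →* Fr) (y : ℕ) (φ : MulAut Fr) (e w : Fr) : Prop :=
  (∀ x, κ (φ x) = e⁻¹ * κ x * e) ∧ ∃ c, φ (of y) = c⁻¹ * of y * c ∧ κ c = w * e

theorem Push.one (κ : Fr →* Fr) (y : ℕ) : Push κ y 1 1 1 := ⟨by simp, 1, by simp, by simp⟩

theorem Push.mul {κ : Fr →* Fr} {y : ℕ} {φ φ' : MulAut Fr} {e e' w w' : Fr} (h : Push κ y φ e w)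
    (h' : Push κ y φ' e' w') : Push κ y (φ * φ') (e' * e) (w * w') := by
  obtain ⟨h1, c, h2, h3⟩ := h
  obtain ⟨k1, c', k2, k3⟩ := h'
  refine ⟨fun x => ?_, c * φ c', ?_, ?_⟩
  · rw [MulAut.mul_apply, h1, k1]; group
  · rw [MulAut.mul_apply, k2, map_mul, map_mul, map_inv, h2]; group
  · rw [map_mul, h1, h3, k3]; group

theorem Push.inv {κ : Fr →* Fr} {y : ℕ} {φ : MulAut Fr} {e w : Fr} (h : Push κ y φ e w) :
    Push κ y φ⁻¹ e⁻¹ w⁻¹ := by
  obtain ⟨h1, c, h2, h3⟩ := h
  have k1 : ∀ x, κ (φ⁻¹ x) = e⁻¹⁻¹ * κ x * e⁻¹ := fun x => by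
    have := h1 (φ⁻¹ x)
    rw [MulAut.apply_inv_self] at this
    rw [this]; group
  refine ⟨k1, φ⁻¹ c⁻¹, ?_, ?_⟩
  · have : φ⁻¹ (φ (of y)) = φ⁻¹ (c⁻¹ * of y * c) := by rw [h2]
    rw [MulAut.inv_apply_self, map_mul, map_mul] at this
    rw [map_inv] at this ⊢
    rw [inv_inv]
    conv_rhs => rw [this]
    group
  · rw [k1, map_inv, h3]; group

theorem Push.conj {y i : ℕ} (h1 : i ≠ y) (h2 : i + 1 ≠ y) {φ : MulAut Fr} {w : Fr}
    (h : Push (kill y) y φ 1 w) : Push (kill y) y (psi i * φ * (psi i)⁻¹) 1 (psi i w) := by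
  obtain ⟨k1, c, k2, k3⟩ := h
  have e : psi i (of y) = of y := psi_ne h1.symm h2.symm
  have e' : (psi i)⁻¹ (of y) = of y := by rw [← e, MulAut.inv_apply_self, e]
  refine ⟨fun x => ?_, psi i c, ?_, ?_⟩
  · rw [MulAut.mul_apply, MulAut.mul_apply, kill_psi h1 h2, k1, inv_one, one_mul, mul_one,
      ← kill_psi h1 h2, MulAut.apply_inv_self, one_mul, mul_one]
  · rw [MulAut.mul_apply, MulAut.mul_apply, e', k2, map_mul, map_mul, map_inv, e]
  · rw [kill_psi h1 h2, k3, mul_one, mul_one]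

theorem Push.eq_one {κ : Fr →* Fr} {y : ℕ} (hκ : κ (of y) = 1) {e w : Fr} (h : Push κ y 1 e w) :
    w * e = 1 := by
  obtain ⟨-, c, h2, h3⟩ := h
  have : κ.comp (kill y) = κ := by
    ext j
    by_cases e : j = y <;> simp [kill_of, e, hκ]
  rw [← h3, ← this, MonoidHom.comp_apply, kill_eq_one h2.symm, map_one]

theorem push_sq (a : ℕ) : Push (kill a) a (psi a ^ 2) 1 (of (a + 1)) := by
  refine ⟨fun x => ?_, of (a + 1), ?_, by simp [kill_of]⟩
  · have : (kill a).comp (psi a ^ 2).toMonoidHom = kill a := by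
      ext j
      show kill a ((psi a ^ 2) (of j)) = kill a (of j)
      rw [sq, MulAut.mul_apply]
      by_cases h1 : j = a
      · subst h1; simp [psi_self, psi_succ, kill_of]
      by_cases h2 : j = a + 1
      · subst h2; simp [psi_self, psi_succ, kill_of]
      · rw [psi_ne h1 h2, psi_ne h1 h2]
    simpa using DFunLike.congr_fun this x
  · rw [sq, MulAut.mul_apply, psi_self, psi_succ]

variable {G : Type*} [Group G]

theorem TypeB.conj_evA' {g : ℕ → G} {τ : G} {a b : ℕ} (h : TypeB g τ a b) (ψ : G →* MulAut Fr)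
    (hψ : ∀ i, a ≤ i → i < b → ψ (g i) = psi i) {β : G} (hβ : β ∈ closure (g '' Ico a b)) :
    ∀ w, β * evA g τ a b w * β⁻¹ = evA g τ a b (ψ β w) := by
  induction hβ using closure_induction with
  | mem x hx =>
    obtain ⟨i, ⟨h1, h2⟩, rfl⟩ := hx
    intro w; rw [hψ i h1 h2]; exact h.conj_evA i h1 h2 w
  | one => simp
  | mul x y _ _ hx hy =>
    intro w
    rw [map_mul, MulAut.mul_apply, ← hx, ← hy]; group
  | inv x _ hx =>
    intro w
    have := hx ((ψ x)⁻¹ w)
    rw [MulAut.apply_inv_self] at this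
    rw [← this, map_inv]; group

theorem TypeB.decomp {g : ℕ → G} {τ : G} {a b : ℕ} (h : TypeB g τ a b) (hab : a ≤ b)
    (ψ : G →* MulAut Fr) (hψ : ∀ i, a ≤ i → i < b → ψ (g i) = psi i) {x : G}
    (hx : x ∈ closure (insert τ (g '' Ico a b))) :
    ∃ w, ∃ β ∈ closure (g '' Ico a b), x = evA g τ a b w * β := by
  induction hx using closure_induction with
  | mem x hx =>
    rcases hx with rfl | hx
    · exact ⟨of (a + 0), 1, one_mem _, by rw [evA_of _ _ _ _ _ hab, mul_one]; rfl⟩
    · exact ⟨1, x, subset_closure hx, by simp⟩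
  | one => exact ⟨1, 1, one_mem _, by simp⟩
  | mul x y _ _ hx hy =>
    obtain ⟨w, β, h1, rfl⟩ := hx
    obtain ⟨w', β', h2, rfl⟩ := hy
    refine ⟨w * ψ β w', β * β', mul_mem h1 h2, ?_⟩
    rw [map_mul, ← h.conj_evA' ψ hψ h1]; group
  | inv x _ hx =>
    obtain ⟨w, β, h1, rfl⟩ := hx
    refine ⟨ψ β⁻¹ w⁻¹, β⁻¹, inv_mem h1, ?_⟩
    rw [← h.conj_evA' ψ hψ (inv_mem h1), map_inv]; group

theorem fix_of_closure {g : ℕ → G} {a b y : ℕ} (hy : y < a ∨ b < y) (ψ : G →* MulAut Fr)
    (hψ : ∀ i, a ≤ i → i < b → ψ (g i) = psi i) {β : G} (hβ : β ∈ closure (g '' Ico a b)) :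
    ψ β (of y) = of y ∧ ∀ w, kill y (ψ β w) = ψ β (kill y w) := by
  induction hβ using closure_induction with
  | mem x hx =>
    obtain ⟨i, ⟨h1, h2⟩, rfl⟩ := hx
    rw [hψ i h1 h2]
    exact ⟨psi_ne (by omega) (by omega), kill_psi (by omega) (by omega)⟩
  | one => simp
  | mul x y _ _ hx hy =>
    rw [map_mul]
    exact ⟨by rw [MulAut.mul_apply, hy.1, hx.1], fun w => by
      rw [MulAut.mul_apply, MulAut.mul_apply, hx.2, hy.2]⟩
  | inv x _ hx =>
    rw [map_inv]
    refine ⟨by rw [← hx.1, MulAut.inv_apply_self, hx.1], fun w => ?_⟩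
    have := hx.2 ((ψ x)⁻¹ w)
    rw [MulAut.apply_inv_self] at this
    rw [this, MulAut.inv_apply_self]

/-- Projection to the free group on the generators from `a` to `b`. -/
def projF (a b : ℕ) : Fr →* Fr := FreeGroup.lift fun j => if a ≤ j ∧ j ≤ b then of j else 1

theorem evA_projF (g : ℕ → G) (τ : G) (a b : ℕ) (w : Fr) :
    evA g τ a b (projF a b w) = evA g τ a b w := by
  have : (evA g τ a b).comp (projF a b) = evA g τ a b := by
    ext j
    by_cases e : a ≤ j ∧ j ≤ b <;> simp [projF, evA, e]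
  exact DFunLike.congr_fun this w

theorem push_evA {g : ℕ → G} {τ : G} {a b : ℕ} (ψ : G →* MulAut Fr)
    (hψ : ∀ i, a + 1 ≤ i → i < b → ψ (g i) = psi i) (hτ : ψ τ = psi a ^ 2) (w : Fr) :
    Push (kill a) a (ψ (evA g τ (a + 1) b w)) 1 (projF (a + 1) b w) := by
  have key : ∀ k, a + 1 + k ≤ b → Push (kill a) a (ψ (loopA g τ (a + 1) k)) 1 (of (a + 1 + k)) := by
    intro k
    induction k with
    | zero => intro _; show Push (kill a) a (ψ τ) _ _; rw [hτ]; exact push_sq a
    | succ k ih =>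
      intro hk
      have := (ih (by omega)).conj (i := a + 1 + k) (by omega) (by omega)
      rw [psi_self] at this
      rw [loopA, map_mul, map_mul, map_inv, hψ _ (by omega) (by omega)]
      exact this
  have key' : ∀ j, Push (kill a) a (ψ (evA g τ (a + 1) b (of j))) 1 (projF (a + 1) b (of j)) := by
    intro j
    by_cases e : a + 1 ≤ j ∧ j ≤ b
    · obtain ⟨k, rfl⟩ := Nat.exists_eq_add_of_le e.1
      rw [evA_of _ _ _ _ _ e.2]
      rw [projF, FreeGroup.lift_apply_of, if_pos e]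
      exact key k e.2
    · rw [projF, evA, FreeGroup.lift_apply_of, FreeGroup.lift_apply_of, if_neg e, if_neg e, map_one]
      exact Push.one _ a
  induction w using FreeGroup.induction_on with
  | C1 => simpa using Push.one _ a
  | of j => exact key' j
  | inv_of j ih => simpa using ih.inv
  | mul c d hc hd => simpa using hc.mul hd

theorem TypeB.faithful_of {g : ℕ → G} {τ : G} {a b : ℕ} (h : TypeB g τ (a + 1) b)
    (hab : a + 1 ≤ b) (ψ : G →* MulAut Fr) (hψ : ∀ i, a + 1 ≤ i → i < b → ψ (g i) = psi i)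
    (hτ : ψ τ = psi a ^ 2) (hP : ∀ β ∈ closure (g '' Ico (a + 1) b), ψ β = 1 → β = 1) {x : G}
    (hx : x ∈ closure (insert τ (g '' Ico (a + 1) b))) (h1 : ψ x = 1) : x = 1 := by
  obtain ⟨w, β, hβ, rfl⟩ := h.decomp hab ψ hψ hx
  have hp := push_evA ψ hψ hτ w
  obtain ⟨f1, f2⟩ := fix_of_closure (y := a) (by omega) ψ hψ hβ
  have e : β = 1 := by
    refine hP β hβ (aut_ext fun j => ?_)
    by_cases hj : j = a
    · rw [hj, f1]; rfl
    · have := hp.1 (ψ β (of j))
      rw [← MulAut.mul_apply, ← map_mul, h1, f2, kill_of, if_neg hj] at this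
      simpa [kill_of, hj] using this.symm
  rw [e, mul_one] at h1 ⊢
  rw [h1] at hp
  rw [← evA_projF, ← mul_one (projF _ _ w), hp.eq_one (by simp [kill_of]), map_one]

/-- Coset representatives. -/
def cosD (g : ℕ → G) (a : ℕ) : ℕ → G
  | 0 => 1
  | k + 1 => g (a + k) * cosD g a k

theorem BraidRel.comm_cosD {g : ℕ → G} {a b : ℕ} (h : BraidRel g a b) (k i : ℕ)
    (h1 : a + k < i) (h2 : i < b) : Commute (cosD g a k) (g i) := by
  induction k with
  | zero => exact Commute.one_left _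
  | succ k ih => exact (h.comm (a + k) i (by omega) (by omega) h2).mul_left (ih (by omega))

theorem BraidRel.shift_cosD {g : ℕ → G} {a b : ℕ} (h : BraidRel g a b) (m k : ℕ)
    (h1 : a + (m + 2 + k) ≤ b) :
    g (a + m) * cosD g a (m + 2 + k) = cosD g a (m + 2 + k) * g (a + m + 1) := by
  induction k with
  | zero =>
    have hb := h.braid (a + m) (by omega) (by omega)
    have hc := (h.comm_cosD m (a + m + 1) (by omega) (by omega)).eq
    show g (a + m) * (g (a + m + 1) * (g (a + m) * cosD g a m)) =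
      g (a + m + 1) * (g (a + m) * cosD g a m) * g (a + m + 1)
    rw [mul_assoc, mul_assoc, hc, ← mul_assoc, ← mul_assoc, hb]; group
  | succ k ih =>
    have c := (h.comm (a + m) (a + (m + 2 + k)) (by omega) (by omega) (by omega)).eq
    show g (a + m) * (g (a + (m + 2 + k)) * cosD g a (m + 2 + k)) =
      g (a + (m + 2 + k)) * cosD g a (m + 2 + k) * g (a + m + 1)
    rw [← mul_assoc, c, mul_assoc, ih (by omega), mul_assoc]

theorem BraidRel.sq_mem {g : ℕ → G} {a b : ℕ} (h : BraidRel g a b) (m : ℕ) (h1 : a + m < b) :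
    (cosD g a m)⁻¹ * g (a + m) ^ 2 * cosD g a m ∈
      closure (insert (g a ^ 2) (g '' Ico (a + 1) b)) := by
  induction m with
  | zero => simpa [cosD] using Subgroup.subset_closure (mem_insert _ _)
  | succ m ih =>
    have hb := h.braid (a + m) (by omega) (by omega)
    have hc := (h.comm_cosD m (a + m + 1) (by omega) (by omega)).eq
    have hm : g (a + m + 1) ∈ closure (insert (g a ^ 2) (g '' Ico (a + 1) b)) :=
      subset_closure (mem_insert_of_mem _ ⟨_, ⟨by omega, by omega⟩, rfl⟩)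
    convert mul_mem (mul_mem hm (ih (by omega))) (inv_mem hm) using 1
    show (g (a + m) * cosD g a m)⁻¹ * g (a + m + 1) ^ 2 * (g (a + m) * cosD g a m) = _
    generalize g (a + m) = x at *
    generalize g (a + m + 1) = y at *
    generalize cosD g a m = d at *
    have e : x⁻¹ * y * x = y * x * y⁻¹ := by
      calc x⁻¹ * y * x = x⁻¹ * (y * x * y) * y⁻¹ := by group
        _ = _ := by rw [← hb]; group
    have e1 : d⁻¹ * y * d = y := by rw [mul_assoc, ← hc]; group
    calc (x * d)⁻¹ * y ^ 2 * (x * d) = d⁻¹ * ((x⁻¹ * y * x) * (x⁻¹ * y * x)) * d := by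
          rw [sq]; group
      _ = (d⁻¹ * y * d) * (d⁻¹ * x ^ 2 * d) * (d⁻¹ * y * d)⁻¹ := by rw [e, sq]; group
      _ = _ := by rw [e1]

theorem BraidRel.coset {g : ℕ → G} {a b : ℕ} (h : BraidRel g a b) {x : G}
    (hx : x ∈ closure (g '' Ico a b)) : ∀ k, a + k ≤ b → ∃ k', a + k' ≤ b ∧
      (cosD g a k')⁻¹ * x * cosD g a k ∈ closure (insert (g a ^ 2) (g '' Ico (a + 1) b)) := by
  have step : ∀ m, a + m < b → ∀ k, a + k ≤ b →
      (cosD g a (Equiv.swap m (m + 1) k))⁻¹ * g (a + m) * cosD g a k ∈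
        closure (insert (g a ^ 2) (g '' Ico (a + 1) b)) := by
    intro m hm k hk
    by_cases e1 : k = m
    · subst e1; simp [cosD, mul_assoc]
    by_cases e2 : k = m + 1
    · subst e2
      have := h.sq_mem m hm
      rw [Equiv.swap_apply_right, cosD, ← mul_assoc, mul_assoc _ (g _) (g _), ← sq]
      exact this
    rw [Equiv.swap_apply_of_ne_of_ne e1 e2, mul_assoc]
    rcases lt_or_gt_of_ne e1 with e3 | e3
    · rw [← (h.comm_cosD k (a + m) (by omega) hm).eq, inv_mul_cancel_left]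
      exact subset_closure (mem_insert_of_mem _ ⟨_, ⟨by omega, by omega⟩, rfl⟩)
    · obtain ⟨l, rfl⟩ : ∃ l, k = m + 2 + l := ⟨k - (m + 2), by omega⟩
      rw [h.shift_cosD m l hk, inv_mul_cancel_left]
      exact subset_closure (mem_insert_of_mem _ ⟨_, ⟨by omega, by omega⟩, rfl⟩)
  have sw : ∀ m, a + m < b → ∀ k, a + k ≤ b → a + Equiv.swap m (m + 1) k ≤ b := by
    intro m hm k hk
    rw [Equiv.swap_apply_def]; split_ifs <;> omega
  induction hx using closure_induction_left with
  | one => intro k hk; exact ⟨k, hk, by simp⟩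
  | mul_left x hx y _ ih =>
    obtain ⟨i, ⟨h1, h2⟩, rfl⟩ := hx
    obtain ⟨m, rfl⟩ := Nat.exists_eq_add_of_le h1
    intro k hk
    obtain ⟨k', hk', h3⟩ := ih k hk
    refine ⟨_, sw m h2 k' hk', ?_⟩
    convert mul_mem (step m h2 k' hk') h3 using 1
    group
  | inv_mul_cancel x hx y _ ih =>
    obtain ⟨i, ⟨h1, h2⟩, rfl⟩ := hx
    obtain ⟨m, rfl⟩ := Nat.exists_eq_add_of_le h1
    intro k hk
    obtain ⟨k', hk', h3⟩ := ih k hk
    refine ⟨_, sw m h2 k' hk', ?_⟩
    have := inv_mem (step m h2 _ (sw m h2 k' hk'))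
    rw [Equiv.swap_apply_self] at this
    convert mul_mem this h3 using 1
    group

theorem BraidRel.typeB {g : ℕ → G} {a b : ℕ} (h : BraidRel g a b) :
    TypeB g (g a ^ 2) (a + 1) b where
  toBraidRel := h.mono (by omega) le_rfl
  four := fun h1 => by
    have hb := h.braid a le_rfl h1
    generalize g a = x at *
    generalize g (a + 1) = y at *
    calc y * x ^ 2 * y * x ^ 2 = y * x * (x * y * x) * x := by rw [sq]; group
      _ = y * x * (y * x * y) * x := by rw [hb]
      _ = (y * x * y) * (x * y * x) := by group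
      _ = (x * y * x) * (y * x * y) := by rw [hb]
      _ = x * (y * x * y) * x * y := by group
      _ = _ := by rw [← hb, sq]; group
  tcomm := fun i h1 h2 => (h.comm a i le_rfl h1 h2).pow_left 2

theorem isConj_of {i j : ℕ} (h : IsConj (of i : Fr) (of j)) : i = j := by
  by_contra e
  have := (kill i).map_isConj h
  rw [kill_of, kill_of, if_pos rfl, if_neg (Ne.symm e), isConj_one_right] at this
  exact FreeGroup.of_ne_one _ this

theorem BraidRel.faithful (n : ℕ) : ∀ {g : ℕ → G} {a : ℕ}, BraidRel g a (a + n) →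
    ∀ ψ : G →* MulAut Fr, (∀ i, a ≤ i → i < a + n → ψ (g i) = psi i) →
    ∀ x ∈ closure (g '' Ico a (a + n)), ψ x = 1 → x = 1 := by
  induction n with
  | zero => intro g a _ ψ _ x hx _; simpa using hx
  | succ n ih =>
    intro g a h ψ hψ x hx h1
    have hψ' : ∀ i, a + 1 ≤ i → i < a + (n + 1) → ψ (g i) = psi i :=
      fun i h1 h2 => hψ i (by omega) h2
    have hτ : ψ (g a ^ 2) = psi a ^ 2 := by rw [map_pow, hψ a le_rfl (by omega)]
    obtain ⟨k, hk, h2⟩ := h.coset hx 0 (by omega)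
    have hd : ∀ k, a + k ≤ a + (n + 1) → ψ (cosD g a k) (of a) = of (a + k) := by
      intro k
      induction k with
      | zero => simp [cosD]
      | succ k ih =>
        intro hk
        rw [cosD, map_mul, MulAut.mul_apply, ih (by omega), hψ _ (by omega) (by omega), psi_self]
        rfl
    have hk0 : k = 0 := by
      obtain ⟨w, β, hβ, e⟩ := h.typeB.decomp (by omega) ψ hψ' h2
      obtain ⟨-, c, hc, -⟩ := push_evA ψ hψ' hτ w
      have f1 := (fix_of_closure (y := a) (by omega) ψ hψ' hβ).1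
      have e1 : x = cosD g a k * (evA g (g a ^ 2) (a + 1) (a + (n + 1)) w * β) := by
        rw [← e]; simp [cosD]
      have e2 := congrArg (fun u => ψ u (of a)) e1
      simp only [h1, map_mul, MulAut.mul_apply, f1, hc, hd k hk, map_inv, MulAut.one_apply] at e2
      have : a + k = a := isConj_of (isConj_iff.2 ⟨_, by rw [e2, inv_inv]⟩)
      omega
    subst hk0
    simp only [cosD, inv_one, one_mul, mul_one] at h2
    refine h.typeB.faithful_of (by omega) ψ hψ' hτ ?_ h2 h1
    have e : a + (n + 1) = a + 1 + n := by omega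
    rw [e] at h hψ' ⊢
    exact ih (h.mono (by omega) le_rfl) ψ hψ'

theorem TypeB.faithful {g : ℕ → G} {τ : G} {a b : ℕ} (h : TypeB g τ (a + 1) b)
    (hab : a + 1 ≤ b) (ψ : G →* MulAut Fr) (hψ : ∀ i, a + 1 ≤ i → i < b → ψ (g i) = psi i)
    (hτ : ψ τ = psi a ^ 2) {x : G}
    (hx : x ∈ closure (insert τ (g '' Ico (a + 1) b))) (h1 : ψ x = 1) : x = 1 := by
  obtain ⟨n, rfl⟩ := Nat.exists_eq_add_of_le hab
  exact h.faithful_of hab ψ hψ hτ (BraidRel.faithful n h.toBraidRel ψ hψ) hx h1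

end Pool.Agent.MP_6eaae3_al

end MrgPart0

-- ======== part 1: formerly Pool.Agent.MP_6eaae3_al.Words
section MrgPart1

/-! Computations with braid words. -/

namespace Pool.Agent.MP_6eaae3_al

open FreeGroup (of mk invRev reduce)
open Subgroup Set

abbrev Wd := List (ℕ × Bool)

def imgP (s : ℕ × Bool) (j : ℕ) : Wd :=
  if s.2 then
    (if j = s.1 then [(s.1 + 1, true)] else if j = s.1 + 1 then
      [(s.1 + 1, false), (s.1, true), (s.1 + 1, true)] else [(j, true)])
  else
    (if j = s.1 then [(s.1, true), (s.1 + 1, true), (s.1, false)] else if j = s.1 + 1 then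
      [(s.1, true)] else [(j, true)])

/-- Substitution of words for letters. -/
def subW (f : ℕ → Wd) (L : Wd) : Wd :=
  reduce (L.flatMap fun x => if x.2 then f x.1 else invRev (f x.1))

def run (W L : Wd) : Wd := W.foldr (fun s L => subW (imgP s) L) L

/-- The Artin representation on words. -/
def Psi : Fr →* MulAut Fr := FreeGroup.lift psi

theorem Psi_of (i : ℕ) : Psi (of i) = psi i := by simp [Psi]

theorem mk_cons (x : ℕ × Bool) (L : Wd) :
    (mk (x :: L) : Fr) = (if x.2 then of x.1 else (of x.1)⁻¹) * mk L := by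
  obtain ⟨i, b⟩ := x
  cases b
  · show _ = (mk [(i, true)])⁻¹ * mk L
    rw [FreeGroup.inv_mk, FreeGroup.mul_mk]; rfl
  · show _ = mk [(i, true)] * mk L
    rw [FreeGroup.mul_mk]; rfl

theorem mk_nil : (mk [] : Fr) = 1 := rfl

theorem hom_mk (φ : Fr →* Fr) (f : ℕ → Wd) (h : ∀ j, φ (of j) = mk (f j)) (L : Wd) :
    φ (mk L) = mk (subW f L) := by
  rw [subW, FreeGroup.reduce.self]
  induction L with
  | nil => simp [mk_nil]
  | cons x L ih =>
    rw [mk_cons, map_mul, ih, List.flatMap_cons, ← FreeGroup.mul_mk]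
    congr 1
    split_ifs
    · exact h _
    · rw [map_inv, h, FreeGroup.inv_mk]

theorem Psi_mk (W L : Wd) : Psi (mk W) (mk L) = mk (run W L) := by
  induction W with
  | nil => simp [mk_nil, run]
  | cons s W ih =>
    rw [mk_cons, map_mul, MulAut.mul_apply, ih]
    refine hom_mk (Psi (if s.2 then of s.1 else (of s.1)⁻¹)).toMonoidHom (imgP s) (fun j => ?_) _
    obtain ⟨i, b⟩ := s
    cases b
    · show Psi (of i)⁻¹ (of j) = _
      rw [map_inv, Psi_of, psi_inv_of, imgP]
      simp only [Bool.false_eq_true, if_false]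
      split_ifs <;> simp [mk_cons, mk_nil, mul_assoc]
    · show Psi (of i) (of j) = _
      rw [Psi_of, psi_of, imgP]
      simp only [if_true]
      split_ifs <;> simp [mk_cons, mk_nil, mul_assoc]

theorem Psi_mk_of (W : Wd) (j : ℕ) : Psi (mk W) (of j) = mk (run W [(j, true)]) := Psi_mk W _

variable {G : Type*} [Group G]

theorem lift_mk_mem (g : ℕ → G) {a b : ℕ} {W : Wd} (h : ∀ s ∈ W, a ≤ s.1 ∧ s.1 < b) :
    FreeGroup.lift g (mk W) ∈ closure (g '' Ico a b) := by
  induction W with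
  | nil => simp [mk_nil]
  | cons s W ih =>
    rw [mk_cons, map_mul]
    refine mul_mem ?_ (ih fun x hx => h x (List.mem_cons_of_mem _ hx))
    have : g s.1 ∈ closure (g '' Ico a b) :=
      subset_closure ⟨s.1, h s List.mem_cons_self, rfl⟩
    split_ifs <;> simpa using this

theorem Psi_fix {b : ℕ} {W : Wd} (h : ∀ s ∈ W, s.1 < b) {j : ℕ} (hj : b < j) :
    Psi (mk W) (of j) = of j :=
  (fix_of_closure (g := psi) (a := 0) (Or.inr hj) (MonoidHom.id _) (fun _ _ _ => rfl)
    (lift_mk_mem psi (fun s hs => ⟨Nat.zero_le _, h s hs⟩))).1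

/-- The decidable test for equality of braid words. -/
def SameW (b : ℕ) (W W' : Wd) : Prop :=
  (∀ s ∈ W, s.1 < b) ∧ (∀ s ∈ W', s.1 < b) ∧
    ∀ j ∈ List.range (b + 1), run W [(j, true)] = run W' [(j, true)]

instance (b : ℕ) (W W' : Wd) : Decidable (SameW b W W') := by unfold SameW; infer_instance

theorem SameW.psi {b : ℕ} {W W' : Wd} (h : SameW b W W') : Psi (mk W) = Psi (mk W') := by
  refine aut_ext fun j => ?_
  by_cases hj : b < j
  · rw [Psi_fix h.1 hj, Psi_fix h.2.1 hj]
  · rw [Psi_mk_of, Psi_mk_of, h.2.2 j (List.mem_range.2 (by omega))]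

theorem BraidRel.faithful' {g : ℕ → G} {a b : ℕ} (h : BraidRel g a b) (hab : a ≤ b)
    (ψ : G →* MulAut Fr) (hψ : ∀ i, a ≤ i → i < b → ψ (g i) = Pool.Agent.MP_6eaae3_al.psi i) {x : G}
    (hx : x ∈ closure (g '' Ico a b)) (h1 : ψ x = 1) : x = 1 := by
  obtain ⟨n, rfl⟩ := Nat.exists_eq_add_of_le hab
  exact BraidRel.faithful n h ψ hψ x hx h1

theorem BraidRel.prod {H : Type*} [Group H] {g : ℕ → G} {g' : ℕ → H} {a b : ℕ} (h : BraidRel g a b)
    (h' : BraidRel g' a b) : BraidRel (fun i => (g i, g' i)) a b :=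
  ⟨fun i h1 h2 => Prod.ext (h.braid i h1 h2) (h'.braid i h1 h2),
    fun i j h1 h2 h3 => Prod.ext (h.comm i j h1 h2 h3).eq (h'.comm i j h1 h2 h3).eq⟩

theorem lift_prod {H : Type*} [Group H] (g : ℕ → G) (g' : ℕ → H) (w : Fr) :
    FreeGroup.lift (fun i => (g i, g' i)) w = (FreeGroup.lift g w, FreeGroup.lift g' w) := by
  have : FreeGroup.lift (fun i => (g i, g' i)) = (FreeGroup.lift g).prod (FreeGroup.lift g') := by
    ext j <;> simp
  rw [this]; rfl

theorem SameW.lift {b : ℕ} {W W' : Wd} (h : SameW b W W') {g : ℕ → G} (hg : BraidRel g 0 b) :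
    FreeGroup.lift g (mk W) = FreeGroup.lift g (mk W') := by
  have h1 := lift_mk_mem (fun i => (g i, Pool.Agent.MP_6eaae3_al.psi i)) (a := 0)
    (fun s hs => ⟨Nat.zero_le _, h.1 s hs⟩)
  have h2 := lift_mk_mem (fun i => (g i, Pool.Agent.MP_6eaae3_al.psi i)) (a := 0)
    (fun s hs => ⟨Nat.zero_le _, h.2.1 s hs⟩)
  have h3 := (hg.prod (braidRel_psi 0 b)).faithful' (Nat.zero_le _)
    (MonoidHom.snd _ _) (fun _ _ _ => rfl) (mul_mem h1 (inv_mem h2)) (by
      rw [lift_prod, lift_prod]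
      show Psi (mk W) * (Psi (mk W'))⁻¹ = 1
      rw [h.psi, mul_inv_cancel])
  rw [lift_prod, lift_prod] at h3
  exact mul_inv_eq_one.1 (congrArg Prod.fst h3)

def powW (W : Wd) (k : ℤ) : Wd :=
  (List.replicate k.toNat W).flatten ++ (List.replicate (-k).toNat (invRev W)).flatten

theorem mk_powW (W : Wd) (k : ℤ) : (mk (powW W k) : Fr) = mk W ^ k := by
  have key : ∀ (W : Wd) (n : ℕ), (mk (List.replicate n W).flatten : Fr) = mk W ^ n := by
    intro W n
    induction n with
    | zero => simp [mk_nil]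
    | succ n ih => rw [List.replicate_succ, List.flatten_cons, ← FreeGroup.mul_mk, ih, pow_succ']
  rw [powW, ← FreeGroup.mul_mk, key, key, ← FreeGroup.inv_mk, inv_pow, ← zpow_natCast,
    ← zpow_natCast, ← zpow_neg, ← zpow_add]
  congr 1; omega

/-- Homomorphisms out of an Artin group. -/
def artinLift {V : Type} (m : V → V → ℕ) (f : V → G)
    (h : ∀ s t, s ≠ t → FreeGroup.lift f (alt s t (m s t)) = FreeGroup.lift f (alt t s (m s t))) :
    PresentedGroup (artinRels m) →* G :=
  PresentedGroup.toGroup (f := f) (by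
    rintro r ⟨s, t, hst, rfl⟩
    rw [map_mul, map_inv, h s t hst, mul_inv_cancel])

theorem artinLift_of {V : Type} (m : V → V → ℕ) (f : V → G) (h) (s : V) :
    artinLift m f h (PresentedGroup.of s) = f s := PresentedGroup.toGroup.of _

theorem artin_rel {V : Type} (m : V → V → ℕ) {s t : V} (h : s ≠ t) :
    FreeGroup.lift (PresentedGroup.of (rels := artinRels m)) (alt s t (m s t)) =
      FreeGroup.lift PresentedGroup.of (alt t s (m s t)) := by
  have e : FreeGroup.lift (PresentedGroup.of (rels := artinRels m)) =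
      PresentedGroup.mk (artinRels m) := by ext; simp [PresentedGroup.of]
  rw [e, ← mul_inv_eq_one, ← map_inv, ← map_mul]
  exact PresentedGroup.one_of_mem ⟨s, t, h, rfl⟩

end Pool.Agent.MP_6eaae3_al

end MrgPart1

-- marker of a merged file
example : 731051 + 780024 = 731051 + 780024 := rfl
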