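import Pool.Agent.MP_6eaae3_al.Rot
import Pool.Agent.MP_6eaae3_al.Words

-- ======== part 0: formerly Pool.Agent.MP_6eaae3_al.Ray
section MrgPart0

/-! Monodromy of paths in the punctured plane, computed with vertical cuts. -/

namespace Pool.Agent.MP_6eaae3_al

open Topology Filter unitInterval Set Metric Real

variable {G : Type} [Group G] {W : Type} [TopologicalSpace W]

/-- `z` lies on the vertical ray from `c`, downwards if `ε = 1`, upwards if `ε = -1`. -/
def OnRay (ε : ℝ) (z c : ℂ) : Prop := z.re = c.re ∧ ε * (z.im - c.im) ≤ 0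

open Classical in
noncomputable def pot (y : G) (z c : ℂ) : G := if c.re < z.re then y else 1

theorem pot_eventually {z c : W → ℂ} (hz : Continuous z) (hc : Continuous c) (y : G) {w : W}
    (h : (z w).re ≠ (c w).re) : ∀ᶠ v in 𝓝 w, pot y (z v) (c v) = pot y (z w) (c w) := by
  have a : Continuous fun w => (z w).re := Complex.continuous_re.comp hz
  have b : Continuous fun w => (c w).re := Complex.continuous_re.comp hc
  rcases lt_or_gt_of_ne h with e | e
  · filter_upwards [(isOpen_lt a b).mem_nhds e] with v hv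
    rw [pot, pot, if_neg (not_lt.2 (le_of_lt hv)), if_neg (not_lt.2 e.le)]
  · filter_upwards [(isOpen_lt b a).mem_nhds e] with v hv
    rw [pot, pot, if_pos hv, if_pos e]

/-- `k` records the crossings of the moving point `z` with the rays from the points `c j`. -/
def RFlat (J : Set ℕ) (ε : ℕ → ℝ) (y : ℕ → G) (z : W → ℂ) (c : ℕ → W → ℂ) (k : W → G) : Prop :=
  ∀ w, ((∀ j ∈ J, ¬ OnRay (ε j) (z w) (c j w)) → ∀ᶠ v in 𝓝 w, k v = k w) ∧
    ∀ j ∈ J, OnRay (ε j) (z w) (c j w) → ∀ᶠ v in 𝓝 w,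
      k v * (pot (y j) (z v) (c j v))⁻¹ = k w * (pot (y j) (z w) (c j w))⁻¹

variable {J : Set ℕ} {ε : ℕ → ℝ} {y : ℕ → G} {z : W → ℂ} {c : ℕ → W → ℂ} {k k' : W → G}

theorem RFlat.comp (h : RFlat J ε y z c k) {W' : Type} [TopologicalSpace W'] {φ : W' → W}
    (hφ : Continuous φ) :
    RFlat J ε y (fun w => z (φ w)) (fun j w => c j (φ w)) (fun w => k (φ w)) := fun w =>
  ⟨fun a => hφ.continuousAt.eventually ((h (φ w)).1 a),
    fun j hj a => hφ.continuousAt.eventually ((h (φ w)).2 j hj a)⟩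

theorem RFlat.unique [PreconnectedSpace W] (h : RFlat J ε y z c k) (h' : RFlat J ε y z c k')
    (s t : W) : k s * (k' s)⁻¹ = k t * (k' t)⁻¹ := by
  have : IsLocallyConstant (fun t => k t * (k' t)⁻¹) := by
    rw [IsLocallyConstant.iff_eventually_eq]
    intro w
    by_cases e : ∀ j ∈ J, ¬ OnRay (ε j) (z w) (c j w)
    · filter_upwards [(h w).1 e, (h' w).1 e] with v a b
      rw [a, b]
    · push Not at e
      obtain ⟨j, hj, e⟩ := e
      filter_upwards [(h w).2 j hj e, (h' w).2 j hj e] with v a b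
      calc k v * (k' v)⁻¹ = (k v * (pot (y j) (z v) (c j v))⁻¹) *
            (k' v * (pot (y j) (z v) (c j v))⁻¹)⁻¹ := by group
        _ = _ := by rw [a, b]; group
  exact this.apply_eq_of_preconnectedSpace s t

theorem RFlat.const [PreconnectedSpace W] (h : RFlat J ε y z c k)
    (e : ∀ w, ∀ j ∈ J, ¬ OnRay (ε j) (z w) (c j w)) (s t : W) : k s = k t :=
  ((IsLocallyConstant.iff_eventually_eq k).2 fun w => (h w).1 (e w)).apply_eq_of_preconnectedSpace
    s t

theorem RFlat.const' [PreconnectedSpace W] (h : RFlat J ε y z c k) (z₀ : ℂ) (c₀ : ℕ → ℂ)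
    (e : ∀ w, z w = z₀) (e' : ∀ w, ∀ j ∈ J, c j w = c₀ j) (s t : W) : k s = k t := by
  have h' : RFlat J ε y z c (fun _ => 1) := fun w =>
    ⟨fun _ => Eventually.of_forall fun _ => rfl, fun j hj _ => Eventually.of_forall fun v => by
      rw [e, e, e' v j hj, e' w j hj]⟩
  simpa using h.unique h' s t

theorem RFlat.map (h : RFlat J ε y z c k) {G' : Type} [Group G'] (φ : G →* G') :
    RFlat J ε (fun j => φ (y j)) z c (fun w => φ (k w)) := by
  have e : ∀ (y : G) z c, pot (φ y) z c = φ (pot y z c) := fun y z c => by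
    unfold pot; split_ifs <;> simp
  intro w
  refine ⟨fun a => ((h w).1 a).mono fun v hv => congrArg φ hv, fun j hj a => ?_⟩
  filter_upwards [(h w).2 j hj a] with v hv
  rw [e, e, ← map_inv, ← map_inv, ← map_mul, ← map_mul, hv]

theorem RFlat.congr (h : RFlat J ε y z c k) {ε' : ℕ → ℝ} {y' : ℕ → G} {c' : ℕ → W → ℂ}
    (e : ℕ → ℕ) (h1 : ∀ j ∈ J, e j ∈ J) (h2 : ∀ j ∈ J, ∃ i ∈ J, e i = j)
    (h3 : ∀ j ∈ J, ε' j = ε (e j) ∧ y' j = y (e j) ∧ c' j = c (e j)) : RFlat J ε' y' z c' k := by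
  intro w
  refine ⟨fun a => (h w).1 fun j hj => ?_, fun j hj => ?_⟩
  · obtain ⟨i, hi, rfl⟩ := h2 j hj
    rw [← (h3 i hi).1, ← (h3 i hi).2.2]; exact a i hi
  · rw [(h3 j hj).1, (h3 j hj).2.1, (h3 j hj).2.2]; exact (h w).2 _ (h1 j hj)

theorem exists_rflat [SimplyConnectedSpace W] [LocallyPathConnectedSpace W] (hJ : J.Finite)
    (hε : ∀ j, ε j ≠ 0) (y : ℕ → G) (hz : Continuous z) (hc : ∀ j, Continuous (c j))
    (hne : ∀ w, ∀ j ∈ J, z w ≠ c j w)
    (hd : ∀ w, ∀ j ∈ J, ∀ l ∈ J, OnRay (ε j) (z w) (c j w) → OnRay (ε l) (z w) (c l w) → j = l)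
    (w₀ : W) (g₀ : G) : ∃ k, RFlat J ε y z c k ∧ k w₀ = g₀ := by
  have op : ∀ j, IsOpen {w | ¬ OnRay (ε j) (z w) (c j w)} := fun j => by
    have := hc j
    have a : IsClosed {w | (z w).re = (c j w).re} := isClosed_eq (by fun_prop) (by fun_prop)
    have b : IsClosed {w | ε j * ((z w).im - (c j w).im) ≤ 0} :=
      isClosed_le (by fun_prop) continuous_const
    exact (a.inter b).isOpen_compl
  have strict : ∀ w, ∀ j ∈ J, OnRay (ε j) (z w) (c j w) → ε j * ((z w).im - (c j w).im) < 0 :=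
    fun w j hj h => h.2.lt_of_ne fun e => hne w j hj (Complex.ext h.1
      (sub_eq_zero.1 ((mul_eq_zero.1 e).resolve_left (hε j))))
  let U : Option ℕ → Set W := fun o => Option.casesOn o
    (⋂ j ∈ J, {w | ¬ OnRay (ε j) (z w) (c j w)})
    (fun j => {w | j ∈ J ∧ ε j * ((z w).im - (c j w).im) < 0} ∩
      ⋂ l ∈ J \ {j}, {w | ¬ OnRay (ε l) (z w) (c l w)})
  let p : Option ℕ → W → G := fun o w => Option.casesOn o 1 (fun j => pot (y j) (z w) (c j w))
  have loc : ∀ o w, w ∈ U o → (∀ j ∈ J, ¬ OnRay (ε j) (z w) (c j w)) →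
      ∀ᶠ v in 𝓝 w, p o v = p o w := by
    rintro (_ | j) w h1 h2
    · simp [p]
    · exact pot_eventually hz (hc j) _ fun e => h2 j h1.1.1 ⟨e, h1.1.2.le⟩
  let S : Sys W G (Option ℕ) :=
    { U := U
      p := p
      isOpen := by
        rintro (_ | j)
        · exact hJ.isOpen_biInter fun j _ => op j
        · refine IsOpen.inter ?_ ((hJ.subset sdiff_subset).isOpen_biInter fun j _ => op j)
          have := hc j
          by_cases e : j ∈ J
          · simp only [e, true_and]; exact isOpen_lt (by fun_prop) continuous_const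
          · simp [e]
      cover := fun w => by
        by_cases e : ∀ j ∈ J, ¬ OnRay (ε j) (z w) (c j w)
        · exact ⟨none, mem_iInter₂.2 e⟩
        · push Not at e
          obtain ⟨j, hj, e⟩ := e
          exact ⟨some j, ⟨hj, strict w j hj e⟩,
            mem_iInter₂.2 fun l hl a => hl.2 (hd w l hl.1 j hj a e)⟩
      compat := fun o o' w h1 h2 => by
        by_cases e : o = o'
        · subst e; simp
        have off : ∀ j ∈ J, ¬ OnRay (ε j) (z w) (c j w) := by
          intro j hj a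
          have key : ∀ o, w ∈ U o → o = some j := by
            rintro (_ | l) h
            · exact (mem_iInter₂.1 h j hj a).elim
            · by_contra e'
              exact mem_iInter₂.1 h.2 j ⟨hj, fun e'' => e' (by rw [e''])⟩ a
          exact e ((key o h1).trans (key o' h2).symm)
        filter_upwards [loc o w h1 off, loc o' w h2 off] with v a b
        rw [a, b] }
  obtain ⟨k, hk, hk0⟩ := exists_flat S continuous_id w₀ g₀
  refine ⟨k, fun w => ⟨fun a => ?_, fun j hj a => ?_⟩, hk0⟩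
  · simpa [S, p] using hk w none (mem_iInter₂.2 a)
  · exact hk w (some j) ⟨⟨hj, strict w j hj a⟩,
      mem_iInter₂.2 fun l hl b => hl.2 (hd w l hl.1 j hj b a)⟩

open Classical in
/-- Turning one ray upwards. -/
theorem RFlat.flip {a : ℕ → ℝ} (ha : Function.Injective a) (hz : Continuous z)
    (h : RFlat J (fun _ => 1) y z (fun j _ => (a j : ℂ)) k) {i : ℕ} (hi : i ∈ J)
    (hne : ∀ w, z w ≠ a i) :
    RFlat J (fun j => if j = i then -1 else 1)
      (fun j => if j = i then (y i)⁻¹ else if a i < a j then y i * y j * (y i)⁻¹ else y j) z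
      (fun j _ => (a j : ℂ)) (fun w => k w * (pot (y i) (z w) (a i))⁻¹) := by
  intro w
  refine ⟨fun e => ?_, fun j hj e => ?_⟩
  · by_cases r : OnRay 1 (z w) (a i)
    · exact (h w).2 i hi r
    · have r1 : (z w).re ≠ (a i : ℂ).re := fun q => by
        have := e i hi
        simp only [if_true, OnRay, q, true_and, not_le] at this r
        linarith
      filter_upwards [(h w).1 fun j hj => by
        by_cases q : j = i
        · rw [q]; exact r
        · simpa [q] using e j hj, pot_eventually hz continuous_const (y i) r1] with v b1 b2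
      rw [b1, b2]
  by_cases q : j = i
  · subst q
    simp only [if_true] at e ⊢
    have : ∀ l ∈ J, ¬ OnRay 1 (z w) (a l) := fun l _ r => by
      have e1 : l = j := ha (by simpa using r.1.symm.trans e.1)
      subst e1
      exact hne w (Complex.ext e.1 (by linarith [r.2, e.2]))
    filter_upwards [(h w).1 this] with v b
    rw [b]; unfold pot; split_ifs <;> group
  · simp only [if_neg q] at e ⊢
    have r1 : (z w).re ≠ (a i : ℂ).re := fun r => q (ha (by simpa using e.1.symm.trans r))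
    have r2 : pot (y i) (z w) (a i) = if a i < a j then y i else 1 := by
      rw [pot, e.1]; rfl
    have r3 : ∀ u, pot (if a i < a j then y i * y j * (y i)⁻¹ else y j) u (a j) =
        pot (y i) (z w) (a i) * pot (y j) u (a j) * (pot (y i) (z w) (a i))⁻¹ := fun u => by
      rw [r2]; unfold pot; split_ifs <;> group
    filter_upwards [(h w).2 j hj e, pot_eventually hz continuous_const (y i) r1] with v b1 b2
    rw [r3, r3, b2]
    calc _ = (k v * (pot (y j) (z v) (a j))⁻¹) * (pot (y i) (z w) (a i))⁻¹ := by group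
      _ = _ := by rw [b1]; group

namespace Geo

variable (g : Geo)

/-- Monodromy of a path with respect to the points with index in `J`. -/
def Mono (J : Set ℕ) (γ : I → ℂ) (w : Fr) : Prop :=
  ∃ k : I → Fr, RFlat J (fun _ => 1) FreeGroup.of γ (fun j _ => (g.a j : ℂ)) k ∧ k 0 = 1 ∧ k 1 = w

variable {g}

theorem not_pts {J : Set ℕ} {u : ℂ} (h : u ∉ g.pts J) : ∀ j ∈ J, u ≠ g.a j :=
  fun j hj e => h ⟨j, hj, e.symm⟩

theorem exists_std [SimplyConnectedSpace W] [LocallyPathConnectedSpace W] (hJ : J.Finite)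
    (y : ℕ → G) (hz : Continuous z) (hne : ∀ w, z w ∉ g.pts J) (w₀ : W) (g₀ : G) :
    ∃ k, RFlat J (fun _ => 1) y z (fun j _ => (g.a j : ℂ)) k ∧ k w₀ = g₀ :=
  exists_rflat hJ (fun _ => one_ne_zero) y hz (fun _ => continuous_const)
    (fun w => not_pts (hne w))
    (fun _ _ _ _ _ a b => g.mono.injective (by simpa using a.1.symm.trans b.1)) w₀ g₀

theorem Mono.exists (hJ : J.Finite) {γ : I → ℂ} (hγ : Continuous γ) (hne : ∀ s, γ s ∉ g.pts J) :
    ∃ w, g.Mono J γ w := by
  obtain ⟨k, h1, h2⟩ := exists_std hJ FreeGroup.of hγ hne 0 1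
  exact ⟨k 1, k, h1, h2, rfl⟩

theorem Mono.unique {γ : I → ℂ} {w w' : Fr} (h : g.Mono J γ w) (h' : g.Mono J γ w') : w = w' := by
  obtain ⟨k, a1, a2, a3⟩ := h
  obtain ⟨k', b1, b2, b3⟩ := h'
  have := a1.unique b1 0 1
  rw [a2, b2, a3, b3, mul_inv_cancel, eq_comm, mul_inv_eq_one] at this
  exact this

theorem Mono.square (hJ : J.Finite) {z : I × I → ℂ} (hz : Continuous z)
    (hne : ∀ p, z p ∉ g.pts J) (h0 : ∀ t, z (0, t) = z (0, 0)) {w u : Fr}
    (h1 : g.Mono J (fun s => z (s, 0)) w) (h2 : g.Mono J (fun t => z (1, t)) u) :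
    g.Mono J (fun s => z (s, 1)) (w * u) := by
  obtain ⟨K, hK, K0⟩ := exists_std hJ FreeGroup.of hz hne (0, 0) 1
  have e1 : K (1, 0) = w := Mono.unique
    ⟨_, hK.comp (φ := fun s : I => (s, (0 : I))) (by fun_prop), K0, rfl⟩ h1
  have e2 : K (0, 1) = 1 := ((hK.comp (φ := fun t : I => ((0 : I), t)) (by fun_prop)).const'
    (z (0, 0)) (fun j => g.a j) h0 (fun _ _ _ => rfl) 1 0).trans K0
  obtain ⟨k, a1, a2, a3⟩ := h2
  have e3 := (hK.comp (φ := fun t : I => ((1 : I), t)) (by fun_prop)).unique a1 1 0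
  rw [a2, a3, e1, inv_one, mul_one, mul_inv_eq_iff_eq_mul] at e3
  exact ⟨_, hK.comp (φ := fun s : I => (s, (1 : I))) (by fun_prop), e2, e3⟩

theorem Mono.const (J : Set ℕ) (u : ℂ) : g.Mono J (fun _ => u) 1 :=
  ⟨fun _ => 1, fun _ => ⟨fun _ => Eventually.of_forall fun _ => rfl,
    fun _ _ _ => Eventually.of_forall fun _ => rfl⟩, rfl, rfl⟩

theorem Mono.circle {J : Set ℕ} {i : ℕ} (hi : i ∈ J) {m r : ℝ} (h1 : |g.a i - m| < r)
    (h2 : ∀ j ∈ J, j ≠ i → r < |g.a j - m|) :
    g.Mono J (fun s => ⟨m - r * cos (2 * π * s), r * sin (2 * π * s)⟩) (FreeGroup.of i)⁻¹ := by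
  classical
  have hr : 0 < r := (abs_nonneg _).trans_lt h1
  have cre : Continuous fun s : I => m - r * cos (2 * π * s) := by fun_prop
  have bd : ∀ s : I, |m - r * cos (2 * π * s) - m| ≤ r := fun s => by
    rw [sub_sub_cancel_left, abs_neg, abs_mul, abs_of_pos hr]
    exact mul_le_of_le_one_right hr.le (abs_cos_le_one _)
  have up : ∀ s : I, (s : ℝ) ≤ 1 / 2 → 0 ≤ sin (2 * π * s) := fun s hs =>
    sin_nonneg_of_nonneg_of_le_pi (by have := s.2.1; positivity) (by nlinarith [pi_pos])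
  have dn : ∀ s : I, 1 / 2 ≤ (s : ℝ) → sin (2 * π * s) ≤ 0 := fun s hs => by
    have := sin_nonneg_of_nonneg_of_le_pi (x := 2 * π * s - π) (by nlinarith [pi_pos])
      (by nlinarith [pi_pos, s.2.2])
    rw [sin_sub_pi] at this; linarith
  have h3 := abs_lt.1 h1
  refine ⟨fun s => if (s : ℝ) ≤ 1 / 2 ∨ g.a i < m - r * cos (2 * π * s) then 1
    else (FreeGroup.of i)⁻¹, fun s => ⟨fun e => ?_, fun j hj e => ?_⟩, by simp, ?_⟩
  · rcases lt_trichotomy (g.a i) (m - r * cos (2 * π * s)) with q | q | q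
    · filter_upwards [(isOpen_lt continuous_const cre).mem_nhds q] with v hv
      rw [if_pos (Or.inr hv), if_pos (Or.inr q)]
    · have : (s : ℝ) < 1 / 2 := by
        by_contra q'
        exact e i hi ⟨q.symm, by simpa using mul_nonpos_of_nonneg_of_nonpos hr.le (dn s (not_lt.1 q'))⟩
      filter_upwards [(isOpen_lt continuous_subtype_val continuous_const).mem_nhds this] with v hv
      rw [if_pos (Or.inl (le_of_lt hv)), if_pos (Or.inl this.le)]
    · rcases lt_trichotomy (s : ℝ) (1 / 2) with q' | q' | q'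
      · filter_upwards [(isOpen_lt continuous_subtype_val continuous_const).mem_nhds q'] with v hv
        rw [if_pos (Or.inl (le_of_lt hv)), if_pos (Or.inl q'.le)]
      · rw [q', show 2 * π * (1 / 2) = π by ring, cos_pi] at q; linarith
      · filter_upwards [(isOpen_lt continuous_const continuous_subtype_val).mem_nhds q',
          (isOpen_lt cre continuous_const).mem_nhds q] with v hv hv'
        rw [if_neg (not_or.2 ⟨not_le.2 hv, not_lt.2 (le_of_lt hv')⟩),
          if_neg (not_or.2 ⟨not_le.2 q', not_lt.2 q.le⟩)]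
  · have e1 : m - r * cos (2 * π * s) = g.a j := e.1
    have e2 : r * sin (2 * π * s) ≤ 0 := by simpa using e.2
    obtain rfl : j = i := by
      by_contra q
      have := bd s
      rw [e1] at this
      linarith [h2 j hj q]
    have q' : 1 / 2 < (s : ℝ) := by
      by_contra q
      have a1 : sin (2 * π * s) = 0 := le_antisymm (by nlinarith) (up s (not_lt.1 q))
      have a2 := sin_sq_add_cos_sq (2 * π * s)
      rw [a1] at a2
      have a3 : (cos (2 * π * s) - 1) * (cos (2 * π * s) + 1) = 0 := by linarith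
      rcases mul_eq_zero.1 a3 with a | a <;> nlinarith
    have key : ∀ v : I, 1 / 2 < (v : ℝ) →
        (if (v : ℝ) ≤ 1 / 2 ∨ g.a j < m - r * cos (2 * π * v) then 1 else (FreeGroup.of j)⁻¹) *
        (pot (FreeGroup.of j) ⟨m - r * cos (2 * π * v), r * sin (2 * π * v)⟩ (g.a j))⁻¹ =
          ((FreeGroup.of j)⁻¹ : Fr) := fun v hv => by
      simp only [pot, not_le.2 hv, false_or, Complex.ofReal_re]
      split_ifs <;> simp
    filter_upwards [(isOpen_lt continuous_const continuous_subtype_val).mem_nhds q'] with v hv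
    rw [key v hv, key s q']
  · refine if_neg ?_
    simp only [Icc.coe_one, mul_one, cos_two_pi, not_or, not_le, not_lt]
    exact ⟨by norm_num, by linarith⟩

end Geo

end Pool.Agent.MP_6eaae3_al

end MrgPart0

-- ======== part 1: formerly Pool.Agent.MP_6eaae3_al.Act
section MrgPart1

/-! The action of half twists on monodromy, and the passage to mapping class groups. -/

namespace Pool.Agent.MP_6eaae3_al

open Topology Filter unitInterval Set Metric Real
open FreeGroup (of)

theorem RFlat.const_pot {G : Type} [Group G] {W : Type} [TopologicalSpace W] {J : Set ℕ}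
    {ε : ℕ → ℝ} {y : ℕ → G} {z : W → ℂ} {c : ℕ → W → ℂ} {k : W → G} [PreconnectedSpace W]
    (h : RFlat J ε y z c k)
    (e : ∀ j ∈ J, ∀ v w, pot (y j) (z v) (c j v) = pot (y j) (z w) (c j w)) (s t : W) :
    k s = k t := by
  have h' : RFlat J ε y z c (fun _ => 1) := fun w =>
    ⟨fun _ => Eventually.of_forall fun _ => rfl, fun j hj _ => Eventually.of_forall fun v => by
      rw [e j hj v w]⟩
  simpa using h.unique h' s t

namespace Geo

variable (g : Geo)

/-- The homeomorphism `h` acts by `ψ` on the monodromy of the paths from `b` to `e`. -/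
def Act (J : Set ℕ) (b e : ℂ) (h : ℂ ≃ₜ ℂ) (ψ : MulAut Fr) : Prop :=
  h b = b ∧ h e = e ∧ h ∈ keep (g.pts J) ∧ ∀ γ : I → ℂ, Continuous γ → (∀ s, γ s ∉ g.pts J) →
    γ 0 = b → γ 1 = e → ∀ w, g.Mono J γ w → g.Mono J (fun s => h (γ s)) (ψ w)

/-- A point that the half twist `i` does not see. -/
def Out (i : ℕ) (u : ℂ) : Prop :=
  (∀ θ, g.tw i θ u = u) ∧ (u.re < g.a i ∨ g.a (i + 1) < u.re)

variable {g} {J : Set ℕ} {b e : ℂ} {h h' : ℂ ≃ₜ ℂ} {ψ ψ' : MulAut Fr}

theorem Act.one : g.Act J b e 1 1 := ⟨rfl, rfl, one_mem _, fun _ _ _ _ _ _ h => h⟩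

theorem Act.mul (a : g.Act J b e h ψ) (a' : g.Act J b e h' ψ') :
    g.Act J b e (h * h') (ψ * ψ') :=
  ⟨by rw [Homeomorph.mul_apply, a'.1, a.1], by rw [Homeomorph.mul_apply, a'.2.1, a.2.1],
    mul_mem a.2.2.1 a'.2.2.1, fun γ h1 h2 h3 h4 w hw =>
      a.2.2.2 (fun s => h' (γ s)) (h'.continuous.comp h1) (fun s q => h2 s ((a'.2.2.1 _).1 q))
        (by rw [h3, a'.1]) (by rw [h4, a'.2.1]) _ (a'.2.2.2 γ h1 h2 h3 h4 w hw)⟩

theorem Act.inv (hJ : J.Finite) (a : g.Act J b e h ψ) : g.Act J b e h⁻¹ ψ⁻¹ := by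
  have e1 : h⁻¹ b = b := h.symm_apply_eq.2 a.1.symm
  have e2 : h⁻¹ e = e := h.symm_apply_eq.2 a.2.1.symm
  refine ⟨e1, e2, inv_mem a.2.2.1, fun γ h1 h2 h3 h4 w hw => ?_⟩
  have c1 : Continuous fun s => h⁻¹ (γ s) := h⁻¹.continuous.comp h1
  have c2 : ∀ s, h⁻¹ (γ s) ∉ g.pts J := fun s q => h2 s ((inv_mem a.2.2.1 _).1 q)
  obtain ⟨u, hu⟩ := Mono.exists hJ c1 c2
  have := a.2.2.2 _ c1 c2 (by rw [h3, e1]) (by rw [h4, e2]) u hu
  have e3 : (fun s => h (h⁻¹ (γ s))) = γ := funext fun s => h.apply_symm_apply _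
  rw [e3] at this
  rw [hw.unique this]
  simpa using hu

theorem Act.of_family (hJ : J.Finite) {H : I → ℂ ≃ₜ ℂ} (hH : IsFamily H) (h0 : H 0 = 1)
    (h1 : ∀ t, H t b = b) (h2 : ∀ t, H t e = e) (h3 : ∀ t, H t ∈ keep (g.pts J)) :
    g.Act J b e (H 1) 1 := by
  refine ⟨h1 1, h2 1, h3 1, fun γ c1 c2 c3 c4 w hw => ?_⟩
  have := Mono.square hJ (z := fun p : I × I => H p.2 (γ p.1))
    (hH.cont continuous_snd (c1.comp continuous_fst)) (fun p q => c2 _ ((h3 _ _).1 q))
    (fun t => by simp only [c3, h1]) (w := w) (u := 1) (by simpa [h0] using hw)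
    (by simpa only [c4, h2] using Mono.const J e)
  simpa using this

theorem tw_re (i : ℕ) (θ : ℝ) {j : ℕ} (hj : j = i ∨ j = i + 1) :
    g.a i ≤ (g.tw i θ (g.a j)).re ∧ (g.tw i θ (g.a j)).re ≤ g.a (i + 1) := by
  have hr := g.rad_pos i
  have c1 : g.rad i * cos θ ≤ g.rad i := mul_le_of_le_one_right hr.le (cos_le_one θ)
  have c2 : -g.rad i ≤ g.rad i * cos θ := by nlinarith [neg_one_le_cos θ]
  have e1 : g.a i = g.mid i - g.rad i := by unfold mid rad; ring
  have e2 : g.a (i + 1) = g.mid i + g.rad i := by unfold mid rad; ring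
  rcases hj with rfl | rfl
  · rw [tw_left]; constructor <;> simp only <;> linarith
  · rw [tw_right]; constructor <;> simp only <;> linarith

theorem Act.tw (hJ : J.Finite) {i : ℕ} (hi : i ∈ J) (hi' : i + 1 ∈ J) (hb : g.Out i b)
    (he : g.Out i e) : g.Act J b e (g.tw i π) (psi i) := by
  classical
  have kp : g.tw i π ∈ keep (g.pts J) := g.tw_pts (iff_of_true hi hi')
  refine ⟨hb.1 _, he.1 _, kp, fun γ c1 c2 c3 c4 w hw => ?_⟩
  obtain ⟨k, k1, k2, k3⟩ := hw
  have inj := g.mono.injective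
  have c1' : Continuous fun s => g.tw i π (γ s) := (g.tw i π).continuous.comp c1
  have c2' : ∀ s, g.tw i π (γ s) ∉ g.pts J := fun s q => c2 s ((kp _).1 q)
  obtain ⟨u, hu⟩ := Mono.exists hJ c1' c2'
  suffices u = psi i w by rwa [this] at hu
  obtain ⟨m, m1, m2, m3⟩ := hu
  have f1 := k1.flip inj c1 hi fun s => not_pts (c2 s) i hi
  have f2 := (m1.map (psi i)⁻¹.toMonoidHom).flip inj c1' hi' fun s => not_pts (c2' s) _ hi'
  have fam : IsFamily fun p : I × I => g.tw i (π * p.2) := g.tw_family i (by fun_prop)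
  have out : ∀ j, j ≠ i → j ≠ i + 1 → ∀ x, g.a i ≤ x → x ≤ g.a (i + 1) → g.a j ≠ x := by
    intro j j1 j2 x x1 x2
    rcases lt_or_gt_of_ne j1 with h | h
    · exact ((g.mono h).trans_le x1).ne
    · exact (x2.trans_lt (g.mono (by omega))).ne'
  have cross : ∀ (t : I) (u : ℂ), OnRay (-1) u (g.tw i (π * t) (g.a i)) →
      OnRay 1 u (g.tw i (π * t) (g.a (i + 1))) → False := by
    intro t u a1 a2
    have hr := g.rad_pos i
    have hs : 0 ≤ sin (π * t) := sin_nonneg_of_nonneg_of_le_pi (mul_nonneg pi_pos.le t.2.1)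
      (mul_le_of_le_one_right pi_pos.le t.2.2)
    rw [tw_left] at a1
    rw [tw_right] at a2
    have b1 : g.rad i * cos (π * t) = 0 := by linarith [a1.1, a2.1]
    have b2 : g.rad i * sin (π * t) = 0 := by
      have := a1.2; have := a2.2
      simp only at *
      nlinarith
    have := sin_sq_add_cos_sq (π * t)
    rw [(mul_eq_zero.1 b1).resolve_left hr.ne', (mul_eq_zero.1 b2).resolve_left hr.ne'] at this
    norm_num at this
  obtain ⟨K, hK, K0⟩ := exists_rflat (W := I × I) hJ (ε := fun j => if j = i then -1 else 1)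
    (fun j => by split_ifs <;> norm_num)
    (fun j => if j = i then (of i)⁻¹ else if g.a i < g.a j then of i * of j * (of i)⁻¹ else of j)
    (z := fun p => g.tw i (π * p.2) (γ p.1)) (c := fun j p => g.tw i (π * p.2) (g.a j))
    (fam.cont continuous_id (c1.comp continuous_fst))
    (fun j => fam.cont continuous_id continuous_const)
    (fun p j hj q => not_pts (c2 _) j hj ((g.tw i _).injective q))
    (fun p j _ l _ a1 a2 => by
      have q := a1.1.symm.trans a2.1
      by_cases j1 : j = i ∨ j = i + 1 <;> by_cases l1 : l = i ∨ l = i + 1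
      · rcases j1 with rfl | rfl <;> rcases l1 with rfl | rfl
        · rfl
        · exact (cross _ _ (by simpa using a1) (by simpa using a2)).elim
        · exact (cross _ _ (by simpa using a2) (by simpa using a1)).elim
        · rfl
      · push Not at l1
        rw [g.tw_ne l1.1 l1.2] at q
        exact (out l l1.1 l1.2 _ (tw_re i _ j1).1 (tw_re i _ j1).2 q.symm).elim
      · push Not at j1
        rw [g.tw_ne j1.1 j1.2] at q
        exact (out j j1.1 j1.2 _ (tw_re i _ l1).1 (tw_re i _ l1).2 q).elim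
      · push Not at j1 l1
        rw [g.tw_ne j1.1 j1.2, g.tw_ne l1.1 l1.2] at q
        exact inj q)
    (0, 0) (k 0 * (pot (of i) (γ 0) (g.a i))⁻¹)
  have side : ∀ s : I, g.Out i (γ s) → K (s, 1) = K (s, 0) := fun s hs =>
    (hK.comp (φ := fun t : I => (s, t)) (by fun_prop)).const_pot (fun j _ v w => by
      simp only [hs.1]
      by_cases j1 : j = i ∨ j = i + 1
      · have a1 := tw_re (g := g) i (π * v) j1
        have a2 := tw_re (g := g) i (π * w) j1
        rcases hs.2 with q | q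
        · rw [pot, pot, if_neg (not_lt.2 (q.le.trans a1.1)), if_neg (not_lt.2 (q.le.trans a2.1))]
        · rw [pot, pot, if_pos (a1.2.trans_lt q), if_pos (a2.2.trans_lt q)]
      · push Not at j1
        rw [g.tw_ne j1.1 j1.2, g.tw_ne j1.1 j1.2]) 1 0
  have z0 : g.tw i 0 = 1 := rot_zero _ _
  have g1 := hK.comp (φ := fun s : I => (s, (0 : I))) (by fun_prop)
  simp only [Icc.coe_zero, mul_zero, z0, Homeomorph.one_apply] at g1
  have g2 := g1.unique f1 1 0
  rw [K0, mul_inv_cancel, mul_inv_eq_one] at g2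
  have g3 := hK.comp (φ := fun s : I => (s, (1 : I))) (by fun_prop)
  simp only [Icc.coe_one, mul_one] at g3
  have sw : ∀ j ∈ J, Equiv.swap i (i + 1) j ∈ J := fun j hj => by
    rw [Equiv.swap_apply_def]; split_ifs <;> assumption
  have lt : ∀ j l, g.a j < g.a l ↔ j < l := fun _ _ => g.mono.lt_iff_lt
  have g4 := (g3.congr (Equiv.swap i (i + 1)) sw
    (fun j hj => ⟨_, sw j hj, Equiv.swap_apply_self _ _ _⟩) (fun j _ => ⟨?_, ?_, ?_⟩)).unique
    f2 1 0
  · have same : ∀ u, g.Out i u → pot (of i : Fr) u (g.a (i + 1)) = pot (of i) u (g.a i) := by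
      intro u hu
      have := g.mono (Nat.lt_succ_self i)
      rcases hu.2 with q | q
      · rw [pot, pot, if_neg (by simp; linarith), if_neg (by simp; linarith)]
      · rw [pot, pot, if_pos (by simpa), if_pos (by simp; linarith)]
    have e1 : (psi i)⁻¹.toMonoidHom (of (i + 1)) = of i := by
      show (psi i)⁻¹ _ = _
      rw [psi_inv_of, if_neg (by omega), if_pos rfl]
    rw [side 1 (c4 ▸ he), side 0 (c3 ▸ hb), g2, K0, k2, k3, m2, m3, e1, c3, c4, hb.1, he.1,
      same _ hb, same _ he, map_one, mul_inv_cancel, mul_inv_eq_one, mul_left_inj] at g4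
    rw [g4]
    exact ((psi i).apply_symm_apply u).symm
  · simp only [Equiv.swap_apply_def]; split_ifs <;> first | rfl | omega
  · have e1 : ∀ j, (psi i)⁻¹.toMonoidHom (of j) = (psi i)⁻¹ (of j) := fun _ => rfl
    simp only [e1, psi_inv_of, lt, Equiv.swap_apply_def]
    split_ifs <;> first | rfl | omega
  · funext s
    rw [tw_pi, Equiv.swap_apply_self]

theorem out_base {i : ℕ} (hi : i + 1 < g.N) : g.Out i (-g.R : ℝ) := by
  have h1 := g.box i (by omega)
  have h2 := (g.rad_pos 0).trans_le (g.gap 0)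
  have h3 := abs_nonneg (g.a i)
  refine ⟨fun θ => g.tw_mem hi θ _ ?_, Or.inl ?_⟩
  · show g.R ≤ _
    rw [Complex.norm_real, norm_neg]; exact le_abs_self _
  · rw [Complex.ofReal_re]; linarith [neg_abs_le (g.a i)]

/-- Elements represented by loops in the punctured disc. -/
def Loop (g : Geo) (J : Set ℕ) (w : Fr) : Prop :=
  ∃ γ : I → ℂ, Continuous γ ∧ (∀ s, ‖γ s‖ ≤ g.R ∧ γ s ∉ g.pts (Iio g.N)) ∧ γ 0 = (-g.R : ℝ) ∧
    γ 1 = (-g.R : ℝ) ∧ g.Mono J γ w

theorem Loop.act {w : Fr} (l : g.Loop J w) (hJ : J ⊆ Iio g.N) (hh : h ∈ g.Hp)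
    (a : g.Act J (-g.R : ℝ) (-g.R : ℝ) h ψ) : g.Loop J (ψ w) := by
  obtain ⟨γ, c1, c2, c3, c4, c5⟩ := l
  exact ⟨fun s => h (γ s), h.continuous.comp c1,
    fun s => ⟨Hc_norm_le hh.1 (c2 s).1, fun q => (c2 s).2 ((hh.2 _).1 q)⟩,
    by simp only [c3, a.1], by simp only [c4, a.1], a.2.2.2 γ c1 (fun s q => (c2 s).2 (image_mono hJ q)) c3 c4 w c5⟩

theorem loop_zero (hN : 1 < g.N) : g.Loop (Iio g.N) (of 0)⁻¹ := by
  have h1 := g.box 0 (by omega)
  have h2 := g.box 1 hN
  have h3 := (g.rad_pos 0).trans_le (g.gap 0)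
  have h4 := g.mono Nat.zero_lt_one
  have h5 := neg_abs_le (g.a 0)
  have h6 := le_abs_self (g.a 1)
  set m := ((g.a 0 + g.a 1) / 2 - g.R) / 2 with hm
  set r := ((g.a 0 + g.a 1) / 2 + g.R) / 2 with hr
  have r0 : 0 < r := by linarith
  have nm : ∀ s : I, ‖(⟨m - r * cos (2 * π * s), r * sin (2 * π * s)⟩ : ℂ) - m‖ = r := by
    intro s
    rw [← sq_eq_sq₀ (norm_nonneg _) r0.le, Complex.sq_norm, Complex.normSq_apply]
    simp only [Complex.sub_re, Complex.sub_im, Complex.ofReal_re, Complex.ofReal_im]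
    nlinarith [sin_sq_add_cos_sq (2 * π * s)]
  have a0 : |g.a 0 - m| < r := abs_lt.2 ⟨by linarith, by linarith⟩
  have a1 : ∀ j ∈ Iio g.N, j ≠ 0 → r < |g.a j - m| := fun j _ hj => by
    have := g.mono.monotone (show 1 ≤ j by omega)
    exact lt_abs.2 (Or.inl (by linarith))
  refine ⟨_, ?_, fun s => ⟨?_, ?_⟩, ?_, ?_, Mono.circle (mem_Iio.2 (by omega)) a0 a1⟩
  · exact Complex.equivRealProdCLM.symm.continuous.comp
      (f := fun s : I => (m - r * cos (2 * π * s), r * sin (2 * π * s))) (by fun_prop)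
  · have := norm_le_norm_add_norm_sub' (⟨m - r * cos (2 * π * s), r * sin (2 * π * s)⟩ : ℂ) m
    rw [nm, Complex.norm_real, Real.norm_of_nonpos (by linarith)] at this
    linarith
  · rintro ⟨j, hj, q⟩
    have := nm s
    rw [← q, ← Complex.ofReal_sub, Complex.norm_real, Real.norm_eq_abs] at this
    by_cases e : j = 0
    · rw [e] at this; linarith
    · linarith [a1 j hj e]
  · apply Complex.ext <;> simp; linarith
  · apply Complex.ext <;> simp; linarith

theorem loop_of {i : ℕ} (hN : 1 < g.N) (hi : i < g.N) : g.Loop (Iio g.N) (of i)⁻¹ := by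
  induction i with
  | zero => exact loop_zero hN
  | succ i ih =>
    have := (ih (by omega)).act Subset.rfl (g.tw_Hp hi) (Act.tw (finite_Iio _)
      (mem_Iio.2 (by omega)) hi (out_base hi) (out_base hi))
    rwa [map_inv, psi_self] at this

end Geo

/-- Restriction of homeomorphisms to an invariant subspace. -/
def restr {X : Type} [TopologicalSpace X] (p : X → Prop) (B : Set {x // p x})
    (K : Subgroup (X ≃ₜ X)) (h1 : ∀ h ∈ K, ∀ x, p x ↔ p (h x))
    (h2 : ∀ h ∈ K, ∀ x ∈ B, h x.1 = x.1) : K →* homeoRel {x // p x} B where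
  toFun h := ⟨h.1.subtype (h1 h.1 h.2), fun x hx => Subtype.ext (h2 h.1 h.2 x hx)⟩
  map_one' := rfl
  map_mul' _ _ := rfl

/-- The induced homomorphism of groups of isotopy classes. -/
def restrQ {X : Type} [TopologicalSpace X] (p : X → Prop) (B : Set {x // p x})
    (K : Subgroup (X ≃ₜ X)) (h1 : ∀ h ∈ K, ∀ x, p x ↔ p (h x))
    (h2 : ∀ h ∈ K, ∀ x ∈ B, h x.1 = x.1) : K ⧸ isotopicToId K →* MCG {x // p x} B :=
  QuotientGroup.map _ _ (restr p B K h1 h2) (by
    rintro f ⟨H, a1, a2, a3⟩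
    refine ⟨fun t => restr p B K h1 h2 (H t), ⟨?_, ?_⟩, by simp only [a2, map_one], by simp only [a3]⟩
    · exact (a1.cont continuous_fst (continuous_subtype_val.comp continuous_snd)).subtype_mk _
    · exact (a1.inv.cont continuous_fst
        (continuous_subtype_val.comp continuous_snd)).subtype_mk _)

theorem Geo.faithful (g : Geo) (hN : 1 < g.N) (p : ℂ → Prop)
    (hp : ∀ z, p z ↔ ‖z‖ ≤ g.R ∧ z ∉ g.pts (Iio g.N)) :
    ∃ s : ℕ → MCG {z // p z} {z | ‖z.1‖ = g.R}, BraidRel s 0 (g.N - 1) ∧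
      ∀ x ∈ Subgroup.closure ((fun i => (s i, psi i)) '' Ico 0 (g.N - 1)), x.1 = 1 → x.2 = 1 := by
  have h1 : ∀ h ∈ g.Hp, ∀ x, p x ↔ p (h x) := fun h hh x => by
    rw [hp, hp]
    refine and_congr ⟨Hc_norm_le hh.1, fun q => ?_⟩ (hh.2 x).not.symm
    simpa using Hc_norm_le (inv_mem hh.1) q
  have h2 : ∀ h ∈ g.Hp, ∀ x ∈ {z : {z // p z} | ‖z.1‖ = g.R}, h x.1 = x.1 :=
    fun h hh x hx => hh.1 _ (ge_of_eq hx)
  let ρ := restrQ p _ g.Hp h1 h2
  have br := g.braidRel_sig
  refine ⟨fun i => ρ (g.sig i), ⟨fun i a b => ?_, fun i j a b c => (br.comm i j a b c).map ρ⟩,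
    fun x hx hx1 => ?_⟩
  · rw [← map_mul, ← map_mul, br.braid i a b, map_mul, map_mul]
  have key : ∃ h : g.Hp, ρ (QuotientGroup.mk h) = x.1 ∧
      g.Act (Iio g.N) (-g.R : ℝ) (-g.R : ℝ) h x.2 ∧ ∀ j, g.N ≤ j → x.2 (of j) = of j := by
    clear hx1
    induction hx using Subgroup.closure_induction with
    | mem x hx =>
      obtain ⟨i, hi, rfl⟩ := hx
      have hi' : i + 1 < g.N := by have := hi.2; omega
      exact ⟨⟨_, g.tw_Hp hi'⟩, by rw [← cls_mem]; rfl, Geo.Act.tw (finite_Iio _)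
        (mem_Iio.2 (by omega)) hi' (Geo.out_base hi') (Geo.out_base hi'),
        fun j hj => psi_ne (by omega) (by omega)⟩
    | one => exact ⟨1, map_one ρ, Geo.Act.one, fun _ _ => rfl⟩
    | mul x y _ _ hx hy =>
      obtain ⟨h, a1, a2, a3⟩ := hx
      obtain ⟨h', b1, b2, b3⟩ := hy
      exact ⟨h * h', by rw [QuotientGroup.mk_mul, map_mul, a1, b1]; rfl, a2.mul b2,
        fun j hj => by rw [Prod.snd_mul, MulAut.mul_apply, b3 j hj, a3 j hj]⟩
    | inv x _ hx =>
      obtain ⟨h, a1, a2, a3⟩ := hx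
      exact ⟨h⁻¹, by rw [QuotientGroup.mk_inv, map_inv, a1]; rfl, a2.inv (finite_Iio _),
        fun j hj => x.2.symm_apply_eq.2 (a3 j hj).symm⟩
  obtain ⟨h, a1, a2, a3⟩ := key
  rw [hx1] at a1
  obtain ⟨H, b1, b2, b3⟩ := (QuotientGroup.eq_one_iff (restr p _ g.Hp h1 h2 h)).1 a1
  refine aut_ext fun j => ?_
  by_cases hj : g.N ≤ j
  · exact a3 j hj
  obtain ⟨γ, c1, c2, c3, c4, c5⟩ := Geo.loop_of hN (not_le.1 hj)
  let γ' : I → {z // p z} := fun s => ⟨γ s, (hp _).2 (c2 s)⟩
  have c6 : Continuous γ' := c1.subtype_mk _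
  have R0 : 0 ≤ g.R := (norm_nonneg _).trans (c2 0).1
  have fx : ∀ t s, γ s = (-g.R : ℝ) → ((H t).1 (γ' s)).1 = (-g.R : ℝ) := fun t s q => by
    rw [(H t).2 (γ' s) (by
      show ‖γ s‖ = g.R
      rw [q, Complex.norm_real, norm_neg, Real.norm_of_nonneg R0])]
    exact q
  have := Geo.Mono.square (finite_Iio g.N) (z := fun q : I × I => ((H q.2).1 (γ' q.1)).1)
    (continuous_subtype_val.comp (b1.cont continuous_snd (c6.comp continuous_fst)))
    (fun q => ((hp _).1 ((H q.2).1 (γ' q.1)).2).2) (fun t => by simp only [fx _ _ c3])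
    (w := (of j)⁻¹) (u := 1) (by simpa [b2] using c5)
    (by simpa only [fx _ _ c4] using Geo.Mono.const _ _)
  simp only [b3, mul_one] at this
  have := (a2.2.2.2 γ c1 (fun s => (c2 s).2) c3 c4 _ c5).unique this
  rwa [map_inv, inv_inj] at this

end Pool.Agent.MP_6eaae3_al

end MrgPart1

-- marker of a merged file
example : 731051 + 396138 = 731051 + 396138 := rfl
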