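import Pool.Agent.MP_6eaae3_al.Rep

-- ======== part 0: formerly Pool.Agent.MP_6eaae3_al.Fold
section MrgPart0

/-! Alternating products in braid groups and in dihedral Artin groups. -/

namespace Pool.Agent.MP_6eaae3_al

section

open FreeGroup (of)
open Set

variable {G H : Type} [Group G] [Group H]

def pr (f : ℕ → G) : ℕ → G
  | 0 => 1
  | n + 1 => pr f n * f n

theorem pr_mem {f : ℕ → G} {K : Subgroup G} {n : ℕ} (h : ∀ i < n, f i ∈ K) : pr f n ∈ K := by
  induction n with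
  | zero => exact one_mem _
  | succ n ih => exact mul_mem (ih fun i a => h i (by omega)) (h n (by omega))

theorem map_pr {F : Type} [FunLike F G H] [MonoidHomClass F G H] (φ : F) (f : ℕ → G) (n : ℕ) :
    φ (pr f n) = pr (fun i => φ (f i)) n := by
  induction n with
  | zero => simp [pr]
  | succ n ih => simp [pr, ih]

theorem pr_add (f : ℕ → G) (a b : ℕ) : pr f (a + b) = pr f a * pr (fun j => f (a + j)) b := by
  induction b with
  | zero => simp [pr]
  | succ b ih => rw [← add_assoc, pr, ih, pr, mul_assoc]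

theorem pr_commute {a b : ℕ → G} {n n' : ℕ} (h : ∀ i < n, ∀ j < n', Commute (a i) (b j)) :
    Commute (pr a n) (pr b n') :=
  pr_mem (K := Subgroup.centralizer {pr a n}) (fun j hj _ e => e ▸
    (pr_mem (K := Subgroup.centralizer {b j}) (fun i hi _ e => e ▸ (h i hi j hj).symm.eq) _ rfl).symm)
    _ rfl

theorem pr_mul {a b : ℕ → G} {n : ℕ} (h : ∀ i < n, ∀ j < n, Commute (a i) (b j)) :
    pr (fun i => a i * b i) n = pr a n * pr b n := by
  induction n with
  | zero => simp [pr]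
  | succ n ih =>
    have : Commute (pr b n) (a n) := pr_mem (K := Subgroup.centralizer {a n})
      (fun j hj _ e => e ▸ (h n (by omega) j (by omega)).eq) _ rfl |>.symm
    rw [pr, ih fun i u j v => h i (by omega) j (by omega), this.mul_mul_mul_comm, pr, pr]

theorem pr_fix {f : ℕ → MulAut H} {n : ℕ} {y : H} (h : ∀ i < n, f i y = y) : pr f n y = y :=
  pr_mem (K := MulAction.stabilizer (MulAut H) y) h

theorem pr_apply {f : ℕ → MulAut H} {n i₀ : ℕ} {y : H} (h0 : i₀ < n)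
    (h : ∀ i < n, i ≠ i₀ → f i y = y ∧ f i (f i₀ y) = f i₀ y) : pr f n y = f i₀ y := by
  obtain ⟨k, rfl⟩ := Nat.exists_eq_add_of_lt h0
  rw [add_right_comm, pr_add, pr, MulAut.mul_apply, MulAut.mul_apply,
    pr_fix fun i a => (h _ (by omega) (by omega)).1, pr_fix fun i a => (h _ (by omega) (by omega)).2]

def yy {α : Type} (w x : α) (i : ℤ) : α := if i % 2 = 0 then w else x

theorem yy_congr {α : Type} (w x : α) {i j : ℤ} (h : i % 2 = j % 2) : yy w x i = yy w x j := by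
  rw [yy, yy, h]

def aa (w x : G) (i : ℤ) (j : ℕ) : G := alG (yy w x i) (yy w x (i + 1)) j

variable {w x : G}

theorem aa_succ (i : ℤ) (j : ℕ) : aa w x i (j + 1) = yy w x i * aa w x (i + 1) j := by
  rw [aa, aa, alG, yy_congr w x (i := i + 1 + 1) (j := i) (by omega)]

theorem aa_succ' (j : ℕ) : ∀ i : ℤ, aa w x i (j + 1) = aa w x i j * yy w x (i + j) := by
  induction j with
  | zero => intro i; simp [aa, alG]
  | succ j ih => intro i; rw [aa_succ, ih, aa_succ, mul_assoc]; congr 3; push_cast; ring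

theorem aa_eq {m : ℕ} (rel : alG w x m = alG x w m) (i : ℤ) : aa w x i m = alG w x m := by
  rw [aa, yy, yy]
  split_ifs <;> first | omega | rfl | exact rel.symm

theorem yy_mem {K : Subgroup G} (hw : w ∈ K) (hx : x ∈ K) (i : ℤ) : yy w x i ∈ K := by
  unfold yy; split_ifs <;> assumption

def mvE (m : ℕ) (p : ℤ) (d : ℕ → H) (k : ℕ) : H :=
  if 0 < k ∧ k < m ∧ (k + p) % 2 = 1 then d (k - 1) * (d k)⁻¹ * d (k + 1) else d k

theorem evol {m : ℕ} {p : ℤ} {u : ℕ → ℕ → H} (hu : ∀ r, u (r + 1) = mvE m (p + r) (u r)) :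
    ∀ k j, k + j = m → u m j = u 0 0 * (u 0 k)⁻¹ * u 0 m := by
  have fx : ∀ r k : ℕ, ¬ (0 < k ∧ k < m ∧ (k + (p + r)) % 2 = 1) → u (r + 1) k = u r k :=
    fun r k h => by rw [hu, mvE, if_neg h]
  have mv : ∀ r k : ℕ, k + 1 < m → (k + 1 + (p + r)) % 2 = 1 →
      u (r + 1) (k + 1) = u r k * (u r (k + 1))⁻¹ * u r (k + 2) :=
    fun r k a b => by rw [hu, mvE, if_pos ⟨by omega, a, b⟩]; rfl
  have b0 : ∀ r k, k = 0 ∨ k = m → u r k = u 0 k := fun r k h => by
    induction r with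
    | zero => rfl
    | succ r ih => rw [fx r k (by omega), ih]
  have Rm : ∀ j r k : ℕ, k + j < m → (k + j + (p + r)) % 2 = 1 →
      (u (r + j) k)⁻¹ * u (r + j) (k + 1) = (u r (k + j))⁻¹ * u r (k + j + 1) := fun j r => by
    induction j with
    | zero => intros; rfl
    | succ j ih =>
      intro k a b
      rw [← add_assoc, mv _ k (by omega) (by omega), fx _ k (by omega), mul_assoc,
        inv_mul_cancel_left, ih (k + 1) (by omega) (by omega), add_right_comm k 1 j]; rfl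
  have Lm : ∀ j r k : ℕ, k + j < m → (k + 1 + (p + r)) % 2 = 1 →
      u (r + j) (k + j) * (u (r + j) (k + j + 1))⁻¹ = u r k * (u r (k + 1))⁻¹ := fun j r k => by
    induction j with
    | zero => intros; rfl
    | succ j ih =>
      intro a b
      rw [← add_assoc, ← add_assoc, mv _ _ (by omega) (by omega), fx _ (k + j + 1 + 1) (by omega),
        mul_inv_cancel_right, ih (by omega) b]
  intro k
  induction k with
  | zero => intro j e; rw [b0 _ j (by omega), mul_inv_cancel, one_mul, ← e, zero_add]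
  | succ k ih =>
    intro j e
    have i := ih (j + 1) (by omega)
    by_cases q : (k + p) % 2 = 1
    · have a := Rm k 0 0 (by omega) (by omega)
      have b := Lm j (k + 1) 0 (by omega) (by omega)
      simp only [zero_add, e, b0 _ 0 (Or.inl rfl), fx k 1 (by omega)] at a b
      rw [mul_inv_eq_iff_eq_mul.1 b, i, inv_mul_eq_iff_eq_mul.1 a]; group
    · have a := Lm j 0 k (by omega) (by omega)
      have b := Rm k (j + 1) j (by omega) (by omega)
      rw [fx j _ (by omega), add_comm j k, show k + j + 1 = m by omega,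
        show j + 1 + k = m by omega, b0 (j + 1) m (Or.inr rfl), i] at b
      rw [zero_add, show k + j + 1 = m by omega, b0 j m (Or.inr rfl)] at a
      rw [mul_inv_eq_iff_eq_mul.1 a, inv_mul_eq_iff_eq_mul, ← mul_inv_eq_iff_eq_mul] at b
      rw [← b]; group

theorem evol_aa {m : ℕ} {q : ℤ} {R : G → (ℕ → H) → Prop}
    (h : ∀ g d p, R g d → R (g * yy w x p) (mvE m (p + q) d)) {g d} (h0 : R g d) (p : ℤ) :
    R (g * aa w x p m) fun k => if k ≤ m then d 0 * (d (m - k))⁻¹ * d m else d k := by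
  let u : ℕ → ℕ → H := fun r => Nat.rec d (fun r v => mvE m (p + q + r) v) r
  have a : ∀ r, R (g * aa w x p r) (u r) := fun r => by
    induction r with
    | zero => rw [aa, alG, mul_one]; exact h0
    | succ r ih =>
      rw [aa_succ', ← mul_assoc]
      have := h _ _ (p + r) ih
      rwa [add_right_comm] at this
  have b : ∀ k, ¬ k ≤ m → ∀ r, u r k = d k := fun k hk r => by
    induction r with
    | zero => rfl
    | succ r ih => exact (if_neg (by omega)).trans ih
  have : u m = fun k => if k ≤ m then d 0 * (d (m - k))⁻¹ * d m else d k := funext fun k => by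
    split_ifs with e
    exacts [evol (u := u) (fun _ => rfl) _ k (by omega), b k e m]
  exact this ▸ a m

theorem psi_pr (i k : ℕ) : psi i (pr of k) =
    if k = i + 1 then pr of i * (pr of (i + 1))⁻¹ * pr of (i + 2) else pr of k := by
  induction k with
  | zero => simp [pr]
  | succ k ih =>
    rw [pr, map_mul, ih, psi_of]
    by_cases a : k = i
    · subst a; simp [pr, mul_assoc]
    by_cases b : k = i + 1
    · subst b; simp [pr, mul_assoc]
    · simp [a, b]

/-- The product of every other generator. -/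
def eo (g : ℕ → G) (n : ℕ) (p : ℤ) : G := pr (fun i => if (i + p) % 2 = 0 then g i else 1) n

theorem eo_congr (g : ℕ → G) (n : ℕ) {p q : ℤ} (h : p % 2 = q % 2) : eo g n p = eo g n q := by
  simp only [eo, show ∀ i : ℕ, (i + p) % 2 = (i + q) % 2 from fun i => by omega]

theorem eo_mem {g : ℕ → G} {K : Subgroup G} {n : ℕ} (h : ∀ i < n, g i ∈ K) (p : ℤ) : eo g n p ∈ K :=
  pr_mem fun i a => by split_ifs; exacts [h i a, one_mem _]

theorem map_eo (φ : G →* H) (g : ℕ → G) (n : ℕ) (p : ℤ) : φ (eo g n p) = eo (fun i => φ (g i)) n p := by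
  simp only [eo, map_pr, apply_ite φ, map_one]

theorem eo_commute {a b : ℕ → G} {n n' : ℕ} (h : ∀ i < n, ∀ j < n', Commute (a i) (b j)) (p q : ℤ) :
    Commute (eo a n p) (eo b n' q) :=
  pr_commute fun i u j v => by split_ifs <;> simp [h i u j v]

theorem fold_psi (M : ℕ) (p : ℤ) : alG (eo psi M p) (eo psi M (p + 1)) (M + 1) =
    alG (eo psi M (p + 1)) (eo psi M p) (M + 1) := by
  have e : ∀ p k, eo psi M p (pr of k) = mvE (M + 1) p (pr of) k := fun p k => by
    unfold mvE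
    split_ifs with q
    · obtain ⟨k, rfl⟩ := Nat.exists_eq_add_one.2 q.1
      have r : ((k : ℤ) + p) % 2 = 0 := by omega
      rw [eo, pr_apply (i₀ := k) (by omega) fun i _ ne => ?_, if_pos r, psi_pr, if_pos rfl]; rfl
      rw [if_pos r, psi_pr k, if_pos rfl]
      split_ifs with t
      · simp only [map_mul, map_inv, psi_pr]
        rw [if_neg (by omega), if_neg (by omega), if_neg (by omega)]; simp
      · simp
    · refine pr_fix fun i a => ?_
      split_ifs
      exacts [by rw [psi_pr, if_neg (by omega)], rfl]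
  have y : ∀ p, yy (eo psi M 0) (eo psi M 1) p = eo psi M p := fun p => by
    unfold yy; split_ifs <;> exact eo_congr _ _ (by omega)
  have k := fun p => evol_aa (m := M + 1) (q := 0) (w := eo psi M 0) (x := eo psi M 1)
    (R := fun g d => ∀ k, g (pr of k) = d k) (fun g d p h k => by
      rw [y, MulAut.mul_apply, e, add_zero, mvE, mvE]
      split_ifs <;> simp [h]) (g := 1) (d := pr of) (fun _ => rfl) p
  simp only [one_mul, aa, y] at k
  refine aut_ext fun j => ?_
  rw [show (of j : Fr) = (pr of j)⁻¹ * pr of (j + 1) by simp [pr], map_mul, map_mul, map_inv, map_inv,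
    k, k, eo_congr _ _ (p := p) (q := p + 1 + 1) (by omega), k, k]

theorem fold {g : ℕ → G} {M : ℕ} (h : BraidRel g 0 M) (p : ℤ) :
    alG (eo g M p) (eo g M (p + 1)) (M + 1) = alG (eo g M (p + 1)) (eo g M p) (M + 1) := by
  have m := fun p => eo_mem (g := fun i => (g i, psi i)) (n := M)
    (K := Subgroup.closure ((fun i => (g i, psi i)) '' Ico 0 M))
    (fun i a => Subgroup.subset_closure ⟨i, ⟨Nat.zero_le _, a⟩, rfl⟩) p
  have := (h.prod (braidRel_psi 0 M)).faithful' (Nat.zero_le _) (MonoidHom.snd _ _) (fun _ _ _ => rfl)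
    (mul_mem (alG_mem (M + 1) (m p) (m (p + 1))) (inv_mem (alG_mem (M + 1) (m (p + 1)) (m p)))) (by
      simp only [map_mul, map_inv, map_alG, map_eo]
      exact mul_inv_eq_one.2 (fold_psi M p))
  have := congrArg (MonoidHom.fst _ _) (mul_inv_eq_one.1 this)
  simp only [map_alG, map_eo] at this
  exact this

theorem fold_blocks {g : ℕ → G} {M : ℕ} (K : ℕ)
    (br : ∀ i, i + 1 < M * K → ¬ M ∣ i + 1 → g i * g (i + 1) * g i = g (i + 1) * g i * g (i + 1))
    (cm : ∀ i j, i < j → j < M * K → j ≠ i + 1 ∨ M ∣ j → Commute (g i) (g j)) (p : ℤ) :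
    alG (eo g (M * K) p) (eo g (M * K) (p + 1)) (M + 1) =
      alG (eo g (M * K) (p + 1)) (eo g (M * K) p) (M + 1) := by
  induction K with
  | zero =>
    have : ∀ k, alG (1 : G) 1 k = 1 := fun k => by induction k <;> simp [alG, *]
    simp [eo, pr]
  | succ K ih =>
    rw [mul_add_one] at br cm ⊢
    have e : ∀ p, eo g (M * K + M) p = eo g (M * K) p * eo (fun j => g (M * K + j)) M (p + M * K) :=
      fun p => by
        rw [eo, pr_add, eo, eo]; congr 2; ext j; push_cast; rw [add_comm p, add_assoc, add_left_comm]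
    have c := eo_commute (a := g) (b := fun j => g (M * K + j)) (n := M * K) (n' := M)
      fun i u j v => cm _ _ (by omega) (by omega) (by
        by_cases q : j = 0
        · exact Or.inr (by simp [q])
        · exact Or.inl (by omega))
    rw [e, e, alG_mul _ (c _ _) (c _ _) (c _ _) (c _ _), alG_mul _ (c _ _) (c _ _) (c _ _) (c _ _),
      ih (fun i a => br i (by omega)) fun i j a b => cm i j a (by omega), add_right_comm p,
      fold (g := fun j => g (M * K + j)) (M := M) ⟨fun i _ a => br (M * K + i) (by omega) fun q => ?_, fun i j _ a b => cm _ _ (by omega) (by omega)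
        (Or.inl (by omega))⟩]
    rw [add_assoc, Nat.dvd_add_right (dvd_mul_right _ _)] at q
    exact absurd (Nat.le_of_dvd (by omega) q) (by omega)

end


open FreeGroup (of)
open Set

variable {G H : Type} [Group G] [Group H] {w x : G}

structure Cheb (M : ℕ) (s : ℕ → ℝ) : Prop where
  z : s 0 = 0
  o : s 1 = 1
  l : s M = 1
  e : s (M + 1) = 0
  rc : ∀ j, s (j + 2) = s 2 * s (j + 1) - s j
  gt : ∀ j, 1 < j → j < M → 1 < s j

theorem exists_cheb {M : ℕ} (hM : 2 ≤ M) : ∃ s, Cheb M s := by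
  have hM' : (2 : ℝ) ≤ M := by exact_mod_cast hM
  obtain ⟨θ, h0, h1⟩ : ∃ θ : ℝ, 0 < θ ∧ (M + 1) * θ = Real.pi :=
    ⟨Real.pi / (M + 1), by positivity, by field_simp⟩
  have p : 0 < Real.sin θ := Real.sin_pos_of_pos_of_lt_pi h0 (by nlinarith)
  refine ⟨fun j => Real.sin (j * θ) / Real.sin θ, by simp, by simp [p.ne'], ?_, by simp [h1],
    fun j => ?_, fun j a b => ?_⟩
  · rw [show M * θ = Real.pi - θ by linarith, Real.sin_pi_sub, div_self p.ne']
  · push_cast
    rw [show (j + 2) * θ = (j + 1) * θ + θ by ring, show j * θ = (j + 1) * θ - θ by ring,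
      Real.sin_add, Real.sin_sub, Real.sin_two_mul]
    field_simp; ring
  · have a' : (2 : ℝ) ≤ j := by exact_mod_cast a
    have b' : (j + 1 : ℝ) ≤ M := by exact_mod_cast b
    rw [one_lt_div p]
    by_cases q : j * θ ≤ Real.pi / 2
    · exact Real.sin_lt_sin_of_lt_of_le_pi_div_two (by linarith [Real.pi_pos]) q (by nlinarith)
    · rw [← Real.sin_pi_sub (j * θ)]
      exact Real.sin_lt_sin_of_lt_of_le_pi_div_two (by linarith [Real.pi_pos]) (by linarith)
        (by nlinarith)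

theorem Cheb.ge {M : ℕ} {s : ℕ → ℝ} (h : Cheb M s) {j : ℕ} (a : j < M) : 1 ≤ s (j + 1) := by
  by_cases q : j = 0
  · rw [q, h.o]
  by_cases r : j + 1 = M
  · rw [r, h.l]
  · exact (h.gt _ (by omega) (by omega)).le

/-- Normal forms in a dihedral Artin group. -/
inductive NF (w x Δ : G) (M : ℕ) : G → ℤ → Prop
  | base (a : ℤ) : NF w x Δ M (x ^ a) 0
  | step {h i} (j : ℕ) : NF w x Δ M h i → j < M → NF w x Δ M (h * aa w x i (j + 1)) (i + j)
  | del {h i} (k : ℤ) : NF w x Δ M h i → NF w x Δ M (h * Δ ^ k) (i + k * (M - 1))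

variable {M : ℕ} {Δ : G}

theorem del_yy (rel : ∀ i, aa w x i (M + 1) = Δ) (k i : ℤ) :
    Δ ^ k * yy w x (i + k * (M - 1)) = yy w x i * Δ ^ k := by
  have a : ∀ i, Δ * yy w x (i + (M - 1)) = yy w x i * Δ := fun i => by
    have := aa_succ' (w := w) (x := x) (M + 1) i
    rw [aa_succ, rel, rel] at this
    rw [this, yy_congr w x (j := i + (M + 1 : ℕ)) (by omega)]
  induction k using Int.induction_on with
  | zero => simp
  | succ k ih => rw [zpow_add_one, add_mul, one_mul, ← add_assoc, mul_assoc, a, ← mul_assoc, ih, mul_assoc]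
  | pred k ih =>
    have := a (i + (-k - 1) * (M - 1))
    rw [show i + (-k - 1) * (M - 1) + (M - 1) = i + -k * (M - 1) by ring] at this
    rw [zpow_sub_one, ← mul_assoc, ← ih, mul_assoc, mul_assoc, inv_mul_eq_iff_eq_mul.2 this.symm |>.symm]
    group

theorem NF.all (rel : ∀ i, aa w x i (M + 1) = Δ) (hM : 0 < M) {g : G}
    (hg : g ∈ Subgroup.closure {w, x}) : ∃ i, NF w x Δ M g i := by
  have a : ∀ h i, NF w x Δ M h i → ∃ i', NF w x Δ M (h * yy w x (i + 1)) i' := fun h i n => by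
    induction n with
    | base a => exact ⟨0, by simpa [yy, zpow_add_one] using NF.base (a + 1)⟩
    | @step h i j n b _ =>
      rw [mul_assoc, add_assoc, ← Nat.cast_succ, ← aa_succ']
      by_cases q : j + 1 < M
      · exact ⟨_, n.step _ q⟩
      · rw [show j + 1 = M by omega, rel]
        exact ⟨_, by simpa using n.del 1⟩
    | del k _ ih =>
      obtain ⟨i', ih⟩ := ih
      rw [add_right_comm, mul_assoc, del_yy rel, ← mul_assoc]
      exact ⟨_, ih.del k⟩
  have b : ∀ h p, (∃ i, NF w x Δ M h i) → ∃ i', NF w x Δ M (h * yy w x p) i' := by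
    rintro h p ⟨i, n⟩
    by_cases q : p % 2 = i % 2
    · exact ⟨_, by simpa [aa, alG, yy_congr w x q] using n.step 0 hM⟩
    · rw [yy_congr w x (j := i + 1) (by omega)]; exact a h i n
  have c : ∀ h p, (∃ i, NF w x Δ M h i) → ∃ i', NF w x Δ M (h * (yy w x p)⁻¹) i' := fun h p n => by
    have : ∀ j, ∃ i, NF w x Δ M (h * aa w x (p + 1) j) i := fun j => by
      induction j with
      | zero => simpa [aa, alG] using n
      | succ j ih => rw [aa_succ', ← mul_assoc]; exact b _ _ ih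
    obtain ⟨i, n⟩ := this M
    rw [show h * (yy w x p)⁻¹ = h * aa w x (p + 1) M * Δ ^ (-1 : ℤ) by simp [← rel p, aa_succ]]
    exact ⟨_, n.del (-1)⟩
  induction hg using Subgroup.closure_induction_right with
  | one => exact ⟨0, by simpa using NF.base 0⟩
  | mul_right g _ y hy ih => rcases hy with rfl | rfl; exacts [b g 0 ih, b g 1 ih]
  | mul_inv_cancel g _ y hy ih => rcases hy with rfl | rfl; exacts [c g 0 ih, c g 1 ih]

theorem hecke {s : ℕ → ℝ} (hs : Cheb M s) (hM : 0 < M) (rel : ∀ i, aa w x i (M + 1) = Δ)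
    {f0 f1 : G → ℝ} {K : Subgroup G} (hw : w ∈ K) (hx : x ∈ K)
    (mw : ∀ g ∈ K, f0 (g * w) = f0 g ∧ f1 (g * w) = f1 g + s 2 * f0 g)
    (mx : ∀ g ∈ K, f1 (g * x) = f1 g ∧ f0 (g * x) = f0 g - s 2 * f1 g) (i0 : f0 1 = 1) (i1 : f1 1 = 0)
    {g : G} (hg : g ∈ Subgroup.closure {w, x}) :
    (f1 g = 0 → ∃ a k : ℤ, g = x ^ a * Δ ^ k) ∧
      (f0 g = 1 → ∃ a k b : ℤ, g = x ^ a * Δ ^ k * w ^ b) := by
  have ha : ∀ i j, aa w x i j ∈ K := fun i j => alG_mem _ (yy_mem hw hx _) (yy_mem hw hx _)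
  have hΔ : Δ ∈ K := rel 0 ▸ ha 0 _
  let F : G → ℤ → ℝ := fun g i =>
    if i % 4 = 0 then f0 g else if i % 4 = 1 then f1 g else if i % 4 = 2 then -f0 g else -f1 g
  have an : ∀ g i, F g (i + 1 + 1) = -F g i := fun g i => by
    simp only [F]; split_ifs <;> first | omega | simp
  have mv : ∀ g ∈ K, ∀ i, F (g * yy w x i) i = F g i ∧
      F (g * yy w x i) (i + 1) = F g (i + 1) + s 2 * F g i := fun g hg i => by
    simp only [F, yy]
    split_ifs <;> first | omega | (simp only [mw g hg, mx g hg, true_and]; try ring)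
  have Fa : ∀ g ∈ K, ∀ i, ∀ j : ℕ,
      F (g * aa w x i (j + 1)) (i + j) = s (j + 1) * F g i + s j * F g (i + 1) ∧
      F (g * aa w x i (j + 1)) (i + j + 1) = s (j + 2) * F g i + s (j + 1) * F g (i + 1) := by
    intro g hg i j
    induction j with
    | zero => simp [aa, alG, mv g hg, hs.z, hs.o, add_comm]
    | succ j ih =>
      have := mv _ (mul_mem hg (ha i (j + 1))) (i + (j + 1 : ℕ))
      rw [aa_succ', ← mul_assoc, this.1, this.2, Nat.cast_succ, ← add_assoc, an, ih.1, ih.2,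
        hs.rc (j + 1), hs.rc j]
      exact ⟨rfl, by ring⟩
  have Fd : ∀ g ∈ K, ∀ i, F (g * Δ) (i + (M - 1)) = F g i := fun g hg i => by
    have := (Fa g hg (i - 1) M).1
    rw [rel, hs.e, hs.l, show i - 1 + M = i + (M - 1) by ring] at this
    simpa using this
  have Fk : ∀ g ∈ K, ∀ k i : ℤ, F (g * Δ ^ k) (i + k * (M - 1)) = F g i := fun g hg k i => by
    induction k using Int.induction_on with
    | zero => simp
    | succ k ih =>
      rw [zpow_add_one, add_mul, one_mul, ← add_assoc, ← mul_assoc, Fd _ (mul_mem hg (zpow_mem hΔ _)), ih]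
    | pred k ih =>
      rw [← ih, ← Fd _ (mul_mem hg (zpow_mem hΔ _)), zpow_sub_one]
      congr 1
      exacts [by group, by ring]
  have Fx : ∀ a : ℤ, f0 (x ^ a) = 1 ∧ f1 (x ^ a) = 0 := fun a => by
    induction a using Int.induction_on with
    | zero => simp [i0, i1]
    | succ k ih => rw [zpow_add_one, (mx _ (zpow_mem hx _)).1, (mx _ (zpow_mem hx _)).2, ih.1, ih.2]; simp
    | pred k ih =>
      have := mx _ (zpow_mem hx (-k - 1))
      rw [← zpow_add_one, sub_add_cancel, ih.1, ih.2] at this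
      simpa [← this.1, eq_comm] using this.2
  let Z : G → ℤ → Prop := fun h i => ∃ a k b : ℤ, h = x ^ a * Δ ^ k * yy w x i ^ b
  have Zd : ∀ h i k, Z h i → Z (h * Δ ^ k) (i + k * (M - 1)) := by
    rintro _ i k ⟨a, l, b, rfl⟩
    refine ⟨a, l + k, b, ?_⟩
    rw [mul_assoc, ← (SemiconjBy.zpow_right (del_yy rel k i) b).eq, zpow_add]; group
  have sp : ∀ i, aa w x i M = (yy w x (i + 1))⁻¹ * Δ ^ (1 : ℤ) := fun i => by
    rw [zpow_one, eq_inv_mul_iff_mul_eq, ← rel (i + 1), aa_succ, aa, aa,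
      yy_congr w x (i := i + 1 + 1) (j := i) (by omega),
      yy_congr w x (i := i + 1 + 1 + 1) (j := i + 1) (by omega)]
  have key : ∀ h i, NF w x Δ M h i → h ∈ K ∧ 1 ≤ F h i ∧ (F h (i + 1) = 0 ∨ 1 ≤ F h (i + 1)) ∧
      (F h (i + 1) = 0 → ∃ a k : ℤ, h = x ^ a * Δ ^ k ∧ (i + k * (M - 1)) % 2 = 0) ∧
      (F h i = 1 → Z h i) ∧ (F h (i + 1) = 1 → Z h (i + 1)) := fun h i n => by
    induction n with
    | base a =>
      exact ⟨zpow_mem hx a, by simp [F, Fx], by simp [F, Fx], fun _ => ⟨a, 0, by simp⟩,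
        fun _ => ⟨a, 0, 0, by simp⟩, fun _ => ⟨a, 0, 0, by simp⟩⟩
    | @del h i k _ ih =>
      obtain ⟨a, b, c, d, e, f⟩ := ih
      rw [add_right_comm, Fk h a, Fk h a]
      refine ⟨mul_mem a (zpow_mem hΔ k), b, c, fun q => ?_, fun q => Zd _ _ _ (e q),
        fun q => Zd _ _ _ (f q)⟩
      obtain ⟨a', l, rfl, u⟩ := d q
      exact ⟨a', l + k, by rw [zpow_add, mul_assoc], by rw [add_mul]; omega⟩
    | @step h i j _ hj ih =>
      obtain ⟨a, b, c, d, e, f⟩ := ih
      have g1 := hs.ge hj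
      have g0 : 0 ≤ s j ∧ (j ≠ 0 → 1 ≤ s j) := by
        cases j with
        | zero => simp [hs.z]
        | succ j => have := hs.ge (show j < M by omega); exact ⟨by linarith, fun _ => this⟩
      have c0 : 0 ≤ F h (i + 1) := c.elim (fun e => e.ge) fun e => by linarith
      have tp : F h (i + 1) = 0 → ∃ a k : ℤ, h * aa w x i M = x ^ a * Δ ^ k ∧
          (i + (M - 1) + k * (M - 1)) % 2 = 0 := fun q => by
        obtain ⟨a', l, rfl, u⟩ := d q
        have := del_yy rel l 1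
        rw [yy_congr w x (j := i + 1) (by omega), show yy w x 1 = x from rfl] at this
        refine ⟨a' - 1, l + 1, ?_, by rw [add_mul]; omega⟩
        rw [sp, ← mul_assoc, mul_assoc _ (Δ ^ l), (SemiconjBy.inv_right this).eq]; group
      rw [(Fa h a i j).1, (Fa h a i j).2]
      refine ⟨mul_mem a (ha _ _), by nlinarith [g0.1], ?_⟩
      by_cases q : j + 1 = M
      · have q' : (j : ℤ) = 1 * (M - 1) := by omega
        rw [show j + 2 = M + 1 by omega, q, hs.e, hs.l, zero_mul, zero_add, one_mul, one_mul]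
        refine ⟨c, fun u => by simpa only [q', one_mul] using tp u, fun u => ?_, fun u => ?_⟩
        · by_cases r : j = 0
          · obtain ⟨a', k, b', rfl⟩ := e (by simpa [r, hs.z] using u)
            exact ⟨a', k, b' + 1, by simp [← q, r, aa, alG, zpow_add_one, mul_assoc]⟩
          · obtain ⟨a', k, v, -⟩ := tp (by nlinarith [g0.2 r])
            exact ⟨a', k, 0, by simpa using v⟩
        · obtain ⟨a', k, b', rfl⟩ := f u
          rw [sp, ← mul_assoc, q', add_right_comm]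
          exact Zd _ _ _ ⟨a', k, b' - 1, by rw [zpow_sub_one, mul_assoc]⟩
      · have g2 := hs.ge (show j + 1 < M by omega)
        refine ⟨Or.inr (by nlinarith), fun u => by nlinarith, fun u => ?_, fun u => ?_⟩
        · by_cases r : j = 0
          · obtain ⟨a', k, b', rfl⟩ := e (by simpa [r, hs.z, hs.o] using u)
            exact ⟨a', k, b' + 1, by simp [r, aa, alG, zpow_add_one, mul_assoc]⟩
          · have := hs.gt (j + 1) (by omega) (by omega)
            nlinarith [g0.1]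
        · have r : j + 2 = M := by_contra fun r => by
            have := hs.gt (j + 2) (by omega) (by omega)
            nlinarith
          obtain ⟨a', k, v, -⟩ := tp (c.resolve_right fun _ => by nlinarith)
          refine ⟨a', k, -1, ?_⟩
          rw [← v, ← r, aa_succ' (j + 1)]; simp [add_assoc, ← mul_assoc]
  obtain ⟨i, n⟩ := NF.all rel hM hg
  obtain ⟨-, b, c, d, e, f⟩ := key g i n
  refine ⟨fun q => ?_, fun q => ?_⟩
  · obtain ⟨a, k, u, -⟩ := d (by
      simp only [F, q] at b ⊢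
      split_ifs at b ⊢ <;> first | omega | rfl | linarith)
    exact ⟨a, k, u⟩
  · by_cases r : i % 2 = 0
    · have := e (by
        simp only [F, q] at b ⊢
        split_ifs at b ⊢ <;> first | omega | rfl | linarith)
      simpa only [Z, yy, if_pos r] using this
    · have := f (by
        simp only [F, q] at c ⊢
        split_ifs at c ⊢ <;> first | omega | rfl | (rcases c with c | c <;> linarith))
      simpa only [Z, yy, if_pos (show (i + 1) % 2 = 0 by omega)] using this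

/-- The values of a homomorphism on the arcs of a chain of annuli. -/
structure Sta (H : Type) where
  b : ℕ → H
  d : ℕ → H
  c : ℕ → H

def Eqv (M : ℕ) (s t : Sta H) : Prop := ∀ i < M, s.b i = t.b i ∧ s.d i = t.d i ∧ s.c i = t.c i

/-- The effect of the twists along every other annulus of the chain. -/
structure Tr (M : ℕ) (J : ℕ → H) (p : ℤ) (s s' : Sta H) : Prop where
  b0 : s.b 0 = 1 ∧ s'.b 0 = 1
  d0 : ∀ i, i + 1 = M → s.d i = 1 ∧ s'.d i = 1
  on : ∀ i < M, (i + M + 1 + p) % 2 = 0 →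
    s'.b i = s.b i ∧ s'.d i = s.d i ∧ s'.c i = (s.b i)⁻¹ * J i * s.d i * s.c i
  off : ∀ i < M, (i + M + 1 + p) % 2 = 1 → s'.c i = s.c i
  mb : ∀ i, i + 1 < M → (i + M + 1 + p) % 2 = 0 → s'.b (i + 1) = s.d i * (s.b i)⁻¹ * J i * s.b (i + 1)
  md : ∀ i, i + 1 < M → (i + M + 1 + p) % 2 = 1 →
    s'.d i = J (i + 1) * s.d (i + 1) * (s.b (i + 1))⁻¹ * s.d i

theorem Tr.iff {J : ℕ → H} {p : ℤ} {s s' t t' : Sta H} (h : Tr M J p s s') (k : Tr M J p t t') :
    Eqv M s t ↔ Eqv M s' t' := by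
  have main : (∀ i < M, (i + M + 1 + p) % 2 = 0 → s.b i = t.b i ∧ s.d i = t.d i) →
      (Eqv M s t ↔ Eqv M s' t') := fun q => forall₂_congr fun i a => by
    by_cases r : (i + M + 1 + p) % 2 = 0
    · simp [h.on i a r, k.on i a r, q i a r]
    refine and_congr ?_ (and_congr ?_ (by rw [h.off i a (by omega), k.off i a (by omega)]))
    · cases i with
      | zero => simp [h.b0, k.b0]
      | succ i => simp [h.mb i a (by omega), k.mb i a (by omega), q i (by omega) (by omega)]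
    · by_cases u : i + 1 = M
      · simp [h.d0 i u, k.d0 i u]
      · simp [h.md i (by omega) (by omega), k.md i (by omega) (by omega),
          q (i + 1) (by omega) (by omega)]
  exact ⟨fun e => (main fun i a _ => ⟨(e i a).1, (e i a).2.1⟩).1 e, fun e => (main fun i a r => by
    rw [← (h.on i a r).1, ← (k.on i a r).1, ← (h.on i a r).2.1, ← (k.on i a r).2.1]
    exact ⟨(e i a).1, (e i a).2.1⟩).2 e⟩

open Multiplicative in
theorem detect_lin (hM : 2 ≤ M) (rel : ∀ i, aa w x i (M + 1) = Δ) :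
    ∃ J : ℕ → Multiplicative ℝ, (∀ i, (i + M) % 2 = 0 → J i = 1) ∧ ∀ σ : G → Sta (Multiplicative ℝ),
      Eqv M (σ 1) ⟨1, 1, 1⟩ → (∀ g ∈ Subgroup.closure {w, x}, ∀ p, Tr M J p (σ g) (σ (g * yy w x p))) →
      ∀ g ∈ Subgroup.closure {w, x}, ((σ g).c (M - 1) = 1 → ∃ a k : ℤ, g = x ^ a * Δ ^ k) ∧
        ((σ g).c (M - 2) = 1 → ∃ a k b : ℤ, g = x ^ a * Δ ^ k * w ^ b) := by
  obtain ⟨s, hs⟩ := exists_cheb hM
  let κ : ℕ → ℝ := fun k => (-1) ^ ((k + M) / 2) * s k
  have κr : ∀ j, κ (j + 2) = κ j + (if (j + M) % 2 = 1 then 1 else -1) * s 2 * κ (j + 1) := fun j => by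
    simp only [κ, show (j + 2 + M) / 2 = (j + M) / 2 + 1 by omega, hs.rc j, pow_succ]
    split_ifs
    · rw [show (j + 1 + M) / 2 = (j + M) / 2 + 1 by omega, pow_succ]; ring
    · rw [show (j + 1 + M) / 2 = (j + M) / 2 by omega]; ring
  have κn : ∀ j < M, κ (j + 1) ≠ 0 := fun j a =>
    mul_ne_zero (pow_ne_zero _ (by norm_num)) (by linarith [hs.ge a])
  let Γ : ℝ × ℝ → ℕ → Multiplicative ℝ := fun a k => ofAdd (κ k * if (k + M) % 2 = 0 then a.1 else a.2)
  let md : ℝ × ℝ → Sta (Multiplicative ℝ) := fun a => ⟨Γ a, fun i => Γ a (i + 2), fun i => Γ a (i + 1)⟩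
  let mv : ℤ → ℝ × ℝ → ℝ × ℝ := fun p a =>
    if p % 2 = 0 then (a.1 + 1 + s 2 * a.2, a.2) else (a.1, a.2 - s 2 * a.1)
  let J : ℕ → Multiplicative ℝ := fun i => ofAdd (if (i + M) % 2 = 1 then κ (i + 1) else 0)
  have fx : ∀ (p : ℤ) a (k : ℕ), (k + M + 1 + p) % 2 = 0 → Γ (mv p a) k = Γ a k := fun p a k h => by
    simp only [Γ, mv]; split_ifs <;> first | omega | rfl
  have ch : ∀ (p : ℤ) a (k : ℕ), (k + M + 1 + p) % 2 = 0 →
      Γ (mv p a) (k + 1) = (Γ a k)⁻¹ * J k * Γ a (k + 2) * Γ a (k + 1) := fun p a k h => by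
    simp only [Γ, mv, J, ← ofAdd_neg, ← ofAdd_add, κr]
    split_ifs <;> first | omega | (congr 1; ring)
  have tr : ∀ p a, Tr M J p (md a) (md (mv p a)) := fun p a =>
    ⟨by simp [md, Γ, κ, hs.z], by rintro i rfl; simp [md, Γ, κ, hs.e],
      fun i _ h => ⟨fx p a i h, fx p a _ (by omega), ch p a i h⟩, fun i _ h => fx p a _ (by omega),
      fun i _ h => (ch p a i h).trans (by simp only [md, mul_comm, mul_left_comm]),
      fun i _ h => (ch p a (i + 1) (by omega)).trans (by simp only [md]; ac_rfl)⟩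
  refine ⟨J, fun i h => by simp [J, h], fun σ h1 h2 => ?_⟩
  have hw : w ∈ Subgroup.closure {w, x} := Subgroup.subset_closure (Or.inl rfl)
  have hx : x ∈ Subgroup.closure {w, x} := Subgroup.subset_closure (Or.inr rfl)
  have ex : ∀ g ∈ Subgroup.closure {w, x}, ∃ a, Eqv M (σ g) (md a) := fun g hg => by
    have i : ∀ g ∈ Subgroup.closure {w, x}, ∀ p, (∃ a, Eqv M (σ g) (md a)) →
        ∃ a, Eqv M (σ (g * (yy w x p)⁻¹)) (md a) := by
      rintro g hg p ⟨a, e⟩
      have := h2 _ (mul_mem hg (inv_mem (yy_mem hw hx p))) p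
      rw [inv_mul_cancel_right] at this
      obtain ⟨a', rfl⟩ : ∃ a', mv p a' = a := by
        simp only [mv]
        split_ifs
        exacts [⟨(a.1 - 1 - s 2 * a.2, a.2), by ext <;> simp; ring⟩, ⟨(a.1, a.2 + s 2 * a.1), by simp⟩]
      exact ⟨a', (this.iff (tr p a')).2 e⟩
    induction hg using Subgroup.closure_induction_right with
    | one => exact ⟨0, fun i a => by simpa [md, Γ] using h1 i a⟩
    | mul_right g hg y hy ih =>
      obtain ⟨a, e⟩ := ih
      rcases hy with rfl | rfl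
      exacts [⟨_, ((h2 g hg 0).iff (tr 0 a)).1 e⟩, ⟨_, ((h2 g hg 1).iff (tr 1 a)).1 e⟩]
    | mul_inv_cancel g hg y hy ih => rcases hy with rfl | rfl; exacts [i g hg 0 ih, i g hg 1 ih]
  obtain ⟨N, rfl⟩ := Nat.exists_eq_add_of_le' hM
  let A : G → ℝ × ℝ := fun g => (toAdd ((σ g).c (N + 1)) / κ (N + 2), toAdd ((σ g).c N) / κ (N + 1))
  have un : ∀ g a, Eqv (N + 2) (σ g) (md a) → A g = a := fun g a e => by
    simp only [A, (e _ (by omega : N + 1 < N + 2)).2.2, (e _ (by omega : N < N + 2)).2.2, md, Γ,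
      toAdd_ofAdd]
    rw [if_pos (by omega), if_neg (by omega), mul_div_cancel_left₀ _ (κn _ (by omega)),
      mul_div_cancel_left₀ _ (κn _ (by omega))]
  have st : ∀ g ∈ Subgroup.closure {w, x}, ∀ p, A (g * yy w x p) = mv p (A g) := fun g hg p => by
    obtain ⟨a, e⟩ := ex g hg
    rw [un g a e, un _ _ (((h2 g hg p).iff (tr p a)).1 e)]
  have a1 : A 1 = 0 := by simp [A, (h1 _ (by omega : N + 1 < N + 2)).2.2, (h1 _ (by omega : N < N + 2)).2.2]
  intro g hg
  have := hecke hs (by omega) rel (f0 := fun g => 1 + s 2 * (A g).2) (f1 := fun g => s 2 * (A g).1)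
    hw hx (fun g hg => by simp only [show A (g * w) = _ from st g hg 0, mv]; simp; ring)
    (fun g hg => by simp only [show A (g * x) = _ from st g hg 1, mv]; simp; ring)
    (by simp [a1]) (by simp [a1]) hg
  exact ⟨fun q => this.1 (by simp [A, show (σ g).c (N + 1) = 1 from q]),
    fun q => this.2 (by simp [A, show (σ g).c N = 1 from q])⟩

open DihedralGroup in
theorem detect_dih (hM : 2 ≤ M) (rel : ∀ i, aa w x i (M + 1) = Δ) {K : Subgroup G} (hw : w ∈ K)
    (hx : x ∈ K) (σ : G → Sta (DihedralGroup 0))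
    (h1 : Eqv M (σ 1) ⟨fun i => if i = 0 then 1 else sr 0, fun i => if i + 1 < M then sr 0 else 1,
      fun _ => sr 0⟩)
    (h2 : ∀ g ∈ K, ∀ p, Tr M (fun i => if i + 1 = M then (r 1)⁻¹ else 1) p (σ g) (σ (g * yy w x p)))
    (k : ℤ) : ∀ i < M, (σ (Δ ^ k)).c i = sr k := by
  let md : (ℕ → DihedralGroup 0) → Sta (DihedralGroup 0) := fun d =>
    ⟨fun i => (d i)⁻¹, fun i => if i + 1 < M then (d (i + 2))⁻¹ else 1, fun i => d (i + 1)⟩
  let Iv : (ℕ → DihedralGroup 0) → Prop := fun d => d 0 = 1 ∧ d (M + 1) = r 1 ∧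
    ∀ k ≤ M, (d k)⁻¹ * d (k + 1) = (d (k + 1))⁻¹ * d k
  have tr : ∀ p d, Iv d → Iv (mvE (M + 1) (p + (M + 1)) d) ∧ Tr M
      (fun i => if i + 1 = M then (r 1)⁻¹ else 1) p (md d) (md (mvE (M + 1) (p + (M + 1)) d)) := by
    rintro p d ⟨a, b, c⟩
    set d' := mvE (M + 1) (p + (M + 1)) d
    have fx : ∀ k : ℕ, k = 0 ∨ k = M + 1 ∨ (k + M + 1 + p) % 2 = 0 → d' k = d k :=
      fun k h => if_neg (by omega)
    have ch : ∀ k < M, (k + M + 1 + p) % 2 = 0 → d' (k + 1) = d k * (d (k + 1))⁻¹ * d (k + 2) :=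
      fun k u v => if_pos (by omega)
    have c' : ∀ k ≤ M, d k * (d (k + 1))⁻¹ = d (k + 1) * (d k)⁻¹ := fun k u => by
      rw [← mul_inv_cancel_left (d k) (d (k + 1) * _), ← mul_assoc (d k)⁻¹, c k u]; group
    have ci : ∀ k < M, (k + M + 1 + p) % 2 = 0 →
        (d' (k + 1))⁻¹ = (d (k + 2))⁻¹ * d k * (d (k + 1))⁻¹ := fun k u v => by
      rw [ch k u v, c' k u.le]; group
    have jd : ∀ i < M, (if i + 1 = M then (r 1)⁻¹ else 1) * (md d).d i = (d (i + 2))⁻¹ := fun i u => by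
      by_cases q : i + 1 = M
      · subst q; simp [md, b]
      · simp [md, q, show i + 1 < M by omega]
    refine ⟨⟨(fx 0 (by omega)).trans a, (fx _ (by omega)).trans b, fun k u => ?_⟩,
      by simp [md, fx, a], fun i u => by simp [md, u], fun i u v => ⟨by simp [md, fx i (by omega)],
        by simp [md, fx (i + 2) (by omega)], ?_⟩, fun i u v => fx _ (by omega), fun i u v => ?_,
      fun i u v => ?_⟩
    · by_cases q : (k + M + 1 + p) % 2 = 0
      · by_cases q' : k = M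
        · rw [fx k (by omega), fx _ (by omega), c k u]
        · rw [fx k (by omega), ch k (by omega) q, mul_assoc, inv_mul_cancel_left]
          exact (c (k + 1) (by omega)).trans (by group)
      · cases k with
        | zero => rw [fx 0 (by omega), fx _ (by omega), c 0 u]
        | succ k => rw [fx (k + 2) (by omega), ci k u (by omega), ch k u (by omega)]; group
    · rw [mul_assoc (_⁻¹), jd i u]
      simp only [md, ch i u v, inv_inv, mul_assoc, c (i + 1) u]
    · simp only [md, ci i (by omega) v, if_pos u, if_neg u.ne, inv_inv, mul_one]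
    · rw [jd (i + 1) u]
      simp only [md, ci (i + 1) u (by omega), if_pos u, inv_inv]
  let fam : ℤ → ℕ → DihedralGroup 0 := fun c k => if k = 0 then 1 else if k ≤ M then sr c else r 1
  have fi : ∀ c, Iv (fam c) := fun c => ⟨rfl, by simp [fam], fun k u => by
    simp only [fam]; split_ifs <;> first | omega | simp⟩
  have hΔ : Δ ∈ K := rel 0 ▸ alG_mem _ (yy_mem hw hx _) (yy_mem hw hx _)
  have st : ∀ g ∈ K, ∀ c, Eqv M (σ g) (md (fam c)) ↔ Eqv M (σ (g * Δ)) (md (fam (c + 1))) :=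
    fun g hg c => by
      have := evol_aa (m := M + 1) (q := M + 1) (w := w) (x := x) (R := fun g' d => g' ∈ K ∧ Iv d ∧
        (Eqv M (σ g) (md (fam c)) ↔ Eqv M (σ g') (md d))) (fun g' d p ⟨u, v, e⟩ =>
          ⟨mul_mem u (yy_mem hw hx p), (tr p d v).1, e.trans ((h2 g' u p).iff (tr p d v).2)⟩)
        ⟨hg, fi c, Iff.rfl⟩ 0
      rw [rel, show (fun k => if k ≤ M + 1 then fam c 0 * (fam c (M + 1 - k))⁻¹ * fam c (M + 1)
        else fam c k) = fam (c + 1) from funext fun k => by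
          simp only [fam]; split_ifs <;> first | omega | contradiction | (simp; try rfl)] at this
      exact this.2.2
  have : Eqv M (σ (Δ ^ k)) (md (fam k)) := by
    induction k using Int.induction_on with
    | zero =>
      intro i u
      rw [zpow_zero, (h1 i u).1, (h1 i u).2.1, (h1 i u).2.2]
      simp only [md, fam]
      split_ifs <;> first | omega | contradiction | exact ⟨rfl, rfl, rfl⟩
    | succ k ih => rw [zpow_add_one]; exact (st _ (zpow_mem hΔ _) _).1 ih
    | pred k ih =>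
      refine (st _ (zpow_mem hΔ _) _).2 ?_
      rwa [← zpow_add_one, sub_add_cancel]
  exact fun i u => (this i u).2.2.trans (by simp [md, fam, Nat.succ_le_of_lt u])

end Pool.Agent.MP_6eaae3_al

end MrgPart0

-- ======== part 1: formerly Pool.Agent.MP_6eaae3_al.Base
section MrgPart1

/-! The plumbing representation and the detection of elements of dihedral parabolic subgroups. -/

namespace Pool.Agent.MP_6eaae3_al

open FreeGroup (of)
open Set

theorem exists_rec {M : Type} {S : Set (M × Bool)} (fin : S.Finite) (inj : InjOn Prod.fst S)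
    {l : List (M × Bool)} (nd : l.Nodup) (hl : ∀ c ∈ l, c ∈ S) :
    ∃ A : Rec M, (∀ c, c ∈ A.cells ↔ c ∈ S) ∧ ∃ r, A.cells = l ++ r := by
  classical
  have e : ∀ c, c ∈ l ++ (fin.toFinset \ l.toFinset).toList ↔ c ∈ S := fun c => by
    have := hl c
    simp only [List.mem_append, Finset.mem_toList, Finset.mem_sdiff, Finite.mem_toFinset,
      List.mem_toFinset]
    tauto
  exact ⟨⟨_, List.Nodup.map_on (fun x a y b => inj ((e x).1 a) ((e y).1 b))
    (nd.append (Finset.nodup_toList _) fun c a b => by simp [a] at b)⟩, e, _, rfl⟩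

variable {V : Type}

def Adj (m : V → V → ℕ) (n : ℕ) (p q : V × ℕ) : Prop :=
  p.1 ≠ q.1 ∧ q.2 = p.2 + 1 ∧ q.2 < n ∧ ¬ m p.1 q.1 - 1 ∣ q.2

def cr (lo : ℕ) (p q : V × ℕ) : Nm V := (lo, some p, .inl q)
def mq (lo : ℕ) (p : V × ℕ) (k : Fin 3) : Nm V := (lo, some p, .inr k)

def Cel (m : V → V → ℕ) (n lo : ℕ) (p : V × ℕ) : Set (Nm V × Bool) :=
  {c | (∃ q, Adj m n p q ∧ c = (cr lo p q, false)) ∨ (∃ q, Adj m n q p ∧ c = (cr lo q p, true)) ∨
    ∃ k, c = (mq lo p k, false)}

open Classical in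
noncomputable def ini (m : V → V → ℕ) (n lo : ℕ) (o p q : V × ℕ) : List (Nm V × Bool) :=
  (if Adj m n o p then [(cr lo o p, true)] else []) ++ (mq lo p 0, false) ::
    ((if Adj m n p q then [(cr lo p q, false)] else []) ++ [(mq lo p 1, false)])

/-- The annuli of the plumbing. -/
structure Bas (m : V → V → ℕ) (n lo : ℕ) (cp : ℕ → V × ℕ) where
  A : V × ℕ → Rec (Nm V)
  mem : ∀ p c, c ∈ (A p).cells ↔ c ∈ Cel m n lo p
  ord : ∀ p, ∃ r, (A p).cells = ini m n lo (cp (p.2 - 1)) p (cp (p.2 + 1)) ++ r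

variable {m : V → V → ℕ} {n lo : ℕ} {cp : ℕ → V × ℕ}

theorem Adj.irr {p : V × ℕ} : ¬ Adj m n p p := fun h => h.1 rfl

theorem exists_bas [Finite V] : Nonempty (Bas m n lo cp) := by
  have : ∀ p : V × ℕ, ∃ A : Rec (Nm V), (∀ c, c ∈ A.cells ↔ c ∈ Cel m n lo p) ∧
      ∃ r, A.cells = ini m n lo (cp (p.2 - 1)) p (cp (p.2 + 1)) ++ r := fun p => by
    refine exists_rec ?_ ?_ ?_ ?_
    · refine (((finite_range fun v => (cr lo p (v, p.2 + 1), false)).union (finite_range fun v =>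
        (cr lo (v, p.2 - 1) p, true))).union (finite_range fun k => (mq lo p k, false))).subset ?_
      rintro _ (⟨q, a, rfl⟩ | ⟨q, a, rfl⟩ | ⟨k, rfl⟩)
      exacts [Or.inl (Or.inl ⟨q.1, by simp [← a.2.1]⟩), Or.inl (Or.inr ⟨q.1, by simp [a.2.1]⟩),
        Or.inr ⟨k, rfl⟩]
    · rintro _ (⟨q, a, rfl⟩ | ⟨q, a, rfl⟩ | ⟨k, rfl⟩) _ (⟨q', a', rfl⟩ | ⟨q', a', rfl⟩ | ⟨k', rfl⟩) e <;>
        simp_all [cr, mq, Adj.irr]
    · unfold ini; split_ifs <;> simp [cr, mq]
    · unfold ini; split_ifs <;> simp [-Prod.exists, Cel, cr, mq, *]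
  choose A a b using this
  exact ⟨A, a, b⟩

namespace Bas

variable (B : Bas m n lo cp)

theorem f_cr {o p q} : (cr lo p q, false) ∈ (B.A o).cells ↔ o = p ∧ Adj m n p q := by
  simp [B.mem, Cel, cr, mq]; aesop

theorem t_cr {o p q} : (cr lo p q, true) ∈ (B.A o).cells ↔ o = q ∧ Adj m n p q := by
  simp [B.mem, Cel, cr, mq]; aesop

theorem f_mq {o p k} : (mq lo p k, false) ∈ (B.A o).cells ↔ o = p := by
  simp [B.mem, Cel, cr, mq, eq_comm]

theorem t_mq {o p k} : (mq lo p k, true) ∉ (B.A o).cells := by simp [B.mem, Cel, cr, mq]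

theorem shared {p q μ} (h : p ≠ q) (a : μ ∈ (B.A p).slots) (b : μ ∈ (B.A q).slots) :
    (Adj m n p q ∧ μ = cr lo p q) ∨ (Adj m n q p ∧ μ = cr lo q p) := by
  obtain ⟨s, a⟩ := a
  obtain ⟨_ | _, b⟩ := b <;> rcases (B.mem _ _).1 a with ⟨o, u, e⟩ | ⟨o, u, e⟩ | ⟨k, e⟩ <;> cases e <;>
    simp_all [B.f_cr, B.t_cr, B.f_mq, B.t_mq]

theorem dis {p q} (h : p ≠ q) (a : ¬ Adj m n p q) (b : ¬ Adj m n q p) : (B.A p).Dis (B.A q) :=
  fun _ u v => (B.shared h u v).elim (fun e => a e.1) fun e => b e.1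

theorem one {p q} (h : Adj m n p q) : (B.A p).One (B.A q) (cr lo p q) :=
  ⟨B.f_cr.2 ⟨rfl, h⟩, B.t_cr.2 ⟨rfl, h⟩, fun _ u v =>
    (B.shared (fun e => h.1 (by rw [e])) u v).elim (·.2) fun e => by
      have := h.2.1; have := e.1.2.1; omega⟩

theorem dis' (v : V) {i j : ℕ} (h : i ≠ j) : (B.A (v, i)).Dis (B.A (v, j)) :=
  B.dis (by simpa using h) (fun e => e.1 rfl) fun e => e.1 rfl

theorem lab (sym : ∀ s t, m s t = m t s) {s t : V} {a b : ℤ} (h : yy s t a ≠ yy s t b) :
    m (yy s t a) (yy s t b) = m s t := by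
  unfold yy at h ⊢
  split_ifs at h ⊢ <;> simp_all [sym t s]

theorem yy_ne {s t : V} (h : s ≠ t) {a b : ℤ} (e : a % 2 ≠ b % 2) : yy s t a ≠ yy s t b := by
  unfold yy
  split_ifs <;> first | omega | exact h | exact h.symm

/-- The representation by products of twists. -/
def rep [Finite V] (sym : ∀ s t, m s t = m t s) (hn : ∀ s t, s ≠ t → m s t ≠ 0 → m s t - 1 ∣ n) :
    Rep m lo (lo + 1) where
  C := B.A '' {p | p.2 < n}
  w := fun v => pr (fun i => of (B.A (v, i), true)) n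
  le := Nat.le_succ _
  fin := ((finite_univ.prod (finite_lt_nat n)).subset fun _ h => ⟨trivial, h⟩).image _
  mem := fun v => pr_mem fun i a => of_mem_Fre ⟨(v, i), a, rfl⟩
  cons := by
    rintro _ ⟨p, -, rfl⟩ _ ⟨q, -, rfl⟩ e c a b
    rcases (B.mem _ _).1 a with ⟨o, u, rfl⟩ | ⟨o, u, rfl⟩ | ⟨k, rfl⟩
    exacts [e (by rw [(B.f_cr.1 b).1]), e (by rw [(B.t_cr.1 b).1]), e (by rw [B.f_mq.1 b])]
  rng := by
    rintro _ ⟨p, -, rfl⟩ ν ⟨s, a⟩
    rcases (B.mem _ _).1 a with ⟨o, u, e⟩ | ⟨o, u, e⟩ | ⟨k, e⟩ <;> cases e <;> simp [cr, mq]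
  sp := by
    rintro _ ⟨p, -, rfl⟩
    exact ⟨mq lo p 2, rfl, B.f_mq.2 rfl⟩
  nv := by
    rintro _ ⟨p, -, rfl⟩ ν h a
    rcases (B.mem _ _).1 a with ⟨o, u, e⟩ | ⟨o, u, e⟩ | ⟨k, e⟩ <;> cases e
    cases h
  rel := fun G _ T h s t e => by
    by_cases h0 : m s t = 0
    · rw [h0]; rfl
    obtain ⟨K, hK⟩ := hn s t e h0
    obtain ⟨M, hM⟩ := Nat.exists_eq_add_one_of_ne_zero h0
    rw [hM, Nat.add_sub_cancel] at hK
    have cm : ∀ p q : V × ℕ, p.2 < n → q.2 < n → ¬ Adj m n p q → ¬ Adj m n q p →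
        Commute (T (B.A p, true)) (T (B.A q, true)) := fun p q a b c d => by
      by_cases r : p = q
      exacts [r ▸ Commute.refl _, (h _ ⟨p, a, rfl⟩ _ ⟨q, b, rfl⟩).1 (B.dis r c d) _ _]
    let σ : ℤ → ℕ → G := fun e j => T (B.A (yy s t (j + e), j), true)
    have c : ∀ i < n, ∀ j < n, Commute (σ 0 i) (σ 1 j) := fun i a j b =>
      cm _ _ a b (fun q => q.1 (yy_congr _ _ (by have := q.2.1; omega)))
        fun q => q.1 (yy_congr _ _ (by have := q.2.1; omega))
    have f := fun z p => fold_blocks (g := σ z) (M := M) K (fun i a b => by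
      have ne := yy_ne e (a := i + z) (b := (i + 1 : ℕ) + z) (by omega)
      exact (h _ ⟨_, show i < n by omega, rfl⟩ _ ⟨_, hK ▸ a, rfl⟩).2 _ (B.one ⟨ne, rfl, hK ▸ a, by
        rwa [lab sym ne, hM]⟩)) (fun i j a b c => cm _ _ (by omega) (by omega) (fun q => c.elim
          (fun c => c q.2.1) fun c => q.2.2.2 (by rwa [lab sym q.1, hM])) fun q => by
            have := q.2.1; omega) p
    have g : ∀ p, FreeGroup.lift T (pr (fun i => of (B.A (yy s t p, i), true)) n) =
        eo (σ 0) n p * eo (σ 1) n (p + 1) := fun p => by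
      rw [map_pr, eo, eo, ← pr_mul fun i a j b => by split_ifs <;> simp [c i a j b]]
      congr 1; ext i
      split_ifs <;> first | omega | simp [σ, yy_congr s t (i := p) (j := i) (by omega)] |
        simp [σ, yy_congr s t (i := p) (j := i + 1) (by omega)]
    have c' := eo_commute c
    rw [← hK] at f
    have g0 : FreeGroup.lift T (pr (fun i => of (B.A (s, i), true)) n) = _ := g 0
    have g1 : FreeGroup.lift T (pr (fun i => of (B.A (t, i), true)) n) = _ :=
      (yy_congr s t (i := 0 + 1) (j := 1) rfl ▸ g (0 + 1) :)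
    rw [g0, g1,
      alG_mul _ (c' _ _) (c' _ _) (c' _ _) (c' _ _), alG_mul _ (c' _ _) (c' _ _) (c' _ _) (c' _ _),
      hM, f, f]

/-- The automorphism attached to a generator. -/
noncomputable def tw (v : V) : MulAut (FL (Nm V)) := pr (fun i => (B.A (v, i)).tau true) n

theorem tw_on {p : V × ℕ} (h : p.2 < n) {x : Nm V × Fin 4} (hx : x.1 ∈ (B.A p).slots) :
    B.tw p.1 (of x) = (B.A p).tau true (of x) :=
  pr_apply h fun j _ ne => by
    have d := B.dis' p.1 ne.symm
    refine ⟨Rec.tau_not (d _ hx), ?_⟩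
    rw [Rec.tau_of, map_mul, map_mul, Rec.tau_not (d _ hx), d.fix _ _ (Rec.lf_mem _ _ _),
      d.fix _ _ (Rec.rg_mem _ _ _)]

theorem tw_lb {p : V × ℕ} (h : p.2 < n) {μ} (a : (μ, false) ∈ (B.A p).cells) :
    B.tw p.1 (lb μ) = (B.A p).ell true (μ, false) * lb μ := (B.tw_on h ⟨_, a⟩).trans (Rec.tau_lb _ a)

theorem tw_ld {p : V × ℕ} (h : p.2 < n) {μ} (a : (μ, true) ∈ (B.A p).cells) :
    B.tw p.1 (ld μ) = (B.A p).ell true (μ, true) * ld μ := (B.tw_on h ⟨_, a⟩).trans (Rec.tau_ld _ a)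

theorem tw_lb' {v μ} (a : ∀ i, (μ, false) ∉ (B.A (v, i)).cells) : B.tw v (lb μ) = lb μ :=
  pr_fix fun i _ => Rec.tau_lb' _ (a i)

theorem tw_ld' {v μ} (a : ∀ i, (μ, true) ∉ (B.A (v, i)).cells) : B.tw v (ld μ) = ld μ :=
  pr_fix fun i _ => Rec.tau_ld' _ (a i)

theorem tw_lt (v μ) : B.tw v (lt μ) = lt μ := pr_fix fun _ _ => Rec.tau_lt _ _

theorem tw_PL {p : V × ℕ} {y} (h : y ∈ Fre ((B.A p).PL true)) : B.tw p.1 y = y :=
  pr_fix fun i _ => by
    by_cases e : i = p.2
    exacts [e ▸ Rec.tau_PL h, (B.dis' p.1 (Ne.symm e)).fix _ _ h]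

end Bas

open Classical in
noncomputable def ol (m : V → V → ℕ) (n lo : ℕ) (f : Nm V → FL (Nm V)) (p q : V × ℕ) : FL (Nm V) :=
  if Adj m n p q then f (cr lo p q) else 1

namespace Bas

variable (B : Bas m n lo cp)

theorem loops (p : V × ℕ) : ∃ ρ, (∀ K : Subgroup (FL (Nm V)), (∀ c ∈ (B.A p).cells,
    c ≠ (mq lo p 0, false) → c ≠ (cr lo p (cp (p.2 + 1)), false) → c ≠ (cr lo (cp (p.2 - 1)) p, true) →
      inl c ∈ K ∧ out true c ∈ K) → ρ ∈ K) ∧
    (B.A p).ell true (mq lo p 1, false) = ρ * ((ol m n lo lb (cp (p.2 - 1)) p)⁻¹ *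
      ol m n lo lt (cp (p.2 - 1)) p * ld (mq lo p 0) * ol m n lo ld p (cp (p.2 + 1))) ∧
    (Adj m n p (cp (p.2 + 1)) → (B.A p).ell true (cr lo p (cp (p.2 + 1)), false) =
      ol m n lo ld p (cp (p.2 + 1)) * ρ * (ol m n lo lb (cp (p.2 - 1)) p)⁻¹ *
        ol m n lo lt (cp (p.2 - 1)) p * ld (mq lo p 0)) ∧
    (Adj m n (cp (p.2 - 1)) p → (B.A p).ell true (cr lo (cp (p.2 - 1)) p, true) =
      ol m n lo lt (cp (p.2 - 1)) p * ld (mq lo p 0) * ol m n lo ld p (cp (p.2 + 1)) * ρ *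
        (ol m n lo lb (cp (p.2 - 1)) p)⁻¹) := by
  classical
  obtain ⟨r, e⟩ := B.ord p
  generalize cp (p.2 - 1) = o at *
  generalize cp (p.2 + 1) = q at *
  have e1 : (B.A p).cells = ((if Adj m n o p then [(cr lo o p, true)] else []) ++ (mq lo p 0, false) ::
      (if Adj m n p q then [(cr lo p q, false)] else [])) ++ (mq lo p 1, false) :: r := by
    simp [e, ini]
  refine ⟨pth true ((mq lo p 1, false) :: r), fun K h => pth_mem fun c hc => ?_, ?_, fun a => ?_,
    fun a => ?_⟩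
  · have hc' : c ∈ (B.A p).cells := e1 ▸ List.mem_append_right _ hc
    have := List.disjoint_of_nodup_append (e1 ▸ (B.A p).nodup)
    refine h c hc' ?_ ?_ ?_ <;> rintro rfl <;> refine this ?_ hc
    exacts [by simp, by simp [(B.f_cr.1 hc').2], by simp [(B.t_cr.1 hc').2]]
  · rw [Rec.ell_eq _ e1]; unfold ol; split_ifs <;> simp [inl, out, mul_assoc]
  · rw [Rec.ell_eq _ (l := (if Adj m n o p then [(cr lo o p, true)] else []) ++ [(mq lo p 0, false)])
      (l' := (mq lo p 1, false) :: r) (by simp [e1, a])]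
    unfold ol; split_ifs <;> simp [inl, out, mul_assoc]
  · rw [Rec.ell_eq _ (l := []) (l' := (mq lo p 0, false) ::
      (if Adj m n p q then [(cr lo p q, false)] else []) ++ (mq lo p 1, false) :: r) (by simp [e1, a])]
    unfold ol; split_ifs <;> simp [inl, out, mul_assoc]

variable [Finite V] {sym : ∀ s t, m s t = m t s} {hn : ∀ s t, s ≠ t → m s t ≠ 0 → m s t - 1 ∣ n}

theorem rep_ψ (v : V) : (B.rep sym hn).ψ (PresentedGroup.of v) = B.tw v := by
  simp [Rep.ψ_of, rep, map_pr, tauF, tw]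

theorem mark (p : V × ℕ) {k : Fin 3} (h : k ≠ 2) {X : Set V} (hX : p.1 ∈ X) :
    (B.rep sym hn).Mark X (mq lo p k) :=
  ⟨le_rfl, Nat.lt_succ_self _, by simpa [Spare, mq] using h, by rintro _ ⟨q, -, rfl⟩; exact B.t_mq,
    fun v hv => pr_mem fun i _ => of_mem_Fre (by
      rintro ⟨_ | _, a⟩
      exacts [hv (by rwa [← B.f_mq.1 a] at hX), B.t_mq a])⟩

end Bas

theorem exists_mult [Finite V] (n1 : ∀ s t, s ≠ t → m s t ≠ 1) :
    ∃ n, 0 < n ∧ ∀ s t, s ≠ t → m s t ≠ 0 → m s t - 1 ∣ n := by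
  obtain ⟨N, h⟩ := (finite_range fun p : V × V => m p.1 p.2).bddAbove
  refine ⟨N.factorial, N.factorial_pos, fun s t a b => Nat.dvd_factorial ?_ ?_⟩
  · have := n1 s t a; omega
  · have : m s t ≤ N := h ⟨(s, t), rfl⟩
    omega

theorem dc_vertex [Finite V] (sym : ∀ s t, m s t = m t s) (n1 : ∀ s t, s ≠ t → m s t ≠ 1) (v : V) :
    Dc m {v} {v} {v} := by
  classical
  intro lo
  obtain ⟨n, h0, hn⟩ := exists_mult n1
  obtain ⟨B⟩ := exists_bas (m := m) (n := n) (lo := lo) (cp := fun i => (v, i))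
  refine ⟨_, B.rep sym hn, {mq lo (v, 0) 1, mq lo (v, 0) 0}, fun ν => decide (ν = mq lo (v, 0) 1),
    fun ν h => ?_, ?_⟩
  · rcases Finset.mem_insert.1 h with rfl | h
    exacts [B.mark _ (by simp) (by simp), Finset.mem_singleton.1 h ▸ B.mark _ (by simp) (by simp)]
  rintro g _ _ ⟨rfl, rfl, hg, ng⟩
  refine ⟨mq lo (v, 0) 1, by simp, mq lo (v, 0) 0, by simp, by simp, by simp [mq], fun q => ng ?_⟩
  rw [Par, image_singleton, Subgroup.mem_closure_singleton] at hg
  obtain ⟨k, rfl⟩ := hg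
  obtain ⟨ρ, h1, h2, -⟩ := B.loops (v, 0)
  have a := B.tw_lb (p := (v, 0)) h0 (B.f_mq.2 rfl) (μ := mq lo (v, 0) 1)
  have b := B.tw_PL (Rec.ell_mem (B.f_mq.2 rfl)) (p := (v, 0)) (y := Rec.ell _ _ (mq lo (v, 0) 1, false))
  have c : ∀ k : ℤ, (B.tw v ^ k) (lb (mq lo (v, 0) 1)) =
      (B.A (v, 0)).ell true (mq lo (v, 0) 1, false) ^ k * lb (mq lo (v, 0) 1) := fun k => by
    have b' := fun k : ℤ => show (B.tw v ^ k) _ = _ from MulAction.mem_stabilizer_iff.1
      (zpow_mem ((MulAction.mem_stabilizer_iff (G := MulAut (FL (Nm V)))).2 b) k)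
    induction k using Int.induction_on with
    | zero => simp
    | succ k ih => rw [zpow_add_one, MulAut.mul_apply, a, map_mul, b', ih]; group
    | pred k ih =>
      have := ih
      rw [← sub_add_cancel (-k : ℤ) 1, zpow_add_one, MulAut.mul_apply, a, map_mul, b'] at this
      rw [← mul_right_inj ((B.A (v, 0)).ell true _), this]; group
  let φ : FL (Nm V) →* Multiplicative ℤ :=
    FreeGroup.lift fun x => if x = (mq lo (v, 0) 0, 0) then Multiplicative.ofAdd 1 else 1
  have z : ∀ y ∈ Fre {(mq lo (v, 0) 0, (0 : Fin 4))}ᶜ, φ y = 1 :=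
    fun y hy => Fre.map_mem φ (K := ⊥) (fun x hx => by simpa [φ] using hx) hy
  have zρ : φ ρ = 1 := z _ (h1 _ fun c hc ne _ _ => by
    have : ∀ k, of (c.1, k) ∈ Fre {(mq lo (v, 0) 0, (0 : Fin 4))}ᶜ := fun k => of_mem_Fre fun e =>
      ne ((B.A _).eq_of hc (B.f_mq.2 rfl) (Prod.ext_iff.1 e).1)
    obtain ⟨μ, _ | _⟩ := c
    exacts [⟨one_mem _, this 0⟩, ⟨inv_mem (this 1), this 2⟩])
  have := z _ q
  rw [map_zpow, B.rep_ψ, c, h2, map_mul, map_zpow, map_mul, zρ] at this
  obtain rfl : k = 0 := by simpa [ol, Adj, φ, ld, lb, mq] using this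
  exact ⟨1, one_mem _, 1, one_mem _, by simp⟩

theorem exists_chain [Finite V] (sym : ∀ s t, m s t = m t s) (n1 : ∀ s t, s ≠ t → m s t ≠ 1)
    {w x : V} (ne : w ≠ x) {M : ℕ} (hM : m w x = M + 1) (lo : ℕ) :
    ∃ (R : Rep m lo (lo + 1)) (μ : ℕ → Fin 3 → Nm V),
      (∀ i : ℕ, ∀ k ≠ 2, R.Mark {yy w x (i + M + 1)} (μ i k)) ∧ (∀ i j, μ i 0 ≠ μ j 1) ∧
      ∀ (H : Type) [Group H] (J : ℕ → H) (s : Sta H), s.b 0 = 1 → s.d (M - 1) = 1 →
        ∃ σ : Art m → Sta H, Eqv M (σ 1) s ∧ (∀ g ∈ Par m {w, x}, ∀ p,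
          Tr M J p (σ g) (σ (g * yy (PresentedGroup.of w) (PresentedGroup.of x) p))) ∧
          ∀ L : Subgroup H, (∀ i < M, s.b i ∈ L ∧ s.d i ∈ L ∧ s.c i ∈ L ∧ ((i + M) % 2 = 0 → J i ∈ L)) →
            ∀ g j, (∀ i < M, (i + M) % 2 = 1 → R.ψ g (lb (μ j 1)) ∈ Fre {(μ i 0, 0)}ᶜ) →
              (σ g).c j ∈ L := by
  classical
  obtain ⟨n, h0, hn⟩ := exists_mult n1
  have Mn : M ≤ n := Nat.le_of_dvd h0 (by simpa [hM] using hn w x ne (by omega))
  obtain ⟨cp, c1, c2⟩ : ∃ cp : ℕ → V × ℕ, (∀ i, (cp i).1 = yy w x (i + M + 1)) ∧ ∀ i, (cp i).2 = i :=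
    ⟨fun i => (_, i), fun _ => rfl, fun _ => rfl⟩
  have ad : ∀ i < M, Adj m n (cp i) (cp (i + 1)) ↔ i + 1 < M := fun i a => by
    have ne := Bas.yy_ne ne (a := i + M + 1) (b := (i + 1 : ℕ) + M + 1) (by omega)
    simp only [Adj, c1, c2, Bas.lab sym ne, hM, Nat.add_sub_cancel]
    exact ⟨fun h => by_contra fun q => h.2.2.2 (by rw [show i + 1 = M by omega]), fun h =>
      ⟨ne, trivial, h.trans_le Mn, fun q => absurd (Nat.le_of_dvd (Nat.succ_pos _) q) (not_le.2 h)⟩⟩
  have up : ∀ i p q, Adj m n (cp i) q → q.1 = yy w x p → q = cp (i + 1) := fun i p q a b =>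
    Prod.ext (by
      rw [b, c1]; exact yy_congr _ _ (by_contra fun e => a.1 (by
        rw [b, c1]; exact yy_congr _ _ (by omega)))) (by rw [a.2.1, c2, c2])
  have dn : ∀ i p q, Adj m n q (cp i) → q.1 = yy w x p → q = cp (i - 1) := fun i p q a b => by
    have : i = q.2 + 1 := c2 i ▸ a.2.1
    exact Prod.ext (by
      rw [b, c1]; exact yy_congr _ _ (by_contra fun e => a.1 (by
        rw [b, c1]; exact yy_congr _ _ (by omega)))) (by simp [c2, this])
  obtain ⟨B⟩ := exists_bas (m := m) (n := n) (lo := lo) (cp := cp)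
  refine ⟨B.rep sym hn, fun i => mq lo (cp i), fun i k a => B.mark _ a (c1 i), by simp [mq],
    fun H _ J s s0 s1 => ?_⟩
  set ψ := (B.rep sym hn).ψ
  let val : ℕ → Nm V × Fin 4 → H := fun j y =>
    if y = (cr lo (cp j) (cp (j + 1)), 1) ∧ j + 1 < M then s.b (j + 1)
    else if y = (cr lo (cp j) (cp (j + 1)), 0) ∧ j + 1 < M then s.d j
    else if y = (mq lo (cp j) 1, 1) ∧ j < M then s.c j
    else if y = (mq lo (cp j) 0, 0) ∧ j < M then J j else 1
  let φ : FL (Nm V) →* H := FreeGroup.lift fun y => val ((y.1.2.1.map Prod.snd).getD 0) y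
  have v1 : ∀ p q k, φ (of (cr lo p q, k)) = val p.2 (cr lo p q, k) := fun _ _ _ => by simp [φ, cr]
  have v2 : ∀ p q k, φ (of (mq lo p q, k)) = val p.2 (mq lo p q, k) := fun _ _ _ => by simp [φ, mq]
  let β : ℕ → FL (Nm V) := fun i => ol m n lo lb (cp (i - 1)) (cp i)
  let δ : ℕ → FL (Nm V) := fun i => ol m n lo ld (cp i) (cp (i + 1))
  let Z : Subgroup (FL (Nm V)) := (⨅ p, (B.tw (yy w x p)).toMonoidHom.eqLocus (MonoidHom.id _))
  have mZ : ∀ y, (∀ p, B.tw (yy w x p) y = y) → y ∈ Z := fun y h => Subgroup.mem_iInf.2 h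
  have fZ : ∀ g ∈ Par m {w, x}, ∀ y ∈ Z, ψ g y = y := fun g hg y hy =>
    Par.ind (K := (MulAction.stabilizer _ y).comap ψ) (by
      rintro v (rfl | rfl) <;> rw [Subgroup.mem_comap, B.rep_ψ]
      exacts [Subgroup.mem_iInf.1 hy 0, Subgroup.mem_iInf.1 hy 1]) hg
  have β0 : β 0 = 1 := if_neg Adj.irr
  have δ0 : ∀ i, i + 1 = M → δ i = 1 := fun i a => if_neg fun q => by
    have := (ad i (by omega)).1 q; omega
  have β1 : ∀ i, i + 1 < M → β (i + 1) = lb (cr lo (cp i) (cp (i + 1))) :=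
    fun i a => if_pos ((ad i (by omega)).2 a)
  have δ1 : ∀ i, i + 1 < M → δ i = ld (cr lo (cp i) (cp (i + 1))) :=
    fun i a => if_pos ((ad i (by omega)).2 a)
  have lp : ∀ i < M, ∀ g ∈ Par m {w, x}, φ (ψ g ((B.A (cp i)).ell true (mq lo (cp i) 1, false))) =
      (φ (ψ g (β i)))⁻¹ * J i * φ (ψ g (δ i)) ∧ (i + 1 < M →
        φ (ψ g ((B.A (cp i)).ell true (cr lo (cp i) (cp (i + 1)), false))) =
          φ (ψ g (δ i)) * (φ (ψ g (β i)))⁻¹ * J i) ∧ ∀ j, i = j + 1 →
        φ (ψ g ((B.A (cp i)).ell true (cr lo (cp j) (cp i), true))) =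
          J i * φ (ψ g (δ i)) * (φ (ψ g (β i)))⁻¹ := by
    intro i a g hg
    obtain ⟨ρ, h1, h2, h3, h4⟩ := B.loops (cp i)
    rw [c2] at h1 h2 h3 h4
    have hρ := h1 (Z ⊓ φ.ker) fun c hc d1 d2 d3 => by
      rcases (B.mem _ _).1 hc with ⟨q, u, rfl⟩ | ⟨q, u, rfl⟩ | ⟨k, rfl⟩
      · have : q ≠ cp (i + 1) := fun e => d2 (by rw [e])
        exact ⟨one_mem _, mZ _ fun p => B.tw_ld' fun j e => this (up i p q u (by rw [← (B.t_cr.1 e).1])),
          (v1 _ _ _).trans (by simp [val, cr, mq, c2, this])⟩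
      · have : q ≠ cp (i - 1) := fun e => d3 (by rw [e])
        have e : i = q.2 + 1 := c2 i ▸ u.2.1
        exact ⟨inv_mem ⟨mZ _ fun p => B.tw_lb' fun j e => this (dn i p q u (by rw [← (B.f_cr.1 e).1])),
          (v1 _ _ _).trans (by simp [val, cr, mq, show q ≠ cp q.2 by simpa [e] using this])⟩,
          mZ _ fun p => B.tw_lt _ _, (v1 _ _ _).trans (by simp [val])⟩
      · have : k ≠ 0 := fun e => d1 (by rw [e])
        exact ⟨one_mem _, mZ _ fun p => B.tw_ld' fun j => B.t_mq,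
          (v2 _ _ _).trans (by simp [val, cr, mq, this])⟩
    have r1 : φ (ψ g ρ) = 1 := by rw [fZ g hg ρ hρ.1]; exact hρ.2
    have r2 : φ (ψ g (ol m n lo lt (cp (i - 1)) (cp i))) = 1 := by
      unfold ol; split_ifs
      exacts [by rw [fZ g hg _ (mZ _ fun p => B.tw_lt _ _), lt, v1]; simp [val], by simp]
    have r3 : φ (ψ g (ld (mq lo (cp i) 0))) = J i := by
      rw [fZ g hg _ (mZ _ fun p => B.tw_ld' fun j => B.t_mq), ld, v2]; simp [val, c2, cr, mq, a]
    refine ⟨by rw [h2]; simp [r1, r2, r3, β, δ], fun b => by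
      rw [h3 ((ad i a).2 b)]; simp [r1, r2, r3, β, δ], ?_⟩
    rintro j rfl
    rw [show Rec.ell _ _ (cr lo (cp j) _, _) = _ from h4 ((ad j (by omega)).2 a)]
    simp only [map_mul, map_inv, r1, r2, r3, β, δ, one_mul, mul_one]
  have ψy : ∀ g p y, ψ (g * yy (PresentedGroup.of w) (PresentedGroup.of x) p) y =
      ψ g (B.tw (yy w x p) y) := fun g p y => by
    rw [map_mul, MulAut.mul_apply, yy, ← apply_ite PresentedGroup.of, B.rep_ψ, yy]
  refine ⟨fun g => ⟨fun i => φ (ψ g (β i)), fun i => φ (ψ g (δ i)),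
    fun i => φ (ψ g (lb (mq lo (cp i) 1)))⟩, fun i a => ⟨?_, ?_, ?_⟩, fun g hg p => ?_,
    fun L hL g j h => ?_⟩
  · cases i with
    | zero => simp [β0, s0]
    | succ i => simp [β1 i a, lb, v1, val, c2, a]
  · by_cases q : i + 1 = M
    · simp [δ0 i q, ← s1, ← q]
    · simp [δ1 i (by omega), ld, v1, val, c2, show i + 1 < M by omega]
  · simp only [map_one, MulAut.one_apply, lb, v2]; simp [val, c2, cr, mq, a]
  · have on : ∀ i : ℕ, (i + M + 1 + p) % 2 = 0 → yy w x p = (cp i).1 :=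
      fun i h => by rw [c1]; exact yy_congr _ _ (by omega)
    refine ⟨by simp [β0], fun i a => by simp [δ0 i a], fun i a h => ⟨?_, ?_, ?_⟩, fun i a h => ?_,
      fun i a h => ?_, fun i a h => ?_⟩ <;> simp only [ψy]
    · simp only [β, ol, on i h]
      split_ifs with q
      exacts [by rw [B.tw_lb' fun j e => q.1 (by rw [← (B.f_cr.1 e).1])], by simp]
    · simp only [δ, ol, on i h]
      split_ifs with q
      exacts [by rw [B.tw_ld' fun j e => q.1 (by rw [← (B.t_cr.1 e).1])], by simp]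
    · rw [on i h, B.tw_lb (by rw [c2]; omega) (B.f_mq.2 rfl), map_mul, map_mul, (lp i a g hg).1]
    · rw [B.tw_lb' (v := yy w x p) fun j e => Bas.yy_ne ne (a := p) (by omega) ((congrArg Prod.fst (B.f_mq.1 e)).trans (c1 i))]
    · rw [on i h, β1 i a, B.tw_lb (by rw [c2]; omega) (B.f_cr.2 ⟨rfl, (ad i (by omega)).2 a⟩), map_mul, map_mul,
        (lp i (by omega) g hg).2.1 a]
    · rw [on (i + 1) (by omega), δ1 i a, B.tw_ld (by rw [c2]; omega)
        (B.t_cr.2 ⟨rfl, (ad i (by omega)).2 a⟩), map_mul, map_mul, (lp _ a g hg).2.2 i rfl]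
  · refine Fre.map_mem φ (fun y hy => ?_) (Fre.biInter ((Finset.range M).filter fun i => (i + M) % 2 = 1)
      fun i a => h i (by simpa using (Finset.mem_filter.1 a).1) (Finset.mem_filter.1 a).2)
    simp only [φ, FreeGroup.lift_apply_of, val]
    generalize (y.1.2.1.map Prod.snd).getD 0 = i
    split_ifs with a b c d
    exacts [(hL _ a.2).1, (hL _ (by omega)).2.1, (hL _ c.2).2.2.1, (hL _ d.2).2.2.2
      (by_contra fun q => hy i (by simp [d.2]; omega) d.1), one_mem _]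

theorem dc_edge [Finite V] (sym : ∀ s t, m s t = m t s) (n1 : ∀ s t, s ≠ t → m s t ≠ 1) {w x : V}
    (ne : w ≠ x) (h3 : 3 ≤ m w x) : Dc m {w, x} {w} {w} ∧ Dc m {w, x} {w} {x} := by
  classical
  obtain ⟨M, hM⟩ := Nat.exists_eq_add_one_of_ne_zero (show m w x ≠ 0 by omega)
  have M2 : 2 ≤ M := by omega
  have rel := aa_eq (m := M + 1) (w := PresentedGroup.of (rels := artinRels m) w)
    (x := PresentedGroup.of x) (by simpa only [lift_alG, hM] using artin_rel m ne)
  have key : ∀ (u : V) (j : ℕ), yy w x (j + M + 1) = u → j < M → u ∈ ({w, x} : Set V) →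
      (∀ σ : Art m → Sta (Multiplicative ℝ), ∀ g, ((σ g).c (M - 1) = 1 → ∃ a k : ℤ,
        g = PresentedGroup.of x ^ a * alG (PresentedGroup.of w) (PresentedGroup.of x) (M + 1) ^ k) ∧
        ((σ g).c (M - 2) = 1 → ∃ a k b : ℤ, g = PresentedGroup.of x ^ a *
          alG (PresentedGroup.of w) (PresentedGroup.of x) (M + 1) ^ k * PresentedGroup.of w ^ b) →
        (σ g).c j = 1 → ∃ a k : ℤ, ∃ q ∈ Par m ({w, x} \ {u}), g = PresentedGroup.of x ^ a *
          alG (PresentedGroup.of w) (PresentedGroup.of x) (M + 1) ^ k * q) → Dc m {w, x} {w} {u} := by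
    rintro u j rfl hj hu hh lo
    obtain ⟨R, μ, mk, md, st⟩ := exists_chain sym n1 ne hM lo
    have cw : ∀ i : ℕ, (i + M) % 2 = 1 → yy w x (i + M + 1) = w := fun i a => if_pos (by omega)
    refine ⟨_, R, insert (μ j 1) (((Finset.range M).filter fun i => (i + M) % 2 = 1).image
      fun i => μ i 0), fun ν => decide (ν = μ j 1), fun ν h => ?_, ?_⟩
    · rcases Finset.mem_insert.1 h with rfl | h
      · simpa [hu] using mk j 1 (by simp)
      · obtain ⟨i, a, rfl⟩ := Finset.mem_image.1 h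
        simpa [md, cw i (Finset.mem_filter.1 a).2] using mk i 0 (by simp)
    rintro g _ _ ⟨rfl, rfl, hg, ng⟩
    by_contra! q
    have av : ∀ i < M, (i + M) % 2 = 1 → R.ψ g (lb (μ j 1)) ∈ Fre {(μ i 0, 0)}ᶜ :=
      fun i a b => q _ (by simp) _ (Finset.mem_insert_of_mem (Finset.mem_image_of_mem _
        (by simp [a, b]))) (by simp) (by simp [md])
    obtain ⟨J, j0, dl⟩ := detect_lin M2 rel
    obtain ⟨σ, a1, a2, a3⟩ := st _ J ⟨1, 1, 1⟩ rfl rfl
    have pe : Par m {w, x} = Subgroup.closure {PresentedGroup.of w, PresentedGroup.of x} := by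
      rw [Par, image_pair]
    obtain ⟨a, k, r, hr, rfl⟩ := hh σ g (dl σ a1 (by rwa [← pe]) g (by rwa [← pe]))
      (Subgroup.mem_bot.1 (a3 ⊥ (fun i _ => by simpa using j0 i) g j av))
    obtain ⟨τ, b1, b2, b3⟩ := st (DihedralGroup 0) (fun i => if i + 1 = M then (DihedralGroup.r 1)⁻¹ else 1)
      ⟨fun i => if i = 0 then 1 else .sr 0, fun i => if i + 1 < M then .sr 0 else 1, fun _ => .sr 0⟩
      rfl (if_neg (by omega))
    have xa : PresentedGroup.of x ^ a ∈ Par m {x} := Subgroup.zpow_mem _ (Par.of (mem_singleton x)) a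
    have := b3 (Subgroup.centralizer {.sr 0}) (fun i _ => by
      simp only [Subgroup.mem_centralizer_singleton_iff]
      refine ⟨?_, ?_, trivial, fun q => ?_⟩ <;> split_ifs <;> first | omega | simp) _ j fun i u v => by
        have := av i u v
        rwa [map_mul, map_mul, MulAut.mul_apply, MulAut.mul_apply,
          (mk j 1 (by simp)).fix (Par.mono (fun _ h => h.2) hr),
          (mk i 0 (by simp)).stab (Par.mono (by simp [cw i v, ne]) xa)] at this
    rw [detect_dih M2 rel (Par.of (Or.inl rfl)) (Par.of (Or.inr rfl)) τ b1 b2 k j hj,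
      Subgroup.mem_centralizer_singleton_iff] at this
    obtain rfl : k = 0 := by
      simp only [DihedralGroup.sr_mul_sr, DihedralGroup.r.injEq] at this
      have : (0 : ℤ) - k = k - 0 := this
      omega
    exact ng ⟨_, Par.mono (by simp [ne.symm]) xa, r, hr, by simp⟩
  refine ⟨key w (M - 1) (if_pos (by omega)) (by omega) (Or.inl rfl) fun σ g h q => ?_,
    key x (M - 2) (if_neg (by omega)) (by omega) (Or.inr rfl) fun σ g h q => ?_⟩
  · obtain ⟨a, k, e⟩ := h.1 q
    exact ⟨a, k, 1, one_mem _, by simp [e]⟩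
  · obtain ⟨a, k, b, e⟩ := h.2 q
    exact ⟨a, k, _, Subgroup.zpow_mem _ (Par.of (by simp [ne])) b, e⟩

end Pool.Agent.MP_6eaae3_al

end MrgPart1

-- marker of a merged file
example : 731051 + 238407 = 731051 + 238407 := rfl
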