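import Mathlib.Topology.Sheaves.Presheaf
import Mathlib.Topology.Algebra.Module.ModuleTopology
import Mathlib.Tactic.Monotonicity.Lemmas
import Mathlib.Topology.LocallyConstant.Basic
import Mathlib.Analysis.Normed.Order.Lattice
import Mathlib.Analysis.InnerProductSpace.Basic
import Mathlib.Algebra.Order.Star.Real
import Mathlib.Analysis.Convex.Contractible
import Mathlib.Analysis.CStarAlgebra.Classes
import Mathlib.Topology.Homotopy.Lifting
import Mathlib.Combinatorics.SimpleGraph.Basic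
import Mathlib.Topology.MetricSpace.Contracting
import Mathlib.Order.CompletePartialOrder
import Pool.Agent.MP_6eaae3_al.Defs

-- ======== part 0: formerly Pool.Agent.MP_6eaae3_al.Flat
section MrgPart0

/-! Local systems given by local potentials, and flat lifts of continuous maps. -/

namespace Pool.Agent.MP_6eaae3_al

open Topology Filter

/-- A system of local potentials with values in a group. -/
structure Sys (X G ι : Type) [TopologicalSpace X] [Group G] where
  U : ι → Set X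
  p : ι → X → G
  isOpen : ∀ i, IsOpen (U i)
  cover : ∀ x, ∃ i, x ∈ U i
  compat : ∀ i j x, x ∈ U i → x ∈ U j → ∀ᶠ y in 𝓝 x, p i y * (p j y)⁻¹ = p i x * (p j x)⁻¹

variable {X G ι T : Type} [TopologicalSpace X] [Group G] [TopologicalSpace T]

/-- `k` is a flat lift of `f`. -/
def Flat (S : Sys X G ι) (f : T → X) (k : T → G) : Prop :=
  ∀ t i, f t ∈ S.U i → ∀ᶠ s in 𝓝 t, k s * (S.p i (f s))⁻¹ = k t * (S.p i (f t))⁻¹

theorem flat_of_local {S : Sys X G ι} {f : T → X} (hf : Continuous f) {k : T → G}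
    (h : ∀ t, ∃ i, f t ∈ S.U i ∧ ∀ᶠ s in 𝓝 t, k s * (S.p i (f s))⁻¹ = k t * (S.p i (f t))⁻¹) :
    Flat S f k := by
  intro t j hj
  obtain ⟨i, hi, h1⟩ := h t
  have h2 := hf.continuousAt.eventually (S.compat i j (f t) hi hj)
  filter_upwards [h1, h2] with s a b
  calc k s * (S.p j (f s))⁻¹ = (k s * (S.p i (f s))⁻¹) * (S.p i (f s) * (S.p j (f s))⁻¹) := by group
    _ = _ := by rw [a, b]; group

theorem Flat.comp {S : Sys X G ι} {f : T → X} {k : T → G} (h : Flat S f k) {T' : Type}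
    [TopologicalSpace T'] {φ : T' → T} (hφ : Continuous φ) :
    Flat S (fun t => f (φ t)) (fun t => k (φ t)) :=
  fun t i hi => hφ.continuousAt.eventually (h (φ t) i hi)

theorem Flat.mul_left {S : Sys X G ι} {f : T → X} {k : T → G} (h : Flat S f k) (g : G) :
    Flat S f (fun t => g * k t) := by
  intro t i hi
  filter_upwards [h t i hi] with s a
  rw [mul_assoc, a, mul_assoc]

theorem Flat.unique [PreconnectedSpace T] {S : Sys X G ι} {f : T → X} {k k' : T → G}
    (h : Flat S f k) (h' : Flat S f k') (s t : T) : k s * (k' s)⁻¹ = k t * (k' t)⁻¹ := by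
  have : IsLocallyConstant (fun t => k t * (k' t)⁻¹) := by
    rw [IsLocallyConstant.iff_eventually_eq]
    intro t
    obtain ⟨i, hi⟩ := S.cover (f t)
    filter_upwards [h t i hi, h' t i hi] with s a b
    calc k s * (k' s)⁻¹ = (k s * (S.p i (f s))⁻¹) * (k' s * (S.p i (f s))⁻¹)⁻¹ := by group
      _ = _ := by rw [a, b]; group
  exact this.apply_eq_of_preconnectedSpace s t

theorem Flat.eq_of_eq [PreconnectedSpace T] {S : Sys X G ι} {f : T → X} {k k' : T → G}
    (h : Flat S f k) (h' : Flat S f k') {s : T} (hs : k s = k' s) (t : T) : k t = k' t := by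
  have := h.unique h' s t
  rw [hs, mul_inv_cancel, eq_comm, mul_inv_eq_one] at this
  exact this

/-- Along a map into one chart on which the potential is constant a flat lift is constant. -/
theorem Flat.const [PreconnectedSpace T] {S : Sys X G ι} {f : T → X} (hf : Continuous f)
    {k : T → G} (h : Flat S f k) (i : ι) (c : G) (hi : ∀ t, f t ∈ S.U i) (hc : ∀ t, S.p i (f t) = c)
    (s t : T) : k s = k t := by
  have h' : Flat S f (fun _ => 1) :=
    flat_of_local hf fun t => ⟨i, hi t, Eventually.of_forall fun s => by rw [hc, hc]⟩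
  simpa using h.unique h' s t

theorem exists_flat [SimplyConnectedSpace T] [LocallyPathConnectedSpace T] (S : Sys X G ι)
    {f : T → X} (hf : Continuous f) (t₀ : T) (g₀ : G) : ∃ k, Flat S f k ∧ k t₀ = g₀ := by
  let : TopologicalSpace G := ⊥
  have : DiscreteTopology G := ⟨rfl⟩
  choose idx hidx using S.cover
  let Z : FiberBundleCore ι X G :=
    { baseSet := S.U
      isOpen_baseSet := S.isOpen
      indexAt := idx
      mem_baseSet_at := hidx
      coordChange := fun i j x g => g * (S.p i x * (S.p j x)⁻¹)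
      coordChange_self := fun i x _ v => by simp
      continuousOn_coordChange := fun i j => by
        rintro ⟨x, g⟩ ⟨⟨h1, h2⟩, -⟩
        apply ContinuousAt.continuousWithinAt
        refine (continuousAt_const (y := g * (S.p i x * (S.p j x)⁻¹))).congr ?_
        have e1 : ∀ᶠ q : X × G in 𝓝 (x, g), S.p i q.1 * (S.p j q.1)⁻¹ = S.p i x * (S.p j x)⁻¹ :=
          (continuousAt_fst (p := (x, g))).eventually (S.compat i j x h1 h2)
        have e2 : ∀ᶠ q : X × G in 𝓝 (x, g), q.2 = g :=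
          continuousAt_snd.eventually (p := fun y => y = g) (by simp [nhds_discrete])
        filter_upwards [e1, e2] with q a b
        rw [a, b]
      coordChange_comp := fun i j k x _ v => by group }
  have cov : IsCoveringMap (Bundle.TotalSpace.proj : Z.TotalSpace → X) :=
    FiberBundle.isCoveringMap (F := G) (E := Z.Fiber)
  obtain ⟨F, ⟨hF0, hF⟩, -⟩ := cov.existsUnique_continuousMap_lifts ⟨f, hf⟩ t₀
    (⟨f t₀, (g₀ * (S.p (idx (f t₀)) (f t₀))⁻¹ : G)⟩ : Z.TotalSpace) rfl
  have hp : ∀ t, (F t).proj = f t := fun t => congrFun hF t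
  refine ⟨fun t => (show G from (F t).2) * S.p (idx (F t).proj) (F t).proj, ?_, ?_⟩
  · intro t i hi
    have hc : ContinuousAt (fun s => (Z.localTriv i (F s)).2) t := by
      refine continuousAt_snd.comp (ContinuousAt.comp ?_ F.continuous.continuousAt)
      exact (Z.localTriv i).continuousAt (by
        rw [FiberBundleCore.mem_localTriv_source, hp]; exact hi)
    have := hc.eventually (p := fun y => y = (Z.localTriv i (F t)).2) (by simp [nhds_discrete])
    filter_upwards [this] with s a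
    rw [← hp s, ← hp t, mul_assoc, mul_assoc]
    exact a
  · show (show G from (F t₀).2) * S.p (idx (F t₀).proj) (F t₀).proj = g₀
    rw [hF0]
    show g₀ * (S.p (idx (f t₀)) (f t₀))⁻¹ * S.p (idx (f t₀)) (f t₀) = g₀
    group

instance : LocallyPathConnectedSpace unitInterval :=
  (convex_Icc (0 : ℝ) 1).locallyPathConnectedSpace

instance : ContractibleSpace unitInterval :=
  (convex_Icc (0 : ℝ) 1).contractibleSpace ⟨0, by simp⟩

end Pool.Agent.MP_6eaae3_al

end MrgPart0

-- ======== part 1: formerly Pool.Agent.MP_6eaae3_al.Transport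
section MrgPart1

/-! Moving finite configurations of points in a disc by compactly supported homeomorphisms. -/

namespace Pool.Agent.MP_6eaae3_al

open Topology Filter unitInterval Set Metric

theorem IsFamily.comp {T T' X : Type} [TopologicalSpace T] [TopologicalSpace T']
    [TopologicalSpace X] {H : T → X ≃ₜ X} (h : IsFamily H) {φ : T' → T} (hφ : Continuous φ) :
    IsFamily (fun t => H (φ t)) :=
  ⟨h.1.comp (hφ.prodMap continuous_id), h.2.comp (hφ.prodMap continuous_id)⟩

theorem IsFamily.cont {T T' X : Type} [TopologicalSpace T] [TopologicalSpace T']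
    [TopologicalSpace X] {H : T → X ≃ₜ X} (h : IsFamily H) {φ : T' → T} (hφ : Continuous φ)
    {z : T' → X} (hz : Continuous z) : Continuous fun t => H (φ t) (z t) :=
  h.1.comp (hφ.prodMk hz)

/-- A small Lipschitz perturbation of the identity is a homeomorphism. -/
theorem exists_perturb {T : Type} [TopologicalSpace T] (u : T → ℂ → ℂ)
    (hu : Continuous fun p : T × ℂ => u p.1 p.2)
    (hL : ∀ t z z', ‖u t z - u t z'‖ ≤ 1 / 2 * ‖z - z'‖) :
    ∃ H : T → ℂ ≃ₜ ℂ, IsFamily H ∧ ∀ t z, H t z = z + u t z := by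
  have hc : ∀ t w, ContractingWith (1 / 2) (fun z => w - u t z) := fun t w =>
    ⟨by norm_num, LipschitzWith.of_dist_le_mul fun z z' => by
      rw [dist_eq_norm, dist_eq_norm, sub_sub_sub_cancel_left, norm_sub_rev]
      simpa using hL t z z'⟩
  let g : T → ℂ → ℂ := fun t w => (hc t w).fixedPoint _
  have hg : ∀ t w, g t w + u t (g t w) = w := fun t w => by
    have : w - u t (g t w) = g t w := (hc t w).fixedPoint_isFixedPt
    linear_combination -this
  have key : ∀ t t' z z', ‖z - z'‖ ≤ 2 * ‖(z + u t z) - (z' + u t' z')‖ + 2 * ‖u t z' - u t' z'‖ := by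
    intro t t' z z'
    have e : z - z' = ((z + u t z) - (z' + u t' z')) - (u t z - u t z') - (u t z' - u t' z') := by
      ring
    have h1 := norm_sub_le (((z + u t z) - (z' + u t' z')) - (u t z - u t z')) (u t z' - u t' z')
    have h2 := norm_sub_le ((z + u t z) - (z' + u t' z')) (u t z - u t z')
    rw [← e] at h1
    linarith [hL t z z']
  have hgc : Continuous fun p : T × ℂ => g p.1 p.2 := by
    rw [continuous_iff_continuousAt]
    intro p
    rw [ContinuousAt, tendsto_iff_norm_sub_tendsto_zero]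
    have hc : Continuous fun q : T × ℂ =>
        2 * ‖q.2 - p.2‖ + 2 * ‖u q.1 (g p.1 p.2) - u p.1 (g p.1 p.2)‖ := by
      have := hu.comp (continuous_fst.prodMk (continuous_const (y := g p.1 p.2)) :
        Continuous fun q : T × ℂ => (q.1, g p.1 p.2))
      exact (continuous_const.mul (continuous_snd.sub continuous_const).norm).add
        (continuous_const.mul (this.sub continuous_const).norm)
    refine squeeze_zero (fun _ => norm_nonneg _) (fun q => ?_) (by simpa using hc.tendsto p)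
    simpa [hg] using key q.1 p.1 (g q.1 q.2) (g p.1 p.2)
  refine ⟨fun t =>
    { toFun := fun z => z + u t z
      invFun := g t
      left_inv := fun z => ?_
      right_inv := hg t
      continuous_toFun := continuous_id.add (hu.comp (continuous_const.prodMk continuous_id))
      continuous_invFun := hgc.comp (continuous_const.prodMk continuous_id) },
    ⟨continuous_snd.add hu, hgc⟩, fun _ _ => rfl⟩
  have := key t t (g t (z + u t z)) z
  rw [hg] at this
  simpa [sub_eq_zero] using this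

open Classical in
/-- The isotopy class of a homeomorphism in a group of homeomorphisms. -/
noncomputable def cls {X : Type} [TopologicalSpace X] (K : Subgroup (X ≃ₜ X)) (h : X ≃ₜ X) :
    K ⧸ isotopicToId K :=
  if hm : h ∈ K then QuotientGroup.mk ⟨h, hm⟩ else 1

theorem cls_mem {X : Type} [TopologicalSpace X] {K : Subgroup (X ≃ₜ X)} {h : X ≃ₜ X} (hm : h ∈ K) :
    cls K h = QuotientGroup.mk ⟨h, hm⟩ := dif_pos hm

theorem cls_mul {X : Type} [TopologicalSpace X] {K : Subgroup (X ≃ₜ X)} {h h' : X ≃ₜ X}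
    (hm : h ∈ K) (hm' : h' ∈ K) : cls K (h * h') = cls K h * cls K h' := by
  rw [cls_mem hm, cls_mem hm', cls_mem (mul_mem hm hm')]; rfl

theorem cls_inv {X : Type} [TopologicalSpace X] {K : Subgroup (X ≃ₜ X)} {h : X ≃ₜ X}
    (hm : h ∈ K) : cls K h⁻¹ = (cls K h)⁻¹ := by
  rw [cls_mem hm, cls_mem (inv_mem hm)]; rfl

theorem cls_eq_of_family {X : Type} [TopologicalSpace X] {K : Subgroup (X ≃ₜ X)} {H : I → X ≃ₜ X}
    (hH : IsFamily H) (hm : ∀ t, H t ∈ K) : cls K (H 0) = cls K (H 1) := by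
  rw [cls_mem (hm 0), cls_mem (hm 1), QuotientGroup.eq]
  exact ⟨fun t => ⟨(H 0)⁻¹ * H t, mul_mem (inv_mem (hm 0)) (hm t)⟩,
    (IsFamily.const _).mul hH, by simp, rfl⟩

theorem cls_eventually {T X : Type} [TopologicalSpace T] [LocallyPathConnectedSpace T]
    [TopologicalSpace X] {K : Subgroup (X ≃ₜ X)} {F : T → X ≃ₜ X} (hF : IsFamily F) {t₀ : T}
    (hm : ∀ᶠ t in 𝓝 t₀, F t ∈ K) : ∀ᶠ t in 𝓝 t₀, cls K (F t) = cls K (F t₀) := by
  obtain ⟨W, ⟨h1, h2⟩, h3⟩ := (path_connected_basis t₀).mem_iff.1 hm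
  filter_upwards [h1] with t ht
  obtain ⟨γ, hγ⟩ := h2.joinedIn t₀ (mem_of_mem_nhds h1) t ht
  have := cls_eq_of_family (hF.comp γ.continuous) (fun s => h3 (hγ s))
  simpa using this.symm

/-- Homeomorphisms of the plane supported in the open disc of radius `R`. -/
noncomputable abbrev Hc (R : ℝ) : Subgroup (ℂ ≃ₜ ℂ) := homeoRel ℂ {z | R ≤ ‖z‖}

theorem Hc_norm_lt {R : ℝ} {h : ℂ ≃ₜ ℂ} (hh : h ∈ Hc R) {z : ℂ} (hz : ‖z‖ < R) : ‖h z‖ < R := by
  by_contra e
  have := h.injective (hh (h z) (not_lt.1 e))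
  rw [this] at e; exact e hz

theorem Hc_norm_le {R : ℝ} {h : ℂ ≃ₜ ℂ} (hh : h ∈ Hc R) {z : ℂ} (hz : ‖z‖ ≤ R) : ‖h z‖ ≤ R := by
  rcases hz.lt_or_eq with e | e
  · exact (Hc_norm_lt hh e).le
  · rw [hh z e.ge]; exact hz

variable {ι : Type} [Fintype ι]

/-- Configurations of distinct points in the open disc. -/
def Conf (ι : Type) (R : ℝ) : Set (ι → ℂ) := {c | Function.Injective c ∧ ∀ i, ‖c i‖ < R}

theorem isOpen_Conf (R : ℝ) : IsOpen (Conf ι R) := by
  have : Conf ι R = (⋂ i, ⋂ j, {c : ι → ℂ | i ≠ j → c i ≠ c j}) ∩ ⋂ i, {c | ‖c i‖ < R} := by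
    ext c
    simp only [Conf, mem_ofPred_eq, mem_inter_iff, mem_iInter]
    exact and_congr ⟨fun h i j e e' => e (h e'), fun h i j e => by_contra fun e' => h i j e' e⟩ Iff.rfl
  rw [this]
  refine (isOpen_iInter_of_finite fun i => isOpen_iInter_of_finite fun j => ?_).inter
    (isOpen_iInter_of_finite fun i => isOpen_lt (by fun_prop) continuous_const)
  by_cases e : i = j
  · simp [e]
  · simpa [e] using isOpen_ne_fun (continuous_apply i) (continuous_apply j)

theorem exists_section {R : ℝ} {c : ι → ℂ} (hc : c ∈ Conf ι R) :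
    ∃ r > 0, ∃ s : (ι → ℂ) → ℂ ≃ₜ ℂ, IsFamily s ∧ (∀ y, s y ∈ Hc R) ∧
      ∀ y ∈ ball c r, ∀ i, s y (c i) = y i := by
  classical
  obtain ⟨ρ, hρ, h1, h2⟩ : ∃ ρ > 0, (∀ i j, i ≠ j → ρ ≤ ‖c i - c j‖) ∧ ∀ i, ρ ≤ R - ‖c i‖ := by
    have e1 : ∀ᶠ ρ in 𝓝 (0 : ℝ), ∀ i j, i ≠ j → ρ ≤ ‖c i - c j‖ := by
      refine eventually_all.2 fun i => eventually_all.2 fun j => ?_
      by_cases e : i = j
      · simp [e]
      · filter_upwards [eventually_le_nhds (norm_pos_iff.2 (sub_ne_zero.2 (hc.1.ne e)))] with ρ h _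
        exact h
    have e2 : ∀ᶠ ρ in 𝓝 (0 : ℝ), ∀ i, ρ ≤ R - ‖c i‖ :=
      eventually_all.2 fun i => eventually_le_nhds (sub_pos.2 (hc.2 i))
    obtain ⟨ρ, h1, h2⟩ := (((e1.and e2).filter_mono nhdsWithin_le_nhds).and
      (self_mem_nhdsWithin (s := Ioi (0 : ℝ)))).exists
    exact ⟨ρ, h2, h1⟩
  set n : ℝ := (Fintype.card ι : ℝ) with hn
  have hn0 : 0 ≤ n := Nat.cast_nonneg _
  set r : ℝ := ρ / (2 * (n + 1)) with hr
  have hr0 : 0 < r := by positivity
  let β : ι → ℂ → ℝ := fun i z => max 0 (1 - ‖z - c i‖ / ρ)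
  let cl : ℂ → ℂ := fun v => ((r / max r ‖v‖ : ℝ) : ℂ) * v
  have hcl : ∀ v, ‖cl v‖ ≤ r := fun v => by
    have : 0 < max r ‖v‖ := lt_max_of_lt_left hr0
    rw [norm_mul, Complex.norm_real, Real.norm_of_nonneg (by positivity), div_mul_eq_mul_div,
      div_le_iff₀ this]
    exact mul_le_mul_of_nonneg_left (le_max_right _ _) hr0.le
  have hclc : Continuous cl :=
    (Complex.continuous_ofReal.comp (continuous_const.div (by fun_prop)
      fun v => (lt_max_of_lt_left hr0).ne')).mul continuous_id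
  have hβ : ∀ i z z', |β i z - β i z'| ≤ ‖z - z'‖ / ρ := fun i z z' => by
    refine (abs_max_sub_max_le_max _ _ _ _).trans (max_le (by simp; positivity) ?_)
    rw [sub_sub_sub_cancel_left, ← sub_div, abs_div, abs_of_pos hρ]
    gcongr
    refine (abs_norm_sub_norm_le _ _).trans ?_
    rw [sub_sub_sub_cancel_right, norm_sub_rev]
  obtain ⟨s, hs, hs'⟩ := exists_perturb (T := ι → ℂ)
    (fun y z => ∑ i, (β i z : ℂ) * cl (y i - c i))
    (continuous_finsetSum _ fun i _ => (by fun_prop : Continuous fun p : (ι → ℂ) × ℂ =>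
      (β i p.2 : ℂ)).mul (hclc.comp (by fun_prop))) (by
      intro y z z'
      rw [← Finset.sum_sub_distrib]
      refine (norm_sum_le _ _).trans ?_
      calc _ ≤ ∑ _i : ι, ‖z - z'‖ / ρ * r := Finset.sum_le_sum fun i _ => by
            rw [← sub_mul, norm_mul, ← Complex.ofReal_sub, Complex.norm_real]
            exact mul_le_mul (hβ i z z') (hcl _) (norm_nonneg _) (by positivity)
        _ = n / (n + 1) * (1 / 2 * ‖z - z'‖) := by
            rw [Finset.sum_const, Finset.card_univ, nsmul_eq_mul, ← hn, hr]; field_simp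
        _ ≤ _ := mul_le_of_le_one_left (by positivity) (div_le_one_of_le₀ (by linarith) (by linarith)))
  have hβ0 : ∀ i z, ρ ≤ ‖z - c i‖ → β i z = 0 := fun i z h =>
    max_eq_left (by rw [sub_nonpos, le_div_iff₀ hρ]; linarith)
  refine ⟨r, hr0, s, hs, fun y z hz => ?_, fun y hy i => ?_⟩
  · rw [hs', Finset.sum_eq_zero, add_zero]
    intro i _
    rw [hβ0 i z (by linarith [h2 i, norm_sub_norm_le z (c i), (show R ≤ ‖z‖ from hz)])]; simp
  · rw [hs', Finset.sum_eq_single i]
    · have e : ‖y i - c i‖ ≤ r := by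
        rw [← dist_eq_norm]; exact (dist_le_pi_dist y c i).trans (mem_ball.1 hy).le
      simp [β, cl, max_eq_left e, hr0.ne']
    · intro j _ e
      rw [hβ0 j _ (h1 i j e.symm)]; simp
    · simp

/-- Homeomorphisms supported in the disc that fix a configuration. -/
noncomputable abbrev Hfix (R : ℝ) (c : ι → ℂ) : Subgroup (ℂ ≃ₜ ℂ) := homeoRel ℂ ({z | R ≤ ‖z‖} ∪ range c)

omit [Fintype ι] in
theorem mem_Hfix {R : ℝ} {c : ι → ℂ} {h : ℂ ≃ₜ ℂ} (h1 : h ∈ Hc R) (h2 : ∀ i, h (c i) = c i) :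
    h ∈ Hfix R c := by
  rintro z (hz | ⟨i, rfl⟩)
  exacts [h1 z hz, h2 i]

/-- Two isotopies whose tracks are homotopic end in the same isotopy class. -/
theorem transport {R : ℝ} {c : ι → ℂ} {H H' : I → ℂ ≃ₜ ℂ} (hH : IsFamily H) (hH' : IsFamily H')
    (hm : ∀ t, H t ∈ Hc R) (hm' : ∀ t, H' t ∈ Hc R) (h0 : H 0 = H' 0)
    {Γ : I × I → ι → ℂ} (hΓ : Continuous Γ) (hc : ∀ p, Γ p ∈ Conf ι R)
    (e0 : ∀ t i, Γ (t, 0) i = H t (c i)) (e1 : ∀ t i, Γ (t, 1) i = H' t (c i))
    (s0 : ∀ s, Γ (0, s) = Γ (0, 0)) (s1 : ∀ s, Γ (1, s) = Γ (1, 0)) :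
    ∃ hh : (H 1)⁻¹ * H' 1 ∈ Hfix R c, (⟨_, hh⟩ : Hfix R c) ∈ isotopicToId (Hfix R c) := by
  classical
  have := (isOpen_Conf (ι := ι) R).locallyPathConnectedSpace
  choose r hr s hs hsm hsc using fun x : Conf ι R => exists_section x.2
  let Re : Conf ι R → Prop := fun x => ∃ h ∈ Hc R, ∀ i, h (c i) = x.1 i
  let ch : Conf ι R → ℂ ≃ₜ ℂ := fun x => if hx : Re x then hx.choose else 1
  have ch1 : ∀ x, Re x → ch x ∈ Hc R ∧ ∀ i, ch x (c i) = x.1 i := fun x hx => by
    simp only [ch, dif_pos hx]; exact hx.choose_spec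
  have re : ∀ x y : Conf ι R, y.1 ∈ ball x.1 (r x) → (Re x ↔ Re y) := fun x y hy =>
    ⟨fun ⟨h, h1, h2⟩ => ⟨s x y * h, mul_mem (hsm x y) h1, fun i => by
        rw [Homeomorph.mul_apply, h2, hsc x y hy]⟩,
      fun ⟨h, h1, h2⟩ => ⟨(s x y)⁻¹ * h, mul_mem (inv_mem (hsm x y)) h1, fun i => by
        rw [Homeomorph.mul_apply, h2, ← hsc x y hy]; simp⟩⟩
  have mem : ∀ {f g : ℂ ≃ₜ ℂ}, f ∈ Hc R → g ∈ Hc R → (∀ i, f (c i) = g (c i)) →
      f⁻¹ * g ∈ Hfix R c := fun hf hg h =>
    mem_Hfix (mul_mem (inv_mem hf) hg) fun i => by rw [Homeomorph.mul_apply, ← h]; simp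
  have m1 : ∀ x y : Conf ι R, Re x → y.1 ∈ ball x.1 (r x) →
      s x y * ch x ∈ Hc R ∧ ∀ i, (s x y * ch x) (c i) = y.1 i := fun x y hx hy =>
    ⟨mul_mem (hsm x y) (ch1 x hx).1, fun i => by
      rw [Homeomorph.mul_apply, (ch1 x hx).2, hsc x y hy]⟩
  have step : ∀ (f : ℂ ≃ₜ ℂ) (x y : Conf ι R), f ∈ Hc R → (∀ i, f (c i) = y.1 i) →
      y.1 ∈ ball x.1 (r x) → cls (Hfix R c) (f⁻¹ * ch y) *
        (cls (Hfix R c) ((s x y * ch x)⁻¹ * ch y))⁻¹ = cls (Hfix R c) (f⁻¹ * (s x y * ch x)) := by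
    intro f x y h1 h2 hy
    have ry : Re y := ⟨f, h1, h2⟩
    have rx := (re x y hy).2 ry
    have a1 := mem h1 (ch1 y ry).1 fun i => by rw [h2, (ch1 y ry).2]
    have a2 := mem (m1 x y rx hy).1 (ch1 y ry).1 fun i => by rw [(m1 x y rx hy).2, (ch1 y ry).2]
    rw [← cls_inv a2, ← cls_mul a1 (inv_mem a2)]
    congr 1; group
  let S : Sys (Conf ι R) (Hfix R c ⧸ isotopicToId (Hfix R c)) (Conf ι R) :=
    { U := fun x => {y | y.1 ∈ ball x.1 (r x)}
      p := fun x y => if Re x then cls (Hfix R c) ((s x y * ch x)⁻¹ * ch y) else 1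
      isOpen := fun x => isOpen_ball.preimage continuous_subtype_val
      cover := fun x => ⟨x, mem_ball_self (hr x)⟩
      compat := fun x x' y hy hy' => by
        by_cases hx : Re x
        · have hx' := (re x' y hy').2 ((re x y hy).1 hx)
          have ev : ∀ᶠ w : Conf ι R in 𝓝 y, w.1 ∈ ball x.1 (r x) ∧ w.1 ∈ ball x'.1 (r x') :=
            Eventually.and ((isOpen_ball.preimage continuous_subtype_val).mem_nhds hy)
              ((isOpen_ball.preimage continuous_subtype_val).mem_nhds hy')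
          have f1 : IsFamily fun w : Conf ι R => (s x w * ch x)⁻¹ * (s x' w * ch x') :=
            (((hs x).comp continuous_subtype_val).mul (IsFamily.const _)).inv.mul
              (((hs x').comp continuous_subtype_val).mul (IsFamily.const _))
          have f2 := cls_eventually (K := Hfix R c) f1 (ev.mono fun w hw =>
            mem (m1 x w hx hw.1).1 (m1 x' w hx' hw.2).1 fun i => by
              rw [(m1 x w hx hw.1).2, (m1 x' w hx' hw.2).2])
          filter_upwards [ev, f2] with w hw h2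
          simp only [if_pos hx, if_pos hx']
          rw [step _ x' w (m1 x w hx hw.1).1 (m1 x w hx hw.1).2 hw.2,
            step _ x' y (m1 x y hx hy).1 (m1 x y hx hy).2 hy', h2]
        · have hx' : ¬ Re x' := fun h => hx ((re x y hy).2 ((re x' y hy').1 h))
          simp [hx, hx'] }
  let f : I × I → Conf ι R := fun p => ⟨Γ p, hc p⟩
  have hf : Continuous f := hΓ.subtype_mk _
  have flat : ∀ (K : I → ℂ ≃ₜ ℂ) (τ : I), IsFamily K → (∀ t, K t ∈ Hc R) →
      (∀ t i, Γ (t, τ) i = K t (c i)) →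
      Flat S (fun t => f (t, τ)) (fun t => cls (Hfix R c) ((K t)⁻¹ * ch (f (t, τ)))) := by
    intro K τ k1 k2 k3 t x hx
    have hfc : Continuous fun t => f (t, τ) := hf.comp (by fun_prop)
    have rx : Re x := (re x _ hx).2 ⟨K t, k2 t, fun i => (k3 t i).symm⟩
    have ev : ∀ᶠ u in 𝓝 t, (f (u, τ)).1 ∈ ball x.1 (r x) :=
      hfc.continuousAt.eventually ((S.isOpen x).mem_nhds hx)
    have f1 : IsFamily fun u => (K u)⁻¹ * (s x (f (u, τ)) * ch x) :=
      k1.inv.mul (((hs x).comp (continuous_subtype_val.comp hfc)).mul (IsFamily.const _))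
    have f2 := cls_eventually (K := Hfix R c) f1 (ev.mono fun u hu =>
      mem (k2 u) (m1 x _ rx hu).1 fun i => by rw [(m1 x _ rx hu).2]; exact (k3 u i).symm)
    filter_upwards [ev, f2] with u hu h2
    simp only [S, if_pos rx]
    rw [step _ x _ (k2 u) (fun i => (k3 u i).symm) hu, step _ x _ (k2 t) (fun i => (k3 t i).symm) hx,
      h2]
  obtain ⟨k, hk, hk0⟩ := exists_flat S hf (0, 0) (cls (Hfix R c) ((H 0)⁻¹ * ch (f (0, 0))))
  have side : ∀ t : I, (∀ τ, Γ (t, τ) = Γ (t, 0)) → k (t, 1) = k (t, 0) := fun t ht => by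
    have e : ∀ τ, f (t, τ) = f (t, 0) := fun τ => Subtype.ext (ht τ)
    have hc' : Continuous fun τ : I => f (t, τ) := hf.comp (by fun_prop)
    exact (hk.comp (φ := fun τ : I => (t, τ)) (by fun_prop)).const hc'
      (f (t, 0)) (S.p (f (t, 0)) (f (t, 0)))
      (fun τ => by rw [e τ]; exact mem_ball_self (x := (f (t, 0)).1) (hr (f (t, 0))))
      (fun τ => by rw [e τ]) 1 0
  have b0 := (hk.comp (φ := fun t : I => (t, (0 : I))) (by fun_prop)).eq_of_eq
    (flat H 0 hH hm e0) (s := 0) hk0 1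
  have b1 := (hk.comp (φ := fun t : I => (t, (1 : I))) (by fun_prop)).eq_of_eq
    (flat H' 1 hH' hm' e1) (s := 0) (by
      rw [side 0 s0, hk0, h0, show f (0, 1) = f (0, 0) from Subtype.ext (s0 1)]) 1
  have ef : f (1, 1) = f (1, 0) := Subtype.ext (s1 1)
  rw [side 1 s1, b0, ef] at b1
  have ry : Re (f (1, 0)) := ⟨H 1, hm 1, fun i => (e0 1 i).symm⟩
  have a1 := mem (hm 1) (ch1 _ ry).1 fun i => by rw [(ch1 _ ry).2]; exact (e0 1 i).symm
  have a2 := mem (hm' 1) (ch1 _ ry).1 fun i => by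
    rw [(ch1 _ ry).2, ← e1]; exact congrFun (s1 1) i
  have a3 : (H 1)⁻¹ * H' 1 = ((H 1)⁻¹ * ch (f (1, 0))) * ((H' 1)⁻¹ * ch (f (1, 0)))⁻¹ := by group
  have a4 := a3 ▸ mul_mem a1 (inv_mem a2)
  refine ⟨a4, ?_⟩
  rw [← QuotientGroup.eq_one_iff, ← cls_mem a4, a3, cls_mul a1 (inv_mem a2), cls_inv a2, b1,
    mul_inv_cancel]

end Pool.Agent.MP_6eaae3_al

end MrgPart1

-- marker of a merged file
example : 731051 + 735116 = 731051 + 735116 := rfl
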