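import Mathlib.Data.ZMod.Basic
import Mathlib.Topology.GDelta.MetrizableSpace
import Mathlib.Topology.MetricSpace.Polish
import Mathlib.Topology.Separation.CompletelyRegular
import Pool.Agent.MP_6eaae3_al.Transport

/-! Surfaces obtained from finitely many squares by gluing sides in pairs. -/

namespace Pool.Agent.MP_6eaae3_al

open Topology Filter unitInterval Set

/-- The four sides of the unit square, each parametrised counterclockwise. -/
def side : Fin 4 → I → I × I :=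
  ![fun t => (t, 0), fun t => (1, t), fun t => (σ t, 1), fun t => (0, σ t)]

/-- The side `s` is glued to the side `g s` if `g s ≠ s`, reversing the boundary orientation. -/
def glue {ι : Type} (g : ι × Fin 4 → ι × Fin 4) (p q : Σ _ : ι, I × I) : Prop :=
  ∃ k l t, g (p.1, k) = (q.1, l) ∧ (p.1, k) ≠ (q.1, l) ∧ p.2 = side k t ∧ q.2 = side l (σ t)

/-- The surface obtained from the squares indexed by `ι` by gluing sides along `g`. -/
def Sq {ι : Type} (g : ι × Fin 4 → ι × Fin 4) : Type := Quot (glue g)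

instance {ι : Type} (g : ι × Fin 4 → ι × Fin 4) : TopologicalSpace (Sq g) :=
  inferInstanceAs (TopologicalSpace (Quot (glue g)))

/-- The point `q` of the square `i`. -/
def pt {ι : Type} (g : ι × Fin 4 → ι × Fin 4) (i : ι) (q : I × I) : Sq g := Quot.mk _ ⟨i, q⟩

/-- The boundary: the union of the sides that are not glued. -/
def bd {ι : Type} (g : ι × Fin 4 → ι × Fin 4) : Set (Sq g) :=
  {x | ∃ i k t, g (i, k) = (i, k) ∧ x = pt g i (side k t)}

/-- The midpoint of the unit interval. -/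
noncomputable def mdp : I := ⟨1 / 2, by norm_num, by norm_num⟩

/-- The centres of the squares with index in `Z`. -/
def ctr {ι : Type} (g : ι × Fin 4 → ι × Fin 4) (Z : Set ι) : Set (Sq g) :=
  {x | ∃ i ∈ Z, x = pt g i (mdp, mdp)}

variable {ι : Type} {g : ι × Fin 4 → ι × Fin 4}

theorem continuous_pt (i : ι) : Continuous (pt g i) :=
  continuous_quot_mk.comp continuous_sigmaMk

theorem pt_surj (x : Sq g) : ∃ i q, x = pt g i q := by
  obtain ⟨⟨i, q⟩, rfl⟩ := Quot.exists_rep x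
  exact ⟨i, q, rfl⟩

theorem continuous_side (k : Fin 4) : Continuous (side k) := by
  fin_cases k
  · exact continuous_id.prodMk continuous_const
  · exact continuous_const.prodMk continuous_id
  · exact continuous_symm.prodMk continuous_const
  · exact continuous_const.prodMk continuous_symm

theorem pt_glue {i j : ι} {k l : Fin 4} (h : g (i, k) = (j, l)) (h' : (i, k) ≠ (j, l)) (t : I) :
    pt g i (side k t) = pt g j (side l (σ t)) := Quot.sound ⟨k, l, t, h, h', rfl, rfl⟩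

theorem glue.symm (hg : Function.Involutive g) {p q : Σ _ : ι, I × I} (h : glue g p q) :
    glue g q p := by
  obtain ⟨k, l, t, h1, h2, h3, h4⟩ := h
  exact ⟨l, k, σ t, by rw [← h1, hg], h2.symm, h4, by rw [symm_symm, h3]⟩

theorem mem_of_sat (hg : Function.Involutive g) {S : Set (Σ _ : ι, I × I)}
    (hS : ∀ p ∈ S, ∀ q, glue g p q → q ∈ S) {i j : ι} {p q : I × I} (h : pt g i p = pt g j q)
    (hp : ⟨i, p⟩ ∈ S) : ⟨j, q⟩ ∈ S := by
  have key : ∀ a b, Relation.EqvGen (glue g) a b → (a ∈ S ↔ b ∈ S) := by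
    intro a b h
    induction h with
    | rel a b h => exact ⟨fun x => hS a x b h, fun x => hS b x a (h.symm hg)⟩
    | refl a => rfl
    | symm a b _ ih => exact ih.symm
    | trans a b c _ _ ih ih' => exact ih.trans ih'
  exact (key _ _ (Quot.eqvGen_exact h)).1 hp

theorem pt_single (hg : Function.Involutive g) {i j : ι} {p q : I × I}
    (hp : ∀ k t, p = side k t → g (i, k) = (i, k)) (h : pt g i p = pt g j q) : j = i ∧ q = p := by
  have := mem_of_sat hg (S := {⟨i, p⟩}) (by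
    rintro _ rfl q ⟨k, l, t, h1, h2, h3, -⟩
    exact (h2 ((hp k t h3).symm.trans h1)).elim) h rfl
  cases this; exact ⟨rfl, rfl⟩

/-- The corners of the square. -/
def Vert (q : I × I) : Prop := (q.1 = 0 ∨ q.1 = 1) ∧ (q.2 = 0 ∨ q.2 = 1)

theorem vert_side {k : Fin 4} {t : I} : Vert (side k t) ↔ t = 0 ∨ t = 1 := by
  fin_cases k <;> simp [side, Vert, or_comm]

theorem side_inj {k l : Fin 4} {t s : I} (h : side k t = side l s) (hv : ¬ Vert (side k t)) :
    k = l ∧ t = s := by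
  have hv' := hv
  rw [h] at hv'
  rw [vert_side] at hv hv'
  push Not at hv hv'
  fin_cases k <;> fin_cases l <;> simp [side, symm_bijective.injective.eq_iff] at h ⊢ <;> simp_all

theorem pt_fiber (hg : Function.Involutive g) {i j : ι} {p q : I × I} (hp : ¬ Vert p)
    (h : pt g i p = pt g j q) : (j = i ∧ q = p) ∨ glue g ⟨i, p⟩ ⟨j, q⟩ := by
  have := mem_of_sat hg (S := {⟨i, p⟩} ∪ {a | glue g ⟨i, p⟩ a}) (by
    rintro a (rfl | ⟨k, l, t, h1, h2, h3, h4⟩) b hb
    · exact Or.inr hb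
    · obtain ⟨k', l', t', e1, -, e3, e4⟩ := hb
      simp only at h1 h3
      rw [h3, vert_side] at hp
      obtain ⟨rfl, rfl⟩ := side_inj (h4.symm.trans e3) (by rw [vert_side]; simpa [or_comm] using hp)
      rw [← h1, hg] at e1
      obtain ⟨b1, b2⟩ := b
      cases e1
      simp only [symm_symm] at e4
      exact Or.inl (by rw [h3, e4]; rfl)) h (Or.inl rfl)
  rcases this with e | e
  · cases e; exact Or.inl ⟨rfl, rfl⟩
  · exact Or.inr e

theorem pt_vert (hg : Function.Involutive g) {i j : ι} {p q : I × I} (hp : Vert p)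
    (h : pt g i p = pt g j q) : Vert q :=
  mem_of_sat hg (S := {a | Vert a.2}) (by
    rintro a ha b ⟨k, l, t, -, -, h3, h4⟩
    simp only [mem_ofPred_eq, h3, h4, vert_side] at ha ⊢
    simpa [or_comm] using ha) h hp

theorem isClosedMap_mk [Finite ι] (hg : Function.Involutive g) :
    IsClosedMap (Quot.mk (glue g)) := by
  intro C hC
  rw [← isQuotientMap_quot_mk.isClosed_preimage]
  let G : ι × Fin 4 → Set (Σ _ : ι, I × I) := fun s =>
    (fun t => ⟨(g s).1, side (g s).2 (σ t)⟩) '' {t | g s ≠ s ∧ ⟨s.1, side s.2 t⟩ ∈ C}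
  have hG : ∀ s, IsClosed (G s) := fun s => by
    refine (IsCompact.image (IsClosed.isCompact ?_) (continuous_sigmaMk.comp
      ((continuous_side _).comp continuous_symm))).isClosed
    by_cases e : g s = s
    · simp [e]
    · have : IsClosed {t | (⟨s.1, side s.2 t⟩ : Σ _ : ι, I × I) ∈ C} :=
        hC.preimage (continuous_sigmaMk.comp (continuous_side s.2))
      simpa [e] using this
  have fin : {a : Σ _ : ι, I × I | Vert a.2}.Finite := by
    refine (finite_range fun s : ι × Bool × Bool =>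
      (⟨s.1, (if s.2.1 then 0 else 1, if s.2.2 then 0 else 1)⟩ : Σ _ : ι, I × I)).subset ?_
    rintro ⟨i, x, y⟩ ⟨rfl | rfl, rfl | rfl⟩
    exacts [⟨(i, true, true), rfl⟩, ⟨(i, true, false), rfl⟩, ⟨(i, false, true), rfl⟩,
      ⟨(i, false, false), rfl⟩]
  have : Quot.mk (glue g) ⁻¹' (Quot.mk _ '' C) = (C ∪ ⋃ s, G s) ∪
      ({a | Vert a.2} ∩ Quot.mk (glue g) ⁻¹' (Quot.mk _ '' C)) := by
    refine Subset.antisymm ?_ ?_
    · rintro ⟨j, q⟩ ⟨⟨i, p⟩, h1, h2⟩
      by_cases hp : Vert p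
      · exact Or.inr ⟨pt_vert hg hp h2, _, h1, h2⟩
      rcases pt_fiber hg hp h2 with ⟨rfl, rfl⟩ | ⟨k, l, t, e1, e2, e3, e4⟩
      · exact Or.inl (Or.inl h1)
      · simp only at e1 e2 e3 e4
        exact Or.inl (Or.inr (mem_iUnion.2 ⟨(i, k), t, ⟨by rw [e1]; exact e2.symm, e3 ▸ h1⟩,
          by rw [e1, e4]⟩))
    · rintro a ((h | h) | h)
      · exact ⟨a, h, rfl⟩
      · obtain ⟨s, t, ⟨h1, h2⟩, rfl⟩ := mem_iUnion.1 h
        exact ⟨_, h2, pt_glue rfl h1.symm t⟩
      · exact h.2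
  rw [this]
  exact (hC.union (isClosed_iUnion_of_finite hG)).union (fin.subset inter_subset_left).isClosed

theorem isClosed_pt [Finite ι] (hg : Function.Involutive g) (i : ι) {C : Set (I × I)}
    (hC : IsClosed C) : IsClosed (pt g i '' C) := by
  have h : IsClosed ((fun q => (⟨i, q⟩ : Σ _ : ι, I × I)) '' C) := 
    @isClosedMap_sigmaMk ι (fun _ => I × I) _ i C hC
  have := isClosedMap_mk hg _ h
  rwa [← image_comp] at this

theorem ev_fiber [Finite ι] (hg : Function.Involutive g) {x : Sq g} {Q : Sq g → Prop}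
    (h : ∀ i p, pt g i p = x → ∀ᶠ q in 𝓝 p, Q (pt g i q)) : ∀ᶠ y in 𝓝 x, Q y := by
  have := (isClosedMap_mk hg).eventually_nhds_fiber (p := fun a => Q (Quot.mk _ a)) x (by
    rintro ⟨i, p⟩ e
    rw [Sigma.nhds_mk, eventually_map]
    exact h i p e)
  filter_upwards [this] with y hy
  obtain ⟨a, rfl⟩ := Quot.exists_rep y
  exact hy a rfl

theorem isClosed_ctr [Finite ι] (hg : Function.Involutive g) (Z : Set ι) : IsClosed (ctr g Z) := by
  have : ctr g Z = ⋃ i ∈ Z, pt g i '' {(mdp, mdp)} := by ext; simp [ctr]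
  rw [this]
  exact (toFinite Z).isClosed_biUnion fun i _ => isClosed_pt hg i isClosed_singleton

theorem side_ne {p : I × I} (h1 : 0 < p.1) (h2 : p.1 < 1) {k : Fin 4} {t : I} (h : p = side k t) :
    (k = 0 ∧ p.2 = 0) ∨ (k = 2 ∧ p.2 = 1) := by
  subst h
  fin_cases k <;> simp [side] at h1 h2 ⊢

theorem half_pos : 0 < mdp := by show (0 : ℝ) < 1 / 2; norm_num
theorem half_lt : mdp < 1 := by show (1 / 2 : ℝ) < 1; norm_num

theorem pt_mem_ctr (hg : Function.Involutive g) {Z : Set ι} {i : ι} {p : I × I} :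
    pt g i p ∈ ctr g Z ↔ i ∈ Z ∧ p = (mdp, mdp) := by
  refine ⟨fun ⟨j, hj, e⟩ => ?_, fun ⟨h1, h2⟩ => ⟨i, h1, by rw [h2]⟩⟩
  obtain ⟨rfl, rfl⟩ := pt_single hg (fun k t h => by
    rcases side_ne half_pos half_lt h with ⟨-, e⟩ | ⟨-, e⟩
    exacts [(half_pos.ne' e).elim, (half_lt.ne e).elim]) e.symm
  exact ⟨hj, rfl⟩

/-- Squares whose top and bottom sides lie on the boundary. -/
def Free (g : ι × Fin 4 → ι × Fin 4) (i : ι) : Prop := g (i, 0) = (i, 0) ∧ g (i, 2) = (i, 2)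

theorem Free.single (hg : Function.Involutive g) {i j : ι} (h : Free g i) {p q : I × I}
    (h1 : 0 < p.1) (h2 : p.1 < 1) (e : pt g i p = pt g j q) : j = i ∧ q = p :=
  pt_single hg (fun k t e => by
    rcases side_ne h1 h2 e with ⟨rfl, -⟩ | ⟨rfl, -⟩
    exacts [h.1, h.2]) e

theorem Free.ev [Finite ι] (hg : Function.Involutive g) {i : ι} (h : Free g i) {p : I × I}
    (h1 : 0 < p.1) (h2 : p.1 < 1) {Q : Sq g → Prop} (hQ : ∀ᶠ q in 𝓝 p, Q (pt g i q)) :
    ∀ᶠ y in 𝓝 (pt g i p), Q y :=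
  ev_fiber hg fun j q e => by
    obtain ⟨rfl, rfl⟩ := h.single hg h1 h2 e.symm
    exact hQ

/-- Coordinates along an annulus that crosses a square horizontally or vertically. -/
def rt (b : Bool) (q : I × I) : I × I := if b then (σ q.2, q.1) else q
def unrt (b : Bool) (q : I × I) : I × I := if b then (q.2, σ q.1) else q
def ex (b : Bool) : Fin 4 := if b then 2 else 1
def en (b : Bool) : Fin 4 := if b then 0 else 3

theorem rt_unrt (b : Bool) (q : I × I) : rt b (unrt b q) = q := by cases b <;> simp [rt, unrt]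
theorem unrt_rt (b : Bool) (q : I × I) : unrt b (rt b q) = q := by cases b <;> simp [rt, unrt]
theorem continuous_rt (b : Bool) : Continuous (rt b) := by
  cases b
  · exact continuous_id
  · exact (continuous_symm.comp continuous_snd).prodMk continuous_fst
theorem continuous_unrt (b : Bool) : Continuous (unrt b) := by
  cases b
  · exact continuous_id
  · exact continuous_snd.prodMk (continuous_symm.comp continuous_fst)
theorem side_ex (b : Bool) (t : I) : side (ex b) t = rt b (1, t) := by cases b <;> rfl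
theorem side_en (b : Bool) (t : I) : side (en b) (σ t) = rt b (0, t) := by
  cases b <;> simp [side, en, rt]
theorem ex_ne_en (b b' : Bool) : ex b ≠ en b' := by cases b <;> cases b' <;> decide

theorem rt_side {b : Bool} {x y t : I} {k : Fin 4} (h0 : 0 < y) (h1 : y < 1)
    (h : rt b (x, y) = side k t) : (k = ex b ∧ x = 1 ∧ t = y) ∨ (k = en b ∧ x = 0 ∧ t = σ y) := by
  have := h0.ne'
  have := h1.ne
  cases b <;> fin_cases k <;> simp [rt, side, ex, en, symm_bijective.injective.eq_iff] at h ⊢ <;>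
    simp_all

/-- A cyclic chain of squares. -/
structure Ann (g : ι × Fin 4 → ι × Fin 4) where
  n : ℕ
  sq : ℤ → ι
  ρ : ℤ → Bool
  inj : ∀ k l, sq k = sq l ↔ (k : ZMod n) = l
  per : ∀ k l, sq k = sq l → ρ k = ρ l
  gl : ∀ k, g (sq k, ex (ρ k)) = (sq (k + 1), en (ρ (k + 1)))

noncomputable def pj (y : ℝ) : I := projIcc 0 1 zero_le_one y

theorem pj_coe (y : I) : pj y = y := projIcc_val _ y
@[fun_prop] theorem continuous_pj : Continuous pj := continuous_projIcc (h := zero_le_one)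
theorem coe_pj {y : ℝ} (h0 : 0 ≤ y) (h1 : y ≤ 1) : (pj y : ℝ) = y := by
  rw [pj, projIcc_of_mem _ ⟨h0, h1⟩]

namespace Ann

variable (A : Ann g)

noncomputable def F (k : ℤ) (p : ℝ × ℝ) : Sq g := pt g (A.sq k) (rt (A.ρ k) (pj (p.1 - k), pj p.2))

/-- The developing chart of the annulus. -/
noncomputable def J (p : ℝ × ℝ) : Sq g := A.F ⌊p.1⌋ p

theorem next (k : ℤ) (y : I) : pt g (A.sq k) (rt (A.ρ k) (1, y)) =
    pt g (A.sq (k + 1)) (rt (A.ρ (k + 1)) (0, y)) := by
  rw [← side_ex, ← side_en]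
  exact pt_glue (A.gl k) (fun e => ex_ne_en _ _ (congrArg Prod.snd e)) y

theorem J_eq (k : ℤ) (x y : I) : A.J (k + x, y) = pt g (A.sq k) (rt (A.ρ k) (x, y)) := by
  rcases x.2.2.lt_or_eq with h | h
  · have : ⌊(k : ℝ) + x⌋ = k := Int.floor_eq_iff.2 ⟨by linarith [x.2.1], by linarith⟩
    simp only [J, F, this, add_sub_cancel_left, pj_coe]
  · obtain rfl : x = 1 := Subtype.ext h
    have : ⌊(k : ℝ) + (1 : I)⌋ = k + 1 := by simp
    rw [next]
    simp only [J, F, this, pj_coe]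
    simp [pj]

theorem J_F {k : ℤ} {p : ℝ × ℝ} (h0 : k ≤ p.1) (h1 : p.1 ≤ k + 1) : A.J p = A.F k p := by
  have := A.J_eq k (pj (p.1 - k)) (pj p.2)
  rw [coe_pj (by linarith) (by linarith), add_sub_cancel] at this
  rw [F, ← this]
  simp only [J, F, pj_coe]

theorem continuous_J : Continuous A.J := by
  have hF : ∀ k, Continuous (A.F k) := fun k =>
    (continuous_pt _).comp ((continuous_rt _).comp (by fun_prop))
  rw [continuous_iff_continuousAt]
  intro p
  have := (hF (⌊p.1⌋ - 1)).if_le (hF ⌊p.1⌋) continuous_fst (continuous_const (y := (⌊p.1⌋ : ℝ)))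
    (fun q e => by rw [← A.J_F (by simp [e]) (by simp [e]), ← A.J_F (by simp [e]) (by simp [e])])
  refine this.continuousAt.congr ?_
  filter_upwards [(isOpen_Ioo.preimage continuous_fst).mem_nhds
    (show p.1 ∈ Ioo ((⌊p.1⌋ : ℝ) - 1) (⌊p.1⌋ + 1) from
      ⟨by linarith [Int.floor_le p.1], Int.lt_floor_add_one _⟩)] with q hq
  split_ifs with h
  · exact (A.J_F (by push_cast; exact hq.1.le) (by push_cast; linarith)).symm
  · exact (A.J_F (not_le.1 h).le hq.2.le).symm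

theorem exists_eq {p : ℝ × ℝ} (h0 : 0 < p.2) (h1 : p.2 < 1) :
    ∃ (k : ℤ) (x y : I), p = ((k : ℝ) + x, (y : ℝ)) ∧ 0 < y ∧ y < 1 ∧ x < 1 :=
  ⟨⌊p.1⌋, ⟨Int.fract p.1, Int.fract_nonneg _, (Int.fract_lt_one _).le⟩, ⟨p.2, h0.le, h1.le⟩,
    by simp, h0, h1, (Int.fract_lt_one _ : Int.fract p.1 < 1)⟩

theorem fiber (hg : Function.Involutive g) {k : ℤ} {x y : I} (h0 : 0 < y) (h1 : y < 1) {j : ι}
    {q : I × I} (h : pt g (A.sq k) (rt (A.ρ k) (x, y)) = pt g j q) :
    ∃ (l : ℤ) (x' : I), j = A.sq l ∧ q = rt (A.ρ l) (x', y) ∧ (l : ℝ) + x' = k + x := by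
  have nv : ¬ Vert (rt (A.ρ k) (x, y)) := by
    have := h0.ne'
    have := h1.ne
    cases A.ρ k <;> simp [rt, Vert, *]
  rcases pt_fiber hg nv h with ⟨rfl, rfl⟩ | ⟨a, b, t, e1, -, e3, e4⟩
  · exact ⟨k, x, rfl, rfl, rfl⟩
  simp only at e1 e3 e4
  rcases rt_side h0 h1 e3 with ⟨rfl, rfl, rfl⟩ | ⟨rfl, rfl, rfl⟩
  · rw [A.gl] at e1
    cases e1
    exact ⟨k + 1, 0, rfl, by rw [e4, side_en], by simp⟩
  · have := A.gl (k - 1)
    rw [sub_add_cancel] at this
    rw [← this, hg] at e1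
    cases e1
    exact ⟨k - 1, 1, rfl, by rw [e4, symm_symm, side_ex], by simp⟩

theorem J_add (p : ℝ × ℝ) (a : ℤ) : A.J (p.1 + a * A.n, p.2) = A.J p := by
  have e : ⌊p.1 + a * A.n⌋ = ⌊p.1⌋ + a * A.n := by rw [← Int.floor_add_intCast]; push_cast; rfl
  have e1 : A.sq (⌊p.1⌋ + a * A.n) = A.sq ⌊p.1⌋ := (A.inj _ _).2 (by simp)
  simp only [J, F, e, e1, A.per _ _ e1]
  congr 4; push_cast; ring

theorem J_inj (hg : Function.Involutive g) {p q : ℝ × ℝ} (h0 : 0 < p.2) (h1 : p.2 < 1)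
    (h0' : 0 < q.2) (h1' : q.2 < 1) (h : A.J p = A.J q) : ∃ a : ℤ, q = (p.1 + a * A.n, p.2) := by
  obtain ⟨k, x, y, rfl, a0, a1, -⟩ := exists_eq h0 h1
  obtain ⟨k', x', y', rfl, -⟩ := exists_eq h0' h1'
  rw [J_eq, J_eq] at h
  obtain ⟨l, x'', e1, e2, e3⟩ := A.fiber hg a0 a1 h
  rw [A.per _ _ e1] at e2
  have := congrArg (unrt (A.ρ l)) e2
  rw [unrt_rt, unrt_rt] at this
  cases this
  obtain ⟨a, ha⟩ := (ZMod.intCast_eq_intCast_iff_dvd_sub _ _ _).1 ((A.inj _ _).1 e1.symm)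
  have : (k' : ℝ) - l = A.n * a := by exact_mod_cast ha
  exact ⟨a, Prod.ext (by simp only; linarith) rfl⟩

theorem map_nhds [Finite ι] (hg : Function.Involutive g) {p : ℝ × ℝ} (h0 : 0 < p.2) (h1 : p.2 < 1) :
    map A.J (𝓝 p) = 𝓝 (A.J p) := by
  refine le_antisymm A.continuous_J.continuousAt fun U hU => ?_
  obtain ⟨k, x, y, rfl, a0, a1, -⟩ := exists_eq h0 h1
  refine ev_fiber hg fun j q e => ?_
  rw [J_eq] at e
  obtain ⟨l, x', rfl, rfl, e3⟩ := A.fiber hg a0 a1 e.symm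
  have c : Continuous fun q : I × I => ((l : ℝ) + (unrt (A.ρ l) q).1, ((unrt (A.ρ l) q).2 : ℝ)) := by
    have := continuous_unrt (A.ρ l)
    fun_prop
  have := c.continuousAt (x := rt (A.ρ l) (x', y))
  rw [ContinuousAt, unrt_rt, e3] at this
  filter_upwards [this hU] with q hq
  rw [mem_preimage, mem_preimage, J_eq, rt_unrt] at hq
  exact hq

theorem isClosed_strip [Finite ι] (hg : Function.Involutive g) {a b : ℝ} (ha : 0 ≤ a) (hb : b ≤ 1) :
    IsClosed (A.J '' {p | a ≤ p.2 ∧ p.2 ≤ b}) := by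
  have : A.J '' {p | a ≤ p.2 ∧ p.2 ≤ b} = ⋃ s : ι × Bool, pt g s.1 ''
      {q | (∃ k, s = (A.sq k, A.ρ k)) ∧ a ≤ (unrt s.2 q).2 ∧ (unrt s.2 q).2 ≤ b} := by
    refine Subset.antisymm ?_ ?_
    · rintro _ ⟨p, hp, rfl⟩
      refine mem_iUnion.2 ⟨(_, _), _, ⟨⟨⌊p.1⌋, rfl⟩, ?_⟩, rfl⟩
      rw [unrt_rt, coe_pj (ha.trans hp.1) (hp.2.trans hb)]
      exact hp
    · rintro _ ⟨_, ⟨s, rfl⟩, q, ⟨⟨k, rfl⟩, h⟩, rfl⟩
      exact ⟨(k + (unrt (A.ρ k) q).1, (unrt (A.ρ k) q).2), h, by rw [J_eq, rt_unrt]⟩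
  rw [this]
  refine isClosed_iUnion_of_finite fun s => isClosed_pt hg _ (isClosed_const.inter ?_)
  have c : Continuous fun q => ((unrt s.2 q).2 : ℝ) :=
    continuous_subtype_val.comp (continuous_snd.comp (continuous_unrt s.2))
  exact (isClosed_le continuous_const c).inter (isClosed_le c continuous_const)

theorem not_bd (hg : Function.Involutive g) {p : ℝ × ℝ} (h0 : 0 < p.2) (h1 : p.2 < 1) :
    A.J p ∉ bd g := by
  obtain ⟨k, x, y, rfl, a0, a1, -⟩ := exists_eq h0 h1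
  rintro ⟨i, s, t, e1, e2⟩
  rw [J_eq] at e2
  obtain ⟨l, x', rfl, e, -⟩ := A.fiber hg a0 a1 e2
  rcases rt_side a0 a1 e.symm with ⟨rfl, -⟩ | ⟨rfl, -⟩
  · exact ex_ne_en _ _ (congrArg Prod.snd (e1.symm.trans (A.gl l)))
  · have := A.gl (l - 1)
    rw [sub_add_cancel] at this
    rw [← this, hg] at e1
    exact ex_ne_en _ _ (congrArg Prod.snd (e1.trans this))

end Ann

end Pool.Agent.MP_6eaae3_al
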