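import Mathlib.Tactic.SuppressCompilation
import Mathlib.Analysis.Normed.Group.AddCircle
import Mathlib.RingTheory.PiTensorProduct
import Mathlib.Topology.UniformSpace.Uniformizable
import Pool.Agent.MP_6eaae3_al.Sq
import Mathlib.Topology.Algebra.Order.Floor
import Mathlib.GroupTheory.Perm.List
import Mathlib.Data.Int.Star
import Mathlib.Algebra.Order.Ring.Star
import Mathlib.Data.List.GetD
import Mathlib.Order.Interval.Finset.Box
import Pool.Agent.MP_6eaae3_al.Cl.Hur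

-- ======== part 0: formerly Pool.Agent.MP_6eaae3_al.Twist
section MrgPart0

-- ======== part 0: formerly Pool.Agent.MP_6eaae3_al.Coc
section MrgPart0

/-! Local cocycles, homeomorphisms that lift an automorphism, and extension from charts. -/

namespace Pool.Agent.MP_6eaae3_al

open Topology Filter unitInterval Set

set_option linter.unusedSectionVars false

section generic

variable {X G T : Type} [TopologicalSpace X] [Group G] [TopologicalSpace T] {B P : Set X}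
  {c : X → X → G}

/-- `c` is a local cocycle away from `P`. -/
def Coc (P : Set X) (c : X → X → G) : Prop :=
  ∀ x ∉ P, c x x = 1 ∧ ∀ᶠ y in 𝓝 x, ∀ᶠ y' in 𝓝 y, c x y' = c x y * c y y'

def CF (c : X → X → G) (f : T → X) (k : T → G) : Prop :=
  ∀ t, ∀ᶠ s in 𝓝 t, k s = k t * c (f t) (f s)

theorem CF.unique [PreconnectedSpace T] {f : T → X} {k k' : T → G} (h : CF c f k) (h' : CF c f k')
    (s t : T) : k s * (k' s)⁻¹ = k t * (k' t)⁻¹ := by
  have : IsLocallyConstant (fun t => k t * (k' t)⁻¹) := by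
    rw [IsLocallyConstant.iff_eventually_eq]
    intro t
    filter_upwards [h t, h' t] with s a b
    rw [a, b]; group
  exact this.apply_eq_of_preconnectedSpace s t

theorem CF.comp {f : T → X} {k : T → G} (h : CF c f k) {T' : Type} [TopologicalSpace T']
    {φ : T' → T} (hφ : Continuous φ) : CF c (fun t => f (φ t)) (fun t => k (φ t)) :=
  fun t => hφ.continuousAt.eventually (h (φ t))

theorem exists_CF [SimplyConnectedSpace T] [LocallyPathConnectedSpace T] (hc : Coc P c)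
    {f : T → X} (hf : Continuous f) (hP : ∀ t, f t ∉ P) (t₀ : T) : ∃ k, CF c f k := by
  let S : Sys T G T :=
    { U := fun t => interior {s | ∀ᶠ y' in 𝓝 (f s), c (f t) y' = c (f t) (f s) * c (f s) y'}
      p := fun t s => c (f t) (f s)
      isOpen := fun _ => isOpen_interior
      cover := fun t => ⟨t, mem_interior_iff_mem_nhds.2
        (hf.continuousAt.eventually (hc _ (hP t)).2)⟩
      compat := fun i j x h1 h2 => by
        have a1 := interior_subset h1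
        have a2 := interior_subset h2
        filter_upwards [hf.continuousAt.eventually a1, hf.continuousAt.eventually a2] with y a b
        rw [a, b]; group }
  obtain ⟨k, hk, -⟩ := exists_flat S continuous_id t₀ 1
  refine ⟨k, fun t => ?_⟩
  filter_upwards [hk t t (mem_interior_iff_mem_nhds.2
    (hf.continuousAt.eventually (hc _ (hP t)).2))] with s a
  simp only [S, id, (hc _ (hP t)).1, inv_one, mul_one] at a
  rw [← a]; group

/-- `h` acts on the cocycle as `ψ`, up to the gauge `κ`. -/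
def Lift (P : Set X) (c : X → X → G) (h : X ≃ₜ X) (ψ : MulAut G) (κ : X → G) : Prop :=
  ∀ x ∉ P, ∀ᶠ y in 𝓝 x, c (h x) (h y) = (κ x)⁻¹ * ψ (c x y) * κ y

theorem not_mem_of_rel {h : X ≃ₜ X} (hh : h ∈ homeoRel X (B ∪ P)) {x : X} : x ∉ P ↔ h x ∉ P :=
  not_congr ⟨fun e => by rwa [hh x (Or.inr e)], fun e => by
    rwa [← h.injective (hh _ (Or.inr e))]⟩

/-- Pairs of a homeomorphism and an automorphism that it lifts. -/
def LG (B P : Set X) (c : X → X → G) (mk : X → G → Prop) : Subgroup ((X ≃ₜ X) × MulAut G) where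
  carrier := {a | a.1 ∈ homeoRel X (B ∪ P) ∧ ∃ κ, Lift P c a.1 a.2 κ ∧
    ∀ β ∈ B, ∀ e, mk β e → a.2 e = κ β * e}
  one_mem' := ⟨one_mem _, fun _ => 1, fun x _ => Eventually.of_forall fun y => by simp,
    fun _ _ _ _ => by simp⟩
  mul_mem' := by
    rintro ⟨h, ψ⟩ ⟨h', ψ'⟩ ⟨a1, κ, a2, a3⟩ ⟨b1, κ', b2, b3⟩
    refine ⟨mul_mem a1 b1, fun x => ψ (κ' x) * κ (h' x), fun x hx => ?_, fun β hβ e he => ?_⟩
    · filter_upwards [b2 x hx, h'.continuous.continuousAt.eventually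
        (a2 _ ((not_mem_of_rel b1).1 hx))] with y e1 e2
      simp only [Prod.fst_mul, Prod.snd_mul, Homeomorph.mul_apply, MulAut.mul_apply] at *
      rw [e2, e1, map_mul, map_mul, map_inv]; group
    · have : h' β = β := b1 β (Or.inl hβ)
      simp only [Prod.snd_mul, MulAut.mul_apply] at *
      rw [b3 β hβ e he, map_mul, a3 β hβ e he, this, mul_assoc]
  inv_mem' := by
    rintro ⟨h, ψ⟩ ⟨a1, κ, a2, a3⟩
    refine ⟨inv_mem a1, fun x => (ψ⁻¹ (κ (h⁻¹ x)))⁻¹, fun x hx => ?_, fun β hβ e he => ?_⟩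
    · filter_upwards [h⁻¹.continuous.continuousAt.eventually
        (a2 _ ((not_mem_of_rel (inv_mem a1)).1 hx))] with y e1
      simp only [Prod.fst_inv, Prod.snd_inv, Homeomorph.inv_apply, Homeomorph.apply_symm_apply] at *
      rw [e1, map_mul, map_mul, map_inv, MulAut.inv_apply_self]; group
    · have : h⁻¹ β = β := inv_mem a1 β (Or.inl hβ)
      have e1 := congrArg (ψ⁻¹ : MulAut G) (a3 β hβ e he)
      simp only [Prod.snd_inv, map_mul, MulAut.inv_apply_self] at *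
      rw [this, eq_inv_mul_iff_mul_eq, ← e1]

theorem LG.ti (hc : Coc P c) {mk : X → G → Prop} {a : (X ≃ₜ X) × MulAut G} (ha : a ∈ LG B P c mk)
    {z : I × I → X} (hz : Continuous z) (hP : ∀ p, z p ∉ P)
    (h0 : ∀ s, ∀ᶠ s' in 𝓝 s, c (z (s, 0)) (z (s', 0)) = 1) (h1 : ∀ s, z (s, 1) = a.1 (z (s, 0)))
    (e0 : ∀ t, z (0, t) = z (0, 0)) (e1 : ∀ t, z (1, t) = z (1, 0)) (b0 : z (0, 0) ∈ B)
    (b1 : z (1, 0) ∈ B) {e : G} (m0 : mk (z (0, 0)) e) (m1 : mk (z (1, 0)) 1) : a.2 e = e := by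
  obtain ⟨-, κ, a2, a3⟩ := ha
  obtain ⟨k, hk⟩ := exists_CF hc hz hP (0, 0)
  have side : ∀ s : I, (∀ t, z (s, t) = z (s, 0)) → k (s, 1) = k (s, 0) := fun s h => by
    simpa using (hk.comp (φ := fun t : I => (s, t)) (by fun_prop)).unique (k' := fun _ => 1)
      (fun t => Eventually.of_forall fun t' => by rw [h t, h t', (hc _ (hP _)).1, mul_one]) 1 0
  have bot : k (1, 0) = k (0, 0) := by
    simpa using (hk.comp (φ := fun s : I => (s, (0 : I))) (by fun_prop)).unique (k' := fun _ => 1)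
      (fun s => (h0 s).mono fun s' h => by rw [h, mul_one]) 1 0
  have top := (hk.comp (φ := fun s : I => (s, (1 : I))) (by fun_prop)).unique
    (k' := fun s => κ (z (s, 0))) (fun s => by
      have : Continuous fun s : I => z (s, 0) := by fun_prop
      filter_upwards [h0 s, this.continuousAt.eventually (a2 _ (hP (s, 0)))] with s' u v
      rw [h1, h1, v, u]; simp) 1 0
  simp only [side 0 e0, side 1 e1, bot, mul_right_inj, inv_inj] at top
  have := a3 _ b1 1 m1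
  rw [map_one, mul_one, top] at this
  rw [a3 _ b0 e m0, ← this, one_mul]

theorem commute_of_supp {h h' : X ≃ₜ X} {K K' : Set X} (a : ∀ x ∉ K, h x = x)
    (b : ∀ x ∉ K', h' x = x) (d : ∀ x ∈ K, x ∉ K') : Commute h h' := by
  have key : ∀ {f : X ≃ₜ X} {L : Set X}, (∀ x ∉ L, f x = x) → ∀ x ∈ L, f x ∈ L :=
    fun {f L} q x hx => by_contra fun e => e (by rwa [f.injective (q _ e)])
  ext x
  simp only [Homeomorph.mul_apply]
  by_cases h1 : x ∈ K
  · rw [b x (d x h1), b _ (d _ (key a x h1))]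
  · rw [a x h1]
    by_cases h2 : x ∈ K'
    · exact a _ fun e => d _ e (key b x h2)
    · rw [b x h2, a x h1]

end generic

section chart

variable {E X : Type} [TopologicalSpace E] [TopologicalSpace X]

/-- A chart that is open at the points of `Y`, with a closed set `K` of allowed supports. -/
structure Chart (E X : Type) [TopologicalSpace E] [TopologicalSpace X] where
  J : E → X
  Y : Set E
  K : Set X
  oY : IsOpen Y
  nh : ∀ p ∈ Y, map J (𝓝 p) = 𝓝 (J p)
  cK : IsClosed K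
  sub : K ⊆ J '' Y

namespace Chart

variable (C : Chart E X)

def Adm : Subgroup (E ≃ₜ E) where
  carrier := {H | (∀ p, H p ∈ C.Y ↔ p ∈ C.Y) ∧
    (∀ p ∈ C.Y, ∀ q ∈ C.Y, C.J (H p) = C.J (H q) ↔ C.J p = C.J q) ∧
    ∀ p ∈ C.Y, C.J p ∉ C.K → C.J (H p) = C.J p}
  one_mem' := ⟨fun _ => Iff.rfl, fun _ _ _ _ => Iff.rfl, fun _ _ _ => rfl⟩
  mul_mem' := by
    rintro H H' ⟨a1, a2, a3⟩ ⟨b1, b2, b3⟩
    refine ⟨fun p => (a1 _).trans (b1 p), fun p hp q hq =>
      (a2 _ ((b1 p).2 hp) _ ((b1 q).2 hq)).trans (b2 p hp q hq), fun p hp e => ?_⟩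
    rw [Homeomorph.mul_apply, a3 _ ((b1 p).2 hp) (by rwa [b3 p hp e]), b3 p hp e]
  inv_mem' := by
    rintro H ⟨a1, a2, a3⟩
    have i1 : ∀ p, H⁻¹ p ∈ C.Y ↔ p ∈ C.Y := fun p => by rw [← a1]; simp
    refine ⟨i1, fun p hp q hq => ?_, fun p hp e => ?_⟩
    · rw [← a2 _ ((i1 p).2 hp) _ ((i1 q).2 hq)]; simp
    · rw [← a2 _ ((i1 p).2 hp) p hp, a3 p hp e]; simp

open Classical in
noncomputable def ext0 (H : E ≃ₜ E) (x : X) : X :=
  if h : x ∈ C.J '' C.Y then C.J (H h.choose) else x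

variable {C}

theorem ext0_J {H : E ≃ₜ E} (hH : H ∈ C.Adm) {p : E} (hp : p ∈ C.Y) :
    C.ext0 H (C.J p) = C.J (H p) := by
  have h : C.J p ∈ C.J '' C.Y := ⟨p, hp, rfl⟩
  rw [ext0, dif_pos h]
  exact (hH.2.1 _ h.choose_spec.1 p hp).2 h.choose_spec.2

theorem ext0_out {H : E ≃ₜ E} (hH : H ∈ C.Adm) {x : X} (hx : x ∉ C.K) : C.ext0 H x = x := by
  by_cases h : x ∈ C.J '' C.Y
  · obtain ⟨p, hp, rfl⟩ := h
    rw [ext0_J hH hp, hH.2.2 p hp hx]
  · exact dif_neg h

theorem ext0_mul {H H' : E ≃ₜ E} (hH : H ∈ C.Adm) (hH' : H' ∈ C.Adm) (x : X) :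
    C.ext0 (H * H') x = C.ext0 H (C.ext0 H' x) := by
  by_cases h : x ∈ C.K
  · obtain ⟨p, hp, rfl⟩ := C.sub h
    rw [ext0_J (mul_mem hH hH') hp, ext0_J hH' hp, ext0_J hH ((hH'.1 p).2 hp)]; rfl
  · rw [ext0_out hH' h, ext0_out hH h, ext0_out (mul_mem hH hH') h]

theorem ext0_one (x : X) : C.ext0 1 x = x := by
  by_cases h : x ∈ C.K
  · obtain ⟨p, hp, rfl⟩ := C.sub h
    exact ext0_J (one_mem _) hp
  · exact ext0_out (one_mem _) h

theorem ext0_cont {T : Type} [TopologicalSpace T] {H : T → E ≃ₜ E} (hm : ∀ t, H t ∈ C.Adm)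
    (hH : Continuous fun p : T × E => H p.1 p.2) : Continuous fun p : T × X => C.ext0 (H p.1) p.2 := by
  rw [continuous_iff_continuousAt]
  rintro ⟨t, x⟩
  by_cases h : x ∈ C.K
  · obtain ⟨p, hp, rfl⟩ := C.sub h
    have e : 𝓝 (t, C.J p) = map (Prod.map id C.J) (𝓝 (t, p)) := by
      rw [nhds_prod_eq, nhds_prod_eq, ← prod_map_map_eq', map_id, C.nh p hp]
    rw [ContinuousAt, e, tendsto_map'_iff, ext0_J (hm t) hp]
    have c1 : Tendsto C.J (𝓝 (H t p)) (𝓝 (C.J (H t p))) := (C.nh _ (((hm t).1 p).2 hp)).le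
    refine (c1.comp (hH.tendsto (t, p))).congr' ?_
    filter_upwards [(C.oY.preimage continuous_snd).mem_nhds (show (t, p) ∈ _ from hp)] with q hq
    exact (ext0_J (hm q.1) hq).symm
  · refine continuousAt_snd.congr ?_
    filter_upwards [(C.cK.isOpen_compl.preimage continuous_snd).mem_nhds
      (show (t, x) ∈ _ from h)] with q hq
    exact (ext0_out (hm q.1) hq).symm

theorem ext0_cont' {H : E ≃ₜ E} (hm : H ∈ C.Adm) : Continuous (C.ext0 H) :=
  (ext0_cont (T := Unit) (H := fun _ => H) (fun _ => hm) (by fun_prop)).comp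
    ((continuous_const (y := ())).prodMk continuous_id)

variable (C)

/-- Extension of admissible homeomorphisms by the identity. -/
noncomputable def ext : C.Adm →* X ≃ₜ X where
  toFun H :=
    { toFun := C.ext0 H
      invFun := C.ext0 (H.1)⁻¹
      left_inv := fun x => by rw [← ext0_mul (inv_mem H.2) H.2, inv_mul_cancel, ext0_one]
      right_inv := fun x => by rw [← ext0_mul H.2 (inv_mem H.2), mul_inv_cancel, ext0_one]
      continuous_toFun := ext0_cont' H.2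
      continuous_invFun := ext0_cont' (inv_mem H.2) }
  map_one' := Homeomorph.ext ext0_one
  map_mul' H H' := Homeomorph.ext (ext0_mul H.2 H'.2)

variable {C}

theorem ext_J (H : C.Adm) {p : E} (hp : p ∈ C.Y) : C.ext H (C.J p) = C.J (H.1 p) := ext0_J H.2 hp
theorem ext_out (H : C.Adm) {x : X} (hx : x ∉ C.K) : C.ext H x = x := ext0_out H.2 hx

theorem ext_family {T : Type} [TopologicalSpace T] {H : T → C.Adm} (hH : IsFamily fun t => (H t).1) :
    IsFamily fun t => C.ext (H t) :=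
  ⟨ext0_cont (fun t => (H t).2) hH.1, ext0_cont (fun t => inv_mem (H t).2) hH.2⟩

end Chart

end chart

theorem ev_lt {T α : Type} [TopologicalSpace T] [TopologicalSpace α] [LinearOrder α]
    [OrderClosedTopology α] {f : T → α} {t : T} (hf : ContinuousAt f t) {a : α} (h : f t ≠ a) :
    ∀ᶠ s in 𝓝 t, (a < f s ↔ a < f t) ∧ f s ≠ a := by
  rcases h.lt_or_gt with e | e
  · exact (hf.eventually (eventually_lt_nhds e)).mono fun s hs =>
      ⟨iff_of_false hs.not_gt e.not_gt, hs.ne⟩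
  · exact (hf.eventually (eventually_gt_nhds e)).mono fun s hs => ⟨iff_of_true hs e, hs.ne'⟩

section square

variable {ι G : Type} [Group G] {g : ι × Fin 4 → ι × Fin 4}

/-- Points of the open strip of a free square. -/
def Inn (g : ι × Fin 4 → ι × Fin 4) (i : ι) (p : I × I) : Prop := Free g i ∧ 0 < p.1 ∧ p.1 < 1

noncomputable def potS (lab : ι → Bool → G) (i : ι) (p q : I × I) : G :=
  if mdp < q.1 then lab i (decide (mdp < p.2)) else 1

noncomputable def csq (lab : ι → Bool → G) (i : ι) (p q : I × I) : G :=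
  (potS lab i p p)⁻¹ * potS lab i p q

open Classical in
/-- The cocycle that records the crossings of the vertical midlines of the free squares. -/
noncomputable def cc (g : ι × Fin 4 → ι × Fin 4) (lab : ι → Bool → G) (x y : Sq g) : G :=
  if h : ∃ a : ι × (I × I) × (I × I), Inn g a.1 a.2.1 ∧ Inn g a.1 a.2.2 ∧ x = pt g a.1 a.2.1 ∧
    y = pt g a.1 a.2.2 then csq lab h.choose.1 h.choose.2.1 h.choose.2.2 else 1

variable {lab : ι → Bool → G}

theorem cc_inn (hg : Function.Involutive g) {i : ι} {p q : I × I} (hp : Inn g i p) (hq : Inn g i q) :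
    cc g lab (pt g i p) (pt g i q) = csq lab i p q := by
  have h : ∃ a : ι × (I × I) × (I × I), Inn g a.1 a.2.1 ∧ Inn g a.1 a.2.2 ∧
    pt g i p = pt g a.1 a.2.1 ∧ pt g i q = pt g a.1 a.2.2 := ⟨(i, p, q), hp, hq, rfl, rfl⟩
  rw [cc, dif_pos h]
  obtain ⟨-, -, e1, e2⟩ := h.choose_spec
  rw [(hp.1.single hg hp.2.1 hp.2.2 e1).2, (hq.1.single hg hq.2.1 hq.2.2 e2).2,
    (hp.1.single hg hp.2.1 hp.2.2 e1).1]

theorem cc_out (hg : Function.Involutive g) {i : ι} {p : I × I} (hp : ¬ Inn g i p) (y : Sq g) :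
    cc g lab (pt g i p) y = 1 := by
  refine dif_neg ?_
  rintro ⟨⟨j, q, r⟩, h, -, e, -⟩
  obtain ⟨rfl, rfl⟩ := h.1.single hg h.2.1 h.2.2 e.symm
  exact hp h

theorem Inn.ev {i : ι} {p : I × I} (hp : Inn g i p) : ∀ᶠ q in 𝓝 p, Inn g i q :=
  ((continuousAt_fst.eventually (eventually_gt_nhds hp.2.1)).and
    (continuousAt_fst.eventually (eventually_lt_nhds hp.2.2))).mono fun _ h => ⟨hp.1, h⟩

theorem csq_one {i : ι} {p q : I × I} (h : mdp < q.1 ↔ mdp < p.1) : csq lab i p q = 1 := by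
  simp only [csq, potS, h, inv_mul_cancel]

theorem ne_half {i : ι} {p : I × I} (hi : Free g i) (hp : ¬ Inn g i p) : p.1 ≠ mdp :=
  fun e => hp ⟨hi, e ▸ half_pos, e ▸ half_lt⟩

theorem cc_pt (hg : Function.Involutive g) (hl : ∀ i, ¬ Free g i → ∀ b, lab i b = 1) (i : ι)
    (p : I × I) : ∀ᶠ q in 𝓝 p, cc g lab (pt g i p) (pt g i q) = csq lab i p q := by
  by_cases hp : Inn g i p
  · exact hp.ev.mono fun q hq => cc_inn hg hp hq
  by_cases hi : Free g i
  · filter_upwards [ev_lt continuousAt_fst (ne_half hi hp)] with q hq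
    rw [cc_out hg hp, csq_one hq.1]
  · exact Eventually.of_forall fun q => by simp [cc_out hg hp, csq, potS, hl i hi]

theorem coc_cc [Finite ι] (hg : Function.Involutive g) {Z : Set ι}
    (hZ : ∀ i ∉ Z, lab i true = lab i false) : Coc (ctr g Z) (cc g lab) := by
  intro x hx
  constructor
  · obtain ⟨i, p, rfl⟩ := pt_surj x
    by_cases hp : Inn g i p
    · rw [cc_inn hg hp hp, csq_one Iff.rfl]
    · exact cc_out hg hp _
  refine ev_fiber hg ?_
  rintro i p rfl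
  by_cases hp : Inn g i p
  · have key : ∀ᶠ q in 𝓝 p, ∀ᶠ r in 𝓝 q, csq lab i p r = csq lab i p q * csq lab i q r := by
      by_cases e : p.1 = mdp
      · have : ∀ᶠ q in 𝓝 p, lab i (decide (mdp < q.2)) = lab i (decide (mdp < p.2)) := by
          by_cases e' : p.2 = mdp
          · have := hZ i fun h => hx ((pt_mem_ctr hg).2 ⟨h, Prod.ext e e'⟩)
            refine Eventually.of_forall fun q => ?_
            cases decide (mdp < q.2) <;> cases decide (mdp < p.2) <;> simp [this]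
          · filter_upwards [ev_lt continuousAt_snd e'] with q hq
            simp only [hq.1]
        filter_upwards [this] with q hq
        refine Eventually.of_forall fun r => ?_
        simp only [csq, potS, hq]; group
      · filter_upwards [ev_lt continuousAt_fst e] with q hq
        filter_upwards [ev_lt continuousAt_fst hq.2] with r hr
        rw [csq_one hq.1, csq_one hr.1, csq_one (hr.1.trans hq.1), one_mul]
    filter_upwards [hp.ev, key] with q hq h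
    refine hq.1.ev hg hq.2.1 hq.2.2 ?_
    filter_upwards [hq.ev, h] with r hr e
    rw [cc_inn hg hp hr, cc_inn hg hp hq, cc_inn hg hq hr, e]
  · have key : ∀ᶠ q in 𝓝 p, Free g i → q.1 ≠ mdp := by
      by_cases hi : Free g i
      · exact (ev_lt continuousAt_fst (ne_half hi hp)).mono fun q hq _ => hq.2
      · exact Eventually.of_forall fun q h => (hi h).elim
    filter_upwards [key] with q h
    simp only [cc_out hg hp, one_mul]
    by_cases hq : Inn g i q
    · refine hq.1.ev hg hq.2.1 hq.2.2 ?_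
      filter_upwards [hq.ev, ev_lt continuousAt_fst (h hq.1)] with r hr e
      rw [cc_inn hg hq hr, csq_one e.1]
    · exact Eventually.of_forall fun y => (cc_out hg hq y).symm

end square

end Pool.Agent.MP_6eaae3_al

end MrgPart0

-- ======== part 1: formerly Pool.Agent.MP_6eaae3_al.Twist
section MrgPart1

/-! Dehn twists along chains of squares and their action on the cocycle. -/

namespace Pool.Agent.MP_6eaae3_al

section

open Topology Filter unitInterval Set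

/-- Horizontal shear. -/
def shX (f : C(ℝ, ℝ)) : ℝ × ℝ ≃ₜ ℝ × ℝ where
  toFun p := (p.1 + f p.2, p.2)
  invFun p := (p.1 - f p.2, p.2)
  left_inv p := by simp
  right_inv p := by simp
  continuous_toFun := by fun_prop
  continuous_invFun := by fun_prop

noncomputable def lev (b : Bool) : ℝ := if b then 7 / 8 else 3 / 8

noncomputable def prof (b : Bool) : C(ℝ, ℝ) := ⟨fun y => max 0 (min 1 (4 * (lev b - y))), by fun_prop⟩

theorem prof_zero {b : Bool} {y : ℝ} (h : lev b ≤ y) : prof b y = 0 :=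
  max_eq_left (min_le_of_right_le (by linarith))

theorem prof_one {b : Bool} {y : ℝ} (h : y ≤ lev b - 1 / 4) : prof b y = 1 := by
  show max 0 (min 1 _) = 1
  rw [min_eq_left (by linarith), max_eq_right zero_le_one]

theorem lev_lt (b : Bool) : lev b < 1 := by cases b <;> norm_num [lev]
theorem lev_pos (b : Bool) : 0 < lev b - 1 / 4 := by cases b <;> norm_num [lev]

theorem ceil_half (k : ℤ) (x : I) : ⌈(k : ℝ) + x - 1 / 2⌉ = if mdp < x then k + 1 else k := by
  have h0 := x.2.1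
  have h1 := x.2.2
  split_ifs with h
  · have : (1 / 2 : ℝ) < x := h
    exact Int.ceil_eq_iff.2 ⟨by push_cast; linarith, by push_cast; linarith⟩
  · have : (x : ℝ) ≤ 1 / 2 := not_lt.1 h
    exact Int.ceil_eq_iff.2 ⟨by linarith, by linarith⟩

def tp (b : Bool) : Fin 4 := if b then 3 else 2
def bt (b : Bool) : Fin 4 := if b then 1 else 0

variable {ι G : Type} [Group G] {g : ι × Fin 4 → ι × Fin 4} {lab : ι → Bool → G}

theorem csq_gauge {ψ : MulAut G} {γ : Bool → G} {i : ι} {p : I × I}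
    (h : ψ (lab i (decide (mdp < p.2))) = γ false * lab i (decide (mdp < p.2)) * (γ true)⁻¹)
    (q : I × I) : csq lab i p q =
      (γ (decide (mdp < p.1)))⁻¹ * ψ (csq lab i p q) * γ (decide (mdp < q.1)) := by
  by_cases h1 : mdp < p.1 <;> by_cases h2 : mdp < q.1 <;> simp [csq, potS, h1, h2, h, mul_assoc]

namespace Ann

variable (A : Ann g)

theorem J_iff (hg : Function.Involutive g) {p q : ℝ × ℝ} (h0 : 0 < p.2) (h1 : p.2 < 1)
    (h0' : 0 < q.2) (h1' : q.2 < 1) : A.J p = A.J q ↔ ∃ a : ℤ, q = (p.1 + a * A.n, p.2) :=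
  ⟨A.J_inj hg h0 h1 h0' h1', by rintro ⟨a, rfl⟩; exact (A.J_add p a).symm⟩

theorem not_ctr (hg : Function.Involutive g) (Z : Set ι) {p : ℝ × ℝ} (h0 : 0 < p.2) (h1 : p.2 < 1)
    (h2 : p.2 ≠ 1 / 2) : A.J p ∉ ctr g Z := by
  obtain ⟨k, x, y, rfl, -⟩ := exists_eq h0 h1
  rw [J_eq, pt_mem_ctr hg]
  rintro ⟨-, e⟩
  refine h2 (congrArg Subtype.val (?_ : y = mdp))
  cases h : A.ρ k <;> simp only [h, rt, Prod.mk.injEq, if_true, Bool.false_eq_true, if_false] at e
  · exact e.2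
  · rw [← symm_symm y, e.1]
    exact Subtype.ext (by norm_num [mdp])

theorem not_free {k : ℤ} (h : A.ρ k = true) : ¬ Free g (A.sq k) := fun f => by
  have := A.gl k
  rw [h] at this
  exact ex_ne_en true _ (congrArg Prod.snd (f.2.symm.trans this))

variable [Finite ι] (hg : Function.Involutive g) (b : Bool)

/-- The support of the twist. -/
def strip : Set (Sq g) := A.J '' {p | lev b - 1 / 4 ≤ p.2 ∧ p.2 ≤ lev b}

noncomputable def chart : Chart (ℝ × ℝ) (Sq g) where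
  J := A.J
  Y := {p | 0 < p.2 ∧ p.2 < 1}
  K := A.strip b
  oY := isOpen_Ioo.preimage continuous_snd
  nh := fun _ hp => A.map_nhds hg hp.1 hp.2
  cK := A.isClosed_strip hg (lev_pos b).le (lev_lt b).le
  sub := image_mono fun _ hp => ⟨(lev_pos b).trans_le hp.1, hp.2.trans_lt (lev_lt b)⟩

theorem adm : shX ((A.n : ℝ) • prof b) ∈ (A.chart hg b).Adm := by
  refine ⟨fun _ => Iff.rfl, fun p hp q hq => ?_, fun p hp e => ?_⟩
  · refine (A.J_iff hg (p := (p.1 + A.n * prof b p.2, p.2)) (q := (q.1 + A.n * prof b q.2, q.2))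
      hp.1 hp.2 hq.1 hq.2).trans (Iff.trans ?_ (A.J_iff hg hp.1 hp.2 hq.1 hq.2).symm)
    refine exists_congr fun a => ?_
    simp only [Prod.ext_iff]
    exact and_congr_left fun e => by rw [e]; constructor <;> intro <;> linarith
  · have : p.2 ≤ lev b - 1 / 4 ∨ lev b ≤ p.2 := by
      by_contra! h
      exact e ⟨p, ⟨h.1.le, h.2.le⟩, rfl⟩
    show A.J (p.1 + A.n * prof b p.2, p.2) = A.J p
    rcases this with h | h
    · simpa [prof_one h] using A.J_add p 1
    · simp [prof_zero h]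

/-- The twist along the upper or the lower strip of the annulus. -/
noncomputable def tw : Sq g ≃ₜ Sq g := (A.chart hg b).ext ⟨_, A.adm hg b⟩

theorem tw_J {p : ℝ × ℝ} (h0 : 0 < p.2) (h1 : p.2 < 1) :
    A.tw hg b (A.J p) = A.J (p.1 + A.n * prof b p.2, p.2) :=
  Chart.ext_J (C := A.chart hg b) _ ⟨h0, h1⟩

theorem tw_out {x : Sq g} (h : x ∉ A.strip b) : A.tw hg b x = x :=
  Chart.ext_out (C := A.chart hg b) _ h

omit [Finite ι] in
include hg in
theorem not_strip (Z : Set ι) {x : Sq g} (hx : x ∈ bd g ∪ ctr g Z) : x ∉ A.strip b := by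
  rintro ⟨p, hp, rfl⟩
  have h0 := (lev_pos b).trans_le hp.1
  have h1 := hp.2.trans_lt (lev_lt b)
  rcases hx with h | h
  · exact A.not_bd hg h0 h1 h
  · refine A.not_ctr hg Z h0 h1 (fun e => ?_) h
    rw [mem_ofPred_eq, e] at hp
    cases b <;> norm_num [lev] at hp

theorem tw_rel (Z : Set ι) : A.tw hg b ∈ homeoRel _ (bd g ∪ ctr g Z) := fun _ hx =>
  A.tw_out hg b (A.not_strip hg b Z hx)

theorem tw_commute (B : Ann g) (h : ∀ k l, A.sq k ≠ B.sq l) (b' : Bool) :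
    Commute (A.tw hg b) (B.tw hg b') :=
  commute_of_supp (fun _ => A.tw_out hg b) (fun _ => B.tw_out hg b') (by
    rintro _ ⟨p, hp, rfl⟩ ⟨q, -, e⟩
    obtain ⟨k, x, y, rfl, a0, a1, -⟩ :=
      exists_eq ((lev_pos b).trans_le hp.1) (hp.2.trans_lt (lev_lt b))
    rw [J_eq] at e
    obtain ⟨l, -, e', -⟩ := A.fiber hg a0 a1 e.symm
    exact h _ _ e'.symm)

/-- The data that describe the action of a twist. -/
structure Dat (lab : ι → Bool → G) (b : Bool) (ψ : MulAut G) where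
  W : ℤ → G
  u : G
  γ : ι → Bool → G
  hl : ∀ i, ¬ Free g i → ∀ b, lab i b = 1
  hW : ∀ k, W (k + 1) = W k * lab (A.sq k) b
  hu : ∀ k, W (k + A.n) = u * W k
  h1 : ∀ k, ψ (lab (A.sq k) b) = lab (A.sq k) b
  h2 : ∀ k, ψ (lab (A.sq k) (!b)) = if b then (W k)⁻¹ * u * W k * lab (A.sq k) false *
    ((W (k + 1))⁻¹ * u * W (k + 1))⁻¹ else lab (A.sq k) true
  h3 : ∀ i ∉ range A.sq, ∀ τ, ψ (lab i τ) = γ i false * lab i τ * (γ i true)⁻¹
  h4 : ∀ s, g s ≠ s → (∀ a, s ≠ (A.sq a, ex (A.ρ a)) ∧ s ≠ (A.sq a, en (A.ρ a))) →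
    ∃ e, ∀ s' ∈ ({s, g s} : Set _), (s'.1 ∉ range A.sq ∧ e = γ s'.1 (decide (s'.2 = 1))) ∨
      ∃ a, (s' = (A.sq a, tp (A.ρ a)) ∧ e = 1) ∨
        (s' = (A.sq a, bt (A.ρ a)) ∧ e = (W a)⁻¹ * u * W a)

namespace Dat

variable {A b} {ψ : MulAut G} (D : A.Dat lab b ψ)

noncomputable def Wr (θ : ℝ) : G := D.W ⌈θ - 1 / 2⌉

omit [Finite ι] in
theorem Wr_add (θ : ℝ) (a : ℤ) : D.Wr (θ + a * A.n) = D.u ^ a * D.Wr θ := by
  have : ⌈θ + a * A.n - 1 / 2⌉ = ⌈θ - 1 / 2⌉ + a * A.n := by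
    rw [← Int.ceil_add_intCast]; congr 1; push_cast; ring
  rw [Wr, this, Wr]
  generalize ⌈θ - 1 / 2⌉ = k
  clear this
  induction a using Int.induction_on with
  | zero => simp
  | succ a ih => rw [add_mul, one_mul, ← add_assoc, D.hu, ih]; group
  | pred a ih =>
    have := D.hu (k + (-a - 1) * A.n)
    rw [show k + (-a - 1) * A.n + A.n = k + -a * A.n by ring, ih] at this
    rw [← mul_right_inj D.u, ← this]; group

omit [Finite ι] in
theorem fix (k l : ℤ) : ψ ((D.W k)⁻¹ * D.W l) = (D.W k)⁻¹ * D.W l := by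
  have key : ∀ k, ψ ((D.W 0)⁻¹ * D.W k) = (D.W 0)⁻¹ * D.W k := fun k => by
    induction k using Int.induction_on with
    | zero => simp
    | succ a ih => rw [D.hW, ← mul_assoc, map_mul, ih, D.h1]
    | pred a ih =>
      have := D.hW (-a - 1)
      rw [sub_add_cancel] at this
      rw [this, ← mul_assoc, map_mul, D.h1, mul_left_inj] at ih
      exact ih
  have e : (D.W k)⁻¹ * D.W l = ((D.W 0)⁻¹ * D.W k)⁻¹ * ((D.W 0)⁻¹ * D.W l) := by group
  rw [e, map_mul, map_inv, key, key]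

include hg in
omit [Finite ι] in
theorem cc_J {p : ℝ × ℝ} (h0 : 0 < p.2) (h1 : p.2 < 1) (h2 : decide (1 / 2 < p.2) = b) :
    ∀ᶠ q in 𝓝 p, cc g lab (A.J p) (A.J q) = (D.Wr p.1)⁻¹ * D.Wr q.1 := by
  obtain ⟨k, x, y, rfl, a0, a1, a2⟩ := exists_eq h0 h1
  by_cases hx : x = 0
  · subst hx
    have : ¬ Inn g (A.sq k) (rt (A.ρ k) (0, y)) := fun h => by
      cases e : A.ρ k
      · simpa [e, rt] using h.2.1
      · exact A.not_free e h.1
    filter_upwards [(isOpen_Ioo.preimage continuous_fst).mem_nhds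
      (show ((k : ℝ) + (0 : I), (y : ℝ)) ∈ Prod.fst ⁻¹' Ioo ((k : ℝ) - 1 / 2) (k + 1 / 2) by
        simp)] with q hq
    have e1 : ⌈q.1 - 1 / 2⌉ = k := Int.ceil_eq_iff.2 ⟨by linarith [hq.1], by linarith [hq.2]⟩
    rw [J_eq, cc_out hg this, Wr, Wr, e1, ceil_half, if_neg half_pos.not_gt, inv_mul_cancel]
  have c : Continuous fun q : ℝ × ℝ => rt (A.ρ k) (pj (q.1 - k), pj q.2) :=
    (continuous_rt _).comp (by fun_prop)
  have x0 : (0 : ℝ) < x := lt_of_le_of_ne x.2.1 fun e => hx (Subtype.ext e.symm)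
  have x1 : (x : ℝ) < 1 := a2
  filter_upwards [c.continuousAt.eventually (cc_pt hg D.hl (A.sq k) _),
    (isOpen_Ioo.preimage continuous_fst).mem_nhds
      (show ((k : ℝ) + x, (y : ℝ)) ∈ Prod.fst ⁻¹' Ioo (k : ℝ) (k + 1) from
        ⟨by simp only; linarith, by simp only; linarith⟩)] with q e hq
  simp only [add_sub_cancel_left, pj_coe] at e
  have e1 : q.1 = k + pj (q.1 - k) := by rw [coe_pj (by linarith [hq.1]) (by linarith [hq.2])]; ring
  rw [J_eq, A.J_F hq.1.le hq.2.le, F, e, Wr, Wr, e1, ceil_half, ceil_half, add_sub_cancel_left,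
    pj_coe]
  cases h : A.ρ k
  · have : decide (mdp < y) = b := h2
    simp only [csq, potS, rt, Bool.false_eq_true, if_false, this]
    split_ifs <;> simp [D.hW]
  · simp only [csq, potS, D.hl _ (A.not_free h)]
    split_ifs <;> simp [D.hW, D.hl _ (A.not_free h)]

noncomputable def kap (p : ℝ × ℝ) : G := (D.Wr p.1)⁻¹ * D.Wr (p.1 + A.n * prof b p.2)

omit [Finite ι] in
theorem kap_add (θ y : ℝ) (a : ℤ) : D.kap (θ + a * A.n, y) = D.kap (θ, y) := by
  simp only [kap]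
  rw [add_right_comm, Wr_add, Wr_add]; group

omit [Finite ι] in
theorem kap_int (k : ℤ) (x : I) {y : ℝ} {e : ℤ} (h : prof b y = e) : D.kap (k + x, y) =
    (D.W (if mdp < x then k + 1 else k))⁻¹ * D.u ^ e * D.W (if mdp < x then k + 1 else k) := by
  simp only [kap]
  rw [h, mul_comm (A.n : ℝ), Wr_add, Wr, ceil_half, mul_assoc]

open Classical in
noncomputable def kh (a : Σ _ : ι, I × I) : G :=
  if h : ∃ k, A.sq k = a.1 then
    D.kap (h.choose + (unrt (A.ρ h.choose) a.2).1, (unrt (A.ρ h.choose) a.2).2)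
  else D.γ a.1 (decide (mdp < a.2.1))

omit [Finite ι] in
theorem kh_sq (k : ℤ) (x y : I) : D.kh ⟨A.sq k, rt (A.ρ k) (x, y)⟩ = D.kap (k + x, y) := by
  have h : ∃ l, A.sq l = A.sq k := ⟨k, rfl⟩
  rw [kh, dif_pos h]
  have e := h.choose_spec
  generalize h.choose = l at e
  obtain ⟨a, ha⟩ := (ZMod.intCast_eq_intCast_iff_dvd_sub _ _ _).1 ((A.inj _ _).1 e)
  have : (k : ℝ) - l = A.n * a := by exact_mod_cast ha
  rw [A.per _ _ e, unrt_rt, ← D.kap_add _ _ a]
  congr 2; linarith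

include hg in
omit [Finite ι] in
theorem kh_glue (p q : Σ _ : ι, I × I) (h : glue g p q) : D.kh p = D.kh q := by
  have along : ∀ a (t : I), D.kh ⟨A.sq a, side (ex (A.ρ a)) t⟩ =
      D.kh ⟨A.sq (a + 1), side (en (A.ρ (a + 1))) (σ t)⟩ := fun a t => by
    rw [side_ex, side_en, kh_sq, kh_sq]; simp
  obtain ⟨i, p⟩ := p
  obtain ⟨j, q⟩ := q
  obtain ⟨k, l, t, e1, e2, rfl, rfl⟩ := h
  simp only at e1 e2
  by_cases hs : ∀ a, (i, k) ≠ (A.sq a, ex (A.ρ a)) ∧ (i, k) ≠ (A.sq a, en (A.ρ a))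
  · obtain ⟨e, he⟩ := D.h4 (i, k) (by rw [e1]; exact e2.symm) hs
    have key : ∀ s' ∈ ({(i, k), g (i, k)} : Set _), g s' ≠ s' → ∀ t, D.kh ⟨s'.1, side s'.2 t⟩ = e := by
      rintro ⟨i, k⟩ hs' hn t
      rcases he _ hs' with ⟨a1, rfl⟩ | ⟨a, ⟨a1, rfl⟩ | ⟨a1, rfl⟩⟩
      · refine (dif_neg a1).trans ?_
        have nf : ¬ Free g i → ∀ τ τ', D.γ i τ = D.γ i τ' := fun nf τ τ' => by
          have := D.h3 i a1 true
          rw [D.hl i nf, map_one, mul_one, eq_comm, mul_inv_eq_one] at this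
          cases τ <;> cases τ' <;> simp [this]
        fin_cases k
        · exact nf (fun f => hn f.1) _ _
        · simp [side, half_lt]
        · exact nf (fun f => hn f.2) _ _
        · simp [side]
      · cases a1
        have : ∃ x, side (tp (A.ρ a)) t = rt (A.ρ a) (x, 1) :=
          ⟨σ t, by cases A.ρ a <;> simp [side, tp, rt]⟩
        obtain ⟨x, hx⟩ := this
        rw [hx, kh_sq, D.kap_int _ _ (e := 0) (by simpa using prof_zero (lev_lt b).le)]; simp
      · cases a1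
        have : side (bt (A.ρ a)) t = rt (A.ρ a) (t, 0) := by cases A.ρ a <;> simp [side, bt, rt]
        have nf : ¬ Free g (A.sq a) := fun f => by
          cases h : A.ρ a
          · exact hn (h ▸ f.1)
          · exact A.not_free h f
        rw [this, kh_sq, D.kap_int _ _ (e := 1) (by simpa using prof_one (lev_pos b).le)]
        split_ifs <;> simp [D.hW, D.hl _ nf]
    rw [key (i, k) (Or.inl rfl) (by rw [e1]; exact e2.symm)]
    exact (key (j, l) (Or.inr e1.symm) (by rw [← e1, hg, e1]; exact e2) _).symm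
  · push Not at hs
    obtain ⟨a, ha⟩ := hs
    by_cases h : (i, k) = (A.sq a, ex (A.ρ a))
    · cases h
      rw [A.gl] at e1
      cases e1
      exact along a t
    · cases ha h
      have := A.gl (a - 1)
      rw [sub_add_cancel] at this
      rw [← this, hg] at e1
      cases e1
      have := along (a - 1) (σ t)
      rw [sub_add_cancel, symm_symm] at this
      exact this.symm

theorem lift (Z : Set ι) : ∃ κ, Lift (ctr g Z) (cc g lab) (A.tw hg b) ψ κ ∧
    (∀ i ∉ range A.sq, ∀ q, κ (pt g i q) = D.γ i (decide (mdp < q.1))) ∧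
    ∀ (k : ℤ) (x y : I), κ (pt g (A.sq k) (rt (A.ρ k) (x, y))) = D.kap (k + x, y) := by
  let κ : Sq g → G := Quot.lift D.kh (D.kh_glue hg)
  have k1 : ∀ i ∉ range A.sq, ∀ q, κ (pt g i q) = D.γ i (decide (mdp < q.1)) :=
    fun i hi q => dif_neg hi
  have k2 : ∀ (k : ℤ) (x y : I), κ (pt g (A.sq k) (rt (A.ρ k) (x, y))) = D.kap (k + x, y) :=
    D.kh_sq
  have k3 : ∀ p : ℝ × ℝ, 0 < p.2 → p.2 < 1 → κ (A.J p) = D.kap p := fun p h0 h1 => by
    obtain ⟨k, x, y, rfl, -⟩ := exists_eq h0 h1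
    rw [J_eq, k2]
  refine ⟨κ, fun x _ => ?_, k1, k2⟩
  by_cases hx : x ∈ A.J '' {p | (0 < p.2 ∧ p.2 < 1) ∧ decide (1 / 2 < p.2) = b ∧ p.2 ≠ 1 / 2}
  · obtain ⟨p, ⟨⟨h0, h1⟩, h2, -⟩, rfl⟩ := hx
    rw [← A.map_nhds hg h0 h1, eventually_map]
    have c : Continuous fun q : ℝ × ℝ => (q.1 + A.n * prof b q.2, q.2) := by fun_prop
    filter_upwards [D.cc_J hg h0 h1 h2, c.continuousAt.eventually
      (D.cc_J hg (p := (p.1 + A.n * prof b p.2, p.2)) h0 h1 h2),
      (isOpen_Ioo.preimage continuous_snd).mem_nhds (show p ∈ Prod.snd ⁻¹' Ioo 0 1 from ⟨h0, h1⟩)]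
      with q e1 e2 hq
    rw [A.tw_J hg b h0 h1, A.tw_J hg b hq.1 hq.2, e1, e2, k3 p h0 h1, k3 q hq.1 hq.2, Wr, Wr, Wr, Wr,
      D.fix]
    simp only [kap, Wr]; group
  have xK : x ∉ A.strip b := fun h => hx (image_mono (fun p hp => by
    refine ⟨(⟨(lev_pos b).trans_le hp.1, hp.2.trans_lt (lev_lt b)⟩), ?_⟩
    obtain ⟨a1, a2⟩ := hp
    cases b <;> norm_num [lev] at a1 a2 ⊢
    · exact ⟨by linarith, fun e => by linarith⟩
    · exact ⟨by linarith, fun e => by linarith⟩) h)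
  have main : ∀ᶠ y in 𝓝 x, cc g lab x y = (κ x)⁻¹ * ψ (cc g lab x y) * κ y := by
    refine ev_fiber hg ?_
    rintro i p rfl
    by_cases hi : i ∈ range A.sq
    swap
    · filter_upwards [cc_pt hg D.hl i p] with q e
      rw [e, k1 i hi, k1 i hi]
      exact csq_gauge (D.h3 i hi _) q
    obtain ⟨a, rfl⟩ := hi
    obtain ⟨⟨x, y⟩, rfl⟩ : ∃ r, p = rt (A.ρ a) r := ⟨_, (rt_unrt _ p).symm⟩
    have y0 := y.2.1
    have y1 := y.2.2
    obtain ⟨e, he, he'⟩ : ∃ e : ℤ, (∀ᶠ y' : ℝ in 𝓝 y, prof b y' = e) ∧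
        ψ (lab (A.sq a) (decide (mdp < y))) = (D.W a)⁻¹ * D.u ^ e * D.W a *
          lab (A.sq a) (decide (mdp < y)) * ((D.W (a + 1))⁻¹ * D.u ^ e * D.W (a + 1))⁻¹ := by
      have hy : ¬ ((0 < (y : ℝ) ∧ (y : ℝ) < 1) ∧ decide (1 / 2 < (y : ℝ)) = b ∧ (y : ℝ) ≠ 1 / 2) :=
        fun h => hx ⟨(a + x, y), h, A.J_eq a x y⟩
      have up : lev b < y → ∀ᶠ y' : ℝ in 𝓝 y, prof b y' = (0 : ℤ) := fun h =>
        (eventually_gt_nhds h).mono fun _ h => by simpa using prof_zero h.le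
      have dn : y < lev b - 1 / 4 → ∀ᶠ y' : ℝ in 𝓝 y, prof b y' = (1 : ℤ) := fun h =>
        (eventually_lt_nhds h).mono fun _ h => by simpa using prof_one h.le
      have h1 := D.h1 a
      have h2 := D.h2 a
      have h3 := D.hW a
      by_cases hh : mdp < y
      · have hh' : (1 / 2 : ℝ) < y := hh
        refine ⟨0, up ?_, ?_⟩
        · cases b
          · norm_num [lev]; linarith
          · by_contra h
            exact hy ⟨⟨by linarith, (not_lt.1 h).trans_lt (lev_lt _)⟩, by simpa using hh', hh'.ne'⟩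
        · cases b <;> simp_all
      have hh' : (y : ℝ) ≤ 1 / 2 := not_lt.1 hh
      cases b
      · by_cases h : (y : ℝ) = 1 / 2
        · exact ⟨0, up (by norm_num [lev, h]), by simp [hh, h1]⟩
        · refine ⟨1, dn ?_, by simp [hh, h1, h3, mul_assoc]⟩
          by_contra h'
          exact hy ⟨⟨(lev_pos _).trans_le (not_lt.1 h'), by linarith⟩, by simpa using hh', h⟩
      · exact ⟨1, dn (by norm_num [lev]; linarith), by simpa [hh] using h2⟩
    have c : Continuous fun q => ((unrt (A.ρ a) q).2 : ℝ) :=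
      continuous_subtype_val.comp (continuous_snd.comp (continuous_unrt _))
    have c' := c.continuousAt (x := rt (A.ρ a) (x, y))
    rw [ContinuousAt, unrt_rt] at c'
    filter_upwards [cc_pt hg D.hl _ _, c'.eventually he] with q e1 e2
    obtain ⟨⟨x', y'⟩, rfl⟩ : ∃ r, q = rt (A.ρ a) r := ⟨_, (rt_unrt _ q).symm⟩
    rw [unrt_rt] at e2
    rw [e1, k2, k2, D.kap_int _ _ e2, D.kap_int _ _ he.self_of_nhds]
    cases h : A.ρ a
    · have := csq_gauge (p := (x, y)) (γ := fun τ => (D.W (if τ then a + 1 else a))⁻¹ * D.u ^ e *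
        D.W (if τ then a + 1 else a)) (by simpa using he') (x', y')
      simpa [rt] using this
    · have nf := D.hl _ (A.not_free h)
      simp only [csq, potS, nf]
      split_ifs <;> simp [D.hW, nf, mul_assoc]
  filter_upwards [main, (A.chart hg b).cK.isOpen_compl.mem_nhds xK] with y e hy
  rw [A.tw_out hg b xK, A.tw_out hg b hy]
  exact e

end Dat

end Ann

end

/-! The braid relation for two shears of the plane, up to periodic isotopy fixing a rectangle. -/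

open Topology Filter unitInterval Set

theorem family_of_lower {T E : Type} [TopologicalSpace T] [MetricSpace E] (f : T → E → E)
    (hf : Continuous fun p : T × E => f p.1 p.2) (surj : ∀ t, Function.Surjective (f t)) (C : ℝ)
    (hC : ∀ t z z', dist z z' ≤ C * dist (f t z) (f t z')) :
    ∃ H : T → E ≃ₜ E, IsFamily H ∧ ∀ t z, H t z = f t z := by
  choose g hg using surj
  have hgc : Continuous fun p : T × E => g p.1 p.2 := by
    rw [continuous_iff_continuousAt]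
    intro p
    rw [ContinuousAt, tendsto_iff_dist_tendsto_zero]
    have hc : Continuous fun q : T × E => C * dist q.2 (f q.1 (g p.1 p.2)) :=
      continuous_const.mul (continuous_snd.dist (hf.comp (continuous_fst.prodMk continuous_const)))
    refine squeeze_zero (fun _ => dist_nonneg) (fun q => ?_) (by simpa [hg] using hc.tendsto p)
    simpa [hg] using hC q.1 (g q.1 q.2) (g p.1 p.2)
  refine ⟨fun t =>
    { toFun := f t
      invFun := g t
      left_inv := fun z => ?_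
      right_inv := hg t
      continuous_toFun := hf.comp (continuous_const.prodMk continuous_id)
      continuous_invFun := hgc.comp (continuous_const.prodMk continuous_id) },
    ⟨hf, hgc⟩, fun _ _ => rfl⟩
  have := hC t (g t (f t z)) z
  rw [hg] at this
  simpa using this

/-- Vertical shear. -/
def shY (f : C(ℝ, ℝ)) : ℝ × ℝ ≃ₜ ℝ × ℝ where
  toFun p := (p.1, p.2 + f p.1)
  invFun p := (p.1, p.2 - f p.1)
  left_inv p := by simp
  right_inv p := by simp
  continuous_toFun := by fun_prop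
  continuous_invFun := by fun_prop

theorem shX_apply (f : C(ℝ, ℝ)) (p : ℝ × ℝ) : shX f p = (p.1 + f p.2, p.2) := rfl
theorem shY_apply (f : C(ℝ, ℝ)) (p : ℝ × ℝ) : shY f p = (p.1, p.2 + f p.1) := rfl

/-- A staircase function. -/
structure Stair (Φ : C(ℝ, ℝ)) (r : ℝ) : Prop where
  mono : Monotone Φ
  add : ∀ t (n : ℤ), Φ (t + n) = Φ t + n
  zero : ∀ t, |t| ≤ r → Φ t = 0
  lo : 1 / 4 ≤ r
  hi : r ≤ 1 / 2

noncomputable def itp (Φ : C(ℝ, ℝ)) (s : ℝ) : C(ℝ, ℝ) := ⟨fun t => s * t + (1 - s) * Φ t, by fun_prop⟩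

theorem itp_apply (Φ : C(ℝ, ℝ)) (s t : ℝ) : itp Φ s t = s * t + (1 - s) * Φ t := rfl

theorem Stair.itp_add {Φ : C(ℝ, ℝ)} {r : ℝ} (h : Stair Φ r) (s t : ℝ) (n : ℤ) :
    itp Φ s (t + n) = itp Φ s t + n := by
  rw [itp_apply, itp_apply, h.add]; ring

theorem Stair.itp_lin {Φ : C(ℝ, ℝ)} {r : ℝ} (h : Stair Φ r) (s : ℝ) {t : ℝ} (ht : |t| ≤ r) :
    itp Φ s t = s * t := by
  rw [itp_apply, h.zero t ht]; ring

theorem Stair.itp_surj {Φ : C(ℝ, ℝ)} {r : ℝ} (h : Stair Φ r) (s : ℝ) :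
    Function.Surjective (itp Φ s) := fun w => by
  have e : ∀ n : ℤ, itp Φ s n = n := fun n => by
    have := h.itp_add s 0 n
    rw [h.itp_lin s (t := 0) (by simpa using by linarith [h.lo])] at this
    simpa using this
  exact intermediate_value_univ (⌊w⌋ : ℝ) (⌈w⌉ : ℝ) (itp Φ s).continuous
    ⟨by rw [e]; exact Int.floor_le w, by rw [e]; exact Int.le_ceil w⟩

theorem Stair.itp_low {Φ : C(ℝ, ℝ)} {r : ℝ} (h : Stair Φ r) {s : ℝ} (h0 : 1 / 32 ≤ s) (h1 : s ≤ 1)
    (t t' : ℝ) : dist t t' ≤ 32 * dist (itp Φ s t) (itp Φ s t') := by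
  wlog e : t ≤ t' generalizing t t'
  · rw [dist_comm, dist_comm (itp Φ s t)]; exact this _ _ (not_le.1 e).le
  have := mul_nonneg (sub_nonneg.2 h1) (sub_nonneg.2 (h.mono e))
  have h2 := mul_nonneg (sub_nonneg.2 h0) (sub_nonneg.2 e)
  rw [dist_comm, dist_comm (itp Φ s t), Real.dist_eq, Real.dist_eq, abs_of_nonneg (sub_nonneg.2 e)]
  refine le_trans ?_ (mul_le_mul_of_nonneg_left (le_abs_self _) (by norm_num))
  rw [itp_apply, itp_apply]; nlinarith

/-- Periodic homeomorphisms that fix a rectangle. -/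
def Per (a b : ℝ) : Subgroup (ℝ × ℝ ≃ₜ ℝ × ℝ) where
  carrier := {H | (∀ p (m n : ℤ), H (p + ((m : ℝ), (n : ℝ))) = H p + ((m : ℝ), (n : ℝ))) ∧
    ∀ p, |p.1| ≤ a → |p.2| ≤ b → H p = p}
  one_mem' := ⟨fun _ _ _ => rfl, fun _ _ _ => rfl⟩
  mul_mem' := fun {H H'} h h' => ⟨fun p m n => by simp only [Homeomorph.mul_apply, h.1, h'.1],
    fun p h1 h2 => by rw [Homeomorph.mul_apply, h'.2 p h1 h2, h.2 p h1 h2]⟩
  inv_mem' := fun {H} h => ⟨fun p m n => H.injective (by simp [h.1]),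
    fun p h1 h2 => H.injective (by simp [h.2 p h1 h2])⟩

theorem Per.per {a b : ℝ} {H : ℝ × ℝ ≃ₜ ℝ × ℝ} (h : H ∈ Per a b) : H ∈ Per (-1) (-1) :=
  ⟨h.1, fun p e => (by linarith [abs_nonneg p.1])⟩

noncomputable def saw (x : ℝ) : ℝ := 1 / 4 - ‖((x - 1 / 4 : ℝ) : UnitAddCircle)‖

theorem saw_lip (x y : ℝ) : |saw x - saw y| ≤ |x - y| := by
  rw [saw, saw, sub_sub_sub_cancel_left]
  refine (abs_norm_sub_norm_le _ _).trans ?_
  rw [← AddCircle.coe_sub, sub_sub_sub_cancel_right, abs_sub_comm]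
  exact QuotientAddGroup.norm_mk_le_norm

theorem continuous_saw : Continuous saw :=
  (LipschitzWith.of_dist_le_mul (K := 1) fun x y => by simpa [Real.dist_eq] using saw_lip x y).continuous

theorem saw_add (x : ℝ) (n : ℤ) : saw (x + n) = saw x := by
  have : ((n : ℝ) : UnitAddCircle) = 0 := (AddCircle.coe_eq_zero_iff _).2 ⟨n, by simp⟩
  rw [saw, saw, add_sub_right_comm, AddCircle.coe_add, this, add_zero]

theorem saw_lin {x : ℝ} (h : |x| ≤ 1 / 4) : saw x = x := by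
  rw [abs_le] at h
  rw [saw, (AddCircle.norm_coe_eq_abs_iff 1 one_ne_zero).2
    (by rw [abs_le]; constructor <;> simp <;> linarith), abs_of_nonpos (by linarith)]
  ring

theorem exists_cut : ∃ C : I → ℝ × ℝ ≃ₜ ℝ × ℝ, IsFamily C ∧ ∀ s p, C s p =
    (p.1 + ((s ^ 4 - s ^ 2) * saw p.1 - s * (1 - s ^ 2) ^ 2 * saw p.2),
      p.2 + (-s * (1 - s ^ 2) ^ 2 * saw p.1 + s ^ 2 * (1 - s ^ 2) * (2 - s ^ 2) * saw p.2)) := by
  let u : I → ℝ × ℝ → ℝ × ℝ := fun s p =>
    ((s ^ 4 - s ^ 2) * saw p.1 - s * (1 - s ^ 2) ^ 2 * saw p.2,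
      -s * (1 - s ^ 2) ^ 2 * saw p.1 + s ^ 2 * (1 - s ^ 2) * (2 - s ^ 2) * saw p.2)
  have hL : ∀ s p q, ‖u s p - u s q‖ ≤ 9 / 10 * ‖p - q‖ := by
    intro s p q
    have s0 := s.2.1
    have s1 := s.2.2
    have a0 : 0 ≤ 1 - (s : ℝ) ^ 2 := by nlinarith
    have b1 : |(s : ℝ) ^ 4 - s ^ 2| ≤ 1 / 2 := by rw [abs_le]; constructor <;> nlinarith
    have b2 : |(s : ℝ) * (1 - s ^ 2) ^ 2| ≤ 2 / 5 := by
      have : (s : ℝ) * (1 - s ^ 2) ≤ 2 / 5 := by nlinarith [mul_nonneg s0 (sq_nonneg (s - 3 / 5 : ℝ)), sq_nonneg (s - 3 / 5 : ℝ)]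
      rw [abs_of_nonneg (by positivity)]
      nlinarith [mul_nonneg s0 a0, sq_nonneg (s : ℝ)]
    have b3 : |(s : ℝ) ^ 2 * (1 - s ^ 2) * (2 - s ^ 2)| ≤ 1 / 2 := by
      have : (s : ℝ) ^ 2 * (1 - s ^ 2) ≤ 1 / 4 := by nlinarith [sq_nonneg ((s : ℝ) ^ 2 - 1 / 2)]
      rw [abs_of_nonneg (mul_nonneg (by positivity) (by linarith))]
      nlinarith [mul_nonneg (sq_nonneg (s : ℝ)) a0, sq_nonneg (s : ℝ)]
    have c1 : |saw p.1 - saw q.1| ≤ ‖p - q‖ := (saw_lip _ _).trans (norm_fst_le (p - q))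
    have c2 : |saw p.2 - saw q.2| ≤ ‖p - q‖ := (saw_lip _ _).trans (norm_snd_le (p - q))
    have key : ∀ α β : ℝ, |α| + |β| ≤ 9 / 10 →
        |α * (saw p.1 - saw q.1) + β * (saw p.2 - saw q.2)| ≤ 9 / 10 * ‖p - q‖ := fun α β h => by
      refine (abs_add_le _ _).trans ?_
      rw [abs_mul, abs_mul]
      nlinarith [mul_le_mul_of_nonneg_left c1 (abs_nonneg α), mul_le_mul_of_nonneg_left c2 (abs_nonneg β),
        norm_nonneg (p - q)]
    rw [norm_prod_le_iff]
    constructor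
    · convert key (s ^ 4 - s ^ 2) (-(s * (1 - s ^ 2) ^ 2)) (by rw [abs_neg]; linarith) using 1
      simp only [u, Prod.fst_sub, Real.norm_eq_abs]; congr 1; ring
    · convert key (-(s * (1 - s ^ 2) ^ 2)) (s ^ 2 * (1 - s ^ 2) * (2 - s ^ 2))
        (by rw [abs_neg]; linarith) using 1
      simp only [u, Prod.snd_sub, Real.norm_eq_abs]; congr 1; ring
  refine family_of_lower (fun s p => p + u s p) ?_ (fun s w => ?_) 10 fun s p q => ?_
  · have := continuous_saw
    simp only [u]; fun_prop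
  · have hc : ContractingWith (9 / 10) (fun z => w - u s z) :=
      ⟨by norm_num, LipschitzWith.of_dist_le_mul fun z z' => by
        rw [dist_eq_norm, dist_eq_norm, sub_sub_sub_cancel_left, norm_sub_rev]
        simpa using hL s z z'⟩
    exact ⟨hc.fixedPoint _, eq_sub_iff_add_eq.1 hc.fixedPoint_isFixedPt.symm⟩
  · have := norm_sub_le (p + u s p - (q + u s q)) (u s p - u s q)
    rw [show p + u s p - (q + u s q) - (u s p - u s q) = p - q by ring] at this
    rw [dist_eq_norm, dist_eq_norm]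
    linarith [hL s p q]

theorem tor {Φ Ψ : C(ℝ, ℝ)} {a b : ℝ} (hΦ : Stair Φ b) (hΨ : Stair Ψ a) :
    ∃ h : (shY Ψ * shX (-Φ) * shY Ψ)⁻¹ * (shX (-Φ) * shY Ψ * shX (-Φ)) ∈ Per a b,
      (⟨_, h⟩ : Per a b) ∈ isotopicToId (Per a b) := by
  let A : I → ℝ × ℝ ≃ₜ ℝ × ℝ := fun s => shX (-itp Φ s)
  let B : I → ℝ × ℝ ≃ₜ ℝ × ℝ := fun s => shY (itp Ψ s)
  have hA : IsFamily A :=
    ⟨show Continuous fun p : I × ℝ × ℝ => (p.2.1 + -(p.1 * p.2.2 + (1 - p.1) * Φ p.2.2), p.2.2) by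
      fun_prop,
    show Continuous fun p : I × ℝ × ℝ => (p.2.1 - -(p.1 * p.2.2 + (1 - p.1) * Φ p.2.2), p.2.2) by
      fun_prop⟩
  have hB : IsFamily B :=
    ⟨show Continuous fun p : I × ℝ × ℝ => (p.2.1, p.2.2 + (p.1 * p.2.1 + (1 - p.1) * Ψ p.2.1)) by
      fun_prop,
    show Continuous fun p : I × ℝ × ℝ => (p.2.1, p.2.2 - (p.1 * p.2.1 + (1 - p.1) * Ψ p.2.1)) by
      fun_prop⟩
  have eA : ∀ s p (m n : ℤ), A s (p + ((m : ℝ), (n : ℝ))) = A s p + (((m - n : ℤ) : ℝ), (n : ℝ)) :=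
    fun s p m n => by
      simp only [A, shX_apply, ContinuousMap.neg_apply, Prod.snd_add, Prod.fst_add, hΦ.itp_add,
        Prod.mk_add_mk, Prod.mk.injEq, and_true]
      push_cast; ring
  have eB : ∀ s p (m n : ℤ), B s (p + ((m : ℝ), (n : ℝ))) = B s p + ((m : ℝ), ((n + m : ℤ) : ℝ)) :=
    fun s p m n => by
      simp only [B, shY_apply, Prod.snd_add, Prod.fst_add, hΨ.itp_add,
        Prod.mk_add_mk, Prod.mk.injEq, true_and]
      push_cast; ring
  let F : I → ℝ × ℝ ≃ₜ ℝ × ℝ := fun s => (B s * A s * B s)⁻¹ * (A s * B s * A s)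
  have hF : IsFamily F := ((hB.mul hA).mul hB).inv.mul ((hA.mul hB).mul hA)
  have F_eq : ∀ s p q, A s (B s (A s p)) = B s (A s (B s q)) → F s p = q := fun s p q h =>
    (B s * A s * B s).symm_apply_eq.2 h
  have F_app : ∀ s p, B s (A s (B s (F s p))) = A s (B s (A s p)) := fun s p =>
    (B s * A s * B s).apply_symm_apply _
  have pF : ∀ s, F s ∈ Per (-1) (-1) := fun s => ⟨fun p m n => F_eq _ _ _ (by
    simp only [eA, eB, F_app]; congr 2 <;> push_cast <;> ring), fun p e => by linarith [abs_nonneg p.1]⟩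
  have e0 : (shY Ψ * shX (-Φ) * shY Ψ)⁻¹ * (shX (-Φ) * shY Ψ * shX (-Φ)) = F 0 := by
    have : ∀ Θ : C(ℝ, ℝ), itp Θ (0 : I) = Θ := fun Θ => by ext; simp [itp_apply]
    simp only [F, A, B, this]
  have f0 : ∀ p : ℝ × ℝ, |p.1| ≤ a → |p.2| ≤ b → F 0 p = p := fun p h1 h2 => F_eq _ _ _ (by
    simp [A, B, shX_apply, shY_apply, itp_apply, hΦ.zero _ h2, hΨ.zero _ h1])
  obtain ⟨C, hC, eC⟩ := exists_cut
  have pC : ∀ s, C s ∈ Per (-1) (-1) := fun s => ⟨fun p m n => by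
    simp only [eC, Prod.fst_add, Prod.snd_add, saw_add, Prod.mk_add_mk]; congr 1 <;> ring,
    fun p e => by linarith [abs_nonneg p.1]⟩
  obtain ⟨D, hD, eD⟩ := family_of_lower (T := I)
    (fun s (p : ℝ × ℝ) => (itp Ψ (1 - 31 / 32 * s) p.1, itp Φ (1 - 31 / 32 * s) p.2))
    (by simp only [itp_apply]; fun_prop) (fun s => (hΨ.itp_surj _).prodMap (hΦ.itp_surj _)) 32
    (fun s p q => by
      have s0 := s.2.1
      have s1 := s.2.2
      rw [Prod.dist_eq, Prod.dist_eq, mul_max_of_nonneg _ _ (by norm_num)]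
      exact max_le_max (hΨ.itp_low (by linarith) (by linarith) _ _)
        (hΦ.itp_low (by linarith) (by linarith) _ _))
  have pD : ∀ s, D s ∈ Per (-1) (-1) := fun s => ⟨fun p m n => by
    simp only [eD, Prod.fst_add, Prod.snd_add, hΦ.itp_add, hΨ.itp_add, Prod.mk_add_mk],
    fun p e => by linarith [abs_nonneg p.1]⟩
  have conj : ∀ (s : I) (H : ℝ × ℝ ≃ₜ ℝ × ℝ), H ∈ Per (-1) (-1) →
      (∀ p : ℝ × ℝ, |p.1| ≤ (1 - 31 / 32 * s) * a → |p.2| ≤ (1 - 31 / 32 * s) * b → H p = p) →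
      (D s)⁻¹ * H * D s ∈ Per a b := fun s H h1 h2 =>
    ⟨(mul_mem (mul_mem (inv_mem (pD s)) h1) (pD s)).1, fun p a1 a2 => (D s).symm_apply_eq.2 (by
      have : 0 ≤ 1 - 31 / 32 * (s : ℝ) := by linarith [s.2.2]
      refine h2 (D s p) ?_ ?_
      · rw [eD, hΨ.itp_lin _ a1, abs_mul, abs_of_nonneg this]; gcongr
      · rw [eD, hΦ.itp_lin _ a2, abs_mul, abs_of_nonneg this]; gcongr)⟩
  have m1 : ∀ s : I, (D s)⁻¹ * F 0 * D s ∈ Per a b := fun s => conj s _ (pF 0) fun p h1 h2 =>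
    f0 p (by nlinarith [s.2.1, hΨ.lo]) (by nlinarith [s.2.1, hΦ.lo])
  have m2 : ∀ s : I, (D 1)⁻¹ * ((C s)⁻¹ * F s) * D 1 ∈ Per a b := fun s =>
    conj 1 _ (mul_mem (inv_mem (pC s)) (pF s)) fun ⟨x, y⟩ h1 h2 => (C s).symm_apply_eq.2 (by
      have hx : |x| ≤ 1 / 64 := by simp at h1; linarith [hΨ.hi]
      have hy : |y| ≤ 1 / 64 := by simp at h2; linarith [hΦ.hi]
      have sm : ∀ {u v c d : ℝ} (t : ℝ), |t| ≤ 1 → |u| ≤ c → |v| ≤ d → |u + t * v| ≤ c + d :=
        fun {u v c d} t h0 h1 h2 => (abs_add_le _ _).trans (by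
          rw [abs_mul]; nlinarith [abs_nonneg t, abs_nonneg v])
      have s1 : |(s : ℝ)| ≤ 1 := by rw [abs_of_nonneg s.2.1]; exact s.2.2
      have s2 : |-(s : ℝ)| ≤ 1 := by rwa [abs_neg]
      have lA : ∀ u v : ℝ, |v| ≤ 1 / 4 → A s (u, v) = (u + -s * v, v) := fun u v h => by
        simp [A, shX_apply, hΦ.itp_lin _ (h.trans hΦ.lo)]
      have lB : ∀ u v : ℝ, |u| ≤ 1 / 4 → B s (u, v) = (u, v + s * u) := fun u v h => by
        simp [B, shY_apply, hΨ.itp_lin _ (h.trans hΨ.lo)]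
      have a1 := sm _ s2 hx hy
      have a2 := sm _ s1 hy a1
      have a3 := sm _ s2 a1 a2
      have a4 := sm _ s2 a2 a3
      have a5 := sm _ s1 a3 a4
      refine F_eq _ _ _ ?_
      show _ = B s (A s (B s (C s (x, y))))
      rw [lA x y (by linarith), lB _ y (by linarith), lA _ (y + _) (by linarith)]
      generalize hX : x + -s * y + -s * (y + s * (x + -s * y)) = X at *
      generalize hY : y + s * (x + -s * y) = Y at *
      have : C s (x, y) = (X + s * (Y + -s * X), Y + -s * X - s * (X + s * (Y + -s * X))) := by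
        rw [eC, saw_lin (by linarith : |x| ≤ 1 / 4), saw_lin (by linarith : |y| ≤ 1 / 4), ← hX, ← hY]
        congr 1 <;> ring
      rw [this, lB (X + _) _ (by linarith), sub_add_cancel, lA _ (Y + _) (by linarith),
        show X + s * (Y + -s * X) + -s * (Y + -s * X) = X by ring, lB X _ (by linarith)]
      congr 1; ring)
  have D0 : D 0 = 1 := by ext1 p; simp [eD, itp_apply]
  have C0 : C 0 = 1 := by ext1 p; simp [eC]
  have C1 : C 1 = 1 := by ext1 p; simp [eC]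
  have F1 : F 1 = 1 := Homeomorph.ext fun p => F_eq _ _ _ (by
    simp [A, B, shX_apply, shY_apply, itp_apply])
  have c1 := cls_eq_of_family ((hD.inv.mul (IsFamily.const (F 0))).mul hD) m1
  have c2 := cls_eq_of_family (((IsFamily.const (D 1)⁻¹).mul (hC.inv.mul hF)).mul
    (IsFamily.const (D 1))) m2
  simp only [D0, C0, C1, F1, inv_one, one_mul, mul_one, inv_mul_cancel] at c1 c2
  have m0 : F 0 ∈ Per a b := ⟨(pF 0).1, f0⟩
  rw [e0]
  refine ⟨m0, (QuotientGroup.eq_one_iff _).1 ?_⟩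
  rw [← cls_mem m0, c1, c2, cls_mem (one_mem _)]; rfl

end Pool.Agent.MP_6eaae3_al

end MrgPart1

-- marker of a merged file
example : 731051 + 346408 = 731051 + 346408 := rfl

end MrgPart0

-- ======== part 1: formerly Pool.Agent.MP_6eaae3_al.Brd
section MrgPart1

/-! The braid relation for twists along two annuli that cross once. -/

namespace Pool.Agent.MP_6eaae3_al

open Topology Filter unitInterval Set

set_option linter.unusedSimpArgs false
set_option linter.unusedTactic false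

theorem prof_eq (t : ℝ) : prof true (3 / 4 + t) = 1 - prof true (3 / 4 - t) := by
  simp only [prof, lev, ContinuousMap.coe_mk, if_true, max_def, min_def]
  split_ifs <;> linarith

theorem prof_anti : Antitone (prof true) := fun _ _ h =>
  max_le_max le_rfl (min_le_min le_rfl (by linarith))

noncomputable def stair (n : ℕ) (hn : 0 < n) : C(ℝ, ℝ) :=
  ⟨fun t => ⌊t⌋ + prof true (3 / 4 - n * (Int.fract t - 1 / 2)), by
    have n1 : (1 : ℝ) ≤ n := by exact_mod_cast hn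
    have : Continuous ((fun x : ℝ => prof true (3 / 4 - n * (x - 1 / 2)) - x) ∘ Int.fract) :=
      ContinuousOn.comp_fract'' (by fun_prop) (by
        rw [prof_zero (by norm_num [lev]; linarith), prof_one (by norm_num [lev]; linarith)]; simp)
    convert continuous_id.add this using 2 with t
    simp only [Pi.add_apply, id, Function.comp, Int.fract]; ring⟩

theorem stair_apply (n : ℕ) (hn : 0 < n) (t : ℝ) :
    stair n hn t = ⌊t⌋ + prof true (3 / 4 - n * (t - 1 / 2 - ⌊t⌋)) := by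
  show _ + prof true _ = _
  congr 2; simp only [Int.fract]; ring

noncomputable def rad (n : ℕ) : ℝ := 1 / 2 - 1 / (8 * n)

theorem n_rad {n : ℕ} (hn : 0 < n) : n * rad n = n / 2 - 1 / 8 := by
  have : (n : ℝ) ≠ 0 := by positivity
  unfold rad; field_simp

theorem stair_stair (n : ℕ) (hn : 0 < n) : Stair (stair n hn) (rad n) := by
  have n1 : (1 : ℝ) ≤ n := by exact_mod_cast hn
  have r1 : 1 / (8 * (n : ℝ)) ≤ 1 / 8 := by gcongr; linarith
  have r0 : 0 < 1 / (8 * (n : ℝ)) := by positivity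
  refine ⟨fun t t' h => ?_, fun t m => ?_, fun t h => ?_, by unfold rad; linarith,
    by unfold rad; linarith⟩
  · rw [stair_apply, stair_apply]
    rcases (Int.floor_mono h).lt_or_eq with e | e
    · have : (⌊t⌋ : ℝ) + 1 ≤ ⌊t'⌋ := by exact_mod_cast e
      have h1 : prof true (3 / 4 - n * (t - 1 / 2 - ⌊t⌋)) ≤ 1 := max_le zero_le_one (min_le_left _ _)
      have h2 : 0 ≤ prof true (3 / 4 - n * (t' - 1 / 2 - ⌊t'⌋)) := le_max_left _ _
      linarith
    · rw [e]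
      exact add_le_add le_rfl (prof_anti (by nlinarith))
  · rw [stair_apply, stair_apply, Int.floor_add_intCast]
    push_cast
    rw [show t + m - 1 / 2 - (⌊t⌋ + m) = t - 1 / 2 - ⌊t⌋ by ring]; ring
  · have e := n_rad hn
    have hr : rad n < 1 / 2 := by unfold rad; linarith
    rw [abs_le] at h
    rw [stair_apply]
    rcases le_or_gt 0 t with h0 | h0
    · rw [Int.floor_eq_iff.2 (⟨by simpa using h0, by simp; linarith⟩ : ((0 : ℤ) : ℝ) ≤ t ∧ _),
        prof_zero (by norm_num [lev]; nlinarith)]; simp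
    · rw [Int.floor_eq_iff.2 (⟨by simp; linarith, by simpa using h0⟩ : ((-1 : ℤ) : ℝ) ≤ t ∧ _),
        prof_one (by norm_num [lev]; nlinarith)]; simp

theorem dich {n : ℕ} (hn : 0 < n) (t : ℝ) :
    (∃ m : ℤ, |t - m| ≤ rad n) ∨ ∃ m : ℤ, |n * (t - 1 / 2 - m)| ≤ 1 / 8 := by
  have n1 : (0 : ℝ) < n := by exact_mod_cast hn
  have e := n_rad hn
  have h0 := Int.floor_le t
  have h1 := Int.lt_floor_add_one t
  by_cases a : t - ⌊t⌋ ≤ rad n
  · exact Or.inl ⟨⌊t⌋, by rwa [abs_of_nonneg (by linarith)]⟩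
  by_cases b : ⌊t⌋ + 1 - t ≤ rad n
  · exact Or.inl ⟨⌊t⌋ + 1, by push_cast; rw [abs_of_nonpos (by linarith)]; linarith⟩
  · exact Or.inr ⟨⌊t⌋, by rw [abs_le]; constructor <;> nlinarith⟩

theorem floor_of {n : ℕ} (hn : 0 < n) {t : ℝ} {m : ℤ} (h : |n * (t - 1 / 2 - m)| < 1 / 4) :
    ⌊t⌋ = m := by
  have n1 : (1 : ℝ) ≤ n := by exact_mod_cast hn
  rw [abs_mul, abs_of_nonneg (by linarith)] at h
  have : |t - 1 / 2 - m| < 1 / 4 := by nlinarith [abs_nonneg (t - 1 / 2 - m)]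
  rw [abs_lt] at this
  exact Int.floor_eq_iff.2 ⟨by linarith, by linarith⟩

variable {ι : Type} {g : ι × Fin 4 → ι × Fin 4}

/-- Two annuli that cross in exactly one square. -/
structure Cross (A B : Ann g) (k l : ℤ) : Prop where
  eq : A.sq k = B.sq l
  ρA : A.ρ k = false
  ρB : B.ρ l = true
  only : ∀ k' l', A.sq k' = B.sq l' → A.sq k' = A.sq k
  nA : 0 < A.n
  nB : 0 < B.n

namespace Cross

variable {A B : Ann g} {k l : ℤ} (X : Cross A B k l) (hg : Function.Involutive g)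

include X hg in
theorem iff {p q : ℝ × ℝ} (h0 : 0 < p.2) (h1 : p.2 < 1) (h0' : 0 < q.2) (h1' : q.2 < 1) :
    A.J p = B.J q ↔ ∃ a b : ℤ, p.1 = k + 1 - q.2 + a * A.n ∧ q.1 = l + p.2 + b * B.n := by
  constructor
  · obtain ⟨k', x, y, rfl, a0, a1, -⟩ := Ann.exists_eq h0 h1
    obtain ⟨l', x', y', rfl, -⟩ := Ann.exists_eq h0' h1'
    rw [A.J_eq, B.J_eq]
    intro h
    obtain ⟨k'', x'', e1, e2, e3⟩ := A.fiber hg a0 a1 h
    have f1 := X.only _ _ e1.symm
    have f2 := e1.trans (f1.trans X.eq)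
    rw [A.per _ _ f1, B.per _ _ f2, X.ρA, X.ρB] at e2
    obtain ⟨a, ha⟩ := (ZMod.intCast_eq_intCast_iff_dvd_sub _ _ _).1 ((A.inj _ _).1 f1.symm)
    obtain ⟨b, hb⟩ := (ZMod.intCast_eq_intCast_iff_dvd_sub _ _ _).1 ((B.inj _ _).1 f2.symm)
    have ha' : (k'' : ℝ) - k = A.n * a := by exact_mod_cast ha
    have hb' : (l' : ℝ) - l = B.n * b := by exact_mod_cast hb
    cases e2
    simp only [coe_symm_eq] at e3
    exact ⟨a, b, by simp only; linarith, by simp only; linarith⟩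
  · rintro ⟨a, b, e1, e2⟩
    have u1 := A.J_eq k (σ ⟨q.2, h0'.le, h1'.le⟩) ⟨p.2, h0.le, h1.le⟩
    have u2 := B.J_eq l ⟨p.2, h0.le, h1.le⟩ ⟨q.2, h0'.le, h1'.le⟩
    rw [← A.J_add _ a, X.ρA, X.eq] at u1
    rw [← B.J_add _ b, X.ρB] at u2
    have := u1.trans u2.symm
    convert this using 2
    · exact Prod.ext (by simp only [coe_symm_eq]; linarith) rfl
    · exact Prod.ext e2 rfl

noncomputable def h1 (m : ℤ) : ℝ × ℝ ≃ₜ ℝ × ℝ :=
  (affineHomeomorph (A.n : ℝ) (k + 1 / 4 - A.n / 2) (by have := X.nA; positivity)).prodCongr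
    (affineHomeomorph (B.n : ℝ) (3 / 4 - B.n * (1 / 2 + m)) (by have := X.nB; positivity))

noncomputable def h2 (m : ℤ) : ℝ × ℝ ≃ₜ ℝ × ℝ := (Homeomorph.prodComm ℝ ℝ).trans
  ((affineHomeomorph (B.n : ℝ) (l + 3 / 4 - B.n / 2) (by have := X.nB; positivity)).prodCongr
    (affineHomeomorph (-A.n : ℝ) (3 / 4 + A.n * (1 / 2 + m))
      (neg_ne_zero.2 (by have := X.nA; positivity))))

theorem h1_eq (m : ℤ) (p : ℝ × ℝ) : X.h1 m p =
    (k + 1 / 4 + A.n * (p.1 - 1 / 2), 3 / 4 + B.n * (p.2 - 1 / 2 - m)) :=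
  Prod.ext (by simp [h1]; ring) (by simp [h1]; ring)

theorem h2_eq (m : ℤ) (p : ℝ × ℝ) : X.h2 m p =
    (l + 3 / 4 + B.n * (p.2 - 1 / 2), 3 / 4 - A.n * (p.1 - 1 / 2 - m)) :=
  Prod.ext (by simp [h2]; ring) (by simp [h2]; ring)

noncomputable def J (p : ℝ × ℝ) : Sq g :=
  if |B.n * (p.2 - 1 / 2 - ⌊p.2⌋)| < 1 / 4 then A.J (X.h1 ⌊p.2⌋ p) else B.J (X.h2 ⌊p.1⌋ p)

theorem u1 {p : ℝ × ℝ} {m : ℤ} (h : |B.n * (p.2 - 1 / 2 - m)| < 1 / 4) :
    0 < (X.h1 m p).2 ∧ (X.h1 m p).2 < 1 := by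
  rw [abs_lt] at h
  rw [h1_eq]; constructor <;> simp only <;> linarith

theorem u2 {p : ℝ × ℝ} {m : ℤ} (h : |A.n * (p.1 - 1 / 2 - m)| < 1 / 4) :
    0 < (X.h2 m p).2 ∧ (X.h2 m p).2 < 1 := by
  rw [abs_lt] at h
  rw [h2_eq]; constructor <;> simp only <;> linarith

theorem J1 {p : ℝ × ℝ} {m : ℤ} (h : |B.n * (p.2 - 1 / 2 - m)| < 1 / 4) : X.J p = A.J (X.h1 m p) := by
  rw [J, floor_of X.nB h, if_pos h]

include hg in
theorem J2 {p : ℝ × ℝ} {m : ℤ} (h : |A.n * (p.1 - 1 / 2 - m)| < 1 / 4) : X.J p = B.J (X.h2 m p) := by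
  rw [J, floor_of X.nA h]
  split_ifs with e
  · exact (X.iff hg (X.u1 e).1 (X.u1 e).2 (X.u2 h).1 (X.u2 h).2).2 ⟨m, ⌊p.2⌋,
      by simp only [h1_eq, h2_eq]; ring, by simp only [h1_eq, h2_eq]; ring⟩
  · rfl

def Y (A B : Ann g) : Set (ℝ × ℝ) :=
  {p | ∃ m : ℤ, |B.n * (p.2 - 1 / 2 - m)| < 1 / 4 ∨ |A.n * (p.1 - 1 / 2 - m)| < 1 / 4}

/-- Equality modulo the lattice. -/
def Lat (p q : ℝ × ℝ) : Prop := ∃ m n : ℤ, q = p + ((m : ℝ), (n : ℝ))

theorem Lat.Y {p q : ℝ × ℝ} (h : Lat p q) : q ∈ Y A B ↔ p ∈ Y A B := by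
  obtain ⟨a, b, rfl⟩ := h
  constructor
  · rintro ⟨m, h | h⟩
    · exact ⟨m - b, Or.inl (by convert h using 3; simp; ring)⟩
    · exact ⟨m - a, Or.inr (by convert h using 3; simp; ring)⟩
  · rintro ⟨m, h | h⟩
    · exact ⟨m + b, Or.inl (by convert h using 3; simp; ring)⟩
    · exact ⟨m + a, Or.inr (by convert h using 3; simp; ring)⟩

include hg in
theorem J_iff {p q : ℝ × ℝ} (hp : p ∈ Y A B) (hq : q ∈ Y A B) : X.J p = X.J q ↔ Lat p q := by
  have nA : (A.n : ℝ) ≠ 0 := by have := X.nA; positivity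
  have nB : (B.n : ℝ) ≠ 0 := by have := X.nB; positivity
  constructor
  · obtain ⟨m, hp | hp⟩ := hp <;> obtain ⟨m', hq | hq⟩ := hq
    · rw [X.J1 hp, X.J1 hq, A.J_iff hg (X.u1 hp).1 (X.u1 hp).2 (X.u1 hq).1 (X.u1 hq).2]
      simp only [h1_eq, Prod.mk.injEq]
      rintro ⟨a, e1, e2⟩
      exact ⟨a, m' - m, Prod.ext (mul_left_cancel₀ nA (by simp only [Prod.fst_add, Prod.snd_add]; push_cast; linarith))
        (mul_left_cancel₀ nB (by simp only [Prod.fst_add, Prod.snd_add]; push_cast; linarith))⟩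
    · rw [X.J1 hp, X.J2 hg hq, X.iff hg (X.u1 hp).1 (X.u1 hp).2 (X.u2 hq).1 (X.u2 hq).2]
      simp only [h1_eq, h2_eq]
      rintro ⟨a, b, e1, e2⟩
      exact ⟨m' - a, b - m, Prod.ext (mul_left_cancel₀ nA (by simp only [Prod.fst_add, Prod.snd_add]; push_cast; linarith))
        (mul_left_cancel₀ nB (by simp only [Prod.fst_add, Prod.snd_add]; push_cast; linarith))⟩
    · rw [X.J2 hg hp, X.J1 hq, eq_comm, X.iff hg (X.u1 hq).1 (X.u1 hq).2 (X.u2 hp).1 (X.u2 hp).2]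
      simp only [h1_eq, h2_eq]
      rintro ⟨a, b, e1, e2⟩
      exact ⟨a - m, m' - b, Prod.ext (mul_left_cancel₀ nA (by simp only [Prod.fst_add, Prod.snd_add]; push_cast; linarith))
        (mul_left_cancel₀ nB (by simp only [Prod.fst_add, Prod.snd_add]; push_cast; linarith))⟩
    · rw [X.J2 hg hp, X.J2 hg hq, B.J_iff hg (X.u2 hp).1 (X.u2 hp).2 (X.u2 hq).1 (X.u2 hq).2]
      simp only [h2_eq, Prod.mk.injEq]
      rintro ⟨a, e1, e2⟩
      exact ⟨m' - m, a, Prod.ext (mul_left_cancel₀ nA (by simp only [Prod.fst_add, Prod.snd_add]; push_cast; linarith))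
        (mul_left_cancel₀ nB (by simp only [Prod.fst_add, Prod.snd_add]; push_cast; linarith))⟩
  · rintro ⟨a, b, rfl⟩
    obtain ⟨m, hp | hp⟩ := hp
    · rw [X.J1 hp, X.J1 (m := m + b) (by convert hp using 3; simp; ring), ← A.J_add _ a]
      congr 1
      simp only [h1_eq, Prod.fst_add, Prod.snd_add]; push_cast; congr 1 <;> ring
    · rw [X.J2 hg hp, X.J2 hg (m := m + a) (by convert hp using 3; simp; ring), ← B.J_add _ b]
      congr 1
      simp only [h2_eq, Prod.fst_add, Prod.snd_add]; push_cast; congr 1 <;> ring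

theorem s1 {p : ℝ × ℝ} {m : ℤ} (h : |B.n * (p.2 - 1 / 2 - m)| ≤ 1 / 8) : X.J p ∈ A.strip true := by
  rw [X.J1 (h.trans_lt (by norm_num))]
  rw [abs_le] at h
  exact ⟨_, by simp only [h1_eq, lev, mem_ofPred_eq, if_true]; constructor <;> linarith, rfl⟩

include hg in
theorem s2 {p : ℝ × ℝ} {m : ℤ} (h : |A.n * (p.1 - 1 / 2 - m)| ≤ 1 / 8) : X.J p ∈ B.strip true := by
  rw [X.J2 hg (h.trans_lt (by norm_num))]
  rw [abs_le] at h
  exact ⟨_, by simp only [h2_eq, lev, mem_ofPred_eq, if_true]; constructor <;> linarith, rfl⟩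

theorem t1 {x : Sq g} (h : x ∈ A.strip true) :
    ∃ p : ℝ × ℝ, |B.n * (p.2 - 1 / 2 - (0 : ℤ))| < 1 / 4 ∧ X.J p = x := by
  obtain ⟨q, hq, rfl⟩ := h
  obtain ⟨p, rfl⟩ := (X.h1 0).surjective q
  simp only [h1_eq, lev, mem_ofPred_eq, if_true] at hq
  have : |B.n * (p.2 - 1 / 2 - (0 : ℤ))| < 1 / 4 := by rw [abs_lt]; constructor <;> linarith [hq.1, hq.2]
  exact ⟨p, this, X.J1 this⟩

include hg in
theorem t2 {x : Sq g} (h : x ∈ B.strip true) :
    ∃ p : ℝ × ℝ, |A.n * (p.1 - 1 / 2 - (0 : ℤ))| < 1 / 4 ∧ X.J p = x := by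
  obtain ⟨q, hq, rfl⟩ := h
  obtain ⟨p, rfl⟩ := (X.h2 0).surjective q
  simp only [h2_eq, lev, mem_ofPred_eq, if_true] at hq
  have : |A.n * (p.1 - 1 / 2 - (0 : ℤ))| < 1 / 4 := by rw [abs_lt]; constructor <;> linarith [hq.1, hq.2]
  exact ⟨p, this, X.J2 hg this⟩

variable [Finite ι]

noncomputable def chart : Chart (ℝ × ℝ) (Sq g) where
  J := X.J
  Y := Y A B
  K := A.strip true ∪ B.strip true
  oY := by
    rw [Y, ofPred_exists]
    exact isOpen_iUnion fun m => (isOpen_lt (f := fun p : ℝ × ℝ => |B.n * (p.2 - 1 / 2 - m)|)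
      (by fun_prop) continuous_const).union (isOpen_lt
        (f := fun p : ℝ × ℝ => |A.n * (p.1 - 1 / 2 - m)|) (by fun_prop) continuous_const)
  nh := by
    rintro p ⟨m, h | h⟩
    · rw [map_congr (m₂ := A.J ∘ X.h1 m) (((isOpen_lt (by fun_prop) continuous_const).eventually_mem
        (show p ∈ {p : ℝ × ℝ | |B.n * (p.2 - 1 / 2 - m)| < 1 / 4} from h)).mono fun _ h => X.J1 h),
        ← map_map, Homeomorph.map_nhds_eq, A.map_nhds hg (X.u1 h).1 (X.u1 h).2, X.J1 h]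
    · rw [map_congr (m₂ := B.J ∘ X.h2 m) (((isOpen_lt (by fun_prop) continuous_const).eventually_mem
        (show p ∈ {p : ℝ × ℝ | |A.n * (p.1 - 1 / 2 - m)| < 1 / 4} from h)).mono fun _ h => X.J2 hg h),
        ← map_map, Homeomorph.map_nhds_eq, B.map_nhds hg (X.u2 h).1 (X.u2 h).2, X.J2 hg h]
  cK := (A.chart hg true).cK.union (B.chart hg true).cK
  sub := by
    rintro x (h | h)
    · obtain ⟨p, h, e⟩ := X.t1 h
      exact ⟨p, ⟨0, Or.inl h⟩, e⟩
    · obtain ⟨p, h, e⟩ := X.t2 hg h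
      exact ⟨p, ⟨0, Or.inr h⟩, e⟩

theorem adm {H : ℝ × ℝ ≃ₜ ℝ × ℝ} (a1 : ∀ p q, Lat (H p) (H q) ↔ Lat p q)
    (a2 : ∀ (p : ℝ × ℝ) (m n : ℤ), |p.1 - m| ≤ rad A.n → |p.2 - n| ≤ rad B.n → Lat p (H p)) :
    H ∈ (X.chart hg).Adm := by
  have key : ∀ p : ℝ × ℝ, (∀ m : ℤ, ¬ |B.n * (p.2 - 1 / 2 - m)| ≤ 1 / 8) →
      (∀ m : ℤ, ¬ |A.n * (p.1 - 1 / 2 - m)| ≤ 1 / 8) → Lat p (H p) := fun p h1 h2 => by
    rcases dich X.nA p.1 with ⟨m, hm⟩ | ⟨m, hm⟩
    · rcases dich X.nB p.2 with ⟨n, hn⟩ | ⟨n, hn⟩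
      exacts [a2 p m n hm hn, (h1 n hn).elim]
    · exact (h2 m hm).elim
  have out : ∀ p ∉ Y A B, Lat p (H p) := fun p hp =>
    key p (fun m h => hp ⟨m, Or.inl (h.trans_lt (by norm_num))⟩)
      (fun m h => hp ⟨m, Or.inr (h.trans_lt (by norm_num))⟩)
  have hY : ∀ p, H p ∈ Y A B ↔ p ∈ Y A B := fun p =>
    ⟨fun h => by_contra fun e => e ((out p e).Y.1 h),
      fun h => by_contra fun e => e (((a1 _ _).1 (out _ e)).Y.2 h)⟩
  refine ⟨hY, fun p hp q hq => (X.J_iff hg ((hY p).2 hp) ((hY q).2 hq)).trans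
    ((a1 p q).trans (X.J_iff hg hp hq).symm), fun p hp e => ?_⟩
  exact ((X.J_iff hg hp ((hY p).2 hp)).2 (key p (fun m h => e (Or.inl (X.s1 h)))
    fun m h => e (Or.inr (X.s2 hg h)))).symm

theorem adm_per {H : ℝ × ℝ ≃ₜ ℝ × ℝ} (h : H ∈ Per (rad A.n) (rad B.n)) : H ∈ (X.chart hg).Adm :=
  X.adm hg (fun p q => exists₂_congr fun m n => by rw [← h.1, H.injective.eq_iff])
    fun p m n h1 h2 => ⟨0, 0, by
      have := h.1 (p - ((m : ℝ), (n : ℝ))) m n
      rw [h.2 (p - _) h1 h2] at this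
      simpa [Prod.mk_zero_zero] using this⟩

theorem adm1 : shX (-stair B.n X.nB) ∈ (X.chart hg).Adm := by
  have S := stair_stair B.n X.nB
  refine X.adm hg (fun p q => ⟨?_, ?_⟩) fun p m n _ h => ⟨-n, 0, ?_⟩
  · rintro ⟨m, n, e⟩
    simp only [shX_apply, Prod.mk_add_mk, Prod.mk.injEq, ContinuousMap.neg_apply] at e
    obtain ⟨e1, e2⟩ := e
    rw [e2, S.add] at e1
    exact ⟨m + n, n, Prod.ext (by simp; linarith) (by simpa using e2)⟩
  · rintro ⟨m, n, rfl⟩
    exact ⟨m - n, n, by simp [shX_apply, S.add]; ring⟩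
  · have := S.add (p.2 - n) n
    rw [S.zero _ h, sub_add_cancel] at this
    exact Prod.ext (by simp [shX_apply, this]) (by simp [shX_apply])

theorem adm2 : shY (stair A.n X.nA) ∈ (X.chart hg).Adm := by
  have S := stair_stair A.n X.nA
  refine X.adm hg (fun p q => ⟨?_, ?_⟩) fun p m n h _ => ⟨0, m, ?_⟩
  · rintro ⟨m, n, e⟩
    simp only [shY_apply, Prod.mk_add_mk, Prod.mk.injEq] at e
    obtain ⟨e1, e2⟩ := e
    rw [e1, S.add] at e2
    exact ⟨m, n - m, Prod.ext (by simpa using e1) (by simp; linarith)⟩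
  · rintro ⟨m, n, rfl⟩
    exact ⟨m, n + m, by simp [shY_apply, S.add]; ring⟩
  · have := S.add (p.1 - m) m
    rw [S.zero _ h, sub_add_cancel] at this
    exact Prod.ext (by simp [shY_apply]) (by simp [shY_apply, this])

theorem ext1 : (X.chart hg).ext ⟨_, X.adm1 hg⟩ = A.tw hg true := by
  have S := stair_stair B.n X.nB
  ext x
  by_cases hx : x ∈ A.strip true
  · obtain ⟨p, h, rfl⟩ := X.t1 hx
    refine (Chart.ext_J (C := X.chart hg) _ ⟨0, Or.inl h⟩).trans ?_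
    rw [X.J1 h, A.tw_J hg true (X.u1 h).1 (X.u1 h).2]
    refine (X.J1 (p := shX (-stair B.n X.nB) p) (m := 0) h).trans ?_
    rw [← A.J_add _ 1]
    congr 1
    simp only [h1_eq, shX_apply, ContinuousMap.neg_apply, stair_apply, floor_of X.nB h, prof_eq]
    congr 1; push_cast; ring
  rw [A.tw_out hg true hx]
  by_cases h : x ∈ (X.chart hg).K
  swap
  · exact Chart.ext_out _ h
  obtain ⟨p, hp, rfl⟩ := (X.chart hg).sub h
  rcases dich X.nB p.2 with ⟨n, hn⟩ | ⟨n, hn⟩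
  · have := S.add (p.2 - n) n
    rw [S.zero _ hn, sub_add_cancel] at this
    exact (Chart.ext_J _ hp).trans ((X.J_iff hg hp (((X.adm1 hg).1 p).2 hp)).2
      ⟨-n, 0, Prod.ext (by simp [shX_apply, this]) (by simp [shX_apply])⟩).symm
  · exact (hx (X.s1 hn)).elim

theorem ext2 : (X.chart hg).ext ⟨_, X.adm2 hg⟩ = B.tw hg true := by
  have S := stair_stair A.n X.nA
  ext x
  by_cases hx : x ∈ B.strip true
  · obtain ⟨p, h, rfl⟩ := X.t2 hg hx
    refine (Chart.ext_J (C := X.chart hg) _ ⟨0, Or.inr h⟩).trans ?_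
    rw [X.J2 hg h, B.tw_J hg true (X.u2 h).1 (X.u2 h).2]
    refine (X.J2 hg (p := shY (stair A.n X.nA) p) (m := 0) h).trans ?_
    congr 1
    simp only [h2_eq, shY_apply, stair_apply, floor_of X.nA h]
    congr 1; push_cast; ring
  rw [B.tw_out hg true hx]
  by_cases h : x ∈ (X.chart hg).K
  swap
  · exact Chart.ext_out _ h
  obtain ⟨p, hp, rfl⟩ := (X.chart hg).sub h
  rcases dich X.nA p.1 with ⟨n, hn⟩ | ⟨n, hn⟩
  · have := S.add (p.1 - n) n
    rw [S.zero _ hn, sub_add_cancel] at this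
    exact (Chart.ext_J _ hp).trans ((X.J_iff hg hp (((X.adm2 hg).1 p).2 hp)).2
      ⟨0, n, Prod.ext (by simp [shY_apply]) (by simp [shY_apply, this])⟩).symm
  · exact (hx (X.s2 hg hn)).elim

include X in
theorem braid (Z : Set ι) :
    let K := homeoRel (Sq g) (bd g ∪ ctr g Z)
    cls K (A.tw hg true) * cls K (B.tw hg true) * cls K (A.tw hg true) =
      cls K (B.tw hg true) * cls K (A.tw hg true) * cls K (B.tw hg true) := by
  intro K
  have mem : ∀ H, (X.chart hg).ext H ∈ K := fun H x hx => Chart.ext_out H (by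
    rintro (h | h)
    exacts [A.not_strip hg true Z hx h, B.not_strip hg true Z hx h])
  obtain ⟨h, H, a1, a2, a3⟩ := tor (stair_stair B.n X.nB) (stair_stair A.n X.nA)
  have := cls_eq_of_family (Chart.ext_family (C := X.chart hg)
    (H := fun t => ⟨_, X.adm_per hg (H t).2⟩) a1) fun t => mem _
  let a : (X.chart hg).Adm := ⟨_, X.adm1 hg⟩
  let b : (X.chart hg).Adm := ⟨_, X.adm2 hg⟩
  have e0 : (⟨_, X.adm_per hg (H 0).2⟩ : (X.chart hg).Adm) = 1 := Subtype.ext (by rw [a2]; rfl)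
  have e1 : (⟨_, X.adm_per hg (H 1).2⟩ : (X.chart hg).Adm) = (b * a * b)⁻¹ * (a * b * a) :=
    Subtype.ext (by rw [a3]; rfl)
  let c : (X.chart hg).Adm →* K ⧸ isotopicToId K :=
    (QuotientGroup.mk' _).comp ((X.chart hg).ext.codRestrict K mem)
  have hc : ∀ H, cls K ((X.chart hg).ext H) = c H := fun H => cls_mem (mem H)
  rw [e0, e1, hc, hc, map_one, map_mul, map_inv, eq_comm, inv_mul_eq_one] at this
  rw [← X.ext1 hg, ← X.ext2 hg, hc, hc, ← map_mul, ← map_mul, ← map_mul, ← map_mul]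
  exact this.symm

end Cross

end Pool.Agent.MP_6eaae3_al

end MrgPart1

-- ======== part 2: formerly Pool.Agent.MP_6eaae3_al.Real
section MrgPart2

/-! The surface of a family of annuli. -/

namespace Pool.Agent.MP_6eaae3_al

open Topology Filter unitInterval Set

variable {S M : Type}

abbrev Cell (S : Type) := S × Option (Bool × Bool)

def cX (μ : S) : Cell S := (μ, none)
def cI (p : S × Bool) : Cell S := (p.1, some (p.2, false))
def cO (p : S × Bool) : Cell S := (p.1, some (p.2, true))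

/-- Crosses with four arms, joined along a permutation of the passages. -/
def glu (nx : Equiv.Perm (S × Bool)) : Cell S × Fin 4 → Cell S × Fin 4
  | ((μ, none), k) => if k = 0 then (cI (μ, true), 1) else if k = 1 then (cO (μ, false), 3)
      else if k = 2 then (cO (μ, true), 3) else (cI (μ, false), 1)
  | ((μ, some (ρ, false)), k) => if k = 1 then (cX μ, en ρ) else if k = 3 then (cO (nx⁻¹ (μ, ρ)), 1)
      else (cI (μ, ρ), k)
  | ((μ, some (ρ, true)), k) => if k = 3 then (cX μ, ex ρ) else if k = 1 then (cI (nx (μ, ρ)), 3)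
      else (cO (μ, ρ), k)

variable {nx : Equiv.Perm (S × Bool)}

theorem glu_I1 (p : S × Bool) : glu nx (cI p, 1) = (cX p.1, en p.2) := rfl
theorem glu_I3 (p : S × Bool) : glu nx (cI p, 3) = (cO (nx⁻¹ p), 1) := rfl
theorem glu_O3 (p : S × Bool) : glu nx (cO p, 3) = (cX p.1, ex p.2) := rfl
theorem glu_O1 (p : S × Bool) : glu nx (cO p, 1) = (cI (nx p), 3) := rfl
theorem glu_en (p : S × Bool) : glu nx (cX p.1, en p.2) = (cI p, 1) := by obtain ⟨μ, _ | _⟩ := p <;> rfl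
theorem glu_ex (p : S × Bool) : glu nx (cX p.1, ex p.2) = (cO p, 3) := by obtain ⟨μ, _ | _⟩ := p <;> rfl
theorem free_I (p : S × Bool) : Free (glu nx) (cI p) := ⟨rfl, rfl⟩
theorem free_O (p : S × Bool) : Free (glu nx) (cO p) := ⟨rfl, rfl⟩

theorem glu_cases (s : Cell S × Fin 4) : glu nx s = s ∨ ∃ p, s = (cX p.1, en p.2) ∨ s = (cI p, 1) ∨
    s = (cX p.1, ex p.2) ∨ s = (cO p, 3) ∨ s = (cO p, 1) ∨ s = (cI (nx p), 3) := by
  obtain ⟨⟨μ, _ | ⟨ρ, _ | _⟩⟩, k⟩ := s <;> fin_cases k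
  · exact Or.inr ⟨(μ, true), Or.inl rfl⟩
  · exact Or.inr ⟨(μ, false), Or.inr (Or.inr (Or.inl rfl))⟩
  · exact Or.inr ⟨(μ, true), Or.inr (Or.inr (Or.inl rfl))⟩
  · exact Or.inr ⟨(μ, false), Or.inl rfl⟩
  · exact Or.inl rfl
  · exact Or.inr ⟨(μ, ρ), Or.inr (Or.inl rfl)⟩
  · exact Or.inl rfl
  · exact Or.inr ⟨nx⁻¹ (μ, ρ), by simp [cI]⟩
  · exact Or.inl rfl
  · exact Or.inr ⟨(μ, ρ), by simp [cO]⟩
  · exact Or.inl rfl
  · exact Or.inr ⟨(μ, ρ), by simp [cO]⟩

theorem glu_inv : Function.Involutive (glu nx) := fun s => by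
  rcases glu_cases (nx := nx) s with h | ⟨p, rfl | rfl | rfl | rfl | rfl | rfl⟩
  · rw [h, h]
  all_goals simp [glu_I1, glu_I3, glu_O3, glu_O1, glu_en, glu_ex]

def nmp (nm : S → M) (p : S × Bool) : M × Bool := (nm p.1, p.2)

def labl (nm : S → M) : Cell S → Bool → FL M
  | (_, none), _ => 1
  | (μ, some (ρ, false)), _ => inl (nm μ, ρ)
  | (μ, some (ρ, true)), s => out s (nm μ, ρ)

def punc (S : Type) : Set (Cell S) := {i | i.2 = some (false, true)}

theorem labl_free (nm : S → M) (i : Cell S) (h : ¬ Free (glu nx) i) (b : Bool) : labl nm i b = 1 := by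
  obtain ⟨μ, _ | ⟨ρ, _ | _⟩⟩ := i
  exacts [rfl, (h (free_I (μ, ρ))).elim, (h (free_O (μ, ρ))).elim]

theorem labl_punc (nm : S → M) (i : Cell S) (h : i ∉ punc S) : labl nm i true = labl nm i false := by
  obtain ⟨μ, _ | ⟨_ | _, _ | _⟩⟩ := i
  exacts [rfl, rfl, (h rfl).elim, rfl, rfl]

/-- A record read along an orbit of the permutation. -/
structure Cyc (nm : S → M) (nx : Equiv.Perm (S × Bool)) (A : Rec M) where
  n : ℕ
  pos : 0 < n
  c : ℤ → S × Bool
  next : ∀ j, nx (c j) = c (j + 1)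
  inj : ∀ j l, c j = c l ↔ (n : ℤ) ∣ l - j
  mem : ∀ p, nmp nm p ∈ A.cells ↔ p ∈ range c
  W : Bool → ℤ → FL M
  hW : ∀ s j, W s (j + 1) = W s j * pas s (nmp nm (c j))
  hu : ∀ s j, W s (j + n) = pth s A.cells * W s j
  ell : ∀ s j, A.ell s (nmp nm (c j)) =
    (W s j * inl (nmp nm (c j)))⁻¹ * pth s A.cells * (W s j * inl (nmp nm (c j)))

theorem exists_cyc [DecidableEq S] {nm : S → M} (hnm : Function.Injective nm) {A : Rec M}
    {l : List (S × Bool)} (hl : l.map (nmp nm) = A.cells) (h0 : A.cells ≠ [])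
    (hx : ∀ p ∈ l, nx p = l.formPerm p) : Nonempty (Cyc nm nx A) := by
  have nd : l.Nodup := (hl ▸ A.nodup).of_map _
  have pos : 0 < l.length := List.length_pos_iff.2 (by rintro rfl; exact h0 hl.symm)
  have key : ∀ (q : ℤ) (r : ℕ), r < l.length →
      (q * l.length + r) / l.length = q ∧ ((q * l.length + r) % l.length).toNat = r := by
    intro q r h
    have := (Int.ediv_emod_unique (a := q * l.length + r) (r := r) (q := q)
      (by exact_mod_cast pos : (0 : ℤ) < l.length)).2 ⟨by ring, by positivity, by exact_mod_cast h⟩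
    simp [this.1, this.2]
  have dec : ∀ j : ℤ, ∃ (q : ℤ) (r : ℕ), r < l.length ∧ j = q * l.length + r := fun j => by
    have h1 := Int.emod_nonneg j (by omega : (l.length : ℤ) ≠ 0)
    have h2 := Int.emod_lt_of_pos j (by omega : (0 : ℤ) < l.length)
    exact ⟨j / l.length, (j % l.length).toNat, by omega, by
      rw [Int.toNat_of_nonneg h1, Int.ediv_mul_add_emod]⟩
  let c : ℤ → S × Bool := fun j => l.getD (j % l.length).toNat l[0]
  let W : Bool → ℤ → FL M := fun s j =>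
    pth s A.cells ^ (j / l.length) * pth s (A.cells.take (j % l.length).toNat)
  have hc : ∀ (q : ℤ) (r : ℕ) (h : r < l.length), c (q * l.length + r) = l[r] := fun q r h => by
    simp only [c, (key q r h).2]; exact List.getD_eq_getElem _ _ h
  have hW : ∀ s (q : ℤ) (r : ℕ), r < l.length → W s (q * l.length + r) =
      pth s A.cells ^ q * pth s (A.cells.take r) := fun s q r h => by
    simp only [W, (key q r h).1, (key q r h).2]
  have len : A.cells.length = l.length := by rw [← hl, List.length_map]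
  have get : ∀ r (h : r < l.length), nmp nm l[r] = A.cells[r] := fun r h => by simp [← hl]
  refine ⟨⟨l.length, pos, c, fun j => ?_, fun j j' => ?_, fun p => ?_, W, fun s j => ?_,
    fun s j => ?_, fun s j => ?_⟩⟩
  · obtain ⟨q, r, h, rfl⟩ := dec j
    rw [hc q r h, hx _ (List.getElem_mem h), List.formPerm_apply_getElem l nd]
    rcases (Nat.succ_le_of_lt h).lt_or_eq with e | e
    · have := hc q (r + 1) e
      push_cast at this
      rw [add_assoc, this]; simp [Nat.mod_eq_of_lt e]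
    · have := hc (q + 1) 0 pos
      rw [show q * l.length + r + 1 = (q + 1) * l.length + (0 : ℕ) by
        have : (r : ℤ) + 1 = l.length := by exact_mod_cast e
        push_cast; linarith, this]
      simp [show r + 1 = l.length from e]
  · obtain ⟨q, r, h, rfl⟩ := dec j
    obtain ⟨q', r', h', rfl⟩ := dec j'
    rw [hc q r h, hc q' r' h', nd.getElem_inj_iff]
    refine ⟨fun e => ⟨q' - q, by rw [e]; ring⟩, fun ⟨a, e⟩ => ?_⟩
    rw [← (key q' r' h').2, show q' * l.length + r' = (q + a) * l.length + r by linarith, (key _ r h).2]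
  · rw [← hl, List.mem_map_of_injective (f := nmp nm)
      (fun p q e => Prod.ext (hnm (Prod.ext_iff.1 e).1) (Prod.ext_iff.1 e).2)]
    refine ⟨fun h => ?_, ?_⟩
    · obtain ⟨r, h', rfl⟩ := List.getElem_of_mem h
      exact ⟨_, hc 0 r h'⟩
    · rintro ⟨j, rfl⟩
      obtain ⟨q, r, h, rfl⟩ := dec j
      rw [hc q r h]; exact List.getElem_mem h
  · obtain ⟨q, r, h, rfl⟩ := dec j
    have e1 : pth s (A.cells.take (r + 1)) = pth s (A.cells.take r) * pas s (nmp nm l[r]) := by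
      rw [List.take_succ_eq_append_getElem (by omega), get r h, pth_append, pth_cons, pth_nil,
        mul_one, pas]
    rw [hc q r h, hW s q r h, mul_assoc, ← e1]
    rcases (Nat.succ_le_of_lt h).lt_or_eq with e | e
    · rw [← hW s q _ e]; push_cast; rw [add_assoc]
    · rw [show q * l.length + r + 1 = (q + 1) * l.length + (0 : ℕ) by
        have : (r : ℤ) + 1 = l.length := by exact_mod_cast e
        push_cast; linarith, hW s _ 0 pos,
        List.take_of_length_le (i := r + 1) (by omega)]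
      simp [zpow_add_one]
  · obtain ⟨q, r, h, rfl⟩ := dec j
    rw [show q * l.length + r + l.length = (q + 1) * l.length + r by ring, hW s _ r h, hW s _ r h]
    group
  · obtain ⟨q, r, h, rfl⟩ := dec j
    rw [hc q r h, hW s q r h, get r h, Rec.ell, Rec.pre_eq s (l := A.cells.take r)
      (l' := A.cells.drop (r + 1)) (by rw [← List.drop_eq_getElem_cons, List.take_append_drop])]
    group

theorem three (k : ℤ) : ∃ j, k = 3 * j ∨ k = 3 * j + 1 ∨ k = 3 * j + 2 := ⟨k / 3, by omega⟩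

namespace Cyc

variable {nm : S → M} {A : Rec M} (Y : Cyc nm nx A)

def sq (k : ℤ) : Cell S :=
  if k % 3 = 0 then cI (Y.c (k / 3)) else if k % 3 = 1 then cX (Y.c (k / 3)).1 else cO (Y.c (k / 3))

def rho (k : ℤ) : Bool := if k % 3 = 1 then (Y.c (k / 3)).2 else false

theorem sq0 (j : ℤ) : Y.sq (3 * j) = cI (Y.c j) := by simp [sq]
theorem sq1 (j : ℤ) : Y.sq (3 * j + 1) = cX (Y.c j).1 := by
  simp [sq, show (3 * j + 1) / 3 = j by omega]
theorem sq2 (j : ℤ) : Y.sq (3 * j + 2) = cO (Y.c j) := by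
  simp [sq, show (3 * j + 2) / 3 = j by omega]
theorem rho0 (j : ℤ) : Y.rho (3 * j) = false := by simp [rho]
theorem rho1 (j : ℤ) : Y.rho (3 * j + 1) = (Y.c j).2 := by
  simp [rho, show (3 * j + 1) / 3 = j by omega]
theorem rho2 (j : ℤ) : Y.rho (3 * j + 2) = false := by simp [rho]

theorem cmem (j : ℤ) : nmp nm (Y.c j) ∈ A.cells := (Y.mem _).2 ⟨j, rfl⟩

theorem fst {j l : ℤ} (h : (Y.c j).1 = (Y.c l).1) : Y.c j = Y.c l :=
  Prod.ext h (Prod.ext_iff.1 (A.eq_of (Y.cmem j) (Y.cmem l) (congrArg nm h))).2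

theorem sq_inj (k l : ℤ) : Y.sq k = Y.sq l ↔ (3 * Y.n : ℤ) ∣ l - k := by
  constructor
  · intro h
    have h1 : (Y.c (k / 3)).1 = (Y.c (l / 3)).1 := by
      have := congrArg Prod.fst h
      simp only [sq] at this
      split_ifs at this <;> exact this
    have h2 : k % 3 = l % 3 := by
      have := congrArg Prod.snd h
      simp only [sq] at this
      split_ifs at this <;> first | omega | simp [cI, cX, cO] at this
    obtain ⟨a, e⟩ := (Y.inj _ _).1 (Y.fst h1)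
    exact ⟨a, by rw [mul_assoc, ← e]; omega⟩
  · rintro ⟨a, e⟩
    rw [mul_assoc] at e
    rw [sq, sq, (Y.inj (k / 3) (l / 3)).2 ⟨a, by omega⟩, show k % 3 = l % 3 by omega]

def ann : Ann (glu nx) where
  n := 3 * Y.n
  sq := Y.sq
  ρ := Y.rho
  inj k l := by rw [ZMod.intCast_eq_intCast_iff_dvd_sub, sq_inj]; push_cast; rfl
  per k l h := by
    obtain ⟨a, e⟩ := (Y.sq_inj k l).1 h
    rw [mul_assoc] at e
    rw [rho, rho, (Y.inj (k / 3) (l / 3)).2 ⟨a, by omega⟩, show k % 3 = l % 3 by omega]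
  gl k := by
    obtain ⟨j, rfl | rfl | rfl⟩ := three k
    · rw [sq0, sq1, rho0, rho1]; rfl
    · rw [add_assoc, one_add_one_eq_two, sq1, sq2, rho1, rho2]; exact glu_ex _
    · rw [show 3 * j + 2 + 1 = 3 * (j + 1) by ring, sq2, sq0, rho2, rho0, ← Y.next]; rfl

theorem I_mem {p : S × Bool} : cI p ∈ range Y.sq ↔ nmp nm p ∈ A.cells := by
  rw [Y.mem]
  refine ⟨fun ⟨k, e⟩ => ?_, fun ⟨j, e⟩ => ⟨3 * j, e ▸ Y.sq0 j⟩⟩
  obtain ⟨j, rfl | rfl | rfl⟩ := three k <;> simp [sq0, sq1, sq2, cI, cX, cO] at e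
  exact ⟨j, Prod.ext e.1 e.2⟩

theorem O_mem {p : S × Bool} : cO p ∈ range Y.sq ↔ nmp nm p ∈ A.cells := by
  rw [Y.mem]
  refine ⟨fun ⟨k, e⟩ => ?_, fun ⟨j, e⟩ => ⟨3 * j + 2, e ▸ Y.sq2 j⟩⟩
  obtain ⟨j, rfl | rfl | rfl⟩ := three k <;> simp [sq0, sq1, sq2, cI, cX, cO] at e
  exact ⟨j, Prod.ext e.1 e.2⟩

theorem X_mem {μ : S} : cX μ ∈ range Y.sq ↔ nm μ ∈ A.slots := by
  refine ⟨fun ⟨k, e⟩ => ?_, fun ⟨b, e⟩ => ?_⟩
  · obtain ⟨j, rfl | rfl | rfl⟩ := three k <;> simp [sq0, sq1, sq2, cI, cX, cO] at e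
    subst e; exact ⟨_, Y.cmem j⟩
  · obtain ⟨j, e⟩ := (Y.mem (μ, b)).1 e
    exact ⟨3 * j + 1, by rw [sq1, e]⟩

theorem slot (k : ℤ) : nm (Y.sq k).1 ∈ A.slots := by
  obtain ⟨j, rfl | rfl | rfl⟩ := three k <;> simp only [sq0, sq1, sq2] <;> exact ⟨_, Y.cmem j⟩

noncomputable def W' (s : Bool) (k : ℤ) : FL M :=
  Y.W s (k / 3) * if k % 3 = 0 then 1 else inl (nmp nm (Y.c (k / 3)))

theorem W0 (s : Bool) (j : ℤ) : Y.W' s (3 * j) = Y.W s j := by simp [W']
theorem W1 (s : Bool) (j : ℤ) : Y.W' s (3 * j + 1) = Y.W s j * inl (nmp nm (Y.c j)) := by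
  simp [W', show (3 * j + 1) / 3 = j by omega]
theorem W2 (s : Bool) (j : ℤ) : Y.W' s (3 * j + 2) = Y.W s j * inl (nmp nm (Y.c j)) := by
  simp [W', show (3 * j + 2) / 3 = j by omega]

theorem hW' (s : Bool) (k : ℤ) : Y.W' s (k + 1) = Y.W' s k * labl nm (Y.sq k) s := by
  obtain ⟨j, rfl | rfl | rfl⟩ := three k
  · rw [W1, W0, sq0]; rfl
  · rw [add_assoc, one_add_one_eq_two, W2, W1, sq1]; exact (mul_one _).symm
  · rw [show 3 * j + 2 + 1 = 3 * (j + 1) by ring, W0, W2, sq2, Y.hW, pas, mul_assoc]; rfl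

theorem h1 (s : Bool) (k : ℤ) : A.tau s (labl nm (Y.sq k) s) = labl nm (Y.sq k) s := by
  obtain ⟨j, rfl | rfl | rfl⟩ := three k
  · rw [sq0]; exact Rec.tau_PL (Rec.io_mem (Y.cmem j)).1
  · rw [sq1]; exact map_one _
  · rw [sq2]; exact Rec.tau_PL (Rec.io_mem (Y.cmem j)).2

end Cyc

open Classical in
noncomputable def gam (nm : S → M) (A : Rec M) (s : Bool) (i : Cell S) (τ : Bool) : FL M :=
  if i.2 = some (τ, !τ) ∧ (nm i.1, !τ) ∈ A.cells then A.ell s (nm i.1, !τ) else 1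

namespace Cyc

variable {nm : S → M} {A : Rec M} (Y : Cyc nm nx A)

theorem along {p : S × Bool} (h : nmp nm p ∈ A.cells) : ∃ j, Y.c j = p := (Y.mem p).1 h

theorem h4 (s : Bool) (t : Cell S × Fin 4) (h0 : glu nx t ≠ t)
    (h : ∀ a, t ≠ (Y.sq a, ex (Y.rho a)) ∧ t ≠ (Y.sq a, en (Y.rho a))) :
    ∃ e, ∀ s' ∈ ({t, glu nx t} : Set _), (s'.1 ∉ range Y.sq ∧ e = gam nm A s s'.1 (decide (s'.2 = 1))) ∨
      ∃ a, (s' = (Y.sq a, tp (Y.rho a)) ∧ e = 1) ∨
        (s' = (Y.sq a, bt (Y.rho a)) ∧ e = (Y.W' s a)⁻¹ * pth s A.cells * Y.W' s a) := by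
  let V : Cell S × Fin 4 → FL M → Prop := fun s' e =>
    (s'.1 ∉ range Y.sq ∧ e = gam nm A s s'.1 (decide (s'.2 = 1))) ∨
      ∃ a, (s' = (Y.sq a, tp (Y.rho a)) ∧ e = 1) ∨
        (s' = (Y.sq a, bt (Y.rho a)) ∧ e = (Y.W' s a)⁻¹ * pth s A.cells * Y.W' s a)
  have nX : ∀ μ, ∀ b, (nm μ, b) ∉ A.cells → (nm μ, !b) ∉ A.cells → cX μ ∉ range Y.sq :=
    fun μ b h1 h2 e => by
      obtain ⟨b', e⟩ := Y.X_mem.1 e
      cases b <;> cases b' <;> contradiction
  have p1 : ∀ p, nmp nm p ∉ A.cells → ∃ e, V (cX p.1, en p.2) e ∧ V (cI p, 1) e := by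
    rintro ⟨μ, b⟩ hp
    refine ⟨_, ?_, Or.inl ⟨fun e => hp (Y.I_mem.1 e), rfl⟩⟩
    by_cases e : (nm μ, !b) ∈ A.cells
    · obtain ⟨j, hj⟩ := Y.along (p := (μ, !b)) e
      refine Or.inr ⟨3 * j + 1, ?_⟩
      rw [sq1, rho1, W1, ← Y.ell, hj]
      cases b
      · exact Or.inl ⟨rfl, by simp [gam, cI]⟩
      · exact Or.inr ⟨rfl, if_pos ⟨rfl, e⟩⟩
    · refine Or.inl ⟨nX μ b hp e, ?_⟩
      cases b <;> simp_all [gam, cI, cX]
  have p2 : ∀ p, nmp nm p ∉ A.cells → ∃ e, V (cX p.1, ex p.2) e ∧ V (cO p, 3) e := by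
    rintro ⟨μ, b⟩ hp
    refine ⟨_, ?_, Or.inl ⟨fun e => hp (Y.O_mem.1 e), rfl⟩⟩
    by_cases e : (nm μ, !b) ∈ A.cells
    · obtain ⟨j, hj⟩ := Y.along (p := (μ, !b)) e
      refine Or.inr ⟨3 * j + 1, ?_⟩
      rw [sq1, rho1, W1, ← Y.ell, hj]
      cases b
      · exact Or.inr ⟨rfl, if_pos ⟨rfl, e⟩⟩
      · exact Or.inl ⟨rfl, by simp [gam, cO]⟩
    · refine Or.inl ⟨nX μ b hp e, ?_⟩
      cases b <;> simp_all [gam, cO, cX]
  have p3 : ∀ p, nmp nm p ∉ A.cells → V (cO p, 1) 1 ∧ V (cI (nx p), 3) 1 := fun p hp =>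
    ⟨Or.inl ⟨fun e => hp (Y.O_mem.1 e), by simp [gam, cO]⟩, Or.inl ⟨fun e => hp (by
      obtain ⟨j, hj⟩ := Y.along (Y.I_mem.1 e)
      rw [← sub_add_cancel j 1, ← Y.next, nx.injective.eq_iff] at hj
      exact hj ▸ Y.cmem _), by simp [gam, cI]⟩⟩
  show ∃ e, ∀ s' ∈ ({t, glu nx t} : Set _), V s' e
  simp only [mem_insert_iff, mem_singleton_iff, forall_eq_or_imp, forall_eq]
  rcases glu_cases (nx := nx) t with e | ⟨p, hp⟩
  · exact (h0 e).elim
  have : nmp nm p ∉ A.cells := fun e => by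
    obtain ⟨j, rfl⟩ := Y.along e
    rcases hp with rfl | rfl | rfl | rfl | rfl | rfl
    · exact (h (3 * j + 1)).2 (by rw [sq1, rho1])
    · exact (h (3 * j)).1 (by rw [sq0, rho0]; rfl)
    · exact (h (3 * j + 1)).1 (by rw [sq1, rho1])
    · exact (h (3 * j + 2)).2 (by rw [sq2, rho2]; rfl)
    · exact (h (3 * j + 2)).1 (by rw [sq2, rho2]; rfl)
    · exact (h (3 * (j + 1))).2 (by rw [sq0, rho0, Y.next]; rfl)
  rcases hp with rfl | rfl | rfl | rfl | rfl | rfl
  · rw [glu_en]; exact p1 p this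
  · exact (p1 p this).imp fun _ => And.symm
  · rw [glu_ex]; exact p2 p this
  · exact (p2 p this).imp fun _ => And.symm
  · exact ⟨1, p3 p this⟩
  · rw [glu_I3, show nx⁻¹ (nx p) = p by simp]; exact ⟨1, (p3 p this).symm⟩

noncomputable def dat (s : Bool) : Y.ann.Dat (labl nm) s (A.tau s) where
  W := Y.W' s
  u := pth s A.cells
  γ := gam nm A s
  hl := labl_free nm
  hW := Y.hW' s
  hu k := by
    show Y.W' s (k + (3 * Y.n : ℕ)) = _
    have := (Y.inj (k / 3) (k / 3 + Y.n)).2 (by simp)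
    rw [W', W', show (k + (3 * Y.n : ℕ)) / 3 = k / 3 + Y.n by omega,
      show (k + (3 * Y.n : ℕ)) % 3 = k % 3 by omega, Y.hu, ← this, mul_assoc]
  h1 := Y.h1 s
  h2 k := by
    show A.tau s (labl nm (Y.sq k) (!s)) = if s then _ * labl nm (Y.sq k) false * _ else labl nm (Y.sq k) true
    have h1 := Y.h1 s k
    have h2 := Y.hW' s k
    by_cases h : Y.sq k ∈ punc S
    · obtain ⟨j, rfl | rfl | rfl⟩ := three k <;> simp [sq0, sq1, sq2, punc, cI, cX, cO] at h
      have m := Y.cmem j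
      have e := Y.ell s j
      rw [h2, W2, ← e, sq2]
      simp only [nmp, cO, h] at m e ⊢
      cases s
      · exact Rec.tau_ld' false (A.not_both m)
      · simp only [labl, out, Bool.not_true, Bool.false_eq_true, if_false, if_true, map_mul,
          Rec.tau_ld' true (A.not_both m), Rec.tau_lz m, e]
        group
    · have := labl_punc nm _ h
      cases s
      · simpa [this] using h1
      · rw [h2, ← this]
        simp only [Bool.not_true, ← this, h1, if_true]; group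
  h3 := by
    rintro ⟨μ, _ | ⟨_ | _, _ | _⟩⟩ hi τ
    · simp [labl, gam]
    · simp [labl, gam, inl]
    · have m : (nm μ, false) ∉ A.cells := fun e => hi ((Y.O_mem (p := (μ, false))).2 e)
      have z := Rec.tau_lz' (A := A) (s := s) fun e => m e.2
      by_cases e : (nm μ, true) ∈ A.cells
      · cases τ <;> simp [labl, gam, out, e, z, Rec.tau_ld s e, mul_assoc]
      · cases τ <;> simp [labl, gam, out, e, z, Rec.tau_ld' s e]
    · by_cases e : (nm μ, false) ∈ A.cells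
      · simp [labl, gam, inl, e, Rec.tau_lb s e]
      · simp [labl, gam, inl, e, Rec.tau_lb' s e]
    · simp [labl, gam, out, Rec.tau_lt]
  h4 := Y.h4 s

/-- Marked boundary points. -/
def mks (nm : S → M) (nx : Equiv.Perm (S × Bool)) (β : Sq (glu nx)) (e : FL M) : Prop :=
  ∃ ν, (β = pt _ (cI (ν, false)) (0, 0) ∧ e = lb (nm ν)) ∨ (β = pt _ (cI (ν, false)) (0, 1) ∧ e = 1)

theorem tw_mem [Finite S] (s : Bool) : (Y.ann.tw glu_inv s, A.tau s) ∈
    LG (bd (glu nx)) (ctr (glu nx) (punc S)) (cc (glu nx) (labl nm)) (mks nm nx) := by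
  obtain ⟨κ, k1, k2, k3⟩ := (Y.dat s).lift glu_inv (punc S)
  refine ⟨Y.ann.tw_rel glu_inv s _, κ, k1, ?_⟩
  rintro β - e ⟨ν, h⟩
  by_cases m : (nm ν, false) ∈ A.cells
  · obtain ⟨j, hj⟩ := Y.along (p := (ν, false)) m
    have k4 : ∀ y, κ (pt _ (cI (ν, false)) (0, y)) = (Y.dat s).kap ((3 * j : ℤ) + (0 : I), y) :=
      fun y => by
        rw [← k3]
        show _ = κ (pt _ (Y.sq _) (rt (Y.rho _) _))
        rw [sq0, rho0, hj]; rfl
    rcases h with ⟨rfl, rfl⟩ | ⟨rfl, rfl⟩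
    · rw [k4, (Y.dat s).kap_int _ _ (e := 1) (by simpa using prof_one (lev_pos s).le),
        if_neg half_pos.not_gt]
      have := Y.ell s j
      rw [hj] at this
      simp only [dat, W0, Rec.tau_lb s m, zpow_one]
      simpa [nmp, inl] using this
    · rw [k4, (Y.dat s).kap_int _ _ (e := 0) (by simpa using prof_zero (lev_lt s).le)]; simp
  · have k4 := k2 (cI (ν, false)) fun e => m (Y.I_mem.1 e)
    rcases h with ⟨rfl, rfl⟩ | ⟨rfl, rfl⟩ <;> rw [k4] <;> simp [dat, gam, cI, Rec.tau_lb' s m]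

theorem cross {B : Rec M} (Y' : Cyc nm nx B) (hnm : Function.Injective nm)
    (hd : ∀ p ∈ A.cells, p ∉ B.cells) {μ : S} (h : A.One B (nm μ)) :
    ∃ k l, Cross Y.ann Y'.ann k l := by
  obtain ⟨j, hj⟩ := Y.along (p := (μ, false)) h.1
  obtain ⟨l, hl⟩ := Y'.along (p := (μ, true)) h.2.1
  refine ⟨3 * j + 1, 3 * l + 1, ?_, ?_, ?_, fun k' l' e => ?_, Nat.mul_pos (by decide) Y.pos,
    Nat.mul_pos (by decide) Y'.pos⟩
  · show Y.sq _ = Y'.sq _
    rw [sq1, sq1, hj, hl]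
  · show Y.rho _ = _
    rw [rho1, hj]
  · show Y'.rho _ = _
    rw [rho1, hl]
  · change Y.sq k' = Y'.sq l' at e
    show Y.sq k' = Y.sq _
    have e1 := hnm (h.2.2 _ (Y.slot k') (e ▸ Y'.slot l'))
    obtain ⟨a, rfl | rfl | rfl⟩ := three k'
    · rw [sq0] at e
      exact (hd _ (Y.cmem a) (Y'.I_mem.1 ⟨_, e.symm⟩)).elim
    · rw [sq1] at e1 ⊢
      rw [sq1, hj]; exact congrArg cX e1
    · rw [sq2] at e
      exact (hd _ (Y.cmem a) (Y'.O_mem.1 ⟨_, e.symm⟩)).elim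

end Cyc

theorem exists_nx {α : Type} [DecidableEq α] {D : Set (List α)} (fin : D.Finite)
    (h : ∀ l ∈ D, ∀ l' ∈ D, l ≠ l' → ∀ p ∈ l, p ∉ l') :
    ∃ nx : Equiv.Perm α, (∀ l ∈ D, ∀ p ∈ l, nx p = l.formPerm p) ∧
      ∀ p, (∀ l ∈ D, p ∉ l) → nx p = p := by
  induction D, fin using Set.Finite.induction_on with
  | empty => exact ⟨1, by simp, by simp⟩
  | @insert l D hl _ ih =>
    obtain ⟨nx, h1, h2⟩ := ih fun a ha b hb => h a (Or.inr ha) b (Or.inr hb)
    have ne : ∀ l' ∈ D, l ≠ l' := fun l' h' e => hl (e ▸ h')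
    refine ⟨l.formPerm * nx, ?_, fun p hp => ?_⟩
    · rintro l' (rfl | h') p hp
      · rw [Equiv.Perm.mul_apply, h2 p fun a ha => h _ (Or.inl rfl) a (Or.inr ha) (ne a ha) p hp]
      · rw [Equiv.Perm.mul_apply, h1 l' h' p hp, List.formPerm_apply_of_notMem
          (h l' (Or.inr h') l (Or.inl rfl) (ne l' h').symm _ (List.formPerm_apply_mem_of_mem hp))]
    · rw [Equiv.Perm.mul_apply, h2 p fun a ha => hp a (Or.inr ha),
        List.formPerm_apply_of_notMem (hp l (Or.inl rfl))]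

theorem connected_glu (μ₀ : S) (h : ∀ G : S → Prop, (∀ p, G p.1 ↔ G (nx p).1) → G μ₀ → ∀ μ, G μ) :
    ConnectedSpace (Sq (glu nx)) := by
  let x := pt (glu nx) (cX μ₀) (0, 0)
  let G : Cell S → Prop := fun i => ∀ q, pt (glu nx) i q ∈ connectedComponent x
  have one : ∀ i q, pt (glu nx) i q ∈ connectedComponent x → G i := fun i q e q' => by
    rw [connectedComponent_eq e]
    exact (isPreconnected_range (continuous_pt i)).subset_connectedComponent ⟨q, rfl⟩ ⟨q', rfl⟩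
  have gl : ∀ {i j k l}, glu nx (i, k) = (j, l) → (i, k) ≠ (j, l) → (G i ↔ G j) :=
    fun e e' => ⟨fun a => one _ _ (pt_glue e e' 0 ▸ a _), fun a => one _ _ ((pt_glue e e' 0).symm ▸ a _)⟩
  have gI : ∀ p, G (cI p) ↔ G (cX p.1) := fun p => gl (glu_I1 p) (by simp [cI, cX])
  have gO : ∀ p, G (cO p) ↔ G (cX p.1) := fun p => gl (glu_O3 p) (by simp [cO, cX])
  have all := h (fun μ => G (cX μ)) (fun p => (gO p).symm.trans
    ((gl (glu_O1 p) (by simp)).trans (gI _))) (one _ _ mem_connectedComponent)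
  refine connectedSpace_iff_connectedComponent.2 ⟨x, eq_univ_of_forall fun y => ?_⟩
  obtain ⟨⟨μ, _ | ⟨ρ, _ | _⟩⟩, q, rfl⟩ := pt_surj y
  exacts [all μ q, (gI (μ, ρ)).2 (all μ) q, (gO (μ, ρ)).2 (all μ) q]

/-- Restriction of homeomorphisms to the complement of a fixed set. -/
def punct {X : Type} [TopologicalSpace X] (B P : Set X) :
    homeoRel X (B ∪ P) →* homeoRel {x // x ∉ P} {x | x.1 ∈ B} where
  toFun h := ⟨h.1.subtype fun _ => not_mem_of_rel h.2, fun x hx => Subtype.ext (h.2 x (Or.inl hx))⟩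
  map_one' := rfl
  map_mul' _ _ := rfl

def punctQ {X : Type} [TopologicalSpace X] (B P : Set X) :
    homeoRel X (B ∪ P) ⧸ isotopicToId (homeoRel X (B ∪ P)) →* MCG {x // x ∉ P} {x | x.1 ∈ B} :=
  QuotientGroup.map _ _ (punct B P) (by
    rintro f ⟨H, a1, a2, a3⟩
    refine ⟨fun t => punct B P (H t), ⟨?_, ?_⟩, by simp only [a2, map_one], by simp only [a3]⟩
    · exact (a1.cont continuous_fst (continuous_subtype_val.comp continuous_snd)).subtype_mk _
    · exact (a1.inv.cont continuous_fst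
        (continuous_subtype_val.comp continuous_snd)).subtype_mk _)

theorem realize {C : Set (Rec M)} (fin : C.Finite)
    (cons : ∀ A ∈ C, ∀ B ∈ C, A ≠ B → ∀ p ∈ A.cells, p ∉ B.cells) {N : Rec M} (hN : N ∈ C)
    (conn : ∀ A ∈ C, ¬ A.Dis N) :
    ∃ (ι : Type) (_ : Finite ι) (g : ι × Fin 4 → ι × Fin 4) (Z : Set ι), Function.Involutive g ∧
      ConnectedSpace (Sq g) ∧ (bd g).Nonempty ∧
      ∃ T : Rec M × Bool → MCG {x : Sq g // x ∉ ctr g Z} {x | x.1 ∈ bd g}, Sat C T ∧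
        ∀ w ∈ Fre {x : Rec M × Bool | x.1 ∈ C}, FreeGroup.lift T w = 1 →
          ∀ ν, tauF w (lb ν) = lb ν := by
  classical
  let S₀ : Set M := ⋃ A ∈ C, A.slots
  have f0 : S₀.Finite := fin.biUnion fun A _ =>
    ((List.finite_toSet A.cells).image Prod.fst).subset fun μ ⟨b, h⟩ => ⟨_, h, rfl⟩
  have := f0.to_subtype
  let nm : S₀ → M := Subtype.val
  have hnm : Function.Injective nm := Subtype.val_injective
  have inj : Function.Injective (List.map (nmp nm)) := List.map_injective_iff.2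
    fun p q e => Prod.ext (hnm (Prod.ext_iff.1 e).1) (Prod.ext_iff.1 e).2
  obtain ⟨nx, hx, -⟩ := exists_nx (D := List.map (nmp nm) ⁻¹' (Rec.cells '' C))
    ((fin.image _).preimage inj.injOn) (by
      rintro l ⟨A, hA, e⟩ l' ⟨B, hB, e'⟩ ne p hp hp'
      exact cons A hA B hB (fun q => ne (inj (by rw [← e, ← e', q]))) (nmp nm p)
        (e ▸ List.mem_map_of_mem hp) (e' ▸ List.mem_map_of_mem hp'))
  have cyc : ∀ A ∈ C, Nonempty (Cyc nm nx A) := fun A hA => by
    have e : (A.cells.attach.map fun p => ((⟨p.1.1, mem_biUnion hA ⟨p.1.2, p.2⟩⟩ : S₀), p.1.2)).map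
        (nmp nm) = A.cells := by
      rw [List.map_map]; exact List.attach_map_subtype_val _
    refine exists_cyc hnm e (fun q => conn A hA ?_) (hx _ ⟨A, hA, e.symm⟩)
    rintro μ ⟨b, h⟩
    simp [q] at h
  let Y : ∀ A ∈ C, Cyc nm nx A := fun A hA => (cyc A hA).some
  let g := glu nx
  let K := homeoRel (Sq g) (bd g ∪ ctr g (punc S₀))
  let tw : Rec M × Bool → K := fun x =>
    if h : x.1 ∈ C then ⟨_, (Y _ h).ann.tw_rel glu_inv x.2 _⟩ else 1
  let ρ : K →* _ := (punctQ (bd g) (ctr g (punc S₀))).comp (QuotientGroup.mk' _)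
  refine ⟨Cell S₀, inferInstance, g, punc S₀, glu_inv, connected_glu ((Y N hN).c 0).1 ?_,
    ⟨_, cI ((Y N hN).c 0), 0, 0, rfl, rfl⟩, fun x => ρ (tw x), fun A hA B hB => ⟨?_, ?_⟩, ?_⟩
  · intro G h1 h2
    have key : ∀ A hA μ, nm μ ∈ A.slots → (G μ ↔ G ((Y A hA).c 0).1) := by
      rintro A hA μ ⟨b, e⟩
      obtain ⟨j, e⟩ := (Y A hA).along (p := (μ, b)) e
      rw [show μ = ((Y A hA).c j).1 by rw [e]]
      clear e
      induction j using Int.induction_on with
      | zero => rfl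
      | succ j ih => rw [← (Y A hA).next, ← h1, ih]
      | pred j ih => rw [h1, (Y A hA).next, sub_add_cancel, ih]
    rintro ⟨μ, hμ⟩
    obtain ⟨A, hA, e⟩ := mem_iUnion₂.1 hμ
    have := conn A hA
    simp only [Rec.Dis, not_forall, not_not] at this
    obtain ⟨ν, a, b⟩ := this
    exact (key A hA _ e).2 ((key A hA ⟨ν, mem_biUnion hA a⟩ a).1 ((key N hN _ b).2 h2))
  · intro h s s'
    refine Commute.map (Subtype.ext ?_) ρ
    simp only [tw, dif_pos hA, dif_pos hB]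
    exact ((Y A hA).ann.tw_commute glu_inv s (Y B hB).ann
      (fun k l e => h _ ((Y A hA).slot k) (by
        rw [show (Y A hA).sq k = (Y B hB).sq l from e]; exact (Y B hB).slot l)) s').eq
  · intro μ h
    obtain ⟨k, l, X⟩ := (Y A hA).cross (Y B hB) hnm (cons A hA B hB (by
      rintro rfl; exact A.not_both h.1 h.2.1)) (μ := ⟨μ, mem_biUnion hA ⟨_, h.1⟩⟩) h
    have := congrArg (punctQ (bd g) (ctr g (punc S₀))) (X.braid glu_inv (punc S₀))
    rw [cls_mem ((Y A hA).ann.tw_rel glu_inv _ _), cls_mem ((Y B hB).ann.tw_rel glu_inv _ _)] at this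
    simpa [tw, hA, hB, ρ] using this
  · intro w hw h1 ν
    by_cases hν : ν ∈ S₀
    swap
    · refine Fre.map_mem tauF (K := MulAction.stabilizer _ (lb ν)) (fun x hx => ?_) hw
      simpa [tauF] using Rec.tau_lb' x.2 fun e => hν (mem_biUnion hx ⟨_, e⟩)
    have e : FreeGroup.lift (fun x => ρ (tw x)) = ρ.comp (FreeGroup.lift tw) := by ext; simp
    have m := Fre.map_mem ((K.subtype.comp (FreeGroup.lift tw)).prod tauF)
      (K := LG (bd g) (ctr g (punc S₀)) (cc g (labl nm)) (Cyc.mks nm nx)) (fun x hx => by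
        have hx' : x.1 ∈ C := hx
        simpa [tw, tauF, hx'] using (Y _ hx').tw_mem x.2) hw
    rw [e] at h1
    obtain ⟨H, b1, b2, b3⟩ := (QuotientGroup.eq_one_iff (punct _ _ (FreeGroup.lift tw w))).1 h1
    let α : I → {x : Sq g // x ∉ ctr g (punc S₀)} := fun s => ⟨pt g (cI (⟨ν, hν⟩, false)) (0, s),
      fun h => by simpa [punc, cI] using ((pt_mem_ctr glu_inv).1 h).1⟩
    have c : Continuous α := ((continuous_pt _).comp (by fun_prop)).subtype_mk _
    have a0 : (α 0).1 ∈ bd g := ⟨_, 0, 0, rfl, rfl⟩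
    have a1 : (α 1).1 ∈ bd g := ⟨cI (⟨ν, hν⟩, false), 2, 1, rfl, by simp [α, side]⟩
    refine LG.ti (coc_cc glu_inv (labl_punc nm)) m (z := fun q => ((H q.2).1 (α q.1)).1)
      (continuous_subtype_val.comp (b1.cont continuous_snd (c.comp continuous_fst)))
      (fun q => ((H q.2).1 (α q.1)).2) (fun s => ?_) (fun s => ?_) (fun t => ?_) (fun t => ?_)
      ?_ ?_ ⟨⟨ν, hν⟩, Or.inl ⟨?_, rfl⟩⟩ ⟨⟨ν, hν⟩, Or.inr ⟨?_, rfl⟩⟩
    · have : Continuous fun s' : I => ((0 : I), s') := by fun_prop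
      filter_upwards [this.continuousAt.eventually
        (cc_pt glu_inv (labl_free nm) (cI (⟨ν, hν⟩, false)) (0, s))] with s' h
      simp only [b2]
      exact h.trans (csq_one Iff.rfl)
    · simp only [b2, b3]; rfl
    · simp only [(H _).2 _ a0]
    · simp only [(H _).2 _ a1]
    · simp only [b2]; exact a0
    · simp only [b2]; exact a1
    · simp only [b2]; rfl
    · simp only [b2]; rfl

end Pool.Agent.MP_6eaae3_al

end MrgPart2

-- marker of a merged file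
example : 731051 + 234700 = 731051 + 234700 := rfl
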