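import Mathlib
import Pool.Agent.MP_6eaae3_al.Cl.Hur
import Pool.Agent.MP_6eaae3_al.Real

-- ======== part 0: formerly Pool.Agent.MP_6eaae3_al.Fox
section MrgPart0

/-! Reduced words, Fox derivatives and point pushing automorphisms. -/

namespace Pool.Agent.MP_6eaae3_al

section

open FreeGroup (of mk toWord)
open Set

variable {L : Type}

section words

variable [DecidableEq L]

omit [DecidableEq L] in
theorem mk_mem_Fre {S : Set L} {l : List (L × Bool)} (h : ∀ a ∈ l, a.1 ∈ S) : mk l ∈ Fre S := by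
  induction l with
  | nil => exact one_mem _
  | cons a l ih =>
    rw [← List.singleton_append, ← FreeGroup.mul_mk]
    refine mul_mem ?_ (ih fun b hb => h b (List.mem_cons_of_mem _ hb))
    have := of_mem_Fre (h a List.mem_cons_self)
    obtain ⟨x, _ | _⟩ := a
    exacts [inv_mem this, this]

theorem mem_Fre_word {S : Set L} {w : FreeGroup L} : w ∈ Fre S ↔ ∀ a ∈ w.toWord, a.1 ∈ S := by
  refine ⟨fun h => ?_, fun h => FreeGroup.mk_toWord (x := w) ▸ mk_mem_Fre h⟩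
  induction h using Subgroup.closure_induction with
  | mem x hx => obtain ⟨x, hx, rfl⟩ := hx; simpa using hx
  | one => simp
  | mul x y _ _ a b =>
    exact fun c hc => (List.mem_append.1 ((FreeGroup.toWord_mul_sublist x y).subset hc)).elim (a c) (b c)
  | inv x _ a =>
    intro c hc
    simp only [FreeGroup.toWord_inv, FreeGroup.invRev, List.mem_reverse, List.mem_map] at hc
    obtain ⟨d, hd, rfl⟩ := hc
    exact a d hd

theorem toWord_mul_of {u v : FreeGroup L}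
    (h : ∀ a ∈ u.toWord.getLast?, ∀ b ∈ v.toWord.head?, a.1 = b.1 → a.2 = b.2) :
    (u * v).toWord = u.toWord ++ v.toWord := by
  rw [FreeGroup.toWord_mul]
  exact FreeGroup.IsReduced.reduce_eq
    (List.IsChain.append FreeGroup.isReduced_toWord FreeGroup.isReduced_toWord h)

theorem toWord_single (a : L × Bool) : (mk [a]).toWord = [a] := rfl

end words

/-- Words that end with a power of `f` and are visibly reduced in `f`. -/
inductive Red (f : L) : Bool → FreeGroup L → Prop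
  | base (e : Bool) {o : FreeGroup L} : o ∈ Fre {f}ᶜ → Red f e (o * mk [(f, e)])
  | step (e : Bool) {γ x : FreeGroup L} : Red f (!e) γ → x ∈ Fre {f}ᶜ → x ≠ 1 →
      Red f e (γ * x * mk [(f, e)])

theorem word_right [DecidableEq L] {f : L} {e : Bool} {γ x : FreeGroup L}
    (h : γ.toWord.getLast? = some (f, e)) (hx : x ∈ Fre {f}ᶜ) :
    (γ * x).toWord = γ.toWord ++ x.toWord :=
  toWord_mul_of fun a ha b hb e' => by
    rw [h] at ha
    cases ha
    exact (mem_Fre_word.1 hx b (List.mem_of_mem_head? hb) e'.symm).elim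

theorem Red.last [DecidableEq L] {f : L} {e : Bool} {γ : FreeGroup L} (h : Red f e γ) :
    γ.toWord.getLast? = some (f, e) := by
  induction h with
  | base e ho =>
    rw [toWord_mul_of fun a ha b hb e' => by
      cases hb
      exact (mem_Fre_word.1 ho a (List.mem_of_mem_getLast? ha) e').elim, toWord_single]
    simp
  | @step e γ x _ hx h1 ih =>
    rw [toWord_mul_of fun a ha b hb e' => by
      cases hb
      rw [word_right ih hx, List.getLast?_append_of_ne_nil _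
        (fun q => h1 (FreeGroup.toWord_eq_nil_iff.1 q))] at ha
      exact (mem_Fre_word.1 hx a (List.mem_of_mem_getLast? ha) e').elim, toWord_single]
    simp

theorem Red.right {f : L} {e : Bool} {γ x : FreeGroup L} (h : Red f e γ) (hx : x ∈ Fre {f}ᶜ)
    {S : Set L} (hS : γ * x ∈ Fre S) : x ∈ Fre S ∧ f ∈ S := by
  classical
  rw [mem_Fre_word, word_right h.last hx] at hS
  exact ⟨mem_Fre_word.2 fun a ha => hS a (List.mem_append_right _ ha),
    hS _ (List.mem_append_left _ (List.mem_of_mem_getLast? h.last))⟩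

theorem Red.not_mem {f : L} {e : Bool} {γ x : FreeGroup L} (h : Red f e γ) (hx : x ∈ Fre {f}ᶜ) :
    γ * x ∉ Fre {f}ᶜ := fun q => (h.right hx q).2 rfl

theorem mk_single (f : L) (e : Bool) : mk [(f, e)] = if e then of f else (of f)⁻¹ := by
  cases e <;> rfl

theorem Red.map {f : L} {e : Bool} {γ : FreeGroup L} (h : Red f e γ) {ψ : MulAut (FreeGroup L)}
    (h1 : ψ ∈ Stab (Fre {f}ᶜ)) (h2 : ψ (of f) = of f) : Red f e (ψ γ) := by
  have : ∀ e, ψ (mk [(f, e)]) = mk [(f, e)] := fun e => by cases e <;> simp [mk_single, h2]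
  induction h with
  | base e ho => rw [map_mul, this]; exact .base e ((h1 _).2 ho)
  | step e _ hx h1' ih =>
    rw [map_mul, map_mul, this]
    exact .step e ih ((h1 _).2 hx) (by simpa using h1')

theorem sep {s : L} {e : Bool} {x y : FreeGroup L} (hx : x ∈ Fre {s}ᶜ) (hy : y ∈ Fre {s}ᶜ)
    {S : Set L} (h : x * mk [(s, e)] * y ∈ Fre S) : x ∈ Fre S ∧ y ∈ Fre S := by
  obtain ⟨h1, h2⟩ := (Red.base e hx).right hy h
  have : mk [(s, e)] ∈ Fre S := by
    rw [mk_single]; split_ifs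
    exacts [of_mem_Fre h2, inv_mem (of_mem_Fre h2)]
  exact ⟨(Subgroup.mul_mem_cancel_right _ this).1 ((Subgroup.mul_mem_cancel_right _ h1).1 h), h1⟩

/-- Twisted derivations with values in the functions on the group. -/
def IsDer (κ : FreeGroup L →* FreeGroup L) (δ : FreeGroup L → FreeGroup L → ℤ) : Prop :=
  ∀ x y g, δ (x * y) g = δ x g + δ y ((κ x)⁻¹ * g)

variable {κ κ' : FreeGroup L →* FreeGroup L} {δ δ' : FreeGroup L → FreeGroup L → ℤ}

theorem IsDer.one (h : IsDer κ δ) (g) : δ 1 g = 0 := by simpa using h 1 1 g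

theorem IsDer.inv (h : IsDer κ δ) (x g) : δ x⁻¹ g = -δ x (κ x * g) := by
  have := h x⁻¹ x g
  rw [inv_mul_cancel, h.one, map_inv, inv_inv] at this
  omega

theorem IsDer.ext (h : IsDer κ δ) (h' : IsDer κ' δ') {S : Set L} {K : Subgroup (FreeGroup L)}
    {Ω : Set (FreeGroup L)} (hΩ : ∀ k ∈ K, ∀ g ∈ Ω, k * g ∈ Ω)
    (hS : ∀ s ∈ S, κ (of s) = κ' (of s) ∧ κ (of s) ∈ K ∧ ∀ g ∈ Ω, δ (of s) g = δ' (of s) g)
    {y : FreeGroup L} (hy : y ∈ Fre S) : ∀ g ∈ Ω, δ y g = δ' y g := by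
  have e := fun y => Fre.eq κ κ' (fun s hs => (hS s hs).1) (w := y)
  have m := fun y => Fre.map_mem κ (fun s hs => (hS s hs).2.1) (w := y)
  induction hy using Subgroup.closure_induction with
  | mem x hx => obtain ⟨x, hx, rfl⟩ := hx; exact (hS x hx).2.2
  | one => exact fun g _ => by rw [h.one, h'.one]
  | mul x y hx _ a b =>
    exact fun g hg => by rw [h, h', a g hg, ← e x hx, b _ (hΩ _ (inv_mem (m x hx)) g hg)]
  | inv x hx a => exact fun g hg => by rw [h.inv, h'.inv, ← e x hx, a _ (hΩ _ (m x hx) g hg)]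

theorem IsDer.eq (h : IsDer κ δ) (h' : IsDer κ δ') (hS : ∀ s g, δ (of s) g = δ' (of s) g) (y g) :
    δ y g = δ' y g :=
  h.ext h' (K := ⊤) (Ω := univ) (fun _ _ _ _ => trivial)
    (fun s _ => ⟨rfl, trivial, fun g _ => hS s g⟩) (mem_Fre_univ y) g trivial

theorem IsDer.supp (h : IsDer κ δ) {S : Set L} {K : Subgroup (FreeGroup L)}
    (hS : ∀ s ∈ S, κ (of s) ∈ K ∧ ∀ g ∉ K, δ (of s) g = 0) {y : FreeGroup L} (hy : y ∈ Fre S) :
    ∀ g ∉ K, δ y g = 0 :=
  h.ext (κ' := κ) (δ' := fun _ _ => 0) (fun _ _ _ => rfl) (Ω := Kᶜ)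
    (fun _ hk _ hg e => hg ((K.mul_mem_cancel_left hk).1 e)) (fun s hs => ⟨rfl, hS s hs⟩) hy

theorem IsDer.zero (h : IsDer κ δ) {S : Set L} (hS : ∀ s ∈ S, ∀ g, δ (of s) g = 0)
    {y : FreeGroup L} (hy : y ∈ Fre S) (g) : δ y g = 0 :=
  h.ext (κ' := κ) (δ' := fun _ _ => 0) (fun _ _ _ => rfl) (K := ⊤) (Ω := univ)
    (fun _ _ _ _ => trivial) (fun s hs => ⟨rfl, trivial, fun g _ => hS s hs g⟩) hy g trivial

theorem exists_der (κ : FreeGroup L →* FreeGroup L) (e : L → FreeGroup L → ℤ) :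
    ∃ δ, IsDer κ δ ∧ ∀ s g, δ (of s) g = e s g := by
  let φ : FreeGroup L →* Equiv.Perm (FreeGroup L → ℤ) := FreeGroup.lift fun s =>
    { toFun := fun v g => e s g + v ((κ (of s))⁻¹ * g)
      invFun := fun v g => v (κ (of s) * g) - e s (κ (of s) * g)
      left_inv := fun v => by ext g; simp
      right_inv := fun v => by ext g; simp }
  have key : ∀ y v g, φ y v g = φ y 0 g + v ((κ y)⁻¹ * g) := fun y => by
    induction y using FreeGroup.induction_on with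
    | C1 => simp
    | of x => simp [φ]
    | inv_of x _ => intro v g; simp [φ, Equiv.Perm.inv_def]; ring
    | mul x y a b =>
      intro v g
      simp only [map_mul, Equiv.Perm.mul_apply]
      rw [a, b, a (φ y 0), mul_inv_rev, mul_assoc, add_assoc]
  exact ⟨fun y => φ y 0, fun x y g => by
    simp only [map_mul, Equiv.Perm.mul_apply]; rw [key], fun s g => by simp [φ]⟩

theorem fox_zero {s : L} (h : IsDer (MonoidHom.id _) δ) (h1 : δ (of s) 1 = 1)
    (h2 : ∀ s' g, δ (of s') g ≠ 0 → s' = s ∧ g = 1) {w : FreeGroup L} (hw : ∀ g, δ w g = 0) :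
    w ∈ Fre {s}ᶜ := by
  classical
  have h3 : ∀ a g, δ (mk [a]) g ≠ 0 → (a = (s, true) ∧ g = 1) ∨ (a = (s, false) ∧ g = mk [a]) := by
    rintro ⟨x, _ | _⟩ g q
    · rw [mk_single, if_neg (by simp), h.inv, neg_ne_zero] at q
      obtain ⟨rfl, e⟩ := h2 _ _ q
      exact Or.inr ⟨rfl, eq_inv_of_mul_eq_one_right e⟩
    · exact Or.inl (by simpa using h2 x g q)
  have key : ∀ l, FreeGroup.IsReduced l → (∀ g, δ (mk l) g ≠ 0 →
      (g = 1 ∧ l.head? = some (s, true)) ∨ ∃ a, l.head? = some a ∧ g.toWord.head? = some a) ∧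
      ((∀ g, δ (mk l) g = 0) → ∀ a ∈ l, a.1 ≠ s) := by
    intro l hl
    induction l with
    | nil => exact ⟨fun g q => (q (h.one g)).elim, by simp⟩
    | cons a l ih =>
      obtain ⟨i1, i2⟩ := ih (List.IsChain.tail hl)
      have r : ∀ b, l.head? = some b → a.1 = b.1 → a.2 = b.2 := fun b hb =>
        (List.isChain_cons.1 hl).1 b hb
      have e : ∀ g, δ (mk (a :: l)) (mk [a] * g) = δ (mk [a]) (mk [a] * g) + δ (mk l) g := fun g => by
        rw [← List.singleton_append, ← FreeGroup.mul_mk, h, MonoidHom.id_apply, inv_mul_cancel_left]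
      refine ⟨fun g q => ?_, fun q => ?_⟩
      · obtain ⟨g, rfl⟩ : ∃ g', g = mk [a] * g' := ⟨(mk [a])⁻¹ * g, (mul_inv_cancel_left _ _).symm⟩
        by_cases q1 : δ (mk l) g = 0
        · rw [e, q1, add_zero] at q
          rcases h3 _ _ q with ⟨rfl, u⟩ | ⟨-, u⟩
          · exact Or.inl ⟨u, rfl⟩
          · exact Or.inr ⟨a, rfl, by rw [u]; rfl⟩
        refine Or.inr ⟨a, rfl, ?_⟩
        rcases i1 g q1 with ⟨rfl, -⟩ | ⟨b, u, v⟩
        · rw [mul_one]; rfl
        · rw [toWord_mul_of fun a' ha b' hb => by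
            cases ha
            rw [v] at hb
            cases hb
            exact r _ u]
          rfl
      · have ne : a.1 ≠ s := by
          rintro rfl
          obtain ⟨x, _ | _⟩ := a
          · have q1 := e 1
            rw [q, mul_one, mk_single, if_neg (by simp), h.inv] at q1
            simp only [MonoidHom.id_apply, mul_inv_cancel, h1] at q1
            rcases i1 1 (by omega) with ⟨-, u⟩ | ⟨b, -, u⟩
            · simpa using r _ u
            · simp at u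
          · have q1 := e (of x)⁻¹
            rw [q, mk_single, if_pos rfl, mul_inv_cancel, h1] at q1
            rcases i1 (of x)⁻¹ (by omega) with ⟨u, -⟩ | ⟨b, u, v⟩
            · simp at u
            · cases v
              simpa using r _ u
        refine List.forall_mem_cons.2 ⟨ne, i2 fun g => ?_⟩
        have q1 := e g
        rw [q] at q1
        by_cases q2 : δ (mk [a]) (mk [a] * g) = 0
        · omega
        · rcases h3 _ _ q2 with ⟨rfl, -⟩ | ⟨rfl, -⟩ <;> exact (ne rfl).elim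
  exact mem_Fre_word.2 ((key _ FreeGroup.isReduced_toWord).2 (by rwa [FreeGroup.mk_toWord]))

/-- The data of a point pushing automorphism. -/
structure Psh (z f : L) (X : FreeGroup L) (P : MulAut (FreeGroup L))
    (D J : FreeGroup L → FreeGroup L → ℤ) : Prop where
  ne : f ≠ z
  hX : X ∈ Fre {f}ᶜ
  hD : IsDer (proj {z}ᶜ) D
  D1 : ∀ s g, D (of s) g ≠ 0 → s = z ∧ g = 1
  DP : ∀ y g, D (P y) (g * (X * of f)) = D y g + J y g
  kP : ∀ y, proj {z}ᶜ (P y) = proj {z}ᶜ y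
  JP : ∀ y g, J (P y) g = J y g
  Js : ∀ y, proj {z}ᶜ y ∈ Fre {f}ᶜ → ∀ g ∉ Fre {f}ᶜ, J y g = 0

def Gd (z f : L) (ψ : MulAut (FreeGroup L)) : Prop :=
  ψ (of z) = of z ∧ ψ (of f) = of f ∧ ψ ∈ Stab (Fre {z}ᶜ) ∧ ψ ∈ Stab (Fre {f}ᶜ)

def Inv (z f : L) (X : FreeGroup L) (D : FreeGroup L → FreeGroup L → ℤ) (e : Bool)
    (y : FreeGroup L) : Prop :=
  proj {z}ᶜ y ∈ Fre {f}ᶜ ∧ ∃ γ, Red f e γ ∧ D y (γ * if e then X * of f else X⁻¹) ≠ 0

def tt (P : MulAut (FreeGroup L)) (e : Bool) : MulAut (FreeGroup L) := if e then P * P else (P * P)⁻¹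

variable {z f : L} {X : FreeGroup L} {P ψ : MulAut (FreeGroup L)}
  {D J : FreeGroup L → FreeGroup L → ℤ}

theorem Gd.kz (h : Gd z f ψ) (y) : proj {z}ᶜ (ψ y) = ψ (proj {z}ᶜ y) :=
  Fre.eq ((proj {z}ᶜ).comp ψ.toMonoidHom) (ψ.toMonoidHom.comp (proj {z}ᶜ)) (fun x _ => by
    by_cases e : x = z
    · simp [e, h.1, proj_not]
    · simpa [proj_mem (S := {z}ᶜ) e] using mem_Fre.1 ((h.2.2.1 _).2 (of_mem_Fre e))) (mem_Fre_univ y)

namespace Psh

variable (h : Psh z f X P D J)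
include h

theorem Dz {y} (hy : y ∈ Fre {z}ᶜ) (g) : D y g = 0 :=
  h.hD.zero (S := {z}ᶜ) (fun s hs g => by_contra fun q => hs (h.D1 s g q).1) hy g

theorem Dψ (hψ : Gd z f ψ) (y g) : D (ψ y) (ψ g) = D y g :=
  IsDer.eq (δ := fun y g => D (ψ y) (ψ g)) (fun x y g => by
    simp only [map_mul, h.hD _, hψ.kz, map_inv]) h.hD (fun s g => by
      by_cases e : s = z
      · subst e
        simp only [hψ.1]
        by_cases e' : g = 1
        · simp [e']
        · have a : D (of s) g = 0 := by_contra fun q => e' (h.D1 _ _ q).2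
          have b : D (of s) (ψ g) = 0 := by_contra fun q => e' (by simpa using (h.D1 _ _ q).2)
          rw [a, b]
      · simp only [h.Dz (of_mem_Fre e), h.Dz ((hψ.2.2.1 _).2 (of_mem_Fre e))]) y g

theorem Dtt (e : Bool) (y γ) : D (tt P e y) (γ * if e then X * of f else X⁻¹) =
    if e then D y (γ * (X * of f)⁻¹) + J y (γ * (X * of f)⁻¹) + J y γ
    else D y (γ * of f * X * of f) - J y (γ * of f) - J y (γ * X⁻¹) := by
  cases e
  · have a := h.DP (P⁻¹ (P⁻¹ y)) (γ * X⁻¹)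
    have b := h.DP (P⁻¹ y) (γ * of f)
    have c := h.JP (P⁻¹ (P⁻¹ y)) (γ * X⁻¹)
    have d := fun g => h.JP (P⁻¹ y) g
    simp only [MulAut.apply_inv_self, mul_assoc, inv_mul_cancel_left] at a b c d
    simp only [tt, Bool.false_eq_true, if_false, mul_inv_rev, MulAut.mul_apply, mul_assoc]
    rw [b, a, d, d, c]; ring
  · have b := h.DP y (γ * (X * of f)⁻¹)
    rw [inv_mul_cancel_right] at b
    simp only [tt, if_true, MulAut.mul_apply, h.DP, h.JP, b]

theorem ktt (e : Bool) (y) : proj {z}ᶜ (tt P e y) = proj {z}ᶜ y := by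
  cases e
  · rw [← h.kP, ← h.kP]; simp [tt]
  · simp [tt, h.kP]

theorem inv0 (e : Bool) {y g} (h1 : y ∈ Fre {z}ᶜ) (h2 : y ∈ Fre {f}ᶜ) (hg : J y g ≠ 0) :
    Inv z f X D e (tt P e y) := by
  have k : proj {z}ᶜ y ∈ Fre {f}ᶜ := by rwa [mem_Fre.1 h1]
  have m : g ∈ Fre {f}ᶜ := by_contra fun q => hg (h.Js y k g q)
  refine ⟨by rwa [h.ktt], ?_⟩
  cases e
  · have r := Red.base false m
    refine ⟨_, r, ?_⟩
    rw [h.Dtt, if_neg (by simp), h.Dz h1, h.Js y k _ (r.not_mem (inv_mem h.hX))]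
    simpa [mk_single] using hg
  · have r := Red.base true (mul_mem m h.hX)
    refine ⟨_, r, ?_⟩
    rw [h.Dtt, if_pos rfl, h.Dz h1, h.Js y k (g * X * _) (by simpa using r.not_mem (one_mem _))]
    simpa [mk_single, mul_assoc] using hg

theorem inv1 {e : Bool} {y} (hy : Inv z f X D e y) (hψ : Gd z f ψ) (hX : ψ X ≠ X) :
    Inv z f X D (!e) (tt P (!e) (ψ y)) := by
  obtain ⟨k, γ, r, q⟩ := hy
  have k' : proj {z}ᶜ (ψ y) ∈ Fre {f}ᶜ := by rw [hψ.kz]; exact (hψ.2.2.2 _).2 k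
  have r' := r.map hψ.2.2.2 hψ.2.1
  have X' := (hψ.2.2.2 _).2 h.hX
  rw [← h.Dψ hψ] at q
  refine ⟨by rwa [h.ktt], ?_⟩
  cases e
  · have r2 := Red.step true r' (mul_mem (inv_mem X') h.hX) (by rwa [Ne, inv_mul_eq_one])
    refine ⟨_, r2, ?_⟩
    rw [h.Dtt, Bool.not_false, if_pos rfl, h.Js _ k' _ (by simpa [mk_single, mul_assoc] using r'.not_mem (inv_mem X')),
      h.Js _ k' _ (by simpa using r2.not_mem (one_mem _))]
    simpa [mk_single, mul_assoc] using q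
  · have r2 := Red.step false r' (mul_mem X' (inv_mem h.hX)) (by rwa [Ne, mul_inv_eq_one])
    refine ⟨_, r2, ?_⟩
    rw [h.Dtt, Bool.not_true, if_neg (by simp), h.Js _ k' _ (r2.not_mem (inv_mem h.hX)),
      h.Js _ k' _ (by simpa [mk_single] using r'.not_mem (mul_mem X' (inv_mem h.hX)))]
    simpa [mk_single, mul_assoc, hψ.2.1] using q

theorem inv2 {e : Bool} {y} (hy : Inv z f X D e y) (hψ : Gd z f ψ) {d : L} (hd : f ≠ d)
    (m : ψ y ∈ Fre {d}ᶜ) : ψ X ∈ Fre {d}ᶜ := by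
  obtain ⟨-, γ, r, q⟩ := hy
  have r' := r.map hψ.2.2.2 hψ.2.1
  have X' := (hψ.2.2.2 _).2 h.hX
  rw [← h.Dψ hψ] at q
  have := by_contra fun u => q (h.hD.supp (K := Fre {d}ᶜ) (fun s hs => ⟨Fre.mono inter_subset_right
    (proj_Fre (of_mem_Fre hs)), fun g hg => by_contra fun v => hg ((h.D1 _ _ v).2 ▸ one_mem _)⟩) m _ u)
  cases e
  · simpa using (r'.right (inv_mem X') (by simpa using this)).1
  · simp only [if_true, map_mul, hψ.2.1, ← mul_assoc] at this
    exact (r'.right X' ((Subgroup.mul_mem_cancel_right _ (of_mem_Fre hd)).1 this)).1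

theorem inv3 {e : Bool} {y} (hy : Inv z f X D e y) (hψ : Gd z f ψ) (hX : ψ X = X) :
    Inv z f X D e (ψ y) := by
  obtain ⟨k, γ, r, q⟩ := hy
  refine ⟨by rw [hψ.kz]; exact (hψ.2.2.2 _).2 k, _, r.map hψ.2.2.2 hψ.2.1, ?_⟩
  rw [← h.Dψ hψ] at q
  cases e <;> simpa [hX, hψ.2.1] using q

end Psh

end

/-! The push of a puncture along a new annulus. -/

open FreeGroup (of mk)
open Set

variable {M : Type}

def Xl (l : List M) : FL M := pth true (l.map (·, true))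

theorem pth_X (s : Bool) (l : List M) : pth s (l.map (·, true)) = Xl l := by
  unfold Xl
  induction l with
  | nil => rfl
  | cons a l ih => simp [ih, out]

theorem Xl_split (l l' : List M) (μ : M) : Xl (l ++ μ :: l') = Xl l * (lb μ)⁻¹ * lt μ * Xl l' := by
  simp [Xl, inl, out, mul_assoc]

def BT (l : List M) : Set (M × Fin 4) := {x | x.1 ∈ l ∧ (x.2 = 1 ∨ x.2 = 2)}

theorem Xl_mem {l : List M} {K : Subgroup (FL M)} (h : ∀ μ ∈ l, lb μ ∈ K ∧ lt μ ∈ K) : Xl l ∈ K :=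
  pth_mem fun p hp => by
    obtain ⟨μ, hμ, rfl⟩ := List.mem_map.1 hp
    exact ⟨inv_mem (h μ hμ).1, (h μ hμ).2⟩

theorem Xl_BT {l l' : List M} (h : ∀ μ ∈ l, μ ∈ l') : Xl l ∈ Fre (BT l') :=
  Xl_mem fun μ hμ => ⟨of_mem_Fre ⟨h μ hμ, Or.inl rfl⟩, of_mem_Fre ⟨h μ hμ, Or.inr rfl⟩⟩

/-- The annulus through the crossings in `l`, with one new puncture. -/
def stepRec (l : List M) (ν : M) (h : (ν :: l).Nodup) : Rec M :=
  ⟨l.map (·, true) ++ [(ν, false)], by
    simpa [Function.comp_def] using (List.perm_append_singleton ν l).nodup_iff.2 h⟩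

variable {l : List M} {ν : M} {h : (ν :: l).Nodup}

theorem step_true {μ : M} : (μ, true) ∈ (stepRec l ν h).cells ↔ μ ∈ l := by simp [stepRec]
theorem step_false {μ : M} : (μ, false) ∈ (stepRec l ν h).cells ↔ μ = ν := by simp [stepRec]
theorem step_slots {μ : M} : μ ∈ (stepRec l ν h).slots ↔ μ = ν ∨ μ ∈ l := by
  simp [Rec.slots, step_true, step_false]

theorem step_pre (s : Bool) {l₁ l₂ : List M} {μ : M} (e : l = l₁ ++ μ :: l₂) :
    (stepRec l ν h).pre s (μ, true) = Xl l₁ * (lb μ)⁻¹ := by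
  rw [Rec.pre_eq s (l := l₁.map (·, true)) (l' := l₂.map (·, true) ++ [(ν, false)])
    (by simp [stepRec, e]), pth_X]; rfl

theorem step_pre' (s : Bool) : (stepRec l ν h).pre s (ν, false) = Xl l := by
  rw [Rec.pre_eq s (l := l.map (·, true)) (l' := []) rfl, pth_X]; simp [inl]

theorem step_pth (s : Bool) :
    pth s (stepRec l ν h).cells = Xl l * ld ν * if s then 1 else lz ν := by
  cases s <;> simp [stepRec, pth_X, inl, out, mul_assoc]

theorem BT_PL (s : Bool) : BT l ⊆ (stepRec l ν h).PL s := fun _ hx => Or.inr ⟨step_true.2 hx.1, hx.2⟩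

noncomputable def pushA (A : Rec M) : MulAut (FL M) := A.tau true * (A.tau false)⁻¹

theorem push_z : (stepRec l ν h).tau true (lz ν) = Xl l * ld ν * lz ν * (Xl l * ld ν)⁻¹ := by
  rw [Rec.tau_lz (step_false.2 rfl), Rec.ell, step_pre', step_pth]; simp [mul_assoc]

theorem push_side {x a : FL M} (ha : a ∈ Fre (BT l))
    (hx : ∀ s, (stepRec l ν h).tau s x = a⁻¹ * pth s (stepRec l ν h).cells * a * x) :
    pushA (stepRec l ν h) x = a⁻¹ * (Xl l * ld ν) * (lz ν)⁻¹ * (a⁻¹ * (Xl l * ld ν))⁻¹ * x := by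
  have f : ∀ s, ∀ w ∈ Fre (BT l), (stepRec l ν h).tau s w = w :=
    fun s w hw => Rec.tau_PL (Fre.mono (BT_PL s) hw)
  have e : ((stepRec l ν h).tau false)⁻¹ x = (a⁻¹ * pth false (stepRec l ν h).cells * a)⁻¹ * x := by
    rw [MulAut.inv_apply, MulEquiv.symm_apply_eq, map_mul, hx, map_inv, map_mul, map_mul, map_inv,
      f _ a ha, Rec.tau_PL (pth_mem fun _ => Rec.io_mem)]; group
  rw [pushA, MulAut.mul_apply, e]
  simp only [step_pth, map_mul, map_inv, f _ a ha, hx, push_z, f _ _ (Xl_BT fun _ h => h),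
    Rec.tau_ld' true ((stepRec l ν h).not_both (step_false.2 rfl)), Bool.false_eq_true, if_false,
    if_true]
  group

theorem exists_psh (h : (ν :: l).Nodup) : ∃ D J,
    Psh (ν, 3) (ν, 0) (Xl l) (pushA (stepRec l ν h)) D J ∧ ∀ S : Set (M × Fin 4),
      (∀ x ∈ S, x.1 ≠ ν ∧ ¬ (x.1 ∈ l ∧ x.2 = 1)) → ∀ y ∈ Fre S, ∀ μ ∈ l, y ∉ Fre {(μ, 0)}ᶜ →
        ∃ g, J y g ≠ 0 := by
  classical
  let N := stepRec l ν h
  let sd : M × Fin 4 → Prop := fun x => (x.1 ∈ l ∧ x.2 = 0) ∨ x = (ν, 1)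
  let al : M × Fin 4 → FL M := fun x => if x.2 = 0 then N.pre true (x.1, true) else Xl l
  have nl : ν ∉ l := (List.nodup_cons.1 h).1
  have hal : ∀ x, sd x → al x ∈ Fre (BT l) ∧ pushA N (of x) =
      (al x)⁻¹ * (Xl l * ld ν) * (lz ν)⁻¹ * ((al x)⁻¹ * (Xl l * ld ν))⁻¹ * of x := by
    rintro ⟨μ, k⟩ (⟨h1, rfl : k = 0⟩ | h1)
    · obtain ⟨l₁, l₂, e⟩ := List.append_of_mem h1
      have m : al (μ, 0) ∈ Fre (BT l) := by
        simp only [al, N, if_true, step_pre true e]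
        exact mul_mem (Xl_BT fun _ h => by simp [e, h]) (inv_mem (of_mem_Fre ⟨h1, Or.inl rfl⟩))
      refine ⟨m, push_side m fun s => (Rec.tau_ld s (step_true.2 h1)).trans ?_⟩
      simp only [al, N, if_true, Rec.ell, step_pre _ e]; rfl
    · cases h1
      refine ⟨Xl_BT fun _ h => h, push_side (Xl_BT fun _ h => h) fun s =>
        (Rec.tau_lb s (step_false.2 rfl)).trans ?_⟩
      rw [Rec.ell, step_pre']; rfl
  have hz : pushA N (of (ν, 3)) = Xl l * ld ν * lz ν * (Xl l * ld ν)⁻¹ := by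
    have : (N.tau false)⁻¹ (lz ν) = lz ν := by
      rw [MulAut.inv_apply, MulEquiv.symm_apply_eq, Rec.tau_lz' (by simp)]
    exact (congrArg (N.tau true) this).trans push_z
  have ho : ∀ x, ¬ sd x → x ≠ (ν, 3) → pushA N (of x) = of x := fun x h1 h2 => by
    have : ∀ s, N.tau s (of x) = of x := fun s => Rec.tau_one (by
      obtain ⟨μ, k⟩ := x
      simp only [sd, not_or, Prod.mk.injEq, ne_eq] at h1 h2
      simp only [Rec.lf, N, step_true, step_false]
      rw [if_neg (by tauto), if_neg (by tauto), if_neg (by tauto)])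
    rw [pushA, MulAut.mul_apply, MulAut.inv_apply, (MulEquiv.symm_apply_eq _).2 (this false).symm, this]
  obtain ⟨D, hD, eD⟩ := exists_der (proj {(ν, (3 : Fin 4))}ᶜ) fun x g => if x = (ν, 3) ∧ g = 1 then 1 else 0
  obtain ⟨J, hJ, eJ⟩ := exists_der (proj {(ν, (3 : Fin 4))}ᶜ) fun x g => if sd x ∧ g = (al x)⁻¹ then -1 else 0
  have bz : ∀ {w}, w ∈ Fre (BT l) → w ∈ Fre {(ν, (3 : Fin 4))}ᶜ :=
    fun hw => Fre.mono (by rintro _ hx rfl; exact nl hx.1) hw
  have bf : ∀ {w}, w ∈ Fre (BT l) → w ∈ Fre {(ν, (0 : Fin 4))}ᶜ :=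
    fun hw => Fre.mono (by rintro _ hx rfl; exact nl hx.1) hw
  have bs : ∀ {w}, w ∈ Fre (BT l) → w ∈ Fre {x | ¬ sd x} := fun hw => Fre.mono (by
    rintro _ hx (q | rfl)
    · simpa [q.2] using hx.2
    · exact nl hx.1) hw
  have uz : Xl l * ld ν ∈ Fre {(ν, (3 : Fin 4))}ᶜ :=
    mul_mem (bz (Xl_BT fun _ h => h)) (of_mem_Fre (by simp))
  have us : Xl l * ld ν ∈ Fre {x | ¬ sd x} :=
    mul_mem (bs (Xl_BT fun _ h => h)) (of_mem_Fre (by simp [sd, nl]))
  have zs : lz ν ∈ Fre {x | ¬ sd x} := of_mem_Fre (by simp [sd])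
  have kz : proj {(ν, (3 : Fin 4))}ᶜ (lz ν) = 1 := proj_not (by simp)
  have D0 : ∀ {w}, w ∈ Fre {(ν, (3 : Fin 4))}ᶜ → ∀ g, D w g = 0 :=
    fun hw => hD.zero (fun s hs g => by rw [eD, if_neg fun q => hs q.1]) hw
  have J0 : ∀ {w}, w ∈ Fre {x | ¬ sd x} → ∀ g, J w g = 0 :=
    fun hw => hJ.zero (fun s hs g => by rw [eJ, if_neg fun q => hs q.1]) hw
  have kP : ∀ y, proj {(ν, (3 : Fin 4))}ᶜ (pushA N y) = proj {(ν, (3 : Fin 4))}ᶜ y := fun y =>
    Fre.eq ((proj _).comp (pushA N).toMonoidHom) _ (fun x _ => by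
      show proj _ (pushA N (of x)) = _
      by_cases a : sd x
      · rw [(hal x a).2]; simp [kz, mul_assoc]
      by_cases b : x = (ν, 3)
      · rw [b, hz]; simp [kz, proj_not]
      · rw [ho x a b]) (mem_Fre_univ y)
  refine ⟨D, J, ⟨by simp, bf (Xl_BT fun _ h => h), hD, fun s g q => ?_, fun y g => ?_, kP,
    fun y g => ?_, fun y hy => ?_⟩, fun S hS y hy μ hμ hn => ?_⟩
  · rw [eD] at q
    exact by_contra fun e => q (if_neg e)
  · refine IsDer.eq (κ := proj {(ν, (3 : Fin 4))}ᶜ) (δ := fun y g => D (pushA N y) (g * (Xl l * ld ν)))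
      (δ' := fun y g => D y g + J y g)
      (fun x y g => by simp only [map_mul, hD _, kP, mul_assoc])
      (fun x y g => by simp only [hD _, hJ _]; ring) (fun x g => ?_) y g
    by_cases a : sd x
    · have b : x ≠ (ν, 3) := by
        rintro rfl
        simp [sd] at a
      have m := mul_mem (inv_mem (bz (hal x a).1)) uz
      simp only [(hal x a).2, eJ, a, true_and, D0 (of_mem_Fre b), zero_add]
      rw [hD, D0 (of_mem_Fre b), hD, D0 (inv_mem m), hD, D0 m, hD.inv, mem_Fre.1 m, kz, one_mul, lz, eD]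
      simp only [true_and, inv_mul_eq_one, mul_left_inj, eq_comm (a := g)]
      split_ifs <;> rfl
    by_cases b : x = (ν, 3)
    · subst b
      simp only [hz, eJ, a, false_and, if_false, add_zero]
      rw [hD, D0 (inv_mem uz), hD, D0 uz, mem_Fre.1 uz, lz, eD, eD]
      simp only [true_and, inv_mul_eq_one, right_eq_mul, zero_add, add_zero]
    · simp only [ho x a b, D0 (of_mem_Fre b), eJ, a, false_and, if_false, add_zero]
  · refine IsDer.eq (δ := fun y g => J (pushA N y) g) (fun x y g => by simp only [map_mul, hJ _, kP])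
      hJ (fun x g => ?_) y g
    by_cases a : sd x
    · have m := mul_mem (inv_mem (bs (hal x a).1)) us
      rw [(hal x a).2, hJ, J0 (mul_mem (mul_mem m (inv_mem zs)) (inv_mem m))]
      simp [kz, mul_assoc]
    by_cases b : x = (ν, 3)
    · subst b
      rw [hz, J0 (mul_mem (mul_mem us zs) (inv_mem us))]; exact (J0 zs g).symm
    · rw [ho x a b]
  · intro g hg
    have e : J y g = J (proj {(ν, (3 : Fin 4))}ᶜ y) g := IsDer.eq hJ
      (δ' := fun y g => J (proj {(ν, (3 : Fin 4))}ᶜ y) g) (fun x y g => by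
        simp only [map_mul, hJ _, mem_Fre.1 (Fre.mono inter_subset_left (proj_Fre (mem_Fre_univ x)))])
      (fun x g => by
        by_cases b : x = (ν, 3)
        · rw [proj_not (by simp [b]), hJ.one, b]; exact J0 zs g
        · rw [proj_mem b]) y g
    rw [e]
    refine hJ.supp (fun s hs => ⟨Fre.mono inter_subset_right (proj_Fre (of_mem_Fre hs)),
      fun g hg => ?_⟩) hy g hg
    rw [eJ, if_neg]
    exact fun q => hg (q.2 ▸ inv_mem (bf (hal s q.1).1))
  · obtain ⟨δ, hδ, eδ⟩ := exists_der (MonoidHom.id (FL M)) fun x g => if x = (μ, 0) ∧ g = 1 then 1 else 0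
    obtain ⟨g, hg⟩ : ∃ g, δ y g ≠ 0 := by
      by_contra! q
      exact hn (fox_zero hδ (by simp [eδ]) (fun s g q => by
        rw [eδ] at q; exact by_contra fun e => q (if_neg e)) q)
    have gm : g ∈ Fre S := by_contra fun q => hg (hδ.supp (fun s hs => ⟨of_mem_Fre hs, fun g hg => by
      rw [eδ, if_neg]; exact fun q => hg (q.2 ▸ one_mem _)⟩) hy g q)
    have key : ∀ l₁ l₂ l₃ a b, l = l₁ ++ a :: (l₂ ++ b :: l₃) → (al (a, 0))⁻¹ * al (b, 0) ∉ Fre S := by
      intro l₁ l₂ l₃ a b e q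
      have nd := (List.nodup_cons.1 h).2
      rw [e, ← List.cons_append, ← List.append_assoc] at nd
      have nb : ∀ c ∈ a :: l₂, c ≠ b := fun c hc e' =>
        List.disjoint_of_nodup_append nd (List.mem_append_right _ hc) (e' ▸ List.mem_cons_self)
      have e' : l = (l₁ ++ a :: l₂) ++ b :: l₃ := by simp [e]
      simp only [al, N, if_true, step_pre true e, step_pre true e', Xl_split] at q
      have r := Red.base (f := (b, (1 : Fin 4))) false (o := lt a * Xl l₂)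
        (mul_mem (of_mem_Fre (by simp)) (Xl_mem fun c hc => ⟨of_mem_Fre (by
          simpa using nb c (List.mem_cons_of_mem _ hc)), of_mem_Fre (by simp)⟩))
      exact (hS _ (r.right (one_mem _) (by simpa [mk_single, mul_assoc, lb] using q)).2).2
        ⟨by simp [e], rfl⟩
    have key' : ∀ a ∈ l, a ≠ μ → (al (a, 0))⁻¹ * al (μ, 0) ∉ Fre S := fun a ha ne q => by
      obtain ⟨l₁, l₂, e⟩ := List.append_of_mem ha
      have : μ ∈ l₁ ∨ μ ∈ l₂ := by simpa [e, ne.symm] using hμ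
      rcases this with u | u
      · obtain ⟨r, r', rfl⟩ := List.append_of_mem u
        exact key r r' l₂ μ a (by simp [e]) (by simpa using inv_mem q)
      · obtain ⟨r, r', rfl⟩ := List.append_of_mem u
        exact key l₁ r r' a μ e q
    refine ⟨g * (al (μ, 0))⁻¹, ?_⟩
    rw [IsDer.ext (κ := MonoidHom.id _) (κ' := proj {(ν, (3 : Fin 4))}ᶜ) (δ := fun y g => -δ y g)
      (δ' := fun y g => J y (g * (al (μ, 0))⁻¹)) (fun x y g => by simp only [hδ _]; ring)
      (fun x y g => by simp only [hJ _, mul_assoc]) (K := Fre S) (Ω := Fre S)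
      (fun _ => fun a _ b => mul_mem a b) (fun x hx => ⟨(proj_mem (by
        rintro rfl; exact (hS _ hx).1 rfl)).symm, of_mem_Fre hx, fun g hg => ?_⟩) hy g gm |>.symm]
    · simpa using hg
    simp only [eδ, eJ]
    by_cases b : x = (μ, 0)
    · subst b
      simp only [sd, hμ, true_and, true_or, mul_eq_right]
      split_ifs <;> rfl
    · rw [if_neg fun q => b q.1, if_neg, neg_zero]
      rintro ⟨⟨u, v⟩ | rfl, q⟩
      · obtain ⟨a, k⟩ := x
        obtain rfl : k = 0 := v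
        exact key' a u (by simpa using b) (by rwa [← q, inv_mul_cancel_right])
      · exact (hS _ hx).1 rfl

theorem uq (nd : l.Nodup) {ψ : MulAut (FL M)} {S : Set (M × Fin 4)} (hS : ∀ x ∈ S, x ∉ BT l)
    (h1 : ∀ μ ∈ l, ψ (lt μ) = lt μ ∧ ψ (lb μ) * (lb μ)⁻¹ ∈ Fre S) {d : M}
    (hd : ψ (Xl l) ∈ Fre {(d, 0)}ᶜ) {μ : M} (hμ : μ ∈ l) : ψ (lb μ) ∈ Fre {(d, 0)}ᶜ := by
  obtain ⟨l₁, l₂, e⟩ := List.append_of_mem hμ
  have n1 : μ ∉ l₁ := fun q => List.disjoint_of_nodup_append (e ▸ nd) q List.mem_cons_self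
  have n2 : μ ∉ l₂ := (List.nodup_cons.1 (List.Nodup.of_append_right (e ▸ nd))).1
  have k0 : ∀ k : Fin 4, k = 1 ∨ k = 2 → ∀ a ∈ l, ψ (lb a) * (lb a)⁻¹ ∈ Fre {(μ, k)}ᶜ :=
    fun k hk a ha => Fre.mono (by rintro _ hx rfl; exact hS _ hx ⟨hμ, hk⟩) (h1 a ha).2
  have k1 : ∀ k : Fin 4, k = 1 ∨ k = 2 → ∀ r : List M, (∀ a ∈ r, a ∈ l) → μ ∉ r →
      ψ (Xl r) ∈ Fre {(μ, k)}ᶜ := fun k hk r hr n =>
    Xl_mem (K := (Fre {(μ, k)}ᶜ).comap ψ.toMonoidHom) fun a ha => by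
      have ne : ∀ j, of (a, j) ∈ Fre {(μ, k)}ᶜ := fun j => of_mem_Fre fun q =>
        n ((show a = μ from congrArg Prod.fst q) ▸ ha)
      refine ⟨(Subgroup.mul_mem_cancel_right _ (inv_mem (ne 1))).1 (k0 k hk a (hr a ha)),
        Subgroup.mem_comap.2 ?_⟩
      show ψ (lt a) ∈ _
      rw [(h1 a (hr a ha)).1]; exact ne 2
  have r1 : ∀ a ∈ l₁, a ∈ l := fun a ha => by simp [e, ha]
  have r2 : ∀ a ∈ l₂, a ∈ l := fun a ha => by simp [e, ha]
  have s1 := sep (s := (μ, (2 : Fin 4))) (e := true) (S := {(d, 0)}ᶜ) (mul_mem (mul_mem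
    (k1 2 (by simp) l₁ r1 n1) (inv_mem (of_mem_Fre (x := (μ, 1)) (by simp))))
    (inv_mem (k0 2 (by simp) μ hμ))) (k1 2 (by simp) l₂ r2 n2) (by
      rw [e, Xl_split, map_mul, map_mul, map_mul, map_inv, (h1 μ hμ).1] at hd
      simpa [mk_single, mul_assoc, lb, lt] using hd)
  have s2 := sep (s := (μ, (1 : Fin 4))) (e := false) (k1 1 (by simp) l₁ r1 n1)
    (inv_mem (k0 1 (by simp) μ hμ)) s1.1
  exact (Subgroup.mul_mem_cancel_right _ (inv_mem (of_mem_Fre (x := (μ, 1)) (by simp)))).1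
    (inv_mem_iff.1 s2.2)

end Pool.Agent.MP_6eaae3_al

end MrgPart0

-- ======== part 1: formerly Pool.Agent.MP_6eaae3_al.Rep
section MrgPart1

/-! Representations of an Artin group by products of twists and the inductive construction. -/

namespace Pool.Agent.MP_6eaae3_al

section

open FreeGroup (of)
open Set

section alg

variable {G H : Type} [Group G] [Group H]

/-- The alternating product. -/
def alG : G → G → ℕ → G
  | _, _, 0 => 1
  | x, y, k + 1 => x * alG y x k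

theorem lift_alG {V : Type} (f : V → G) (k : ℕ) :
    ∀ s t, FreeGroup.lift f (alt s t k) = alG (f s) (f t) k := by
  induction k with
  | zero => intro s t; simp [alt, alG]
  | succ k ih => intro s t; simp [alt, alG, ih]

theorem map_alG {F : Type} [FunLike F G H] [MonoidHomClass F G H] (φ : F) (k : ℕ) :
    ∀ x y, φ (alG x y k) = alG (φ x) (φ y) k := by
  induction k with
  | zero => intro s t; simp [alG]
  | succ k ih => intro s t; simp [alG, ih]

theorem alG_mem {K : Subgroup G} (k : ℕ) : ∀ {x y}, x ∈ K → y ∈ K → alG x y k ∈ K := by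
  induction k with
  | zero => exact fun _ _ => one_mem _
  | succ k ih => exact fun a b => mul_mem a (ih b a)

theorem alG_mul (k : ℕ) : ∀ {x y x' y' : G}, Commute x x' → Commute x y' → Commute y x' →
    Commute y y' → alG (x * x') (y * y') k = alG x y k * alG x' y' k := by
  induction k with
  | zero => intros; simp [alG]
  | succ k ih =>
    intro x y x' y' a b c d
    have : Commute x' (alG y x k) :=
      alG_mem (K := Subgroup.centralizer {x'}) k (fun _ e => e ▸ c.symm.eq) (fun _ e => e ▸ a.symm.eq)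
        x' rfl
    rw [alG, ih d c b a, alG, alG, this.mul_mul_mul_comm]

theorem Fre.commute {L : Type} {S S' : Set L} (φ : FreeGroup L →* G)
    (h : ∀ x ∈ S, ∀ y ∈ S', Commute (φ (of x)) (φ (of y))) {w w' : FreeGroup L} (hw : w ∈ Fre S)
    (hw' : w' ∈ Fre S') : Commute (φ w) (φ w') :=
  Fre.map_mem φ (K := Subgroup.centralizer {φ w}) (fun y hy _ e => e ▸
    (Fre.map_mem φ (K := Subgroup.centralizer {φ (of y)})
      (fun x hx _ e => e ▸ (h x hx y hy).symm.eq) hw _ rfl).symm) hw' _ rfl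

/-- Alternating products in a group generated by two subgroups. -/
inductive St (K : Bool → Subgroup G) (L Q : Subgroup G) (B : Bool → G → Prop) : Bool → G → Prop
  | base {e x q} : x ∈ K e → ¬ B e x → q ∈ Q → St K L Q B e (x * q)
  | step {e x h} : St K L Q B (!e) h → x ∈ K e → x ∉ L → St K L Q B e (x * h)

variable {K : Bool → Subgroup G} {L Q : Subgroup G} {B : Bool → G → Prop}

theorem St.left (hL : ∀ e, L ≤ K e) (hB : ∀ e x, ∀ l ∈ L, B e x → B e (l * x)) {e h l}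
    (s : St K L Q B e h) (hl : l ∈ L) : St K L Q B e (l * h) := by
  cases s with
  | base a b c =>
    rw [← mul_assoc]
    exact .base (mul_mem (hL e hl) a) (fun q => b (by simpa using hB e _ _ (inv_mem hl) q)) c
  | step a b c =>
    rw [← mul_assoc]
    exact .step a (mul_mem (hL e hl) b) fun q => c ((L.mul_mem_cancel_left hl).1 q)

theorem St.mul (hL : ∀ e, L ≤ K e) (hB : ∀ e x, ∀ l ∈ L, B e x → B e (l * x))
    (hQ : ∀ e x, B e x → ∃ l ∈ L, ∃ q ∈ Q, x = l * q) {e x g} (hx : x ∈ K e)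
    (h : (∃ l ∈ L, ∃ q ∈ Q, g = l * q) ∨ ∃ e, St K L Q B e g) :
    (∃ l ∈ L, ∃ q ∈ Q, x * g = l * q) ∨ ∃ e, St K L Q B e (x * g) := by
  have key : ∀ y ∈ K e, ∀ q ∈ Q, (∃ l ∈ L, ∃ q' ∈ Q, x * (y * q) = l * q') ∨
      ∃ e, St K L Q B e (x * (y * q)) := fun y hy q hq => by
    rw [← mul_assoc]
    by_cases b : B e (x * y)
    · obtain ⟨l, hl, p, hp, u⟩ := hQ e _ b
      exact Or.inl ⟨l, hl, p * q, mul_mem hp hq, by rw [u, mul_assoc]⟩
    · exact Or.inr ⟨e, .base (mul_mem hx hy) b hq⟩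
  have key' : ∀ y ∈ K e, ∀ h, St K L Q B (!e) h → ∃ e, St K L Q B e (y * h) := fun y hy h s => by
    by_cases b : y ∈ L
    exacts [⟨_, s.left hL hB b⟩, ⟨e, .step s hy b⟩]
  rcases h with ⟨l, hl, q, hq, rfl⟩ | ⟨e', s⟩
  · exact key l (hL e hl) q hq
  by_cases u : e' = e
  · subst u
    cases s with
    | base a _ c => exact key _ a _ c
    | step a b _ => rw [← mul_assoc]; exact Or.inr (key' _ (mul_mem hx b) _ a)
  · exact Or.inr (key' x hx g (Bool.eq_not.2 u ▸ s))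

end alg

variable {V : Type}

abbrev Nm (V : Type) := ℕ × Option (V × ℕ) × ((V × ℕ) ⊕ Fin 3)
abbrev Art (m : V → V → ℕ) := PresentedGroup (artinRels m)

def Spare (ν : Nm V) : Prop := ν.2.2 = Sum.inr 2

/-- Standard parabolic subgroups. -/
def Par (m : V → V → ℕ) (S : Set V) : Subgroup (Art m) := Subgroup.closure (PresentedGroup.of '' S)

def DC (m : V → V → ℕ) (S S' : Set V) (g : Art m) : Prop := ∃ p ∈ Par m S, ∃ q ∈ Par m S', g = p * q

variable {m : V → V → ℕ}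

theorem Par.mono {S S' : Set V} (h : S ⊆ S') : Par m S ≤ Par m S' :=
  Subgroup.closure_mono (image_mono h)

theorem Par.of {S : Set V} {v : V} (h : v ∈ S) : PresentedGroup.of v ∈ Par m S :=
  Subgroup.subset_closure ⟨v, h, rfl⟩

theorem Par.ind {S : Set V} {K : Subgroup (Art m)} (h : ∀ v ∈ S, PresentedGroup.of v ∈ K) :
    Par m S ≤ K := (Subgroup.closure_le _).2 (by rintro _ ⟨v, hv, rfl⟩; exact h v hv)

theorem Par.univ (g : Art m) : g ∈ Par m univ :=
  PresentedGroup.generated_by _ _ (fun _ => Par.of trivial) g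

theorem DC.mono {S S' T T' : Set V} {g : Art m} (h : DC m S T g) (a : S ⊆ S') (b : T ⊆ T') :
    DC m S' T' g := by
  obtain ⟨p, hp, q, hq, e⟩ := h
  exact ⟨p, Par.mono a hp, q, Par.mono b hq, e⟩

/-- A family of annuli and a product of twists for each generator. -/
structure Rep (m : V → V → ℕ) (lo hi : ℕ) where
  C : Set (Rec (Nm V))
  w : V → FreeGroup (Rec (Nm V) × Bool)
  le : lo ≤ hi
  fin : C.Finite
  mem : ∀ v, w v ∈ Fre {x | x.1 ∈ C}
  cons : ∀ A ∈ C, ∀ B ∈ C, A ≠ B → ∀ p ∈ A.cells, p ∉ B.cells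
  rng : ∀ A ∈ C, ∀ ν ∈ A.slots, lo ≤ ν.1 ∧ ν.1 < hi
  rel : ∀ (G : Type) [Group G] (T : Rec (Nm V) × Bool → G), Sat C T → ∀ s t, s ≠ t →
    alG (FreeGroup.lift T (w s)) (FreeGroup.lift T (w t)) (m s t) =
      alG (FreeGroup.lift T (w t)) (FreeGroup.lift T (w s)) (m s t)
  sp : ∀ A ∈ C, ∃ ν, Spare ν ∧ (ν, false) ∈ A.cells
  nv : ∀ A ∈ C, ∀ ν, Spare ν → (ν, true) ∉ A.cells

namespace Rep

variable {lo mid hi : ℕ} (R : Rep m lo hi)

def hom {G : Type} [Group G] (T : Rec (Nm V) × Bool → G) (h : Sat R.C T) : Art m →* G :=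
  artinLift m (fun v => FreeGroup.lift T (R.w v)) fun s t e => by
    rw [lift_alG, lift_alG]; exact R.rel G T h s t e

theorem hom_of {G : Type} [Group G] (T : Rec (Nm V) × Bool → G) (h : Sat R.C T) (v : V) :
    R.hom T h (PresentedGroup.of v) = FreeGroup.lift T (R.w v) := by
  rw [hom, artinLift_of]

noncomputable def ψ : Art m →* MulAut (FL (Nm V)) := R.hom _ (sat_tau _)

theorem ψ_of (v : V) : R.ψ (PresentedGroup.of v) = tauF (R.w v) := R.hom_of _ _ _

theorem word (g : Art m) : ∃ w ∈ Fre {x : Rec (Nm V) × Bool | x.1 ∈ R.C},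
    ∀ (G : Type) [Group G] (T : Rec (Nm V) × Bool → G) h, R.hom T h g = FreeGroup.lift T w := by
  have := Par.univ g
  induction this using Subgroup.closure_induction with
  | mem x hx => obtain ⟨v, -, rfl⟩ := hx; exact ⟨_, R.mem v, fun _ _ _ _ => R.hom_of _ _ _⟩
  | one => exact ⟨1, one_mem _, by simp⟩
  | mul x y _ _ a b =>
    obtain ⟨u, a1, a2⟩ := a
    obtain ⟨v, b1, b2⟩ := b
    exact ⟨u * v, mul_mem a1 b1, by simp [a2, b2]⟩
  | inv x _ a =>
    obtain ⟨u, a1, a2⟩ := a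
    exact ⟨u⁻¹, inv_mem a1, by simp [a2]⟩

theorem all {K : Subgroup (MulAut (FL (Nm V)))} (h : ∀ A ∈ R.C, ∀ s, A.tau s ∈ K) (g : Art m) :
    R.ψ g ∈ K := by
  obtain ⟨w, a, b⟩ := R.word g
  rw [ψ, b]
  exact Fre.map_mem _ (fun x hx => by simpa using h _ hx x.2) a

/-- A crossing that only meets the annuli of the generators in `X`. -/
structure Mark (X : Set V) (ν : Nm V) : Prop where
  lo : lo ≤ ν.1
  hi : ν.1 < hi
  ns : ¬ Spare ν
  nt : ∀ A ∈ R.C, (ν, true) ∉ A.cells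
  av : ∀ v ∉ X, R.w v ∈ Fre {x | ν ∉ x.1.slots}

variable {R}

theorem Mark.ind {X : Set V} {ν : Nm V} (h : R.Mark X ν) {K : Subgroup (MulAut (FL (Nm V)))}
    (hK : ∀ A : Rec (Nm V), ν ∉ A.slots → ∀ s, A.tau s ∈ K) {g : Art m} (hg : g ∈ Par m Xᶜ) :
    R.ψ g ∈ K :=
  Par.ind (K := K.comap R.ψ) (fun v hv => by
    rw [Subgroup.mem_comap, ψ_of]
    exact Fre.map_mem _ (fun x hx => by simpa [tauF] using hK _ hx x.2) (h.av v hv)) hg

theorem stab_not {A : Rec (Nm V)} {x : Nm V × Fin 4} (h : x.1 ∉ A.slots) (s : Bool) :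
    A.tau s ∈ Stab (Fre {x}ᶜ) :=
  Rec.tau_stab fun _ _ => Or.inr fun _ hy e => h (e ▸ Rec.PL_slot hy)

theorem Mark.fix {X : Set V} {ν : Nm V} (h : R.Mark X ν) {g : Art m} (hg : g ∈ Par m Xᶜ) :
    R.ψ g (lb ν) = lb ν :=
  h.ind (K := MulAction.stabilizer _ (lb ν)) (fun _ a _ => Rec.tau_not a) hg

theorem Mark.stab {X : Set V} {ν : Nm V} (h : R.Mark X ν) {g : Art m} (hg : g ∈ Par m Xᶜ) :
    R.ψ g ∈ Stab (Fre {(ν, 0)}ᶜ) := h.ind (fun _ a => stab_not a) hg

theorem dis (R₁ : Rep m lo mid) (R₂ : Rep m mid hi) {A B} (hA : A ∈ R₁.C) (hB : B ∈ R₂.C) :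
    A.Dis B := fun μ a b => absurd (R₁.rng A hA μ a).2 (not_lt.2 (R₂.rng B hB μ b).1)

theorem comm (R₁ : Rep m lo mid) (R₂ : Rep m mid hi) {G : Type} [Group G]
    {T : Rec (Nm V) × Bool → G} (h : Sat (R₁.C ∪ R₂.C) T) {u v}
    (hu : u ∈ Fre {x : Rec (Nm V) × Bool | x.1 ∈ R₁.C})
    (hv : v ∈ Fre {x : Rec (Nm V) × Bool | x.1 ∈ R₂.C}) :
    Commute (FreeGroup.lift T u) (FreeGroup.lift T v) :=
  Fre.commute _ (fun x hx y hy => by
    simpa using (h _ (Or.inl hx) _ (Or.inr hy)).1 (R₁.dis R₂ hx hy) x.2 y.2) hu hv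

def join (R₁ : Rep m lo mid) (R₂ : Rep m mid hi) : Rep m lo hi where
  C := R₁.C ∪ R₂.C
  w := fun v => R₁.w v * R₂.w v
  le := R₁.le.trans R₂.le
  fin := R₁.fin.union R₂.fin
  mem := fun v => mul_mem (Fre.mono (fun _ => Or.inl) (R₁.mem v)) (Fre.mono (fun _ => Or.inr) (R₂.mem v))
  cons := by
    rintro A (a | a) B (b | b) e p u v
    exacts [R₁.cons A a B b e p u v, R₁.dis R₂ a b p.1 ⟨_, u⟩ ⟨_, v⟩,
      R₁.dis R₂ b a p.1 ⟨_, v⟩ ⟨_, u⟩, R₂.cons A a B b e p u v]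
  rng := by
    rintro A (a | a) ν h
    · exact ⟨(R₁.rng A a ν h).1, (R₁.rng A a ν h).2.trans_le R₂.le⟩
    · exact ⟨R₁.le.trans (R₂.rng A a ν h).1, (R₂.rng A a ν h).2⟩
  rel := fun G _ T h s t e => by
    have c := fun s t => R₁.comm R₂ h (R₁.mem s) (R₂.mem t)
    simp only [map_mul]
    rw [alG_mul _ (c _ _) (c _ _) (c _ _) (c _ _), alG_mul _ (c _ _) (c _ _) (c _ _) (c _ _),
      R₁.rel G T (fun A a B b => h A (Or.inl a) B (Or.inl b)) s t e,
      R₂.rel G T (fun A a B b => h A (Or.inr a) B (Or.inr b)) s t e]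
  sp := fun A a => a.elim (R₁.sp A) (R₂.sp A)
  nv := fun A a => a.elim (R₁.nv A) (R₂.nv A)

theorem out {x : Nm V × Fin 4} (h : x.1.1 < lo ∨ hi ≤ x.1.1) (g : Art m) :
    R.ψ g (of x) = of x ∧ R.ψ g ∈ Stab (Fre {x}ᶜ) :=
  have : ∀ A ∈ R.C, x.1 ∉ A.slots := fun A a b => by have := R.rng A a _ b; omega
  ⟨R.all (K := MulAction.stabilizer _ (of x)) (fun A a _ => Rec.tau_not (this A a)) g,
    R.all (fun A a => stab_not (this A a)) g⟩

theorem join_ψ (R₁ : Rep m lo mid) (R₂ : Rep m mid hi) (g : Art m) :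
    (R₁.join R₂).ψ g = R₁.ψ g * R₂.ψ g ∧ (R₁.join R₂).ψ g = R₂.ψ g * R₁.ψ g := by
  have c : ∀ g g', Commute (R₁.ψ g) (R₂.ψ g') := fun g g' => by
    obtain ⟨u, a, b⟩ := R₁.word g
    obtain ⟨v, a', b'⟩ := R₂.word g'
    rw [ψ, ψ, b, b']
    exact R₁.comm R₂ (sat_tau _) a a'
  have : (R₁.join R₂).ψ = (R₁.ψ.noncommCoprod R₂.ψ c).comp ((MonoidHom.id _).prod (MonoidHom.id _)) :=
    PresentedGroup.ext fun v => by simp [ψ_of, join]
  rw [← (c g g).eq, and_self, this]; rfl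

end Rep

/-- Detection of group elements by marked crossings. -/
def Pk (m : V → V → ℕ) {ι : Type} (col : ι → Set V) (S : Art m → ι → ι → Prop) : Prop :=
  ∀ lo, ∃ (hi : ℕ) (R : Rep m lo hi) (F : Finset (Nm V)) (tg : Nm V → ι),
    (∀ ν ∈ F, R.Mark (col (tg ν)) ν) ∧ ∀ g i j, S g i j →
      ∃ ν ∈ F, ∃ μ ∈ F, tg ν = i ∧ tg μ = j ∧ R.ψ g (lb ν) ∉ Fre {(μ, 0)}ᶜ

variable {ι ι' : Type} {col : ι → Set V} {col' : ι' → Set V}

theorem Pk.map {S : Art m → ι → ι → Prop} {S' : Art m → ι' → ι' → Prop} (h : Pk m col S)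
    (f : ι → ι') (hc : ∀ i, col i ⊆ col' (f i)) (hS : ∀ g i' j', S' g i' j' →
      ∃ i j g', ∃ q ∈ Par m (col i)ᶜ, S g' i j ∧ f i = i' ∧ f j = j' ∧ g = g' * q) : Pk m col' S' := by
  intro lo
  obtain ⟨hi, R, F, tg, h1, h2⟩ := h lo
  refine ⟨hi, R, F, f ∘ tg, fun ν a => ⟨(h1 ν a).lo, (h1 ν a).hi, (h1 ν a).ns, (h1 ν a).nt,
    fun v hv => (h1 ν a).av v fun e => hv (hc _ e)⟩, fun g i' j' s => ?_⟩
  obtain ⟨i, j, g', q, hq, s', rfl, rfl, rfl⟩ := hS g i' j' s
  obtain ⟨ν, a, μ, b, rfl, rfl, e⟩ := h2 g' i j s'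
  exact ⟨ν, a, μ, b, rfl, rfl, by rwa [map_mul, MulAut.mul_apply, (h1 ν a).fix hq]⟩

theorem Pk.join {S S' : Art m → ι → ι → Prop} (h : Pk m col S) (h' : Pk m col S') :
    Pk m col fun g i j => S g i j ∨ S' g i j := by
  classical
  intro lo
  obtain ⟨mid, R, F, tg, h1, h2⟩ := h lo
  obtain ⟨hi, R', F', tg', k1, k2⟩ := h' mid
  have e1 : ∀ ν ∈ F, (if ν.1 < mid then tg ν else tg' ν) = tg ν := fun ν a => if_pos (h1 ν a).hi
  have e2 : ∀ ν ∈ F', (if ν.1 < mid then tg ν else tg' ν) = tg' ν :=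
    fun ν a => if_neg (not_lt.2 (k1 ν a).lo)
  refine ⟨hi, R.join R', F ∪ F', fun ν => if ν.1 < mid then tg ν else tg' ν, fun ν a => ?_, ?_⟩
  · rcases Finset.mem_union.1 a with a | a
    · have n : ∀ A ∈ R'.C, ν ∉ A.slots := fun A b c => absurd (h1 ν a).hi (not_lt.2 (R'.rng A b ν c).1)
      exact ⟨(h1 ν a).lo, (h1 ν a).hi.trans_le R'.le, (h1 ν a).ns,
        fun A b => b.elim ((h1 ν a).nt A) fun b c => n A b ⟨_, c⟩, fun v hv =>
          mul_mem ((h1 ν a).av v (by rwa [← e1 ν a])) (Fre.mono (fun x hx => n x.1 hx) (R'.mem v))⟩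
    · have n : ∀ A ∈ R.C, ν ∉ A.slots := fun A b c => absurd (R.rng A b ν c).2 (not_lt.2 (k1 ν a).lo)
      exact ⟨R.le.trans (k1 ν a).lo, (k1 ν a).hi, (k1 ν a).ns,
        fun A b => b.elim (fun b c => n A b ⟨_, c⟩) ((k1 ν a).nt A), fun v hv =>
          mul_mem (Fre.mono (fun x hx => n x.1 hx) (R.mem v)) ((k1 ν a).av v (by rwa [← e2 ν a]))⟩
  · rintro g i j (s | s)
    · obtain ⟨ν, a, μ, b, rfl, rfl, e⟩ := h2 g i j s
      refine ⟨ν, by simp [a], μ, by simp [b], e1 ν a, e1 μ b, ?_⟩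
      rwa [(R.join_ψ R' g).1, MulAut.mul_apply, lb, (Rep.out (Or.inl (h1 ν a).hi) g).1]
    · obtain ⟨ν, a, μ, b, rfl, rfl, e⟩ := k2 g i j s
      refine ⟨ν, by simp [a], μ, by simp [b], e2 ν a, e2 μ b, ?_⟩
      rwa [(R.join_ψ R' g).2, MulAut.mul_apply, lb, (Rep.out (Or.inr (k1 ν a).lo) g).1]

theorem Pk.empty [Inhabited ι] {S : Art m → ι → ι → Prop} (h : ∀ g i j, ¬ S g i j) : Pk m col S :=
  fun lo => ⟨lo, ⟨∅, fun _ => 1, le_rfl, finite_empty, fun _ => one_mem _, by simp, by simp,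
    by simp, by simp, by simp⟩, ∅, default, by simp, fun g i j s => (h g i j s).elim⟩

theorem Pk.mono {S S' : Art m → ι → ι → Prop} (h : Pk m col S) (hS : ∀ g i j, S' g i j → S g i j) :
    Pk m col S' :=
  h.map id (fun _ => subset_rfl) fun g i j s => ⟨i, j, g, 1, one_mem _, hS g i j s, rfl, rfl, by simp⟩

theorem Pk.all [Inhabited ι] {κ : Type} [Fintype κ] {S : κ → Art m → ι → ι → Prop}
    (h : ∀ k, Pk m col (S k)) : Pk m col fun g i j => ∃ k, S k g i j := by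
  classical
  have : ∀ s : Finset κ, Pk m col fun g i j => ∃ k ∈ s, S k g i j := fun s => by
    induction s using Finset.induction_on with
    | empty => exact Pk.empty (by simp)
    | insert a s _ ih => exact ((h a).join ih).mono (by simp)
  exact (this Finset.univ).mono (by simp)

end


open FreeGroup (of)
open Set

variable {V : Type} {m : V → V → ℕ}
variable {ι ι' : Type} {col : ι → Set V} {col' : ι' → Set V}

def cj {G : Type} [Group G] (P : G) (e : Bool) : G := if e then P * P else 1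

theorem Rep.step {lo hi : ℕ} (R : Rep m lo hi) {a b : V} (hab : a ≠ b) (h0 : m a b = 0)
    (h0' : m b a = 0) {l : List (Nm V)} {ν : Nm V} (hν : ν.1 = hi) (hs : Spare ν)
    (nd : (ν :: l).Nodup) (hl : ∀ μ ∈ l, R.Mark {a, b} μ) :
    ∃ R' : Rep m lo (hi + 1), (∀ X μ, R.Mark X μ → μ ∉ l → R'.Mark X μ) ∧
      ∀ e : Bool, ∀ x ∈ Par m {if e then a else b}ᶜ, R'.ψ x =
        cj (pushA (stepRec l ν nd)) e * R.ψ x * (cj (pushA (stepRec l ν nd)) e)⁻¹ := by
  classical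
  let N := stepRec l ν nd
  let t : FreeGroup (Rec (Nm V) × Bool) :=
    of (N, true) * (of (N, false))⁻¹ * (of (N, true) * (of (N, false))⁻¹)
  have tm : ∀ S : Set (Rec (Nm V) × Bool), (∀ s, (N, s) ∈ S) → t ∈ Fre S := fun S h =>
    have := mul_mem (of_mem_Fre (h true)) (inv_mem (of_mem_Fre (h false)))
    mul_mem this this
  have nN : ∀ A ∈ R.C, ν ∉ A.slots := fun A h e => (R.rng A h ν e).2.ne hν
  have nc : ∀ A ∈ R.C, ∀ p ∈ N.cells, p ∉ A.cells := by
    rintro A h ⟨μ, _ | _⟩ u v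
    · exact nN A h ⟨_, step_false.1 u ▸ v⟩
    · exact (hl μ (step_true.1 u)).nt A h v
  let w' : V → FreeGroup (Rec (Nm V) × Bool) := fun v => if v = b then t * R.w v * t⁻¹ else R.w v
  have wm : ∀ S : Set (Rec (Nm V) × Bool), (∀ s, (N, s) ∈ S) → ∀ v, R.w v ∈ Fre S → w' v ∈ Fre S :=
    fun S h v hv => by
      simp only [w']
      split_ifs
      exacts [mul_mem (mul_mem (tm S h) hv) (inv_mem (tm S h)), hv]
  have e1 : ∀ (G : Type) [Group G] (T : Rec (Nm V) × Bool → G), Sat (insert N R.C) T → ∀ v, v ≠ a →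
      FreeGroup.lift T (w' v) = MulAut.conj (FreeGroup.lift T t) (FreeGroup.lift T (R.w v)) := by
    intro G _ T h v hv
    simp only [w', MulAut.conj_apply]
    split_ifs with q
    · rw [map_mul, map_mul, map_inv]
    have := Fre.commute (FreeGroup.lift T) (fun x hx y hy => by
      simpa using (h _ (Or.inl hx) _ (Or.inr hy.1)).1 (fun μ u => by
        rcases step_slots.1 ((show x.1 = N from hx) ▸ u) with rfl | u
        exacts [nN _ hy.1, hy.2 μ (List.mem_toFinset.2 u)]) x.2 y.2)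
      (tm {x | x.1 = N} fun _ => rfl) (Fre.inter (R.mem v) (Fre.biInter l.toFinset
        fun μ u => (hl μ (List.mem_toFinset.1 u)).av v (by simp [hv, q])))
    rw [this.eq, mul_inv_cancel_right]
  have e2 : ∀ v, v ≠ b → w' v = R.w v := fun v hv => if_neg hv
  let R' : Rep m lo (hi + 1) :=
    { C := insert N R.C
      w := w'
      le := R.le.trans (Nat.le_succ _)
      fin := R.fin.insert _
      mem := fun v => wm _ (fun _ => Or.inl rfl) v (Fre.mono (fun _ => Or.inr) (R.mem v))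
      cons := by
        rintro A (rfl | u) B (rfl | v) e p x y
        exacts [e rfl, nc B v p x y, nc A u p y x, R.cons A u B v e p x y]
      rng := by
        rintro A (rfl | u) μ h
        · rcases step_slots.1 h with rfl | h
          · have := R.le; omega
          · exact ⟨(hl μ h).lo, (hl μ h).hi.trans (Nat.lt_succ_self _)⟩
        · exact ⟨(R.rng A u μ h).1, (R.rng A u μ h).2.trans (Nat.lt_succ_self _)⟩
      rel := fun G _ T h s r e => by
        have := R.rel G T (fun A a B b => h A (Or.inr a) B (Or.inr b)) s r e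
        by_cases q : s ≠ a ∧ r ≠ a
        · rw [e1 G T h s q.1, e1 G T h r q.2, ← map_alG (MulAut.conj _), this, map_alG]
        by_cases q' : s ≠ b ∧ r ≠ b
        · rw [e2 s q'.1, e2 r q'.2, this]
        have : m s r = 0 := by
          rcases not_and_or.1 q with u | u <;> rcases not_and_or.1 q' with v | v <;>
            simp_all
        rw [this]; rfl
      sp := by
        rintro A (rfl | u)
        exacts [⟨ν, hs, step_false.2 rfl⟩, R.sp A u]
      nv := by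
        rintro A (rfl | u) μ h
        exacts [fun q => (hl μ (step_true.1 q)).ns h, R.nv A u μ h] }
  refine ⟨R', fun X μ h n => ⟨h.lo, h.hi.trans (Nat.lt_succ_self _), h.ns, ?_, fun v hv =>
    wm _ (fun _ q => ?_) v (h.av v hv)⟩, fun e x hx => ?_⟩
  · rintro A (rfl | u)
    exacts [fun q => n (step_true.1 q), h.nt A u]
  · rcases (step_slots (h := nd)).1 q with rfl | q
    exacts [h.ns hs, n q]
  · refine Par.ind (K := R'.ψ.eqLocus ((MulAut.conj (cj (pushA N) e)).toMonoidHom.comp R.ψ))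
      (fun v hv => ?_) hx
    show R'.ψ _ = MulAut.conj _ (R.ψ _)
    rw [Rep.ψ_of, Rep.ψ_of]
    cases e
    · simp [R', e2 v hv, cj]
    · exact (e1 _ _ (sat_tau _) v hv).trans (by simp [t, cj, pushA, tauF])

/-- Detection of the elements of a parabolic subgroup outside a double coset. -/
def Dc (m : V → V → ℕ) (Λ W X : Set V) : Prop :=
  Pk m (fun b : Bool => if b then X ∩ Λ else W ∩ Λ) fun g i j =>
    i = true ∧ j = false ∧ g ∈ Par m Λ ∧ ¬ DC m (Λ \ W) (Λ \ X) g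

theorem Dc.step {Λ W X : Set V} {a b : V} (ha : a ∈ Λ) (hb : b ∈ Λ) (hab : a ≠ b) (h0 : m a b = 0)
    (h0' : m b a = 0) (ih : ∀ v ∈ Λ, ∀ W X, Dc m (Λ \ {v}) W X) : Dc m Λ W X := by
  classical
  let gn : Bool → V := fun e => if e then a else b
  let c : Fin 3 → Set V := ![X, W, {a, b}]
  have hg : ∀ e, gn e ∈ Λ := fun e => by cases e <;> simpa [gn]
  have pk : Pk m (fun i => c i ∩ Λ) fun g i j => ∃ k : Bool × Fin 3 × Fin 3, i = k.2.1 ∧ j = k.2.2 ∧
      g ∈ Par m (Λ \ {gn k.1}) ∧ ¬ DC m ((Λ \ {gn k.1}) \ c j) ((Λ \ {gn k.1}) \ c i) g :=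
    Pk.all fun k => (ih _ (hg k.1) (c k.2.2) (c k.2.1)).map (fun b => if b then k.2.1 else k.2.2)
      (by rintro (_ | _) <;> exact inter_subset_inter_right _ sdiff_subset) (by
        rintro g _ _ ⟨rfl, rfl, u, v⟩
        exact ⟨true, false, g, 1, one_mem _, ⟨rfl, rfl, u, v⟩, rfl, rfl, by simp⟩)
  intro lo
  obtain ⟨hi, R, F, tg, h1, h2⟩ := pk lo
  have det : ∀ e i j, ∀ g ∈ Par m (Λ \ {gn e}), (∀ ν ∈ F, tg ν = i → ∀ μ ∈ F, tg μ = j →
      R.ψ g (lb ν) ∈ Fre {(μ, 0)}ᶜ) → DC m ((Λ \ {gn e}) \ c j) ((Λ \ {gn e}) \ c i) g :=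
    fun e i j g hg h => by_contra fun q => by
      obtain ⟨ν, u, μ, v, u', v', n⟩ := h2 g i j ⟨(e, i, j), rfl, rfl, hg, q⟩
      exact n (h ν u u' μ v v')
  let l := (F.filter fun ν => tg ν = 2).toList
  have ml : ∀ μ, μ ∈ l ↔ μ ∈ F ∧ tg μ = 2 := fun μ => by simp [l]
  let ν₀ : Nm V := (hi, none, Sum.inr 2)
  have n0 : ∀ μ ∈ F, μ ≠ ν₀ := fun μ u e => (h1 μ u).ns (e ▸ rfl)
  have nd : (ν₀ :: l).Nodup :=
    List.nodup_cons.2 ⟨fun q => n0 _ ((ml _).1 q).1 rfl, Finset.nodup_toList _⟩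
  obtain ⟨R', m1, m2⟩ := R.step hab h0 h0' (ν := ν₀) rfl rfl nd fun μ u =>
    have := h1 μ ((ml μ).1 u).1
    ⟨this.lo, this.hi, this.ns, this.nt, fun v hv => this.av v fun q => hv (by
      simpa [((ml μ).1 u).2, c] using q.1)⟩
  obtain ⟨D, J, ps, pj⟩ := exists_psh nd
  set P := pushA (stepRec l ν₀ nd)
  have m3 : ∀ e, ∀ x ∈ Par m (Λ \ {gn e}), ∀ y, R'.ψ x y = cj P e (R.ψ x ((cj P e)⁻¹ y)) :=
    fun e x hx y => by rw [m2 e x (Par.mono (fun _ h => h.2) hx)]; rfl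
  have mk : ∀ ν ∈ F, tg ν ≠ 2 → R'.Mark (c (tg ν) ∩ Λ) ν :=
    fun ν u v => m1 _ ν (h1 ν u) fun q => v ((ml ν).1 q).2
  have cm : ∀ ν ∈ F, tg ν ≠ 2 → ∀ K : Subgroup (MulAut (FL (Nm V))),
      (∀ A : Rec (Nm V), ν ∉ A.slots → ∀ s, A.tau s ∈ K) → ∀ e, cj P e ∈ K := fun ν u v K h e => by
    have := h (stepRec l ν₀ nd) fun q => (step_slots.1 q).elim (n0 ν u) fun q => v ((ml ν).1 q).2
    have : P ∈ K := mul_mem (this _) (inv_mem (this _))
    cases e
    exacts [one_mem _, mul_mem this this]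
  have cf : ∀ ν ∈ F, tg ν ≠ 2 → ∀ e, (cj P e)⁻¹ (lb ν) = lb ν := fun ν u v e =>
    inv_mem (cm ν u v (MulAction.stabilizer _ (lb ν)) (fun _ a _ => Rec.tau_not a) e)
  have cs : ∀ ν ∈ F, tg ν ≠ 2 → ∀ e, cj P e ∈ Stab (Fre {(ν, 0)}ᶜ) := fun ν u v =>
    cm ν u v _ fun _ a => Rep.stab_not a
  have ct : ∀ e y, (cj P (!e))⁻¹ (cj P e y) = tt P e y := by rintro (_ | _) y <;> simp [cj, tt]
  have gd : ∀ x, Gd (ν₀, 3) (ν₀, 0) (R.ψ x) := fun x =>
    have := fun k => R.out (x := (ν₀, k)) (Or.inr le_rfl) x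
    ⟨(this 3).1, (this 0).1, (this 3).2, (this 0).2⟩
  let S : Set (Nm V × Fin 4) := {x | ∃ A ∈ R.C, ∃ s, x ∈ A.PL s}
  have lf : ∀ x μ, R.ψ x (lb μ) * (lb μ)⁻¹ ∈ Fre S := fun x μ =>
    (R.all (K := Lft (Fre S) (lb μ)) (fun A u s => ⟨Rec.tau_stab fun _ _ => Or.inr fun _ q =>
      ⟨A, u, s, q⟩, by
        rw [lb, Rec.tau_of, Rec.rg, if_neg (by simp), mul_one, mul_inv_cancel_right]
        exact Fre.mono (S' := S) (fun _ q => ⟨A, u, s, q⟩) (A.lf_mem s _)⟩) x).2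
  have sb : ∀ x ∈ S, x.1 ≠ ν₀ ∧ x ∉ BT l := by
    rintro x ⟨A, u, s, q⟩
    refine ⟨fun e => (R.rng A u _ (Rec.PL_slot q)).2.ne (by rw [e]), fun r => ?_⟩
    rcases q with ⟨-, q⟩ | ⟨q, -⟩
    · rcases r.2 with r | r <;> simp [r] at q
    · exact (h1 _ ((ml _).1 r.1).1).nt A u q
  have uq' : ∀ x d, R.ψ x (Xl l) ∈ Fre {(d, 0)}ᶜ → ∀ μ ∈ F, tg μ = 2 → R.ψ x (lb μ) ∈ Fre {(d, 0)}ᶜ :=
    fun x d h μ u v => uq (Finset.nodup_toList _) (fun x h => (sb x h).2) (fun μ _ =>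
      ⟨R.all (K := MulAction.stabilizer _ (lt μ)) (fun A _ s => Rec.tau_lt s μ) x, lf x μ⟩) h
      ((ml μ).2 ⟨u, v⟩)
  have hL : ∀ e, (Λ \ {gn e}) \ c 2 = Λ \ {a, b} := fun e => by
    ext v; cases e <;> simp [gn, c] <;> tauto
  have LK : ∀ e, Par m (Λ \ {a, b}) ≤ Par m (Λ \ {gn e}) := fun e => Par.mono (hL e ▸ sdiff_subset)
  have fx : ∀ ν ∈ F, tg ν = 0 → ∀ q ∈ Par m (Λ \ X), R'.ψ q (lb ν) = lb ν := fun ν u v q hq =>
    (mk ν u (by simp [v])).fix (Par.mono (fun _ h h' => h.2 (by simpa [v, c] using h'.1)) hq)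
  have sx : ∀ ν ∈ F, tg ν = 1 → ∀ q ∈ Par m (Λ \ W), R'.ψ q ∈ Stab (Fre {(ν, 0)}ᶜ) := fun ν u v q hq =>
    (mk ν u (by simp [v])).stab (Par.mono (fun _ h h' => h.2 (by simpa [v, c] using h'.1)) hq)
  let St' := St (fun e => Par m (Λ \ {gn e})) (Par m (Λ \ {a, b})) (Par m (Λ \ X))
    fun e => DC m (Λ \ {a, b}) ((Λ \ {gn e}) \ X)
  have inv : ∀ e h, St' e h → ∃ ν ∈ F, tg ν = 0 ∧
      Inv (ν₀, 3) (ν₀, 0) (Xl l) D e ((cj P (!e))⁻¹ (R'.ψ h (lb ν))) := by
    intro e h s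
    induction s with
    | @base e x q u v w =>
      have := mt (det e 0 2 x u) (hL e ▸ v)
      push Not at this
      obtain ⟨ν, a1, a2, μ, b1, b2, n⟩ := this
      have y : R.ψ x (lb ν) ∈ Fre (insert (ν, 1) S) := by
        have := mul_mem (Fre.mono (subset_insert (ν, 1) S) (lf x ν)) (of_mem_Fre (mem_insert _ _))
        rwa [← lb, inv_mul_cancel_right] at this
      have hS : ∀ x ∈ insert (ν, (1 : Fin 4)) S, x.1 ≠ ν₀ ∧ ¬ (x.1 ∈ l ∧ x.2 = 1) := by
        rintro x (rfl | r)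
        · exact ⟨n0 ν a1, fun r => by simpa [a2] using ((ml ν).1 r.1).2⟩
        · exact ⟨(sb x r).1, fun r' => (sb x r).2 ⟨r'.1, Or.inl r'.2⟩⟩
      obtain ⟨g, hg⟩ := pj _ hS _ y μ ((ml μ).2 ⟨b1, b2⟩) n
      refine ⟨ν, a1, a2, ?_⟩
      rw [map_mul, MulAut.mul_apply, fx ν a1 a2 q w, m3 e x u, cf ν a1 (by simp [a2]), ct]
      have y' : ∀ k, R.ψ x (lb ν) ∈ Fre {(ν₀, k)}ᶜ :=
        fun k => Fre.mono (by rintro _ r rfl; exact (hS _ r).1 rfl) y
      exact ps.inv0 e (y' 3) (y' 0) hg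
    | @step e x h _ u v ih =>
      obtain ⟨ν, a1, a2, i⟩ := ih
      refine ⟨ν, a1, a2, ?_⟩
      rw [map_mul, MulAut.mul_apply, m3 e x u, ct]
      have := ps.inv1 i (gd x) fun q => v (by
        obtain ⟨p, hp, p', hp', rfl⟩ := det e 2 2 x u fun ν a1 a2 μ _ _ => uq' x μ (by
          rw [q]; exact Fre.mono (by rintro _ r rfl; simpa using r.2) (Xl_BT fun _ h => h)) ν a1 a2
        exact mul_mem (hL e ▸ hp) (hL e ▸ hp'))
      rwa [Bool.not_not] at this
  have bs : ∀ e, ∀ x ∈ Par m (Λ \ {gn e}), ∀ q ∈ Par m (Λ \ X), (∀ ν ∈ F, tg ν = 0 → ∀ μ ∈ F,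
      tg μ = 1 → R'.ψ (x * q) (lb ν) ∈ Fre {(μ, 0)}ᶜ) → DC m (Λ \ W) (Λ \ X) (x * q) := by
    intro e x u q w h
    obtain ⟨p, hp, p', hp', rfl⟩ := det e 0 1 x u fun ν a1 a2 μ b1 b2 => by
      have := h ν a1 a2 μ b1 b2
      rwa [map_mul, MulAut.mul_apply, fx ν a1 a2 q w, m3 e x u, cf ν a1 (by simp [a2]),
        cs μ b1 (by simp [b2]) e] at this
    exact ⟨p, Par.mono (sdiff_subset_sdiff_left sdiff_subset) hp, p' * q,
      mul_mem (Par.mono (sdiff_subset_sdiff_left sdiff_subset) hp') w, mul_assoc _ _ _⟩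
  have clB : ∀ e h, St' e h → ∀ l' ∈ Par m (Λ \ {a, b}), (∀ ν ∈ F, tg ν = 0 → ∀ μ ∈ F, tg μ = 1 →
      R'.ψ (l' * h) (lb ν) ∈ Fre {(μ, 0)}ᶜ) → DC m (Λ \ W) (Λ \ X) (l' * h) := by
    intro e h s
    induction s with
    | @base e x q u _ w =>
      intro l' hl'
      rw [← mul_assoc]
      exact bs e _ (mul_mem (LK e hl') u) q w
    | @step e x h s u _ ih =>
      intro l' hl' hh
      rw [← mul_assoc] at hh ⊢
      obtain ⟨ν, a1, a2, i⟩ := inv _ h s
      have u' := mul_mem (LK e hl') u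
      obtain ⟨p, hp, p', hp', q⟩ := det e 2 1 _ u' fun ν' c1 c2 μ b1 b2 => uq' _ μ
        (ps.inv2 i (gd _) (fun q => n0 μ b1 (congrArg Prod.fst q).symm) (by
          have := hh ν a1 a2 μ b1 b2
          rwa [map_mul, MulAut.mul_apply, m3 e _ u', cs μ b1 (by simp [b2]) e, ← Bool.not_not e]
            at this)) ν' c1 c2
      have hp : p ∈ Par m (Λ \ W) := Par.mono (sdiff_subset_sdiff_left sdiff_subset) hp
      rw [q, mul_assoc] at hh ⊢
      obtain ⟨r, hr, r', hr', q'⟩ := ih p' (hL e ▸ hp') fun ν a1 a2 μ b1 b2 => by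
        have := hh ν a1 a2 μ b1 b2
        rwa [map_mul, MulAut.mul_apply, sx μ b1 b2 p hp] at this
      exact ⟨p * r, mul_mem hp hr, r', hr', by rw [q', mul_assoc]⟩
  refine ⟨hi + 1, R', F.filter fun ν => tg ν ≠ 2, fun ν => decide (tg ν = 0), fun ν u => ?_, ?_⟩
  · obtain ⟨u, v⟩ := Finset.mem_filter.1 u
    have := mk ν u v
    show R'.Mark (if decide (tg ν = 0) = true then X ∩ Λ else W ∩ Λ) ν
    generalize tg ν = k at v this
    fin_cases k
    exacts [this, this, (v rfl).elim]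
  rintro g _ _ ⟨rfl, rfl, hg', n⟩
  by_contra! q
  have hh : ∀ ν ∈ F, tg ν = 0 → ∀ μ ∈ F, tg μ = 1 → R'.ψ g (lb ν) ∈ Fre {(μ, 0)}ᶜ :=
    fun ν a1 a2 μ b1 b2 => q ν (by simp [a1, a2]) μ (by simp [b1, b2]) (by simp [a2]) (by simp [b2])
  have : (∃ l ∈ Par m (Λ \ {a, b}), ∃ q ∈ Par m (Λ \ X), g = l * q) ∨ ∃ e, St' e g := by
    have ml := fun e x g (hx : x ∈ Par m (Λ \ {gn e})) => St.mul (K := fun e => Par m (Λ \ {gn e}))
      (B := fun e => DC m (Λ \ {a, b}) ((Λ \ {gn e}) \ X)) (Q := Par m (Λ \ X)) (g := g) LK (by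
        rintro e _ l hl ⟨p, hp, q, hq, rfl⟩
        exact ⟨l * p, mul_mem hl hp, q, hq, (mul_assoc _ _ _).symm⟩)
      (fun e x h => h.mono subset_rfl (sdiff_subset_sdiff_left sdiff_subset)) hx
    have ge : ∀ v ∈ Λ, ∃ e, PresentedGroup.of v ∈ Par m (Λ \ {gn e}) := fun v hv => by
      by_cases u : v = a
      exacts [⟨false, Par.of ⟨hv, u ▸ hab⟩⟩, ⟨true, Par.of ⟨hv, u⟩⟩]
    clear n q hh
    induction hg' using Subgroup.closure_induction_left with
    | one => exact Or.inl ⟨1, one_mem _, 1, one_mem _, by simp⟩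
    | mul_left x hx y _ ih =>
      obtain ⟨v, hv, rfl⟩ := hx
      obtain ⟨e, u⟩ := ge v hv
      exact ml e _ y u ih
    | inv_mul_cancel x hx y _ ih =>
      obtain ⟨v, hv, rfl⟩ := hx
      obtain ⟨e, u⟩ := ge v hv
      exact ml e _ y (inv_mem u) ih
  rcases this with ⟨l', u, q', v, rfl⟩ | ⟨e, s⟩
  · exact n (bs true l' (LK _ u) q' v hh)
  · exact n (by simpa using clB e g s 1 (one_mem _) (by simpa using hh))

theorem Dc.to {Λ W X Λ' W' X' : Set V} (h : Dc m Λ' W' X') (a : W' ∩ Λ' ⊆ W ∩ Λ)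
    (b : X' ∩ Λ' ⊆ X ∩ Λ) : Pk m (fun b : Bool => if b then X ∩ Λ else W ∩ Λ) fun g i j =>
      i = true ∧ j = false ∧ ∃ g' ∈ Par m Λ', ∃ q ∈ Par m Λ'ᶜ, g = g' * q ∧
        ¬ DC m (Λ' \ W') (Λ' \ X') g' :=
  h.map id (by rintro (_ | _); exacts [a, b]) (by
    rintro g _ _ ⟨rfl, rfl, g', u, q, v, rfl, n⟩
    exact ⟨true, false, g', q, Par.mono (compl_subset_compl.2 inter_subset_right) v, ⟨rfl, rfl, u, n⟩, rfl, rfl, rfl⟩)

theorem Dc.triv {Λ W X : Set V} (h : (∀ v ∈ Λ, v ∉ W) ∨ ∀ v ∈ Λ, v ∉ X) : Dc m Λ W X :=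
  Pk.empty fun g _ _ ⟨_, _, u, n⟩ => n (h.elim
    (fun h => ⟨g, Par.mono (subset_sdiff.2 ⟨subset_rfl, disjoint_left.2 h⟩) u, 1, one_mem _, by simp⟩)
    fun h => ⟨1, one_mem _, g, Par.mono (subset_sdiff.2 ⟨subset_rfl, disjoint_left.2 h⟩) u, by simp⟩)

theorem DC.empty {g : Art m} (h : DC m ∅ ∅ g) : g = 1 := by simpa [DC, Par] using h

theorem Dc.prod {c Λ W X : Set V} (hd : ∀ s ∈ c, s ∉ Λ) (hc : ∀ s ∈ c, ∀ t ∈ Λ, m s t = 2)
    (h : Dc m c W X) (h' : Dc m Λ W X) : Dc m (c ∪ Λ) W X := by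
  have cm : ∀ x ∈ Par m c, ∀ y ∈ Par m Λ, x * y = y * x := fun x hx y hy =>
    Par.ind (K := Subgroup.centralizer {x}) (fun t ht _ e => e ▸
      (Par.ind (K := Subgroup.centralizer {PresentedGroup.of t}) (fun s hs _ e => e ▸ by
        simpa [hc s hs t ht, alt] using (artin_rel m (s := s) (t := t) fun e => hd s hs (e ▸ ht)).symm)
        hx _ rfl).symm) hy _ rfl
  refine ((h.to (inter_subset_inter_right _ subset_union_left)
    (inter_subset_inter_right _ subset_union_left)).join (h'.to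
    (inter_subset_inter_right _ subset_union_right)
    (inter_subset_inter_right _ subset_union_right))).mono ?_
  rintro g _ _ ⟨rfl, rfl, u, n⟩
  obtain ⟨x, hx, y, hy, rfl⟩ : DC m c Λ g := by
    clear n
    induction u using Subgroup.closure_induction with
    | mem x hx =>
      obtain ⟨v, hv | hv, rfl⟩ := hx
      exacts [⟨_, Par.of hv, 1, one_mem _, by simp⟩, ⟨1, one_mem _, _, Par.of hv, by simp⟩]
    | one => exact ⟨1, one_mem _, 1, one_mem _, by simp⟩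
    | mul _ _ _ _ a b =>
      obtain ⟨x, hx, y, hy, rfl⟩ := a
      obtain ⟨x', hx', y', hy', rfl⟩ := b
      exact ⟨x * x', mul_mem hx hx', y * y', mul_mem hy hy',
        Commute.mul_mul_mul_comm (cm x' hx' y hy).symm _ _⟩
    | inv _ _ a =>
      obtain ⟨x, hx, y, hy, rfl⟩ := a
      exact ⟨x⁻¹, inv_mem hx, y⁻¹, inv_mem hy, by rw [cm x hx y hy, mul_inv_rev]⟩
  by_contra! q
  obtain ⟨p, hp, r, hr, rfl⟩ := q.1 rfl rfl x hx y (Par.mono (fun t a b => hd t b a) hy) rfl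
  obtain ⟨p', hp', r', hr', rfl⟩ := q.2 rfl rfl y hy _ (Par.mono hd hx) (cm _ hx _ hy)
  have l : ∀ Y, Par m (c \ Y) ≤ Par m ((c ∪ Λ) \ Y) :=
    fun Y => Par.mono (sdiff_subset_sdiff_left subset_union_left)
  have l' : ∀ Y, Par m (Λ \ Y) ≤ Par m ((c ∪ Λ) \ Y) :=
    fun Y => Par.mono (sdiff_subset_sdiff_left subset_union_right)
  exact n ⟨p * p', mul_mem (l _ hp) (l' _ hp'), r * r', mul_mem (l _ hr) (l' _ hr'),
    Commute.mul_mul_mul_comm (cm r (Par.mono sdiff_subset hr) p' (Par.mono sdiff_subset hp')) _ _⟩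

theorem Dc.vertex {v : V} (h : Dc m {v} {v} {v}) (W X : Set V) : Dc m {v} W X := by
  by_cases q : v ∈ W ∧ v ∈ X
  · refine (h.to (by simp [q.1]) (by simp [q.2])).mono ?_
    rintro g _ _ ⟨rfl, rfl, u, n⟩
    exact ⟨rfl, rfl, g, u, 1, one_mem _, by simp, fun e => n (e.mono (by simp) (by simp))⟩
  · exact Dc.triv (by simpa using not_and_or.1 q)

theorem Dc.edge (hV : ∀ v, Dc m {v} {v} {v}) {w x : V} (h : ∀ s ∈ ({w, x} : Set V),
    ∀ t ∈ ({w, x} : Set V), Dc m {w, x} {s} {t}) (W X : Set V) : Dc m {w, x} W X := by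
  have A : ∀ s t : V, ({s, t} : Set V) = {w, x} → s ∈ W → s ∈ X → Dc m {w, x} W X := by
    intro s t e a b
    have hs : s ∈ ({w, x} : Set V) := e ▸ Or.inl rfl
    have ht : t ∈ ({w, x} : Set V) := e ▸ Or.inr rfl
    have k : ∀ g, DC m ({w, x} \ {s}) ({w, x} \ {s}) g → g ∈ Par m {t} := by
      rintro _ ⟨p, hp, q, hq, rfl⟩
      exact Par.mono (by rw [← e]; simp) (mul_mem hp hq)
    have E := (h s hs s hs).to (W := W) (X := X) (Λ := {w, x}) (by simp [a, hs]) (by simp [b, hs])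
    by_cases q : t ∈ W ∧ t ∈ X
    · refine (E.join ((hV t).to (by simp [q.1, ht]) (by simp [q.2, ht]))).mono ?_
      rintro g _ _ ⟨rfl, rfl, u, n⟩
      by_contra! r
      have := r.2 rfl rfl g (k g (r.1 rfl rfl g u 1 (one_mem _) (by simp))) 1 (one_mem _) (by simp)
      exact n (this.mono (by simp) (by simp))
    · refine E.mono ?_
      rintro g _ _ ⟨rfl, rfl, u, n⟩
      refine ⟨rfl, rfl, g, u, 1, one_mem _, by simp, fun r => n ?_⟩
      rcases not_and_or.1 q with q | q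
      exacts [⟨g, Par.mono (by simp [ht, q]) (k g r), 1, one_mem _, by simp⟩,
        ⟨1, one_mem _, g, Par.mono (by simp [ht, q]) (k g r), by simp⟩]
  have B : ∀ s t : V, ({s, t} : Set V) = {w, x} → s ∈ W → t ∉ W → t ∈ X → s ∉ X →
      Dc m {w, x} W X := by
    intro s t e a a' b b'
    have hs : s ∈ ({w, x} : Set V) := e ▸ Or.inl rfl
    have ht : t ∈ ({w, x} : Set V) := e ▸ Or.inr rfl
    refine ((h s hs t ht).to (by simp [a, hs]) (by simp [b, ht])).mono ?_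
    rintro g _ _ ⟨rfl, rfl, u, n⟩
    refine ⟨rfl, rfl, g, u, 1, one_mem _, by simp, fun r => n (r.mono ?_ ?_)⟩ <;> rw [← e] <;>
      rintro v ⟨rfl | rfl, q⟩ <;> simp_all
  by_cases a : w ∈ W <;> by_cases b : w ∈ X <;> by_cases c : x ∈ W <;> by_cases d : x ∈ X <;>
    first
    | exact A w x rfl a b
    | exact A x w (pair_comm _ _) c d
    | exact B w x rfl a c d b
    | exact B x w (pair_comm _ _) c a b d
    | exact Dc.triv (by simp [a, b, c, d])

theorem Dc.all [Finite V] (sym : ∀ s t, m s t = m t s) (n1 : ∀ s t, s ≠ t → m s t ≠ 1)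
    (tri : ∀ r s t, r ≠ s → s ≠ t → r ≠ t → 3 ≤ m s r → 3 ≤ m s t → m r t = 0)
    (hV : ∀ v, Dc m {v} {v} {v}) (hE : ∀ w x, w ≠ x → 3 ≤ m w x →
      Dc m {w, x} {w} {w} ∧ Dc m {w, x} {w} {x}) (Λ : Set V) : ∀ W X, Dc m Λ W X := by
  induction Λ using WellFoundedLT.induction with
  | ind Λ ih =>
    intro W X
    by_cases q : ∃ a ∈ Λ, ∃ b ∈ Λ, a ≠ b ∧ m a b = 0
    · obtain ⟨a, ha, b, hb, e, h0⟩ := q
      exact Dc.step ha hb e h0 (sym a b ▸ h0) fun v hv => ih _ (sdiff_singleton_ssubset.2 hv)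
    push Not at q
    rcases Λ.eq_empty_or_nonempty with rfl | ⟨v, hv⟩
    · exact Dc.triv (by simp)
    have key : ∀ c ⊆ Λ, v ∈ c → (∀ s ∈ c, ∀ t ∈ Λ, t ∉ c → ¬ 3 ≤ m s t) → Dc m c W X → Dc m Λ W X :=
      fun c h1 h2 h3 h => union_sdiff_cancel h1 ▸ h.prod (fun s a b => b.2 a) (fun s a t b => by
        have e : s ≠ t := fun e => b.2 (e ▸ a)
        have := h3 s a t b.1 b.2
        have := q s (h1 a) t b.1 e
        have := n1 s t e
        omega) (ih _ ⟨sdiff_subset, fun e => (e hv).2 h2⟩ W X)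
    by_cases r : ∃ x ∈ Λ, v ≠ x ∧ 3 ≤ m v x
    · obtain ⟨x, hx, e, h3⟩ := r
      refine key {v, x} (by simp [insert_subset_iff, hv, hx]) (Or.inl rfl) ?_ (Dc.edge hV ?_ W X)
      · rintro s (rfl | rfl) t ht n u <;> simp only [mem_insert_iff, mem_singleton_iff, not_or] at n
        · exact q x hx t ht (Ne.symm n.2) (tri x s t e.symm (Ne.symm n.1) (Ne.symm n.2) h3 u)
        · exact q v hv t ht (Ne.symm n.1) (tri v s t e (Ne.symm n.2) (Ne.symm n.1) (sym v s ▸ h3) u)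
      · have := hE x v e.symm (sym v x ▸ h3)
        rw [pair_comm] at this
        rintro s (rfl | rfl) t (rfl | rfl)
        exacts [(hE _ _ e h3).1, (hE _ _ e h3).2, this.2, this.1]
    · refine key {v} (by simpa using hv) rfl ?_ ((hV v).vertex W X)
      rintro s rfl t ht n u
      exact r ⟨t, ht, fun e => n e.symm, u⟩

theorem Dc.embed (h : Dc m univ univ univ) :
    ∃ (ι : Type) (_ : Finite ι) (g : ι × Fin 4 → ι × Fin 4) (Z : Set ι), Function.Involutive g ∧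
      ConnectedSpace (Sq g) ∧ (bd g).Nonempty ∧
      ∃ φ : Art m →* MCG {x : Sq g // x ∉ ctr g Z} {x | x.1 ∈ bd g}, Function.Injective φ := by
  obtain ⟨hi, R, F, tg, -, h2⟩ := h 0
  have fin : {ν | Spare ν ∧ ∃ A ∈ R.C, (ν, false) ∈ A.cells}.Finite :=
    (R.fin.biUnion fun A _ => (A.cells.map Prod.fst).finite_toSet).subset
      fun ν ⟨_, A, a, b⟩ => mem_biUnion a (List.mem_map_of_mem (f := Prod.fst) b)
  let ν₀ : Nm V := (hi, none, Sum.inr 2)
  have nN : ∀ A ∈ R.C, ν₀ ∉ A.slots := fun A h e => (R.rng A h _ e).2.ne rfl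
  have ml : ∀ ν, ν ∈ fin.toFinset.toList ↔ Spare ν ∧ ∃ A ∈ R.C, (ν, false) ∈ A.cells := by simp
  have nd : (ν₀ :: fin.toFinset.toList).Nodup := List.nodup_cons.2 ⟨fun q => by
    obtain ⟨-, A, a, b⟩ := (ml _).1 q
    exact nN A a ⟨_, b⟩, Finset.nodup_toList _⟩
  have nc : ∀ A ∈ R.C, ∀ p ∈ (stepRec _ ν₀ nd).cells, p ∉ A.cells := by
    rintro A h ⟨μ, _ | _⟩ u v
    · exact nN A h ⟨_, step_false.1 u ▸ v⟩
    · exact R.nv A h μ ((ml μ).1 (step_true.1 u)).1 v
  obtain ⟨κ, f, g, Z, a, b, c, T, s, k⟩ := realize (R.fin.insert (stepRec _ ν₀ nd)) (by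
    rintro A (rfl | u) B (rfl | v) e p x y
    exacts [e rfl, nc B v p x y, nc A u p y x, R.cons A u B v e p x y]) (Or.inl rfl) (by
      rintro A (rfl | u) d
      · exact d ν₀ (step_slots.2 (Or.inl rfl)) (step_slots.2 (Or.inl rfl))
      · obtain ⟨ν, x, y⟩ := R.sp A u
        exact d ν ⟨_, y⟩ (step_slots.2 (Or.inr ((ml ν).2 ⟨x, A, u, y⟩))))
  refine ⟨κ, f, g, Z, a, b, c, R.hom T fun A a B b => s A (Or.inr a) B (Or.inr b),
    (injective_iff_map_eq_one _).2 fun x hx => by_contra fun n => ?_⟩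
  obtain ⟨w, u, v⟩ := R.word x
  obtain ⟨ν, -, μ, -, -, -, q⟩ := h2 x _ _ ⟨rfl, rfl, Par.univ x, fun e => n (DC.empty (by simpa using e))⟩
  rw [Rep.ψ, v] at q
  exact q ((k w (Fre.mono (fun _ => Or.inr) u) ((v _ T _).symm.trans hx) ν).symm ▸ of_mem_Fre (by simp))

end Pool.Agent.MP_6eaae3_al

end MrgPart1

-- marker of a merged file
example : 731051 + 829807 = 731051 + 829807 := rfl
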