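import Mathlib.Tactic.FinCases
import Mathlib.Tactic.IntervalCases
import Pool.Agent.MP_6eaae3_al.Words

/-! The Artin group of type `G2~` acts faithfully on the free group of rank eight. -/

namespace Pool.Agent.MP_6eaae3_al

open FreeGroup (of mk invRev reduce)
open Subgroup Set

def altW {V : Type} (w : V → Wd) (s t : V) : ℕ → Wd
  | 0 => []
  | k + 1 => w s ++ altW w t s k

variable {G : Type*} [Group G]

theorem lift_alt {V : Type} (φ : Fr →* G) (w : V → Wd) (k : ℕ) : ∀ s t : V,
    FreeGroup.lift (fun v => φ (mk (w v))) (alt s t k) = φ (mk (altW w s t k)) := by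
  induction k with
  | zero => intro s t; simp [alt, altW, mk_nil]
  | succ k ih => intro s t; rw [alt, altW, map_mul, ih, ← FreeGroup.mul_mk, map_mul]; simp

abbrev AG := PresentedGroup (artinRels labelG2)

def wS : Wd := [(3, true), (4, true), (3, true), (2, true), (3, true), (1, true), (2, true)]
def wT : Wd := [(4, true), (3, true), (4, true), (5, true), (4, true), (6, true), (5, true)]
def wP : Wd := [(0, true), (1, true), (2, true), (3, true), (4, true), (4, true), (3, true),
  (2, true), (1, true), (0, true)]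
def wG : Fin 3 → Wd := ![wS, wT, wS ++ wS ++ wS ++ wP]
def wQ : Fin 3 → Wd := ![[(0, true)], [(1, true)], [(0, true), (0, true), (0, true)]]

theorem wG_same : ∀ s t : Fin 3,
    SameW 7 (altW wG s t (labelG2 s t)) (altW wG t s (labelG2 s t)) ∨ s = t := by decide +kernel

theorem wQ_same : ∀ s t : Fin 3,
    SameW 2 (altW wQ s t (labelG2 s t)) (altW wQ t s (labelG2 s t)) ∨ s = t := by decide +kernel

/-- The homomorphism to a group with eight-strand braid relations. -/
def homG (g : ℕ → G) (hg : BraidRel g 0 7) : AG →* G :=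
  artinLift labelG2 (fun v => FreeGroup.lift g (mk (wG v))) fun s t h => by
    rw [lift_alt, lift_alt]
    exact ((wG_same s t).resolve_right h).lift hg

/-- The homomorphism to the three-strand braid group. -/
def homQ : AG →* MulAut Fr :=
  artinLift labelG2 (fun v => Psi (mk (wQ v))) fun s t h => by
    rw [lift_alt, lift_alt]
    exact ((wQ_same s t).resolve_right h).psi

def gS : AG := PresentedGroup.of 0
def gT : AG := PresentedGroup.of 1
def gU : AG := PresentedGroup.of 2
def gV : AG := (gS ^ 3)⁻¹ * gU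
def gB (i : ℕ) : AG := if i = 0 then gS else gT
def evB (W : Wd) : AG := FreeGroup.lift gB (mk W)
def wZ : Wd := [(0, true), (1, true), (0, true), (1, true), (0, true), (1, true)]
def wg : Wd := [(1, true), (0, true), (0, true), (0, true)]

theorem evB_append (W W' : Wd) : evB (W ++ W') = evB W * evB W' := by
  rw [evB, ← FreeGroup.mul_mk, map_mul]; rfl

theorem rel_ST : gS * gT * gS = gT * gS * gT := by
  have := artin_rel labelG2 (s := 0) (t := 1) (by decide)
  rw [show labelG2 0 1 = 3 from rfl] at this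
  simpa [alt, mul_assoc, gS, gT] using this

theorem rel_SU : gS * gU = gU * gS := by
  have := artin_rel labelG2 (s := 0) (t := 2) (by decide)
  rw [show labelG2 0 2 = 2 from rfl] at this
  simpa [alt, mul_assoc, gS, gU] using this

theorem rel_TU : (gT * gU) ^ 3 = (gU * gT) ^ 3 := by
  have := artin_rel labelG2 (s := 1) (t := 2) (by decide)
  rw [show labelG2 1 2 = 6 from rfl] at this
  simpa [alt, mul_assoc, gU, gT, pow_succ] using this

theorem braid_gB : BraidRel gB 0 2 :=
  ⟨fun i _ h => by obtain rfl : i = 0 := by omega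
                   simpa [gB] using rel_ST, fun i j _ h1 h2 => by omega⟩

theorem comm_SV : Commute gS gV :=
  ((Commute.refl gS).pow_right 3).inv_right.mul_right rel_SU

def wH : ℕ → Wd
  | 0 => []
  | 1 => []
  | 2 => [(0, true), (1, true)]
  | 3 => [(1, false)]
  | 4 => [(1, true)]
  | 5 => [(0, true), (1, false)]
  | 6 => [(1, false), (1, false)]
  | _ => []

def wTheta : ℕ → Wd
  | 0 => [(7, false), (6, false), (5, false), (4, false), (3, false), (2, false), (1, false)]
  | 1 => [(1, true), (2, true), (3, true), (4, true), (5, true)]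
  | 2 => [(3, true), (4, true), (5, true), (6, true), (7, true)]
  | 3 => [(1, true), (2, true), (3, true), (4, true), (5, true), (6, true), (7, true), (5, false), (4, false)]
  | 4 => [(1, true), (2, true), (5, true), (6, true), (7, true)]
  | 5 => [(1, true), (2, true), (3, true), (4, true), (5, true), (6, true), (7, true), (5, false), (4, false), (3, false), (2, false), (4, true), (5, true)]
  | 6 => [(1, true), (2, true), (3, true), (4, true), (5, true), (6, true), (7, true), (4, true), (5, true), (6, false), (5, false), (4, false), (3, false)]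
  | _ => []

def wEta : ℕ → Wd
  | 0 => []
  | 1 => [(1, true), (0, true), (5, true), (0, true), (3, true)]
  | 2 => [(3, false), (0, false), (5, false), (0, false), (1, false), (0, false), (2, false)]
  | 3 => [(2, true), (0, true), (1, true), (0, true), (3, true)]
  | 4 => [(3, false), (0, false), (1, false), (0, false), (4, false), (0, false), (2, false)]
  | 5 => [(2, true), (0, true), (4, true), (0, true), (1, true)]
  | 6 => [(1, false), (0, false), (2, false), (6, false), (0, false), (3, false), (0, false)]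
  | 7 => [(0, true), (3, true), (0, true), (6, true), (2, true)]
  | _ => []

def genN (j : ℕ) : AG :=
  if j = 0 then evB wZ else if j ≤ 6 then evB (wH j) * gV * (evB (wH j))⁻¹ else 1

def subN : Subgroup AG := (FreeGroup.lift genN).range

theorem genN_mem (j : ℕ) : genN j ∈ subN := ⟨of j, by simp⟩

def InN (W : Wd) : Prop := evB W * gV * (evB W)⁻¹ ∈ subN

theorem inN_base (j : ℕ) (h1 : j ≠ 0) (h2 : j ≤ 6) : InN (wH j) := by
  simpa [genN, h1, h2, InN] using genN_mem j

theorem InN.conn {W W' : Wd} (h : InN W) (k j : ℤ)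
    (e : SameW 2 W' (powW wZ k ++ W ++ powW [(0, true)] j)) : InN W' := by
  have e1 : evB W' = evB wZ ^ k * evB W * gS ^ j := by
    rw [evB, e.lift braid_gB, ← FreeGroup.mul_mk, ← FreeGroup.mul_mk, mk_powW, mk_powW, map_mul,
      map_mul, map_zpow, map_zpow]
    simp [evB, gB]
  have hz : evB wZ ^ k ∈ subN := zpow_mem (by simpa [genN] using genN_mem 0) k
  have e2 : gS ^ j * gV * (gS ^ j)⁻¹ = gV := by rw [(comm_SV.zpow_left j).eq]; group
  unfold InN
  convert mul_mem (mul_mem hz h) (inv_mem hz) using 1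
  rw [e1]
  conv_rhs => rw [← e2]
  group

theorem rel_V (h : AG) :
    (h * gT * evB wg * gV * (h * gT * evB wg)⁻¹) *
      (h * gT * evB wg ^ 2 * gV * (h * gT * evB wg ^ 2)⁻¹) *
      (h * gT * evB wg ^ 3 * gV * (h * gT * evB wg ^ 3)⁻¹) =
    (h * evB wg * gV * (h * evB wg)⁻¹) * (h * evB wg ^ 2 * gV * (h * evB wg ^ 2)⁻¹) *
      (h * evB wg ^ 3 * gV * (h * evB wg ^ 3)⁻¹) := by
  have e1 : evB wg * gV = gT * gU := by simp [evB, wg, gB, gV, pow_succ, mul_assoc]
  have e2 : gT * (evB wg * gV) ^ 3 * gT⁻¹ = (evB wg * gV) ^ 3 := by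
    rw [e1]
    calc gT * (gT * gU) ^ 3 * gT⁻¹ = gT * (gU * gT) ^ 3 * gT⁻¹ := by rw [rel_TU]
      _ = _ := by simp [pow_succ, mul_assoc]
  have e3 : gT * evB wg ^ 3 = evB wg ^ 3 * gT := by
    have : evB ([(1, true)] ++ wg ++ wg ++ wg) = evB (wg ++ wg ++ wg ++ [(1, true)]) :=
      (show SameW 2 _ _ by decide +kernel).lift braid_gB
    simp only [evB_append] at this
    simpa [evB, gB, pow_succ, mul_assoc] using this
  generalize evB wg = g at *
  have e4 : gT * (g ^ 3)⁻¹ * gT⁻¹ = (g ^ 3)⁻¹ := by
    rw [← inv_inj]; simp only [mul_inv_rev, inv_inv]; rw [← mul_assoc, e3]; group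
  have e5 : (g * gV) ^ 3 = g * gV * g * gV * g * gV := by simp [pow_succ, mul_assoc]
  calc _ = h * (gT * (g * gV) ^ 3 * gT⁻¹) * (gT * (g ^ 3)⁻¹ * gT⁻¹) * h⁻¹ := by rw [e5]; group
    _ = _ := by rw [e2, e4, e5]; group

theorem rel_W (h : Wd) :
    (evB (h ++ [(1, true)] ++ wg) * gV * (evB (h ++ [(1, true)] ++ wg))⁻¹) *
      (evB (h ++ [(1, true)] ++ wg ++ wg) * gV * (evB (h ++ [(1, true)] ++ wg ++ wg))⁻¹) *
      (evB (h ++ [(1, true)] ++ wg ++ wg ++ wg) * gV *
        (evB (h ++ [(1, true)] ++ wg ++ wg ++ wg))⁻¹) =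
    (evB (h ++ wg) * gV * (evB (h ++ wg))⁻¹) *
      (evB (h ++ wg ++ wg) * gV * (evB (h ++ wg ++ wg))⁻¹) *
      (evB (h ++ wg ++ wg ++ wg) * gV * (evB (h ++ wg ++ wg ++ wg))⁻¹) := by
  have e : evB [(1, true)] = gT := by simp [evB, gB]
  have := rel_V (evB h)
  simp only [evB_append, e]
  simpa only [pow_succ, pow_zero, one_mul, mul_assoc] using this

theorem inN_left (h : Wd) (h0 : InN (h ++ [(1, true)] ++ wg))
    (h2 : InN (h ++ [(1, true)] ++ wg ++ wg ++ wg)) (h3 : InN (h ++ wg))
    (h4 : InN (h ++ wg ++ wg)) (h5 : InN (h ++ wg ++ wg ++ wg)) :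
    InN (h ++ [(1, true)] ++ wg ++ wg) := by
  have := mul_mem (mul_mem h3 h4) h5
  rw [← rel_W] at this
  exact (mul_mem_cancel_left h0).1 ((mul_mem_cancel_right h2).1 this)

theorem inN_right (h : Wd) (h0 : InN (h ++ [(1, true)] ++ wg))
    (h1 : InN (h ++ [(1, true)] ++ wg ++ wg))
    (h2 : InN (h ++ [(1, true)] ++ wg ++ wg ++ wg)) (h3 : InN (h ++ wg))
    (h5 : InN (h ++ wg ++ wg ++ wg)) : InN (h ++ wg ++ wg) := by
  have := mul_mem (mul_mem h0 h1) h2
  rw [rel_W] at this
  exact (mul_mem_cancel_left h3).1 ((mul_mem_cancel_right h5).1 this)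

theorem inN_conn (W : Wd) (i : ℕ) (k j : ℤ)
    (e : i ≠ 0 ∧ i ≤ 6 ∧ SameW 2 W (powW wZ k ++ wH i ++ powW [(0, true)] j)) : InN W :=
  (inN_base i e.1 e.2.1).conn k j e.2.2

theorem inN_step (l j : ℕ) (hl : l < 2) (h1 : j ≠ 0) (h2 : j ≤ 6) : InN ([(l, true)] ++ wH j) := by
  have h0 : 1 ≤ j := by omega
  interval_cases l <;> interval_cases j
  · exact inN_conn _ 1 0 1 (by decide +kernel)
  · exact inN_conn _ 3 1 (-2) (by decide +kernel)
  · exact inN_conn _ 5 0 0 (by decide +kernel)
  · exact inN_conn _ 2 0 0 (by decide +kernel)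
  · exact (inN_right [(0, true), (1, false)] (inN_conn _ 2 0 3 (by decide +kernel))
      (inN_conn _ 4 1 2 (by decide +kernel)) (inN_conn _ 1 2 1 (by decide +kernel))
      (inN_conn _ 1 0 4 (by decide +kernel)) (inN_conn _ 5 2 0 (by decide +kernel))).conn
      (-1) (-1) (by decide +kernel)
  · exact (inN_left [(0, true), (1, true), (0, true)] (inN_conn _ 5 1 2 (by decide +kernel))
      (inN_conn _ 3 3 (-1) (by decide +kernel)) (inN_conn _ 3 1 2 (by decide +kernel))
      (inN_conn _ 6 2 1 (by decide +kernel)) (inN_conn _ 2 2 1 (by decide +kernel))).conn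
      (-2) (-1) (by decide +kernel)
  · exact inN_conn _ 4 0 0 (by decide +kernel)
  · exact inN_conn _ 2 0 1 (by decide +kernel)
  · exact inN_conn _ 1 0 0 (by decide +kernel)
  · exact (inN_right [(1, true), (0, true)] (inN_conn _ 3 1 2 (by decide +kernel))
      (inN_conn _ 6 2 1 (by decide +kernel)) (inN_conn _ 2 2 1 (by decide +kernel))
      (inN_conn _ 2 0 4 (by decide +kernel)) (inN_conn _ 4 2 1 (by decide +kernel))).conn
      (-1) (-2) (by decide +kernel)
  · exact (inN_left [(1, false)] (inN_conn _ 4 0 3 (by decide +kernel))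
      (inN_conn _ 1 2 0 (by decide +kernel)) (inN_conn _ 1 0 3 (by decide +kernel))
      (inN_conn _ 5 1 1 (by decide +kernel)) (inN_conn _ 3 2 0 (by decide +kernel))).conn
      (-1) (-1) (by decide +kernel)
  · exact inN_conn _ 3 0 0 (by decide +kernel)

theorem conj_gB (l : ℕ) (hl : l < 2) {x : AG} (hx : x ∈ subN) : gB l * x * (gB l)⁻¹ ∈ subN := by
  have e : evB [(l, true)] = gB l := by simp [evB]
  have key : subN.map (MulAut.conj (gB l)).toMonoidHom ≤ subN := by
    rw [subN, FreeGroup.range_lift_eq_closure, MonoidHom.map_closure, closure_le]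
    rintro _ ⟨_, ⟨j, rfl⟩, rfl⟩
    rw [← FreeGroup.range_lift_eq_closure]
    show gB l * genN j * (gB l)⁻¹ ∈ subN
    unfold genN
    split_ifs with h1 h2
    · have : evB ([(l, true)] ++ wZ) = evB (wZ ++ [(l, true)]) :=
        (show SameW 2 _ _ by interval_cases l <;> decide +kernel).lift braid_gB
      rw [evB_append, evB_append, e] at this
      rw [this, mul_inv_cancel_right]
      simpa [genN] using genN_mem 0
    · have := inN_step l j hl h1 h2
      rw [InN, evB_append, e] at this
      convert this using 1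
      group
    · simp
  exact key ⟨x, hx, rfl⟩

theorem mem_normalizer_gB (l : ℕ) (hl : l < 2) : gB l ∈ normalizer (subN : Set AG) := by
  have hz : evB wZ ∈ subN := by simpa [genN] using genN_mem 0
  have c0 := fun x hx => conj_gB 0 (by omega) (x := x) hx
  have c1 := fun x hx => conj_gB 1 (by omega) (x := x) hx
  have ez : evB wZ = gB 0 * gB 1 * gB 0 * gB 1 * gB 0 * gB 1 := by simp [evB, wZ, mul_assoc]
  refine mem_normalizer_iff.2 fun x => ⟨conj_gB l hl, fun hx => ?_⟩
  interval_cases l
  · have := c1 _ (c0 _ (c1 _ (c0 _ (c1 _ (mul_mem (mul_mem (inv_mem hz) hx) hz)))))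
    convert this using 1
    rw [ez]; group
  · have := mul_mem (mul_mem (inv_mem hz) (c0 _ (c1 _ (c0 _ (c1 _ (c0 _ hx)))))) hz
    convert this using 1
    rw [ez]; group

theorem gV_mem : gV ∈ subN := by simpa [genN, wH, evB, mk_nil] using genN_mem 1

theorem AG_ind {H : Subgroup AG} (h0 : gS ∈ H) (h1 : gT ∈ H) (h2 : gU ∈ H) (a : AG) : a ∈ H := by
  have : H = ⊤ := by
    rw [eq_top_iff, ← PresentedGroup.closure_range_of, closure_le]
    rintro _ ⟨v, rfl⟩
    fin_cases v
    exacts [h0, h1, h2]
  rw [this]; trivial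

theorem gU_eq : gU = gS ^ 3 * gV := by rw [gV]; group

instance subN_normal : subN.Normal := by
  rw [← normalizer_eq_top_iff, eq_top_iff]
  intro a _
  refine AG_ind (mem_normalizer_gB 0 (by omega)) (mem_normalizer_gB 1 (by omega)) ?_ a
  rw [gU_eq]
  exact mul_mem (pow_mem (mem_normalizer_gB 0 (by omega)) 3) (le_normalizer gV_mem)

theorem AG_decomp (a : AG) : ∃ ν ∈ subN, ∃ β ∈ closure (gB '' Ico 0 2), ν * β = a := by
  have h0 : gS ∈ closure (gB '' Ico 0 2) := subset_closure ⟨0, by simp, rfl⟩
  have h1 : gT ∈ closure (gB '' Ico 0 2) := subset_closure ⟨1, by simp, rfl⟩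
  have : a ∈ subN ⊔ closure (gB '' Ico 0 2) := by
    refine AG_ind (mem_sup_right h0) (mem_sup_right h1) ?_ a
    rw [gU_eq]
    exact mul_mem (mem_sup_right (pow_mem h0 3)) (mem_sup_left gV_mem)
  rw [← SetLike.mem_coe, normal_mul] at this
  exact this

/-- The action on the free group. -/
def homP : AG →* MulAut Fr := homG psi (braidRel_psi 0 7)

theorem homG_of (g : ℕ → G) (hg : BraidRel g 0 7) (v : Fin 3) :
    homG g hg (PresentedGroup.of v) = FreeGroup.lift g (mk (wG v)) := by
  rw [homG, artinLift_of]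

theorem homP_of (v : Fin 3) : homP (PresentedGroup.of v) = Psi (mk (wG v)) := homG_of _ _ v
theorem homQ_of (v : Fin 3) : homQ (PresentedGroup.of v) = Psi (mk (wQ v)) := artinLift_of _ _ _ v

def wK : ℕ → Wd
  | 2 => [(0, true)]
  | 4 => [(1, true)]
  | 6 => [(2, true)]
  | _ => []

def homK : Fr →* Fr := FreeGroup.lift fun j => mk (wK j)

theorem homK_of (j : ℕ) : homK (of j) = mk (wK j) := by simp [homK]

theorem homK_homP (a : AG) : ∀ w, homK (homP a w) = homQ a (homK w) := by
  have key : ∀ v : Fin 3, ∀ w, homK (homP (PresentedGroup.of v) w) =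
      homQ (PresentedGroup.of v) (homK w) := by
    intro v w
    have : homK.comp (homP (PresentedGroup.of v)).toMonoidHom =
        (homQ (PresentedGroup.of v)).toMonoidHom.comp homK := by
      ext j
      show homK (homP (PresentedGroup.of v) (of j)) = homQ (PresentedGroup.of v) (homK (of j))
      rw [homP_of, homQ_of]
      by_cases hj : 7 < j
      · rw [Psi_fix (b := 7) (by revert v; decide) hj, homK_of]
        obtain ⟨k, rfl⟩ : ∃ k, j = k + 8 := ⟨j - 8, by omega⟩
        exact (map_one _).symm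
      · rw [Psi_mk_of, hom_mk homK wK homK_of, homK_of, Psi_mk]
        have : ∀ v : Fin 3, ∀ j ∈ List.range 8,
            subW wK (run (wG v) [(j, true)]) = run (wQ v) (wK j) := by decide +kernel
        rw [this v j (List.mem_range.2 (by omega))]
    exact DFunLike.congr_fun this w
  let H : Subgroup AG :=
    { carrier := {a | ∀ w, homK (homP a w) = homQ a (homK w)}
      one_mem' := by simp
      mul_mem' := fun {x y} hx hy w => by
        rw [map_mul, map_mul, MulAut.mul_apply, MulAut.mul_apply, hx, hy]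
      inv_mem' := fun {x} hx w => by
        have := hx ((homP x)⁻¹ w)
        rw [MulAut.apply_inv_self] at this
        rw [this, map_inv, map_inv, MulAut.inv_apply_self] }
  exact AG_ind (H := H) (key 0) (key 1) (key 2) a

theorem homQ_gB (i : ℕ) (h : i < 2) : homQ (gB i) = psi i := by
  interval_cases i
  · exact (homQ_of 0).trans (Psi_of 0)
  · exact (homQ_of 1).trans (Psi_of 1)

theorem homQ_gV : homQ gV = 1 := by
  rw [gV, map_mul, map_inv, map_pow, gS, gU, homQ_of, homQ_of, inv_mul_eq_one, ← map_pow]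
  congr 1

theorem homQ_fix (a : AG) {j : ℕ} (hj : 2 < j) : homQ a (of j) = of j := by
  obtain ⟨ν, hν, β, hβ, rfl⟩ := AG_decomp a
  have key : ∀ v : Fin 3, homQ (PresentedGroup.of v) (of j) = of j := fun v => by
    rw [homQ_of, Psi_fix (b := 2) (by revert v; decide) hj]
  exact AG_ind (H := (MulAction.stabilizer (MulAut Fr) (of j : Fr)).comap homQ)
    (key 0) (key 1) (key 2) _

theorem mem_subN_of {a : AG} (h : homP a = 1) : a ∈ subN := by
  have h1 : homQ a = 1 := by
    refine aut_ext fun j => ?_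
    by_cases hj : 2 < j
    · exact homQ_fix a hj
    · have := homK_homP a (of (2 * j + 2))
      rw [h, homK_of] at this
      have e : mk (wK (2 * j + 2)) = of j := by interval_cases j <;> rfl
      rw [e] at this
      rw [← this, MulAut.one_apply, MulAut.one_apply, homK_of, e]
  obtain ⟨ν, hν, β, hβ, rfl⟩ := AG_decomp a
  have hz : evB wZ ∈ subN := by simpa [genN] using genN_mem 0
  have h2 : subN.map homQ ≤ zpowers (homQ (evB wZ)) := by
    rw [subN, FreeGroup.range_lift_eq_closure, MonoidHom.map_closure, closure_le]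
    rintro _ ⟨_, ⟨j, rfl⟩, rfl⟩
    unfold genN
    split_ifs
    · exact mem_zpowers _
    · simp [homQ_gV]
    · simp
  obtain ⟨k, hk⟩ := h2 ⟨ν, hν, rfl⟩
  have h3 : evB wZ ^ k * β = 1 := by
    refine braid_gB.faithful' (by omega) homQ (fun i _ => homQ_gB i)
      (mul_mem (zpow_mem (lift_mk_mem gB (by decide)) k) hβ) ?_
    rw [map_mul, map_zpow]
    rw [map_mul, ← hk] at h1
    exact h1
  rw [eq_inv_of_mul_eq_one_right h3]
  exact mul_mem hν (inv_mem (zpow_mem hz k))

def wD : Wd := [(1, true), (2, true), (3, true), (4, true), (5, true), (6, true), (7, true)]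
def wPr (j : ℕ) : Wd := if 1 ≤ j ∧ j ≤ 7 then [(j, true)] else []
def wEv (W : Wd) : Wd := W.flatMap fun x =>
  if x.2 then (if x.1 = 0 then wS else wT) else invRev (if x.1 = 0 then wS else wT)

theorem projF_of (j : ℕ) : projF 1 7 (of j) = mk (wPr j) := by
  rw [projF, FreeGroup.lift_apply_of, wPr]; split_ifs <;> rfl

theorem homP_evB (W : Wd) : homP (evB W) = Psi (mk (wEv W)) := by
  induction W with
  | nil => simp [evB, wEv, mk_nil]
  | cons x W ih =>
    have e : homP (gB x.1) = Psi (mk (if x.1 = 0 then wS else wT)) := by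
      unfold gB; split_ifs
      exacts [homP_of 0, homP_of 1]
    rw [wEv, List.flatMap_cons, ← FreeGroup.mul_mk, map_mul, ← wEv, ← ih, evB, mk_cons, map_mul,
      map_mul]
    congr 1
    split_ifs with h1 h2 h2
    · simpa [h2] using e
    · simpa [h2] using e
    · rw [← FreeGroup.inv_mk, map_inv, map_inv, map_inv]; simpa [h2] using e
    · rw [← FreeGroup.inv_mk, map_inv, map_inv, map_inv]; simpa [h2] using e

theorem push_of_check (W E C V : Wd) (h0 : ∀ s ∈ W, s.1 < 7)
    (h1 : ∀ j ∈ List.range 8,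
      subW wPr (run W [(j, true)]) = reduce (invRev E ++ wPr j ++ E))
    (h2 : run W [(0, true)] = reduce (invRev C ++ [(0, true)] ++ C))
    (h3 : subW wPr C = reduce (V ++ E)) : Push (projF 1 7) 0 (Psi (mk W)) (mk E) (mk V) := by
  refine ⟨fun x => ?_, mk C, ?_, ?_⟩
  · have : (projF 1 7).comp (Psi (mk W)).toMonoidHom =
        (MulAut.conj (mk E)⁻¹).toMonoidHom.comp (projF 1 7) := by
      ext j
      show projF 1 7 (Psi (mk W) (of j)) = (mk E)⁻¹ * projF 1 7 (of j) * (mk E)⁻¹⁻¹
      by_cases hj : 7 < j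
      · rw [Psi_fix h0 hj, projF_of, wPr, if_neg (by omega), mk_nil]; group
      · rw [Psi_mk_of, hom_mk _ wPr projF_of, h1 j (List.mem_range.2 (by omega)),
          FreeGroup.reduce.self, ← FreeGroup.mul_mk, ← FreeGroup.mul_mk, ← FreeGroup.inv_mk,
          projF_of, inv_inv]
    simpa using DFunLike.congr_fun this x
  · rw [Psi_mk_of, h2, FreeGroup.reduce.self, ← FreeGroup.mul_mk, ← FreeGroup.mul_mk,
      ← FreeGroup.inv_mk]; rfl
  · rw [hom_mk _ wPr projF_of, h3, FreeGroup.reduce.self, FreeGroup.mul_mk]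

/-- The second half of a word of odd length. -/
def half (L : Wd) : Wd := L.drop (L.length / 2 + 1)

theorem push_genN (j : ℕ) :
    ∃ e ∈ zpowers (mk wD : Fr), Push (projF 1 7) 0 (homP (genN j)) e (mk (wTheta j)) := by
  unfold genN
  split_ifs with h1 h2
  · refine ⟨_, mem_zpowers _, ?_⟩
    rw [homP_evB, h1]
    exact push_of_check _ wD [] _ (by decide +kernel) (by decide +kernel) (by decide +kernel)
      (by decide +kernel)
  · refine ⟨1, one_mem _, ?_⟩
    have e : homP gV = Psi (mk wP) := by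
      rw [gV, map_mul, map_inv, map_pow, gS, gU, homP_of, homP_of, inv_mul_eq_iff_eq_mul,
        ← map_pow, ← map_mul]
      congr 1
    rw [map_mul, map_mul, map_inv, homP_evB, e, ← map_inv, ← map_mul, ← map_mul, FreeGroup.inv_mk,
      FreeGroup.mul_mk, FreeGroup.mul_mk]
    have h0 : 1 ≤ j := by omega
    refine push_of_check _ [] (half (run (wEv (wH j) ++ wP ++ invRev (wEv (wH j))) [(0, true)])) _
      ?_ ?_ ?_ ?_ <;> interval_cases j <;> decide +kernel
  · obtain ⟨k, rfl⟩ : ∃ k, j = k + 7 := ⟨j - 7, by omega⟩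
    exact ⟨1, one_mem _, by rw [map_one]; exact Push.one _ _⟩

theorem push_subN (w : Fr) : ∃ e ∈ zpowers (mk wD : Fr), Push (projF 1 7) 0
    (homP (FreeGroup.lift genN w)) e (FreeGroup.lift (fun j => (mk (wTheta j) : Fr)) w) := by
  induction w using FreeGroup.induction_on with
  | C1 => exact ⟨1, one_mem _, by rw [map_one, map_one, map_one]; exact Push.one _ _⟩
  | of j => rw [FreeGroup.lift_apply_of, FreeGroup.lift_apply_of]; exact push_genN j
  | inv_of j ih =>
    obtain ⟨e, h1, h2⟩ := ih
    exact ⟨e⁻¹, inv_mem h1, by rw [map_inv, map_inv, map_inv]; exact h2.inv⟩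
  | mul c d hc hd =>
    obtain ⟨e, h1, h2⟩ := hc
    obtain ⟨e', h3, h4⟩ := hd
    exact ⟨e' * e, mul_mem h3 h1, by rw [map_mul, map_mul, map_mul]; exact h2.mul h4⟩

theorem homP_injective {a : AG} (h : homP a = 1) : a = 1 := by
  obtain ⟨w, rfl⟩ := mem_subN_of h
  obtain ⟨e, ⟨k, rfl⟩, h2⟩ := push_subN w
  rw [h] at h2
  have h3 := h2.eq_one (by simp [projF])
  have h4 := h2.1 (of 1)
  have e1 : projF 1 7 (of 1) = of 1 := by simp [projF]
  rw [MulAut.one_apply, e1] at h4
  have h5 := congrArg (FreeGroup.lift fun j : ℕ => Multiplicative.ofAdd (if j = 2 then (1 : ℤ) else 0))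
    (kill_eq_one h4.symm)
  have e2 : kill 1 (mk wD) = of 2 * of 3 * of 4 * of 5 * of 6 * of 7 := by
    simp [wD, mk_cons, mk_nil, kill_of, mul_assoc]
  have hk : k = 0 := by
    rw [map_zpow, e2] at h5
    simpa [← ofAdd_zsmul] using h5
  simp only [hk, zpow_zero, mul_one] at h3
  have e3 : (FreeGroup.lift genN).comp ((FreeGroup.lift fun j => (mk (wEta j) : Fr)).comp
      (FreeGroup.lift fun j => (mk (wTheta j) : Fr))) = FreeGroup.lift genN := by
    ext j
    simp only [MonoidHom.comp_apply, FreeGroup.lift_apply_of]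
    by_cases hj : j ≤ 6
    · rw [hom_mk _ wEta (fun j => FreeGroup.lift_apply_of)]
      have : ∀ j ∈ List.range 7, subW wEta (wTheta j) = [(j, true)] := by decide +kernel
      rw [this j (List.mem_range.2 (by omega))]
      exact FreeGroup.lift_apply_of
    · obtain ⟨k, rfl⟩ : ∃ k, j = k + 7 := ⟨j - 7, by omega⟩
      rw [genN, if_neg (by omega), if_neg hj]
      exact (congrArg _ (map_one _)).trans (map_one _)
  rw [← e3, MonoidHom.comp_apply, MonoidHom.comp_apply, h3, map_one, map_one]

end Pool.Agent.MP_6eaae3_al
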