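import Mathlib.Analysis.SpecialFunctions.Trigonometric.Basic
import Pool.Agent.MP_6eaae3_al.Transport
import Pool.Agent.MP_6eaae3_al.Braid

/-! Half twists in the plane and their braid relations up to isotopy. -/

namespace Pool.Agent.MP_6eaae3_al

open Topology Filter unitInterval Set Metric Real

noncomputable def rotF (φ : C(ℝ, ℝ)) (m : ℂ) (θ : ℝ) (z : ℂ) : ℂ :=
  m + Complex.exp (((-(θ * φ ‖z - m‖) : ℝ) : ℂ) * Complex.I) * (z - m)

theorem norm_rotF (φ : C(ℝ, ℝ)) (m : ℂ) (θ : ℝ) (z : ℂ) : ‖rotF φ m θ z - m‖ = ‖z - m‖ := by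
  rw [rotF, add_sub_cancel_left, norm_mul, Complex.norm_exp_ofReal_mul_I, one_mul]

theorem rotF_add (φ : C(ℝ, ℝ)) (m : ℂ) (θ θ' : ℝ) (z : ℂ) :
    rotF φ m θ (rotF φ m θ' z) = rotF φ m (θ + θ') z := by
  rw [rotF, norm_rotF, rotF, rotF, add_sub_cancel_left, ← mul_assoc, ← Complex.exp_add]
  congr 3; push_cast; ring

theorem rotF_zero (φ : C(ℝ, ℝ)) (m : ℂ) (z : ℂ) : rotF φ m 0 z = z := by simp [rotF]

theorem continuous_rotF (φ : C(ℝ, ℝ)) : Continuous fun p : ℂ × ℝ × ℂ => rotF φ p.1 p.2.1 p.2.2 := by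
  unfold rotF; fun_prop

/-- Clockwise rotation about `m` by the angle `θ * φ ‖z - m‖`. -/
noncomputable def rot (φ : C(ℝ, ℝ)) (m : ℂ) (θ : ℝ) : ℂ ≃ₜ ℂ where
  toFun := rotF φ m θ
  invFun := rotF φ m (-θ)
  left_inv z := by rw [rotF_add, neg_add_cancel, rotF_zero]
  right_inv z := by rw [rotF_add, add_neg_cancel, rotF_zero]
  continuous_toFun := (continuous_rotF φ).comp (by fun_prop : Continuous fun z => (m, θ, z))
  continuous_invFun := (continuous_rotF φ).comp (by fun_prop : Continuous fun z => (m, -θ, z))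

theorem rot_apply (φ : C(ℝ, ℝ)) (m : ℂ) (θ : ℝ) (z : ℂ) : rot φ m θ z = rotF φ m θ z := rfl

theorem rot_family (φ : C(ℝ, ℝ)) {T : Type} [TopologicalSpace T] {m : T → ℂ} {θ : T → ℝ}
    (hm : Continuous m) (hθ : Continuous θ) : IsFamily fun t => rot φ (m t) (θ t) :=
  ⟨(continuous_rotF φ).comp (by fun_prop : Continuous fun p : T × ℂ => (m p.1, θ p.1, p.2)),
    (continuous_rotF φ).comp (by fun_prop : Continuous fun p : T × ℂ => (m p.1, -θ p.1, p.2))⟩

theorem rot_zero (φ : C(ℝ, ℝ)) (m : ℂ) : rot φ m 0 = 1 := by ext z; exact rotF_zero φ m z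

theorem rot_add (φ : C(ℝ, ℝ)) (m : ℂ) (θ θ' : ℝ) : rot φ m θ * rot φ m θ' = rot φ m (θ + θ') := by
  ext z; exact rotF_add φ m θ θ' z

theorem rot_of_zero {φ : C(ℝ, ℝ)} {m z : ℂ} (θ : ℝ) (h : φ ‖z - m‖ = 0) : rot φ m θ z = z := by
  simp [rot_apply, rotF, h]

theorem rot_of_one {φ : C(ℝ, ℝ)} {m z : ℂ} (θ : ℝ) (h : φ ‖z - m‖ = 1) :
    rot φ m θ z = m + ((cos θ : ℂ) - (sin θ : ℂ) * Complex.I) * (z - m) := by
  rw [rot_apply, rotF, h, mul_one, Complex.exp_mul_I]
  push_cast
  rw [Complex.cos_neg, Complex.sin_neg]; ring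

theorem rot_commute {φ φ' : C(ℝ, ℝ)} {m m' : ℂ} {ρ ρ' : ℝ} (h : ∀ x, ρ ≤ x → φ x = 0)
    (h' : ∀ x, ρ' ≤ x → φ' x = 0) (hm : ρ + ρ' ≤ ‖m - m'‖) (θ θ' : ℝ) :
    Commute (rot φ m θ) (rot φ' m' θ') := by
  have key : ∀ z, ‖z - m‖ < ρ → ρ' ≤ ‖z - m'‖ := fun z hz => by
    have := norm_sub_le (z - m') (z - m)
    rw [sub_sub_sub_cancel_left] at this
    linarith
  ext z
  show rot φ m θ (rot φ' m' θ' z) = rot φ' m' θ' (rot φ m θ z)
  by_cases e : ‖z - m‖ < ρ
  · rw [rot_of_zero θ' (h' _ (key z e)), rot_of_zero θ' (h' _ (key _ (by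
      rw [rot_apply, norm_rotF]; exact e)))]
  · rw [rot_of_zero θ (h _ (not_lt.1 e))]
    by_cases e' : ‖rot φ' m' θ' z - m‖ < ρ
    · have := key _ e'
      rw [rot_apply, norm_rotF] at this
      rw [rot_of_zero θ' (h' _ this), rot_of_zero θ (h _ (not_lt.1 e))]
    · rw [rot_of_zero θ (h _ (not_lt.1 e'))]

/-- Positions of the marked points and profiles of the half twists. -/
structure Geo where
  N : ℕ
  R : ℝ
  a : ℕ → ℝ
  ρ : ℕ → ℝ
  φ : ℕ → C(ℝ, ℝ)
  η : ℝ
  mono : StrictMono a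
  one : ∀ i x, x ≤ (a (i + 1) - a i) / 2 → φ i x = 1
  zero : ∀ i x, ρ i ≤ x → φ i x = 0
  left : ∀ i, a i ≤ (a (i + 1) + a (i + 2)) / 2 - ρ (i + 1)
  right : ∀ i, (a i + a (i + 1)) / 2 + ρ i ≤ a (i + 2)
  far : ∀ i j, i + 1 < j → (a i + a (i + 1)) / 2 + ρ i ≤ (a j + a (j + 1)) / 2 - ρ j
  inn : ∀ i, i + 1 < N → |(a i + a (i + 1)) / 2| + ρ i ≤ R
  gap : ∀ i, (a (i + 1) - a i) / 2 ≤ η
  box : ∀ j < N, |a j| + η < R

namespace Geo

variable (g : Geo)

noncomputable def mid (i : ℕ) : ℝ := (g.a i + g.a (i + 1)) / 2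
noncomputable def rad (i : ℕ) : ℝ := (g.a (i + 1) - g.a i) / 2
noncomputable def tw (i : ℕ) (θ : ℝ) : ℂ ≃ₜ ℂ := rot (g.φ i) (g.mid i) θ

theorem rad_pos (i : ℕ) : 0 < g.rad i := by
  have := g.mono (Nat.lt_succ_self i); unfold rad; linarith

theorem tw_family (i : ℕ) {T : Type} [TopologicalSpace T] {θ : T → ℝ} (hθ : Continuous θ) :
    IsFamily fun t => g.tw i (θ t) := rot_family _ continuous_const hθ

theorem tw_real (i : ℕ) (θ : ℝ) {x : ℝ} (h : g.ρ i ≤ |x - g.mid i|) : g.tw i θ x = x :=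
  rot_of_zero θ (g.zero i _ (by rwa [← Complex.ofReal_sub, Complex.norm_real]))

theorem tw_ne {i j : ℕ} (h1 : j ≠ i) (h2 : j ≠ i + 1) (θ : ℝ) : g.tw i θ (g.a j) = g.a j := by
  refine g.tw_real i θ ?_
  rcases lt_or_gt_of_ne h1 with h | h
  · obtain ⟨k, rfl⟩ : ∃ k, i = k + 1 := ⟨i - 1, by omega⟩
    have := g.left k
    have := g.mono.monotone (show j ≤ k by omega)
    refine le_abs.2 (Or.inr ?_); unfold mid; linarith
  · have := g.right i
    have := g.mono.monotone (show i + 2 ≤ j by omega)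
    refine le_abs.2 (Or.inl ?_); unfold mid; linarith

theorem tw_left (i : ℕ) (θ : ℝ) :
    g.tw i θ (g.a i) = ⟨g.mid i - g.rad i * cos θ, g.rad i * sin θ⟩ := by
  have e : (g.a i : ℂ) - g.mid i = -(g.rad i : ℝ) := by simp only [mid, rad]; push_cast; ring
  rw [tw, rot_of_one θ (g.one i _ (by
    rw [e, norm_neg, Complex.norm_real, Real.norm_of_nonneg (g.rad_pos i).le]; rfl)), e]
  apply Complex.ext <;> simp [Complex.cos_ofReal_re, Complex.sin_ofReal_re] <;> ring

theorem tw_right (i : ℕ) (θ : ℝ) :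
    g.tw i θ (g.a (i + 1)) = ⟨g.mid i + g.rad i * cos θ, -(g.rad i * sin θ)⟩ := by
  have e : (g.a (i + 1) : ℂ) - g.mid i = (g.rad i : ℝ) := by simp only [mid, rad]; push_cast; ring
  rw [tw, rot_of_one θ (g.one i _ (by
    rw [e, Complex.norm_real, Real.norm_of_nonneg (g.rad_pos i).le]; rfl)), e]
  apply Complex.ext <;> simp [Complex.cos_ofReal_re, Complex.sin_ofReal_re] <;> ring

theorem tw_pi (i j : ℕ) : g.tw i π (g.a j) = g.a (Equiv.swap i (i + 1) j) := by
  by_cases h1 : j = i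
  · rw [h1, tw_left, Equiv.swap_apply_left]
    apply Complex.ext <;> simp [mid, rad]; ring
  by_cases h2 : j = i + 1
  · rw [h2, tw_right, Equiv.swap_apply_right]
    apply Complex.ext <;> simp [mid, rad]; ring
  · rw [g.tw_ne h1 h2, Equiv.swap_apply_of_ne_of_ne h1 h2]

theorem tw_mem {i : ℕ} (h : i + 1 < g.N) (θ : ℝ) : g.tw i θ ∈ Hc g.R := fun z hz =>
  rot_of_zero θ (g.zero i _ (by
    have h1 := norm_sub_norm_le z (g.mid i)
    have h2 := g.inn i h
    rw [Complex.norm_real] at h1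
    have : g.R ≤ ‖z‖ := hz
    have e : ‖g.mid i‖ = |(g.a i + g.a (i + 1)) / 2| := rfl
    linarith))

/-- The points with index in `J`. -/
def pts (J : Set ℕ) : Set ℂ := (fun j => (g.a j : ℂ)) '' J

theorem tw_pts {J : Set ℕ} {i : ℕ} (h : i ∈ J ↔ i + 1 ∈ J) (z : ℂ) :
    g.tw i π z ∈ g.pts J ↔ z ∈ g.pts J := by
  have sw : ∀ j ∈ J, Equiv.swap i (i + 1) j ∈ J := fun j hj => by
    rw [Equiv.swap_apply_def]; split_ifs with h1 h2
    · exact h.1 (h1 ▸ hj)
    · exact h.2 (h2 ▸ hj)
    · exact hj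
  constructor
  · rintro ⟨j, hj, e⟩
    refine ⟨_, sw j hj, (g.tw i π).injective ?_⟩
    rw [← e, tw_pi, Equiv.swap_apply_self]
  · rintro ⟨j, hj, rfl⟩
    exact ⟨_, sw j hj, (g.tw_pi i j).symm⟩

end Geo

/-- Homeomorphisms that preserve a set. -/
def keep {X : Type} [TopologicalSpace X] (P : Set X) : Subgroup (X ≃ₜ X) where
  carrier := {h | ∀ z, h z ∈ P ↔ z ∈ P}
  one_mem' := fun _ => Iff.rfl
  mul_mem' := fun {f g} hf hg z => (hf (g z)).trans (hg z)
  inv_mem' := fun {f} hf z => by rw [← hf]; simp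

noncomputable def ramp (k : ℝ) (t : I) : ℝ := max 0 (min 1 (3 * t - k))

@[fun_prop] theorem continuous_ramp (k : ℝ) : Continuous (ramp k) := by unfold ramp; fun_prop
theorem ramp_nonneg (k : ℝ) (t : I) : 0 ≤ ramp k t := le_max_left _ _
theorem ramp_le (k : ℝ) (t : I) : ramp k t ≤ 1 := max_le zero_le_one (min_le_left _ _)
theorem ramp_zero {k : ℝ} {t : I} (h : 3 * (t : ℝ) ≤ k) : ramp k t = 0 :=
  max_eq_left (min_le_of_right_le (by linarith))
theorem ramp_one {k : ℝ} {t : I} (h : k + 1 ≤ 3 * (t : ℝ)) : ramp k t = 1 := by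
  rw [ramp, min_eq_left (by linarith), max_eq_right zero_le_one]

namespace Geo

variable (g : Geo)

/-- The group of homeomorphisms of the disc that permute the marked points. -/
noncomputable def Hp : Subgroup (ℂ ≃ₜ ℂ) := Hc g.R ⊓ keep (g.pts (Iio g.N))

theorem tw_Hp {i : ℕ} (h : i + 1 < g.N) : g.tw i π ∈ g.Hp :=
  ⟨g.tw_mem h π, g.tw_pts (by simp only [mem_Iio]; omega)⟩

/-- Configurations in which a strand with a smaller label passes above. -/
def Good (d : Fin g.N → ℂ) : Prop :=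
  (∀ l l', l < l' → (d l).re = (d l').re → (d l').im < (d l).im) ∧
    ∀ l, |(d l).re| + g.η < g.R ∧ |(d l).im| ≤ g.η

theorem good_tw {i : ℕ} (hi : i + 1 < g.N) {θ : ℝ} (h0 : 0 ≤ θ) (h1 : θ ≤ π) {p : ℕ → ℕ}
    (hp : Function.Injective p) (hN : ∀ l < g.N, p l < g.N)
    (ho : ∀ l l', p l = i + 1 → p l' = i → l' < l) :
    g.Good fun l => g.tw i θ (g.a (p l)) := by
  have hr := g.rad_pos i
  have hs : 0 ≤ sin θ := sin_nonneg_of_nonneg_of_le_pi h0 h1
  have c1 : g.rad i * cos θ ≤ g.rad i := mul_le_of_le_one_right hr.le (cos_le_one θ)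
  have c2 : -g.rad i ≤ g.rad i * cos θ := by nlinarith [neg_one_le_cos θ]
  have c3 : g.rad i * sin θ ≤ g.η := (mul_le_of_le_one_right hr.le (sin_le_one θ)).trans (g.gap i)
  have c4 : 0 ≤ g.rad i * sin θ := by positivity
  have e1 : g.a i = g.mid i - g.rad i := by unfold mid rad; ring
  have e2 : g.a (i + 1) = g.mid i + g.rad i := by unfold mid rad; ring
  have out : ∀ j, j ≠ i → j ≠ i + 1 → ∀ x, g.a i ≤ x → x ≤ g.a (i + 1) → g.a j ≠ x := by
    intro j j1 j2 x x1 x2
    rcases lt_or_gt_of_ne j1 with h | h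
    · exact ((g.mono h).trans_le x1).ne
    · exact (x2.trans_lt (g.mono (by omega))).ne'
  have hη : 0 ≤ g.η := hr.le.trans (g.gap i)
  refine ⟨fun l l' hl => ?_, fun l => ?_⟩
  · have hne : p l ≠ p l' := hp.ne (fun e => hl.ne (Fin.ext e))
    by_cases a1 : p l = i
    · by_cases b2 : p l' = i + 1
      · simp only [a1, b2, tw_left, tw_right]
        intro h
        have : cos θ = 0 := by
          have : g.rad i * cos θ = 0 := by linarith
          exact (mul_eq_zero.1 this).resolve_left hr.ne'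
        have h2 := sin_sq_add_cos_sq θ
        have : 0 < sin θ := hs.lt_of_ne fun e => by rw [← e, this] at h2; norm_num at h2
        nlinarith
      · simp only [a1, tw_left, g.tw_ne (a1 ▸ hne.symm) b2, Complex.ofReal_re]
        intro h
        exact (out _ (a1 ▸ hne.symm) b2 _ (by linarith) (by linarith) h.symm).elim
    by_cases a2 : p l = i + 1
    · by_cases b1 : p l' = i
      · exact absurd (ho _ _ a2 b1) (not_lt.2 (le_of_lt hl))
      · simp only [a2, tw_right, g.tw_ne b1 (a2 ▸ hne.symm), Complex.ofReal_re]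
        intro h
        exact (out _ b1 (a2 ▸ hne.symm) _ (by linarith) (by linarith) h.symm).elim
    simp only [g.tw_ne a1 a2, Complex.ofReal_re]
    intro h
    by_cases b1 : p l' = i
    · rw [b1, tw_left] at h
      exact (out _ a1 a2 _ (by linarith) (by linarith) h).elim
    by_cases b2 : p l' = i + 1
    · rw [b2, tw_right] at h
      exact (out _ a1 a2 _ (by linarith) (by linarith) h).elim
    rw [g.tw_ne b1 b2, Complex.ofReal_re] at h
    exact (hne (g.mono.injective h)).elim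
  · have b1 := g.box i (by omega)
    have b2 := g.box (i + 1) hi
    have bd : ∀ x, g.a i ≤ x → x ≤ g.a (i + 1) → |x| + g.η < g.R := fun x x1 x2 => by
      have := abs_le_max_abs_abs x1 x2
      rcases le_max_iff.1 this with h | h <;> linarith
    by_cases a1 : p l = i
    · simp only [a1, tw_left]
      exact ⟨bd _ (by linarith) (by linarith), by rw [abs_of_nonneg c4]; exact c3⟩
    by_cases a2 : p l = i + 1
    · simp only [a2, tw_right]
      exact ⟨bd _ (by linarith) (by linarith), by rw [abs_neg, abs_of_nonneg c4]; exact c3⟩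
    simp only [g.tw_ne a1 a2, Complex.ofReal_re, Complex.ofReal_im, abs_zero]
    exact ⟨g.box _ (hN l l.2), hη⟩

theorem cls_eq_of_good {H H' : I → ℂ ≃ₜ ℂ} (hH : IsFamily H) (hH' : IsFamily H')
    (hm : ∀ t, H t ∈ Hc g.R) (hm' : ∀ t, H' t ∈ Hc g.R) (h0 : H 0 = 1) (h0' : H' 0 = 1)
    (hg : ∀ t, g.Good fun l => H t (g.a l)) (hg' : ∀ t, g.Good fun l => H' t (g.a l))
    (h1 : ∀ l, H 1 (g.a l) = H' 1 (g.a l)) (h2 : ∀ l, (H 1 (g.a l)).im = 0) (hη : 0 < g.η)
    (k1 : H 1 ∈ g.Hp) : cls g.Hp (H 1) = cls g.Hp (H' 1) := by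
  let δ : I → Fin g.N → ℝ := fun t l => g.η * ((l : ℕ) / g.N) * (t * (1 - t))
  let Γ : I × I → Fin g.N → ℂ := fun p l =>
    (((1 - ramp 1 p.2) * (H p.1 (g.a l)).re + ramp 1 p.2 * (H' p.1 (g.a l)).re : ℝ) : ℂ) +
      (((1 - ramp 0 p.2) * (H p.1 (g.a l)).im + ramp 2 p.2 * (H' p.1 (g.a l)).im -
        (ramp 0 p.2 - ramp 2 p.2) * δ p.1 l : ℝ) : ℂ) * Complex.I
  have Γre : ∀ p l, (Γ p l).re =
      (1 - ramp 1 p.2) * (H p.1 (g.a l)).re + ramp 1 p.2 * (H' p.1 (g.a l)).re := by
    intro p l; simp only [Γ, Complex.add_re, Complex.ofReal_re, Complex.re_ofReal_mul,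
      Complex.I_re, mul_zero, add_zero]
  have Γim : ∀ p l, (Γ p l).im = (1 - ramp 0 p.2) * (H p.1 (g.a l)).im +
      ramp 2 p.2 * (H' p.1 (g.a l)).im - (ramp 0 p.2 - ramp 2 p.2) * δ p.1 l := by
    intro p l; simp only [Γ, Complex.add_im, Complex.ofReal_im, Complex.im_ofReal_mul,
      Complex.I_im, mul_one, zero_add]
  have ends : ∀ t : I, t = 0 ∨ t = 1 → ∀ l : ℕ, H' t (g.a l) = H t (g.a l) ∧ (H t (g.a l)).im = 0 := by
    rintro t (rfl | rfl) l
    · simp [h0, h0']
    · exact ⟨(h1 l).symm, h2 l⟩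
  have side : ∀ t : I, t = 0 ∨ t = 1 → ∀ s, Γ (t, s) = fun l : Fin g.N => H t (g.a l) := by
    intro t ht s
    funext l
    have e : δ t l = 0 := by rcases ht with rfl | rfl <;> simp [δ]
    apply Complex.ext
    · rw [Γre, (ends t ht l).1]; ring
    · rw [Γim, (ends t ht l).1, (ends t ht l).2, e]; ring
  have hc : ∀ p, Γ p ∈ Conf (Fin g.N) g.R := by
    rintro ⟨t, s⟩
    have r0 := ramp_nonneg 0 s; have r0' := ramp_le 0 s
    have r1 := ramp_nonneg 1 s; have r1' := ramp_le 1 s
    have r2 := ramp_nonneg 2 s; have r2' := ramp_le 2 s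
    have q1 : ramp 1 s = 0 ∨ ramp 0 s = 1 := by
      rcases le_total (3 * (s : ℝ)) 1 with h | h
      exacts [Or.inl (ramp_zero h), Or.inr (ramp_one (by linarith))]
    have q2 : ramp 1 s = 1 ∨ ramp 2 s = 0 := by
      rcases le_total (3 * (s : ℝ)) 2 with h | h
      exacts [Or.inr (ramp_zero h), Or.inl (ramp_one (by linarith))]
    have t0 := t.2.1; have t1 := t.2.2
    constructor
    · have key : ∀ l l' : Fin g.N, l < l' → Γ (t, s) l ≠ Γ (t, s) l' := by
        intro l l' hl e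
        by_cases ht : t = 0 ∨ t = 1
        · rw [side t ht] at e
          have := (hg t).1 l l' hl (congrArg Complex.re e)
          simp [(ends t ht l).2, (ends t ht l').2] at this
        have hδ : δ t l < δ t l' := by
          have p1 : (0 : ℝ) < t := t0.lt_of_ne fun h => ht (Or.inl (Subtype.ext h.symm))
          have p2 : (t : ℝ) < 1 := t1.lt_of_ne fun h => ht (Or.inr (Subtype.ext h))
          have p3 : (0 : ℝ) < g.N := Nat.cast_pos.2 (Fin.pos l)
          have p4 : ((l : ℕ) : ℝ) < (l' : ℕ) := Nat.cast_lt.2 hl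
          have p5 : (0 : ℝ) < t * (1 - t) := mul_pos p1 (by linarith)
          simp only [δ]; gcongr
        have e1 := congrArg Complex.re e
        have e2 := congrArg Complex.im e
        rw [Γre, Γre] at e1
        rw [Γim, Γim] at e2
        simp only at e1 e2
        have g1 := (hg t).1 l l' hl
        have g2 := (hg' t).1 l l' hl
        simp only at g1 g2
        rcases q1 with q1 | q1 <;> rcases q2 with q2 | q2
        · linarith
        · rw [q1] at e1; rw [q2] at e2
          have := g1 (by linarith)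
          rcases r0'.lt_or_eq with h | h
          · nlinarith
          · rw [h] at e2; linarith
        · rw [q2] at e1; rw [q1] at e2
          have := g2 (by linarith)
          rcases r2'.lt_or_eq with h | h
          · nlinarith
          · rw [h] at e2; linarith
        · rw [q1, q2] at e2; linarith
      intro l l' e
      rcases lt_trichotomy l l' with h | h | h
      exacts [(key _ _ h e).elim, h, (key _ _ h e.symm).elim]
    · intro l
      obtain ⟨a1, a2⟩ := (hg t).2 l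
      obtain ⟨b1, b2⟩ := (hg' t).2 l
      have d0 : 0 ≤ δ t l := by
        have : (0 : ℝ) ≤ 1 - t := by linarith
        simp only [δ]; positivity
      have d1 : δ t l ≤ g.η := by
        have p1 : ((l : ℕ) : ℝ) / g.N ≤ 1 :=
          div_le_one_of_le₀ (Nat.cast_le.2 l.2.le) (Nat.cast_nonneg _)
        have p2 : (t : ℝ) * (1 - t) ≤ 1 := by nlinarith
        have p3 : (0 : ℝ) ≤ t * (1 - t) := mul_nonneg t0 (by linarith)
        calc δ t l ≤ g.η * 1 * 1 := by simp only [δ]; gcongr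
          _ = _ := by ring
      have r20 : ramp 2 s ≤ ramp 0 s := by
        rcases q1 with q1 | q1
        · rcases q2 with q2 | q2 <;> linarith
        · linarith
      refine (Complex.norm_le_abs_re_add_abs_im _).trans_lt ?_
      rw [Γre, Γim]
      simp only at a1 a2 b1 b2 ⊢
      have u1 : |(1 - ramp 1 s) * (H t (g.a l)).re + ramp 1 s * (H' t (g.a l)).re| ≤
          max |(H t (g.a l)).re| |(H' t (g.a l)).re| := by
        refine (abs_add_le _ _).trans ?_
        rw [abs_mul, abs_mul, abs_of_nonneg r1, abs_of_nonneg (by linarith : 0 ≤ 1 - ramp 1 s)]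
        nlinarith [le_max_left |(H t (g.a l)).re| |(H' t (g.a l)).re|,
          le_max_right |(H t (g.a l)).re| |(H' t (g.a l)).re|]
      have u2 : |(1 - ramp 0 s) * (H t (g.a l)).im + ramp 2 s * (H' t (g.a l)).im -
          (ramp 0 s - ramp 2 s) * δ t l| ≤ g.η := by
        rw [abs_le] at a2 b2 ⊢
        constructor <;> nlinarith [a2.1, a2.2, b2.1, b2.2]
      rcases le_max_iff.1 u1 with h | h <;> linarith
  have hΓ : Continuous Γ := continuous_pi fun l => by
    have c1 : Continuous fun p : I × I => H p.1 (g.a l) := hH.cont continuous_fst continuous_const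
    have c2 : Continuous fun p : I × I => H' p.1 (g.a l) := hH'.cont continuous_fst continuous_const
    have c3 := Complex.continuous_re.comp c1
    have c4 := Complex.continuous_re.comp c2
    have c5 := Complex.continuous_im.comp c1
    have c6 := Complex.continuous_im.comp c2
    have c7 : Continuous fun p : I × I => δ p.1 l := by simp only [δ]; fun_prop
    have c8 : ∀ k, Continuous fun p : I × I => ramp k p.2 := fun k => by fun_prop
    exact (Complex.continuous_ofReal.comp (((continuous_const.sub (c8 1)).mul c3).add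
      ((c8 1).mul c4))).add ((Complex.continuous_ofReal.comp
      ((((continuous_const.sub (c8 0)).mul c5).add ((c8 2).mul c6)).sub
        (((c8 0).sub (c8 2)).mul c7))).mul continuous_const)
  obtain ⟨hh, K, f1, f2, f3⟩ := transport (c := fun l : Fin g.N => (g.a l : ℂ)) hH hH' hm hm'
    (h0.trans h0'.symm) hΓ hc
    (fun t l => Complex.ext (by rw [Γre, ramp_zero (by simp)]; simp)
      (by rw [Γim, ramp_zero (by simp), ramp_zero (by simp)]; simp))
    (fun t l => Complex.ext (by rw [Γre, ramp_one (by norm_num)]; simp)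
      (by rw [Γim, ramp_one (by norm_num), ramp_one (by norm_num)]; simp))
    (fun s => by rw [side 0 (Or.inl rfl), side 0 (Or.inl rfl)])
    (fun s => by rw [side 1 (Or.inr rfl), side 1 (Or.inr rfl)])
  have sub : Hfix g.R (fun l : Fin g.N => (g.a l : ℂ)) ≤ g.Hp := fun h hh =>
    ⟨fun z hz => hh z (Or.inl hz), fun z => ⟨fun ⟨j, hj, e⟩ =>
      ⟨j, hj, h.injective (by rw [← e]; exact hh _ (Or.inr ⟨⟨j, hj⟩, rfl⟩))⟩,
      fun ⟨j, hj, e⟩ => ⟨j, hj, by rw [← e]; exact (hh _ (Or.inr ⟨⟨j, hj⟩, rfl⟩)).symm⟩⟩⟩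
  have := cls_eq_of_family (K := g.Hp) ((IsFamily.const (H 1)).mul f1)
    (fun t => mul_mem k1 (sub (K t).2))
  simpa [f2, f3] using this

/-- The classes of the half twists. -/
noncomputable def sig (i : ℕ) : g.Hp ⧸ isotopicToId g.Hp := cls g.Hp (g.tw i π)

theorem good_three {i j : ℕ} (hi : i + 1 < g.N) (hj : j + 1 < g.N)
    (h1 : ∀ l l', Equiv.swap i (i + 1) l = j + 1 → Equiv.swap i (i + 1) l' = j → l' < l)
    (h2 : ∀ l l', Equiv.swap j (j + 1) (Equiv.swap i (i + 1) l) = i + 1 →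
      Equiv.swap j (j + 1) (Equiv.swap i (i + 1) l') = i → l' < l) (t : I) :
    g.Good fun l => (g.tw i (π * ramp 2 t) * g.tw j (π * ramp 1 t) * g.tw i (π * ramp 0 t))
      (g.a l) := by
  have z : ∀ i, g.tw i (π * 0) = 1 := fun i => by rw [mul_zero]; exact rot_zero _ _
  have b0 : ∀ k, 0 ≤ π * ramp k t := fun k => mul_nonneg pi_pos.le (ramp_nonneg _ _)
  have b1 : ∀ k, π * ramp k t ≤ π := fun k => mul_le_of_le_one_right pi_pos.le (ramp_le _ _)
  have sw : ∀ i, i + 1 < g.N → ∀ l < g.N, Equiv.swap i (i + 1) l < g.N := fun i hi l hl => by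
    rw [Equiv.swap_apply_def]; split_ifs <;> omega
  rcases le_total (3 * (t : ℝ)) 1 with h | h
  · rw [ramp_zero (k := 2) (by linarith), ramp_zero h, z, z, one_mul, one_mul]
    exact g.good_tw hi (b0 0) (b1 0) (p := id) Function.injective_id (fun _ h => h)
      (fun l l' a b => by simp only [id] at a b; omega)
  rw [ramp_one (k := 0) (by linarith), mul_one]
  rcases le_total (3 * (t : ℝ)) 2 with h' | h'
  · rw [ramp_zero h', z, one_mul]
    simp only [Homeomorph.mul_apply, tw_pi]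
    exact g.good_tw hj (b0 1) (b1 1) (Equiv.injective _) (sw i hi) h1
  · rw [ramp_one (k := 1) (by linarith), mul_one]
    simp only [Homeomorph.mul_apply, tw_pi]
    exact g.good_tw hi (b0 2) (b1 2) (p := fun l => Equiv.swap j (j + 1) (Equiv.swap i (i + 1) l))
      ((Equiv.injective _).comp (Equiv.injective _)) (fun l hl => sw j hj _ (sw i hi l hl)) h2

theorem braidRel_sig : BraidRel g.sig 0 (g.N - 1) := by
  constructor
  · intro i _ h
    have hi : i + 1 < g.N := by omega
    have hj : i + 1 + 1 < g.N := by omega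
    have m1 := g.tw_Hp hi
    have m2 := g.tw_Hp hj
    have fam : ∀ i j, IsFamily fun t =>
        g.tw i (π * ramp 2 t) * g.tw j (π * ramp 1 t) * g.tw i (π * ramp 0 t) := fun i j =>
      ((g.tw_family i (continuous_const.mul (continuous_ramp 2))).mul
        (g.tw_family j (continuous_const.mul (continuous_ramp 1)))).mul
        (g.tw_family i (continuous_const.mul (continuous_ramp 0)))
    have z : ∀ i, g.tw i 0 = 1 := fun i => rot_zero _ _
    have r0 : ∀ k : ℝ, 0 ≤ k → ramp k 0 = 0 := fun k hk => ramp_zero (by simpa using hk)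
    have r1 : ∀ k : ℝ, k ≤ 2 → ramp k 1 = 1 := fun k hk => ramp_one (by simp; linarith)
    have := g.cls_eq_of_good (fam i (i + 1)) (fam (i + 1) i)
      (fun t => mul_mem (mul_mem (g.tw_mem hi _) (g.tw_mem hj _)) (g.tw_mem hi _))
      (fun t => mul_mem (mul_mem (g.tw_mem hj _) (g.tw_mem hi _)) (g.tw_mem hj _))
      (by simp [r0, z]) (by simp [r0, z])
      (g.good_three hi hj (fun l l' => by
          simp only [Equiv.swap_apply_def]; split_ifs <;> omega)
        (fun l l' => by simp only [Equiv.swap_apply_def]; split_ifs <;> omega))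
      (g.good_three hj hi (fun l l' => by
          simp only [Equiv.swap_apply_def]; split_ifs <;> omega)
        (fun l l' => by simp only [Equiv.swap_apply_def]; split_ifs <;> omega))
      (fun l => by
        simp only [r1 2 le_rfl, r1 1 (by norm_num), r1 0 (by norm_num), mul_one,
          Homeomorph.mul_apply, tw_pi]
        congr 2
        simp only [Equiv.swap_apply_def]; split_ifs <;> omega)
      (fun l => by
        simp only [r1 2 le_rfl, r1 1 (by norm_num), r1 0 (by norm_num), mul_one,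
          Homeomorph.mul_apply, tw_pi, Complex.ofReal_im])
      ((g.rad_pos 0).trans_le (g.gap 0))
      (by simpa [r1] using mul_mem (mul_mem m1 m2) m1)
    simp only [r1 2 le_rfl, r1 1 (by norm_num), r1 0 (by norm_num), mul_one] at this
    rwa [cls_mul (mul_mem m1 m2) m1, cls_mul m1 m2, cls_mul (mul_mem m2 m1) m2,
      cls_mul m2 m1] at this
  · intro i j _ h1 h2
    have m1 := g.tw_Hp (show i + 1 < g.N by omega)
    have m2 := g.tw_Hp (show j + 1 < g.N by omega)
    have : Commute (g.tw i π) (g.tw j π) := rot_commute (g.zero i) (g.zero j) (by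
      rw [← Complex.ofReal_sub, Complex.norm_real]
      refine le_abs.2 (Or.inr ?_)
      have := g.far i j h1
      unfold mid; linarith) _ _
    show cls _ _ * cls _ _ = cls _ _ * cls _ _
    rw [← cls_mul m1 m2, ← cls_mul m2 m1, this.eq]

end Geo

end Pool.Agent.MP_6eaae3_al
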