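import Pool.Agent.MP_6eaae3_al.Base

/-! Every Artin group all of whose triangles have labels `2, 2, m` embeds in the mapping class
group of a surface. -/

namespace Pool.Agent.MP_6eaae3_al.Triangles22mOld

open Pool.Agent.MP_6eaae3_al

/-- There is an injective homomorphism from `G` to `H`. -/
def Embeds (G H : Type) [Group G] [Group H] : Prop := ∃ φ : G →* H, Function.Injective φ

theorem result {V : Type} [Finite V] (m : V → V → ℕ) (symm : ∀ s t, m s t = m t s)
    (ne_one : ∀ s t, s ≠ t → m s t ≠ 1)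
    (tri : ∀ r s t, r ≠ s → s ≠ t → r ≠ t → 3 ≤ m s r → 3 ≤ m s t → m r t = 0) :
    ∃ (ι : Type) (_ : Finite ι) (g : ι × Fin 4 → ι × Fin 4) (Z : Set ι), Function.Involutive g ∧
      ConnectedSpace (Sq g) ∧ (bd g).Nonempty ∧
      Embeds (PresentedGroup (artinRels m)) (MCG {x : Sq g // x ∉ ctr g Z} {x | x.1 ∈ bd g}) :=
  (Dc.all symm ne_one tri (dc_vertex symm ne_one) (fun _ _ => dc_edge symm ne_one) _ _ _).embed

end Pool.Agent.MP_6eaae3_al.Triangles22mOld
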